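import Pool.Agent.Lib.MP_7c08ba_nt.DH.Defs

/-!
Statements of the modules. One module = one file `DH/<Name>.lean` proving `theorem st<Name> : St<Name>`
(with the listed earlier statements as hypotheses). Never change this file.
-/

namespace BKDH

open MeasureTheory BKGen NumberField
open scoped IntermediateField

noncomputable section

/-! ### Counting points -/

/-- Lattice points of a residue class in a large homothetic copy of a compact set. -/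
def StCompact : Prop :=
  ∀ K : Set (Fin 4 → ℝ), IsCompact K → ∀ M : ℕ, 0 < M → ∀ (r : Fin 4 → ℤ) (ε : ℝ), 0 < ε →
    ∃ t₀ : ℝ, 0 < t₀ ∧ ∀ t : ℝ, t₀ ≤ t →
      {z : Fin 4 → ℤ | (∀ i, (M : ℤ) ∣ z i - r i) ∧ (fun i => (z i : ℝ) / t) ∈ K}.Finite ∧
      ({z : Fin 4 → ℤ | (∀ i, (M : ℤ) ∣ z i - r i) ∧ (fun i => (z i : ℝ) / t) ∈ K}.ncard : ℝ) ≤
        ((volume K).toReal / M ^ 4 + ε) * t ^ 4

/-- Every form with positive definite Hessian is in the image of the parametrisation. -/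
def StParam : Prop :=
  ∀ v : Fin 4 → ℝ, 0 < HA v → 0 < HD v → ∃ u : Fin 4 → ℝ, 0 < u 3 ∧ Phi u = v ∧
    HA v = 4 * (u 0 ^ 2 + u 1 ^ 2) * u 3 ^ 2 ∧ HB v = -2 * u 2 * HA v ∧
    HC v = (u 2 ^ 2 + u 3 ^ 2) * HA v ∧ HD v = 64 * (u 0 ^ 2 + u 1 ^ 2) ^ 2 * u 3 ^ 6

/-- The Jacobian of the parametrisation. -/
def StJac : Prop :=
  ∀ u : Fin 4 → ℝ, ∃ L : (Fin 4 → ℝ) →L[ℝ] (Fin 4 → ℝ), HasFDerivAt Phi L u ∧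
    L.det = 64 * (u 0 ^ 2 + u 1 ^ 2) * u 3 ^ 4

/-- The integral of the Jacobian. -/
def StInt : Prop :=
  MeasurableSet Uset ∧
    ∫⁻ u in Uset, ENNReal.ofReal (64 * (u 0 ^ 2 + u 1 ^ 2) * u 3 ^ 4) ≤
      ENNReal.ofReal (Real.pi ^ 2 / 6)

/-- The volume of the truncated region (from `StParam`, `StJac`, `StInt`). -/
def StVol : Prop :=
  ∀ δ R : ℝ, 0 < δ → IsCompact (Kset δ R) ∧ (volume (Kset δ R)).toReal ≤ Real.pi ^ 2 / 6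

/-- The syzygy and the real bounds. -/
def StBdd : Prop :=
  ∀ v : Fin 4 → ℝ, |HB v| ≤ HA v → HA v ≤ HC v → 0 < HA v → v 0 ≠ 0 →
    3 * HA v ^ 2 ≤ HD v ∧ 3 * v 0 ^ 2 ≤ 4 * HA v ∧
    v 0 ^ 2 * HD v + (2 * v 1 ^ 3 - 3 * v 0 * v 1 * v 2 + v 0 ^ 2 * v 3) ^ 2 = 4 * HA v ^ 3 ∧
    (HD v ≤ 1 → ∀ δ : ℝ, 0 < δ → δ ≤ 1 → δ ≤ |v 0| → ∀ i, |v i| ≤ 3 / δ ^ 2)

/-- The cusp (from `StBdd`). -/
def StCusp : Prop :=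
  ∃ C : ℝ, 0 < C ∧ ∀ η t : ℝ, 0 < η → η ≤ 1 → 1 ≤ t →
    {v : Fin 4 → ℤ | Red v ∧ ((HD v : ℤ) : ℝ) ≤ t ^ 4 ∧ |((v 0 : ℤ) : ℝ)| ≤ η ^ 2 * t}.Finite ∧
    ({v : Fin 4 → ℤ | Red v ∧ ((HD v : ℤ) : ℝ) ≤ t ^ 4 ∧
      |((v 0 : ℤ) : ℝ)| ≤ η ^ 2 * t}.ncard : ℝ) ≤ C * (η * t ^ 4 + t ^ 3)

/-- Counting in a set of residue classes (from `StCompact`, `StVol`, `StBdd`, `StCusp`). -/
def StUp : Prop :=
  (∀ X : ℝ, {v : Fin 4 → ℤ | Red v ∧ ((HD v : ℤ) : ℝ) ≤ X}.Finite) ∧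
  ∀ M : ℕ, 0 < M → ∀ S : Finset (Fin 4 → ZMod M), ∀ ε : ℝ, 0 < ε →
    ∃ X₀ : ℕ, ∀ X : ℕ, X₀ ≤ X →
      ({v : Fin 4 → ℤ | Red v ∧ HD v ≤ (X : ℤ) ∧ red M v ∈ S}.ncard : ℝ) ≤
        (Real.pi ^ 2 / 6 * (S.card : ℝ) / M ^ 4 + ε) * X

/-! ### Local densities -/

def StDTwo : Prop :=
  ∃ S : Finset (Fin 4 → ZMod 4), S.card ≤ 144 ∧ ∀ v : Fin 4 → ℤ, F2 (HD v) → red 4 v ∈ S

def StDA : Prop :=
  ∃ S : Finset (Fin 4 → ZMod 9), S.card ≤ 648 ∧ ∀ v : Fin 4 → ℤ, TypeA v → red 9 v ∈ S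

def StDB : Prop :=
  ∃ S : Finset (Fin 4 → ZMod 27), S.card ≤ 11664 ∧ ∀ v : Fin 4 → ℤ, TypeB v → red 27 v ∈ S

def StDP : Prop :=
  ∀ p : ℕ, p.Prime → 5 ≤ p → ∃ S : Finset (Fin 4 → ZMod (p ^ 2)),
    S.card ≤ p ^ 4 * (p ^ 2 - 1) ^ 2 ∧
    ∀ v : Fin 4 → ℤ, ¬ (p : ℤ) ^ 2 ∣ HD v → red (p ^ 2) v ∈ S

def StCRT : Prop :=
  ∀ m n : ℕ, 0 < m → 0 < n → m.Coprime n → ∀ (S : Finset (Fin 4 → ZMod m))
    (T : Finset (Fin 4 → ZMod n)), ∃ U : Finset (Fin 4 → ZMod (m * n)),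
      U.card ≤ S.card * T.card ∧
      ∀ v : Fin 4 → ℤ, red m v ∈ S → red n v ∈ T → red (m * n) v ∈ U

/-- The product of the conditions at the primes `5 ≤ p ≤ Q` (from `StDP`, `StCRT`). -/
def StProd : Prop :=
  ∀ Q : ℕ, ∃ U : Finset (Fin 4 → ZMod (∏ p ∈ primes5 Q, p ^ 2)),
    (U.card : ℝ) ≤ ∏ p ∈ primes5 Q, ((p : ℝ) ^ 8 * (1 - 1 / (p : ℝ) ^ 2) ^ 2) ∧
    ∀ v : Fin 4 → ℤ, (∀ p ∈ primes5 Q, ¬ (p : ℤ) ^ 2 ∣ HD v) →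
      red (∏ p ∈ primes5 Q, p ^ 2) v ∈ U

/-- Partial Euler products of `ζ(2)`. -/
def StEuler : Prop :=
  (∀ Q : ℕ, 9 / Real.pi ^ 2 ≤ ∏ p ∈ primes5 Q, (1 - 1 / (p : ℝ) ^ 2)) ∧
  ∀ ε : ℝ, 0 < ε → ∃ Q : ℕ, ∏ p ∈ primes5 Q, (1 - 1 / (p : ℝ) ^ 2) ≤ 9 / Real.pi ^ 2 + ε

/-- Forms of the first type (from `StUp`, `StDTwo`, `StDA`, `StCRT`, `StProd`, `StEuler`). -/
def StNA : Prop :=
  ∀ ε : ℝ, 0 < ε → ∃ X₀ : ℕ, ∀ X : ℕ, X₀ ≤ X →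
    {v : Fin 4 → ℤ | Red v ∧ TypeA v ∧ ∃ Δ : ℕ, Δ ≤ X ∧ IsFund Δ ∧ HD v = Δ}.Finite ∧
    ({v : Fin 4 → ℤ | Red v ∧ TypeA v ∧ ∃ Δ : ℕ, Δ ≤ X ∧ IsFund Δ ∧ HD v = Δ}.ncard : ℝ) ≤
      (3 / (4 * Real.pi ^ 2) + ε) * X

/-- Forms of the second type (from `StUp`, `StDTwo`, `StDB`, `StCRT`, `StProd`, `StEuler`). -/
def StNB : Prop :=
  ∀ ε : ℝ, 0 < ε → ∃ X₀ : ℕ, ∀ X : ℕ, X₀ ≤ X →
    {v : Fin 4 → ℤ | Red v ∧ TypeB v ∧ ∃ Δ : ℕ, Δ ≤ X ∧ IsFund Δ ∧ HD v = 9 * Δ}.Finite ∧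
    ({v : Fin 4 → ℤ | Red v ∧ TypeB v ∧ ∃ Δ : ℕ, Δ ≤ X ∧ IsFund Δ ∧ HD v = 9 * Δ}.ncard : ℝ) ≤
      (3 / (2 * Real.pi ^ 2) + ε) * X

/-- The number of fields (from `StEuler`). -/
def StNF : Prop :=
  ∀ ε : ℝ, 0 < ε → ∃ X₀ : ℕ, ∀ X : ℕ, X₀ ≤ X →
    (9 / (8 * Real.pi ^ 2) - ε) * X ≤ ({Δ : ℕ | Δ ≤ X ∧ IsFund Δ ∧ Δ % 3 = 2}.ncard : ℝ)

/-! ### From a bad element to a form -/

/-- From a bad element to an element of norm one. -/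
def StOne : Prop :=
  ∀ (F : Type) [Field F] [NumberField F] (Δ : ℕ) (s : F) (σ : F →+* F) (j : F →+* ℚ_[3]),
    QF F Δ s σ j → ∀ a : F, a ≠ 0 → PowAway 3 a → (∃ κ : ℚ_[3], κ ^ 3 = j a) →
      (¬ ∃ b : F, b ^ 3 = a) →
      ∃ w : F, w * σ w = 1 ∧ PowAway 3 w ∧ (¬ ∃ b : F, b ^ 3 = w) ∧
        ((∃ κ : ℚ_[3], j w = κ ^ 3) ∨ ∃ κ : ℚ_[3], j w = 3 * κ ^ 3)

/-- The lattice attached to `w`; `c = 1` or `c = 3` according to the type. -/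
def StLam : Prop :=
  ∀ (F : Type) [Field F] [NumberField F] (Δ : ℕ) (s : F) (σ : F →+* F) (j : F →+* ℚ_[3]),
    QF F Δ s σ j → ∀ (w : F) (c : ℕ), w * σ w = 1 → PowAway 3 w →
      (c = 1 ∧ (∃ κ : ℚ_[3], j w = κ ^ 3) ∨ c = 3 ∧ ∃ κ : ℚ_[3], j w = 3 * κ ^ 3) →
      ∃ Λ : Submodule ℤ F, Λ.FG ∧ (∀ r : F, IsIntegral ℤ r → ∀ x ∈ Λ, r * x ∈ Λ) ∧
        (∀ x ∈ Λ, ∀ y ∈ Λ, ∀ z ∈ Λ, IsIntegral ℤ (x * y * z / ((c : F) * w))) ∧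
        (∀ x ∈ Λ, ∀ y ∈ Λ, IsIntegral ℤ (x * σ y / (c : F))) ∧
        (c : F) ∈ Submodule.span ℤ {z : F | ∃ x ∈ Λ, ∃ y ∈ Λ, z = x * σ y}

/-- Integral elements in coordinates. -/
def StCoord : Prop :=
  ∀ (F : Type) [Field F] [NumberField F] (Δ : ℕ) (s : F) (σ : F →+* F) (j : F →+* ℚ_[3]),
    QF F Δ s σ j →
      (∀ z : F, ∃ x y : ℚ, z = x + y * s) ∧ (∀ z : F, σ (σ z) = z) ∧
      (∀ z : F, IsIntegral ℤ z → ∃ n : ℤ, z - σ z = n * s) ∧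
      (∀ z : F, IsIntegral ℤ z → σ z = z → ∃ n : ℤ, z = n) ∧
      (∃ ω : F, IsIntegral ℤ ω ∧ ω - σ ω = s) ∧ IsIntegral ℤ s ∧ s ≠ 0 ∧
      (∀ z : F, z ≠ 0 → ∃ q : ℚ, 0 < q ∧ z * σ z = q)

/-- A reduced basis of the lattice (from `StCoord`). -/
def StBasis : Prop :=
  ∀ (F : Type) [Field F] [NumberField F] (Δ : ℕ) (s : F) (σ : F →+* F) (j : F →+* ℚ_[3]),
    QF F Δ s σ j → ∀ (c : ℕ), 0 < c → ∀ Λ : Submodule ℤ F, Λ.FG →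
      (∀ r : F, IsIntegral ℤ r → ∀ x ∈ Λ, r * x ∈ Λ) →
      (∀ x ∈ Λ, ∀ y ∈ Λ, IsIntegral ℤ (x * σ y / (c : F))) →
      (c : F) ∈ Submodule.span ℤ {z : F | ∃ x ∈ Λ, ∃ y ∈ Λ, z = x * σ y} →
      ∃ α ∈ Λ, ∃ β ∈ Λ, α ≠ 0 ∧ β ≠ 0 ∧ α * σ β - σ α * β = (c : F) * s ∧
        ∃ A B C : ℤ, α * σ α = A ∧ α * σ β + σ α * β = B ∧ β * σ β = C ∧
          0 < A ∧ |B| ≤ A ∧ A ≤ C

/-- The form of a basis (from `StCoord`). The coefficients are `v i = (x - σ x) / s` for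
`x = α³/(c w)`, `α²β/(c w)`, `αβ²/(c w)`, `β³/(c w)`. -/
def StForm : Prop :=
  ∀ (F : Type) [Field F] [NumberField F] (Δ : ℕ) (s : F) (σ : F →+* F) (j : F →+* ℚ_[3]),
    QF F Δ s σ j → ∀ (w : F) (c : ℕ) (α β : F) (A B C : ℤ), (c = 1 ∨ c = 3) →
      w * σ w = 1 → (¬ ∃ b : F, b ^ 3 = w) → α ≠ 0 → β ≠ 0 →
      α * σ β - σ α * β = (c : F) * s → α * σ α = A → α * σ β + σ α * β = B → β * σ β = C →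
      0 < A → |B| ≤ A → A ≤ C →
      IsIntegral ℤ (α ^ 3 / ((c : F) * w)) → IsIntegral ℤ (α ^ 2 * β / ((c : F) * w)) →
      IsIntegral ℤ (α * β ^ 2 / ((c : F) * w)) → IsIntegral ℤ (β ^ 3 / ((c : F) * w)) →
      ∃ v : Fin 4 → ℤ, Red v ∧ v 3 ≠ 0 ∧ HD v = (c : ℤ) ^ 2 * Δ ∧
        (v 0 : F) * s = α ^ 3 / ((c : F) * w) - σ (α ^ 3 / ((c : F) * w)) ∧
        (v 1 : F) * s = α ^ 2 * β / ((c : F) * w) - σ (α ^ 2 * β / ((c : F) * w)) ∧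
        (v 2 : F) * s = α * β ^ 2 / ((c : F) * w) - σ (α * β ^ 2 / ((c : F) * w)) ∧
        (v 3 : F) * s = β ^ 3 / ((c : F) * w) - σ (β ^ 3 / ((c : F) * w))

/-- The first local type: pure `3`-adic algebra. -/
def StTA : Prop :=
  ∀ (v : Fin 4 → ℤ) (d p q r t : ℚ_[3]), ‖p‖ ≤ 1 → ‖q‖ ≤ 1 → ‖r‖ ≤ 1 → ‖t‖ ≤ 1 → ‖d‖ = 1 →
    p * t - q * r = d → HD v % 3 = 2 →
    (v 0 : ℚ_[3]) * d = p ^ 3 - r ^ 3 → (v 1 : ℚ_[3]) * d = p ^ 2 * q - r ^ 2 * t →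
    (v 2 : ℚ_[3]) * d = p * q ^ 2 - r * t ^ 2 → (v 3 : ℚ_[3]) * d = q ^ 3 - t ^ 3 → TypeA v

/-- The second local type: pure `3`-adic algebra. -/
def StTB : Prop :=
  ∀ (v : Fin 4 → ℤ) (d p q r t : ℚ_[3]), ‖p‖ ≤ 1 → ‖q‖ ≤ 1 → ‖r‖ ≤ 1 → ‖t‖ ≤ 1 → ‖d‖ = 1 →
    p * t - q * r = d →
    (v 0 : ℚ_[3]) * d = 3 * p ^ 3 - r ^ 3 → (v 1 : ℚ_[3]) * d = 3 * p ^ 2 * q - r ^ 2 * t →
    (v 2 : ℚ_[3]) * d = 3 * p * q ^ 2 - r * t ^ 2 → (v 3 : ℚ_[3]) * d = 3 * q ^ 3 - t ^ 3 →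
    TypeB v

/-- A field which is not rigid gives a form
(from `StOne`, `StLam`, `StCoord`, `StBasis`, `StForm`, `StTA`, `StTB`). -/
def StVec : Prop :=
  ∀ (F : Type) [Field F] [NumberField F] (Δ : ℕ) (s : F) (σ : F →+* F) (j : F →+* ℚ_[3]),
    QF F Δ s σ j → (∃ ι : F →+* PadicAlgCl 3, ¬ Rigid 3 F ι) →
      (∃ v : Fin 4 → ℤ, Red v ∧ v 3 ≠ 0 ∧ TypeA v ∧ HD v = Δ) ∨
      (∃ v : Fin 4 → ℤ, Red v ∧ v 3 ≠ 0 ∧ TypeB v ∧ HD v = 9 * Δ)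

/-! ### From `F` to `F(μ_3)` -/

/-- There are at most nine classes of cubes in `ℚ_3`. -/
def StCub : Prop :=
  ∃ S : Finset ℚ_[3], S.card ≤ 9 ∧ ∀ x : ℚ_[3], x ≠ 0 → ∃ c ∈ S, ∃ κ : ℚ_[3], x = c * κ ^ 3

/-- `S`-units of `F`: they represent all classes of cubes of `ℚ_3` (from `StCub`). -/
def StSU : Prop :=
  ∀ (F : Type) [Field F] [NumberField F] (Δ : ℕ) (s : F) (σ : F →+* F) (j : F →+* ℚ_[3]),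
    QF F Δ s σ j → (∀ ι : F →+* PadicAlgCl 3, Rigid 3 F ι) →
      (∀ j' : F →+* ℚ_[3], ∀ x : ℚ_[3], x ≠ 0 →
        ∃ u : F, u ≠ 0 ∧ SU3 u ∧ ∃ κ : ℚ_[3], κ ≠ 0 ∧ x = j' u * κ ^ 3) ∧
      ∃ S : Finset F, S.card ≤ 9 ∧ (∀ c ∈ S, c ≠ 0 ∧ SU3 c) ∧
        ∀ u : F, u ≠ 0 → SU3 u → ∃ c ∈ S, ∃ b : F, u = c * b ^ 3

/-- First cohomology of the `S`-units (from `StSU`). -/
def StHone : Prop :=
  ∀ (F : Type) [Field F] [NumberField F] (Δ : ℕ) (s : F) (σ : F →+* F) (j : F →+* ℚ_[3]),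
    QF F Δ s σ j → (∀ ι : F →+* PadicAlgCl 3, Rigid 3 F ι) →
    ∀ (N : Type) [Field N] [NumberField N] [Algebra F N] (g : N ≃ₐ[F] N),
      Module.finrank F N = 3 → g ≠ 1 → UnrAway F N →
      ∀ z : N, z ≠ 0 → SU3 z → z * g z * g (g z) = 1 →
        ∃ x : N, x ≠ 0 ∧ SU3 x ∧ z = g x / x

/-- The number of classes of `S`-units of `N` modulo cubes is at least `3^6`, and at least `3^8` if
`N` has six embeddings into `ℚ_3`. -/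
def StRank : Prop :=
  ∀ (F : Type) [Field F] [NumberField F] (Δ : ℕ) (s : F) (σ : F →+* F) (j : F →+* ℚ_[3]),
    QF F Δ s σ j →
    ∀ (N : Type) [Field N] [NumberField N] [Algebra F N] (g : N ≃ₐ[F] N),
      Module.finrank F N = 3 → g ≠ 1 → ∀ j₁ : N →+* ℚ_[3],
      (∃ T : Finset N, T.card = 3 ^ 6 ∧ (∀ x ∈ T, x ≠ 0 ∧ SU3 x) ∧
        ∀ x ∈ T, ∀ y ∈ T, x ≠ y → ¬ ∃ b : N, x = y * b ^ 3) ∧
      ∀ j₂ : N →+* ℚ_[3], j₂ (algebraMap F N s) ≠ j₁ (algebraMap F N s) →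
        ∃ T : Finset N, T.card = 3 ^ 8 ∧ (∀ x ∈ T, x ≠ 0 ∧ SU3 x) ∧
          ∀ x ∈ T, ∀ y ∈ T, x ≠ y → ¬ ∃ b : N, x = y * b ^ 3

/-- Pure group theory: `E` an abelian group with an automorphism `g`, `g³ = 1`, such that elements
of norm one are of the form `g x / x`, with no `3`-torsion, at most nine classes of invariant
elements modulo cubes and at least `3^6` classes in all. Then all invariant elements are norms and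
there are at most `3^6` classes. -/
def StNil : Prop :=
  ∀ (E : Type) [CommGroup E] (g : E ≃* E), (∀ x, g (g (g x)) = x) →
    (∀ z, z * g z * g (g z) = 1 → ∃ x, z = g x / x) → (∀ x : E, x ^ 3 = 1 → x = 1) →
    (∃ S : Finset E, S.card ≤ 9 ∧ ∀ u, g u = u → ∃ c ∈ S, ∃ b : E, u = c * b ^ 3) →
    (∀ T : Finset E, (∀ x ∈ T, ∀ y ∈ T, x ≠ y → ¬ ∃ b : E, x = y * b ^ 3) → T.card ≤ 3 ^ 6) ∧
    ((∃ T : Finset E, T.card = 3 ^ 6 ∧ ∀ x ∈ T, ∀ y ∈ T, x ≠ y → ¬ ∃ b : E, x = y * b ^ 3) →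
      ∀ u, g u = u → ∃ x, u = x * g x * g (g x))

/-- The local norm index theorem for cyclic cubic extensions of `ℚ_3`. -/
def StNorm : Prop :=
  ∀ (E : IntermediateField ℚ_[3] (PadicAlgCl 3)) (g : E ≃ₐ[ℚ_[3]] E),
    Module.finrank ℚ_[3] E = 3 → g ≠ 1 →
      ∃ x : ℚ_[3], x ≠ 0 ∧ ∀ y : E, y * g y * g (g y) ≠ algebraMap ℚ_[3] E x

/-- No cyclic cubic extension of a rigid `F` is unramified outside `3` and split at a place above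
`3` (from `StSU`, `StHone`, `StRank`, `StNil`, `StNorm`). -/
def StCyc : Prop :=
  ∀ (F : Type) [Field F] [NumberField F] (Δ : ℕ) (s : F) (σ : F →+* F) (j : F →+* ℚ_[3]),
    QF F Δ s σ j → (∀ ι : F →+* PadicAlgCl 3, Rigid 3 F ι) →
    ∀ (N : Type) [Field N] [NumberField N] [Algebra F N] (g : N ≃ₐ[F] N),
      Module.finrank F N = 3 → g ≠ 1 → UnrAway F N → (∃ _ : N →+* ℚ_[3], True) → False

/-- An element `y` of `K = F(√-3)` with `τ y = y⁻¹`, a cube outside `3` and at `ι`, is a cube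
(from `StCyc`). -/
def StMinus : Prop :=
  ∀ (K : Type) [Field K] [NumberField K] (Δ : ℕ) (s t : K), IsFund Δ → Δ % 3 = 2 →
    s ^ 2 = -(Δ : K) → t ^ 2 = -3 → Module.finrank ℚ K = 4 →
    (∀ ι : ℚ⟮s⟯ →+* PadicAlgCl 3, Rigid 3 ℚ⟮s⟯ ι) →
    ∀ (ι : K →+* PadicAlgCl 3) (τ : K →+* K), τ s = s → τ t = -t →
      ∀ y : K, y ≠ 0 → τ y = y⁻¹ → PowAway 3 y → PowAt 3 ι y → ∃ b : K, b ^ 3 = y

/-- From `F` to `K = F(√-3)` (from `StMinus`). -/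
def StUpK : Prop :=
  ∀ (K : Type) [Field K] [NumberField K] (Δ : ℕ) (s t : K), IsFund Δ → Δ % 3 = 2 →
    s ^ 2 = -(Δ : K) → t ^ 2 = -3 → Module.finrank ℚ K = 4 →
    (∀ ι : ℚ⟮s⟯ →+* PadicAlgCl 3, Rigid 3 ℚ⟮s⟯ ι) → ∀ ι : K →+* PadicAlgCl 3, Rigid 3 K ι

/-- The embedding into `ℚ_3` and complex conjugation (elementary). -/
def StQF : Prop :=
  ∀ (F : Type) [Field F] [NumberField F] (Δ : ℕ) (s : F), IsFund Δ → Δ % 3 = 2 →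
    s ^ 2 = -(Δ : F) → Module.finrank ℚ F = 2 →
    ∃ (σ : F →+* F) (j : F →+* ℚ_[3]), QF F Δ s σ j

/-! ### The density theorem -/

/-- The number of fields which are not rigid (from `StVec`, `StUpK`, `StQF`). -/
def StBad : Prop :=
  ∀ X : ℕ,
    {v : Fin 4 → ℤ | Red v ∧ TypeA v ∧ ∃ Δ : ℕ, Δ ≤ X ∧ IsFund Δ ∧ HD v = Δ}.Finite →
    {v : Fin 4 → ℤ | Red v ∧ TypeB v ∧ ∃ Δ : ℕ, Δ ≤ X ∧ IsFund Δ ∧ HD v = 9 * Δ}.Finite →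
    4 * {Δ : ℕ | Δ ≤ X ∧ IsFund Δ ∧ Δ % 3 = 2 ∧ ¬ RigidAll Δ}.ncard ≤
      {v : Fin 4 → ℤ | Red v ∧ TypeA v ∧ ∃ Δ : ℕ, Δ ≤ X ∧ IsFund Δ ∧ HD v = Δ}.ncard +
      {v : Fin 4 → ℤ | Red v ∧ TypeB v ∧ ∃ Δ : ℕ, Δ ≤ X ∧ IsFund Δ ∧ HD v = 9 * Δ}.ncard

/-- At least half of the fields are rigid (from `StNA`, `StNB`, `StNF`, `StBad`). -/
def StHalf : Prop :=
  ∀ ε : ℝ, 0 < ε → ∃ X₀ : ℕ, ∀ X : ℕ, X₀ ≤ X →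
    (1 / 2 - ε) * ({Δ : ℕ | Δ ≤ X ∧ IsFund Δ ∧ Δ % 3 = 2}.ncard : ℝ) ≤
      ({Δ : ℕ | Δ ≤ X ∧ IsFund Δ ∧ Δ % 3 = 2 ∧ RigidAll Δ}.ncard : ℝ)

end

end BKDH
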