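import Mathlib
import Pool.Agent.Lib.MP_7c08ba_nt.DH.Stmts

/-!
Module Cub: classes of cubes in `ℚ_3`.
-/

set_option autoImplicit false

open Polynomial

namespace BKDH

namespace Cub

/-- `1 + 9 w` is a cube -/
theorem one_add_nine (w : ℤ_[3]) : ∃ z : ℤ_[3], z ^ 3 = 1 + 9 * w := by
  have h27 : ‖(27 : ℤ_[3])‖ = 1 / 27 := by
    have h : ‖((3 : ℕ) : ℤ_[3])‖ = (3 : ℝ)⁻¹ := by
      rw [PadicInt.norm_p]; norm_num
    have e : (27 : ℤ_[3]) = ((3 : ℕ) : ℤ_[3]) ^ 3 := by norm_num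
    rw [e, norm_pow, h]
    norm_num
  have h3 : ‖(3 : ℤ_[3])‖ = 1 / 3 := by
    have h : ‖((3 : ℕ) : ℤ_[3])‖ = (3 : ℝ)⁻¹ := by
      rw [PadicInt.norm_p]; norm_num
    have e : (3 : ℤ_[3]) = ((3 : ℕ) : ℤ_[3]) := by norm_num
    rw [e, h]
    norm_num
  have hu : ‖(1 + 3 * w : ℤ_[3])‖ = 1 := by
    have h1 : ‖(3 * w : ℤ_[3])‖ < 1 := by
      rw [norm_mul, h3]
      have := PadicInt.norm_le_one w
      linarith
    have h2 : ‖(1 : ℤ_[3])‖ ≠ ‖(3 * w : ℤ_[3])‖ := by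
      rw [norm_one]; exact h1.ne'
    rw [PadicInt.norm_add_eq_max_of_ne h2, norm_one]
    exact max_eq_left h1.le
  obtain ⟨z, hz, -⟩ := hensels_lemma (p := 3) (F := (X ^ 3 - C (1 + 9 * w) : ℤ_[3][X]))
    (a := 1 + 3 * w) (by
      have e1 : aeval (1 + 3 * w) (X ^ 3 - C (1 + 9 * w) : ℤ_[3][X]) =
          27 * (w ^ 2 + w ^ 3) := by
        simp
        ring
      have e2 : aeval (1 + 3 * w) (derivative (X ^ 3 - C (1 + 9 * w) : ℤ_[3][X])) =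
          3 * (1 + 3 * w) ^ 2 := by
        simp
        left
        norm_num
      rw [e1, e2, norm_mul, norm_mul, norm_pow, hu, h27, h3]
      have := PadicInt.norm_le_one (w ^ 2 + w ^ 3)
      norm_num
      linarith)
  refine ⟨z, ?_⟩
  have h : z ^ 3 - (1 + 9 * w) = 0 := by simpa using hz
  exact sub_eq_zero.1 h

theorem residues : ∀ r s : ZMod 9, r * s = 1 →
    ∃ d : Fin 3, r * (![1, 5, 7] d : ZMod 9) = 1 ∨ r * (![1, 5, 7] d : ZMod 9) = -1 := by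
  decide

/-- the representatives of the inverse classes of units -/
def rep : Fin 3 → ℕ := ![1, 5, 7]

theorem rep_cast (d : Fin 3) : ((rep d : ℕ) : ZMod 9) = (![1, 5, 7] d : ZMod 9) := by
  fin_cases d <;> rfl

/-- units of `ℤ_3` are, up to cubes, inverses of `1`, `5`, `7` -/
theorem unit_class (u v : ℤ_[3]) (huv : u * v = 1) : ∃ (d : Fin 3) (z : ℤ_[3]),
    u * (rep d : ℤ_[3]) = z ^ 3 := by
  let φ : ℤ_[3] →+* ZMod (3 ^ 2) := PadicInt.toZModPow 2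
  have h1 : φ u * φ v = 1 := by rw [← map_mul, huv, map_one]
  obtain ⟨d, hd⟩ := residues (φ u) (φ v) h1
  have key : ∀ y : ℤ_[3], φ y = 1 → ∃ z : ℤ_[3], z ^ 3 = y := by
    intro y hy
    have h2 : y - 1 ∈ RingHom.ker (PadicInt.toZModPow (p := 3) 2) := by
      rw [RingHom.mem_ker, map_sub, map_one]
      exact sub_eq_zero.2 hy
    rw [PadicInt.ker_toZModPow, Ideal.mem_span_singleton] at h2
    obtain ⟨w, hw⟩ := h2
    obtain ⟨z, hz⟩ := one_add_nine w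
    refine ⟨z, ?_⟩
    rw [hz]
    have h3 : y = 1 + ((3 : ℕ) : ℤ_[3]) ^ 2 * w := by
      rw [← hw]; ring
    rw [h3]
    norm_num
  have hrep : φ ((rep d : ℕ) : ℤ_[3]) = (![1, 5, 7] d : ZMod 9) := by
    rw [map_natCast]
    exact rep_cast d
  rcases hd with hd | hd
  · obtain ⟨z, hz⟩ := key (u * (rep d : ℤ_[3])) (by rw [map_mul, hrep]; exact hd)
    exact ⟨d, z, hz.symm⟩
  · obtain ⟨z, hz⟩ := key (-(u * (rep d : ℤ_[3]))) (by
      rw [map_neg, map_mul, hrep]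
      rw [hd]
      exact neg_neg _)
    exact ⟨d, -z, by rw [Odd.neg_pow (by decide), hz, neg_neg]⟩

end Cub

open Cub in
/-- Module Cub. -/
theorem stCub : StCub := by
  classical
  refine ⟨((Finset.univ : Finset (Fin 3)) ×ˢ (Finset.univ : Finset (Fin 3))).image
    (fun q => (3 : ℚ_[3]) ^ (q.1 : ℕ) * ((rep q.2 : ℕ) : ℚ_[3])⁻¹), ?_, ?_⟩
  · refine Finset.card_image_le.trans ?_
    simp
  · intro x hx
    have h3 : (3 : ℚ_[3]) ≠ 0 := by norm_num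
    set n := x.valuation with hn
    have hu : ‖x * (3 : ℚ_[3]) ^ (-n)‖ = 1 := by
      have e : (3 : ℚ_[3]) = ((3 : ℕ) : ℚ_[3]) := by norm_num
      rw [norm_mul, Padic.norm_eq_zpow_neg_valuation hx, e, Padic.norm_p_zpow, neg_neg, ← hn,
        ← zpow_add₀ (by norm_num), neg_add_cancel, zpow_zero]
    let u : ℤ_[3] := ⟨x * (3 : ℚ_[3]) ^ (-n), hu.le⟩
    have huu : IsUnit u := PadicInt.isUnit_iff.2 hu
    obtain ⟨v, hv⟩ := huu.exists_right_inv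
    obtain ⟨d, z, hz⟩ := unit_class u v hv
    have hrep0 : ((rep d : ℕ) : ℚ_[3]) ≠ 0 := by
      rw [Nat.cast_ne_zero]
      fin_cases d <;> decide
    have hx1 : x * (3 : ℚ_[3]) ^ (-n) * ((rep d : ℕ) : ℚ_[3]) = (z : ℚ_[3]) ^ 3 := by
      have h4 : ((u * (rep d : ℤ_[3]) : ℤ_[3]) : ℚ_[3]) = ((z ^ 3 : ℤ_[3]) : ℚ_[3]) := by rw [hz]
      rw [PadicInt.coe_mul, PadicInt.coe_pow, PadicInt.coe_natCast] at h4
      exact h4
    -- the power of three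
    obtain ⟨i, k, hik⟩ : ∃ (i : Fin 3) (k : ℤ), n = 3 * k + ((i : ℕ) : ℤ) := by
      refine ⟨⟨(n % 3).toNat, by omega⟩, n / 3, ?_⟩
      simp only
      omega
    refine ⟨(3 : ℚ_[3]) ^ (i : ℕ) * ((rep d : ℕ) : ℚ_[3])⁻¹, ?_, (3 : ℚ_[3]) ^ k * z, ?_⟩
    · rw [Finset.mem_image]
      exact ⟨(i, d), by simp, rfl⟩
    · have e1 : (3 : ℚ_[3]) ^ n = (3 : ℚ_[3]) ^ (i : ℕ) * ((3 : ℚ_[3]) ^ k) ^ 3 := by
        rw [hik, zpow_add₀ h3, zpow_natCast, mul_comm (3 : ℤ) k, zpow_mul, mul_comm]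
        norm_cast
      have e2 : x = (3 : ℚ_[3]) ^ n * (x * (3 : ℚ_[3]) ^ (-n)) := by
        rw [mul_left_comm, ← zpow_add₀ h3, add_neg_cancel, zpow_zero, mul_one]
      have e3 : x * (3 : ℚ_[3]) ^ (-n) = (z : ℚ_[3]) ^ 3 * ((rep d : ℕ) : ℚ_[3])⁻¹ := by
        rw [← hx1, mul_assoc (x * _), mul_inv_cancel₀ hrep0, mul_one]
      conv_lhs => rw [e2, e3, e1]
      ring

end BKDH
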