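import Pool.Agent.Lib.MP_7c08ba_nt.DH.Stmts
import Pool.Agent.Lib.MP_7c08ba_nt.Gen.RT.Emb
import Pool.Agent.Lib.MP_7c08ba_nt.Gen.RT.Quad

/-!
The lattice attached to an element of norm one: the cube root of an ideal.
-/

namespace BKDH
namespace LamW

open NumberField UniqueFactorizationMonoid BKGen BKGen.RT

/-- an ideal all of whose exponents are divisible by three is a cube -/
theorem cube_root {R : Type*} [CommRing R] [IsDedekindDomain R] (I : Ideal R)
    (hI : I ≠ ⊥) (h : ∀ q : Ideal R, q.IsPrime → q ≠ ⊥ → 3 ∣ multiplicity q I) :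
    ∃ B : Ideal R, I = B ^ 3 := by
  classical
  set M := normalizedFactors I with hM
  have hMp : ∀ q ∈ M, Prime q := fun q hq => prime_of_normalized_factor q hq
  have hprod : I = M.prod := by
    have := prod_normalizedFactors hI
    exact (associated_iff_eq.1 this).symm
  set N : Multiset (Ideal R) := ∑ q ∈ M.toFinset, (M.count q / 3) • {q} with hN
  have hN1 : M = 3 • N := by
    rw [hN, Finset.smul_sum]
    conv_lhs => rw [← Multiset.toFinset_sum_count_nsmul_eq M]
    refine Finset.sum_congr rfl fun q hq => ?_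
    rw [Multiset.mem_toFinset] at hq
    have hqp := hMp q hq
    have h3 := h q (Ideal.isPrime_of_prime hqp) hqp.ne_zero
    have h4 : M.count q = multiplicity q I := by
      rw [hM, multiplicity_eq_count_normalizedFactors hqp.irreducible hI, normalize_eq]
    rw [smul_smul, h4, Nat.mul_div_cancel' h3]
  refine ⟨N.prod, ?_⟩
  rw [← Multiset.prod_nsmul, ← hN1]
  exact hprod

variable {F : Type} [Field F] [NumberField F] {Δ : ℕ} {s : F} {σ : F →+* F} {j : F →+* ℚ_[3]}

theorem delta_pos (h : QF F Δ s σ j) : 0 < Δ := by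
  have := h.mod3
  omega

theorem s_not_rat (h : QF F Δ s σ j) (q : ℚ) : (q : F) ≠ s := by
  intro hq
  have h1 := h.s2
  rw [← hq] at h1
  have h2 : (((q ^ 2 + Δ : ℚ)) : F) = 0 := by
    push_cast
    rw [h1]
    ring
  have h3 : q ^ 2 + (Δ : ℚ) = 0 := by exact_mod_cast h2
  have h4 : (0 : ℚ) < Δ := by exact_mod_cast delta_pos h
  nlinarith [sq_nonneg q]

theorem span_one_s (h : QF F Δ s σ j) (z : F) : ∃ x y : ℚ, z = x + y * s := by
  have hli : LinearIndependent ℚ ![(1 : F), s] := by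
    rw [LinearIndependent.pair_iff]
    intro a b hab
    rw [Rat.smul_def, Rat.smul_def, mul_one] at hab
    have hb : b = 0 := by
      by_contra hb
      apply s_not_rat h (-a / b)
      have hb' : (b : F) ≠ 0 := by exact_mod_cast hb
      push_cast
      rw [div_eq_iff hb']
      linear_combination -hab
    subst hb
    refine ⟨?_, rfl⟩
    have : (a : F) = 0 := by simpa using hab
    exact_mod_cast this
  let b := basisOfLinearIndependentOfCardEqFinrank hli (by simp [h.deg])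
  have hb : ⇑b = ![(1 : F), s] := coe_basisOfLinearIndependentOfCardEqFinrank hli _
  refine ⟨b.repr z 0, b.repr z 1, ?_⟩
  have h1 := b.sum_repr z
  rw [Fin.sum_univ_two, hb] at h1
  simp only [Matrix.cons_val_zero, Matrix.cons_val_one, Rat.smul_def, mul_one] at h1
  exact h1.symm

theorem hom_ext (h : QF F Δ s σ j) {E : Type*} [Field E] [CharZero E] {f g : F →+* E}
    (hfg : f s = g s) : f = g := by
  ext z
  obtain ⟨x, y, rfl⟩ := span_one_s h z
  simp [hfg]

/-- the embedding of `ℚ_3` in its algebraic closure -/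
noncomputable abbrev al : ℚ_[3] →+* PadicAlgCl 3 := algebraMap ℚ_[3] (PadicAlgCl 3)

theorem norm_al (x : ℚ_[3]) : ‖al x‖ = ‖x‖ := PadicAlgCl.norm_extends 3 x

theorem emb_cases (h : QF F Δ s σ j) (i : F →+* PadicAlgCl 3) :
    i = al.comp j ∨ i = (al.comp j).comp σ := by
  have h1 : i s ^ 2 = (al (j s)) ^ 2 := by
    rw [← map_pow, ← map_pow, ← map_pow, h.s2]
    simp
  rcases sq_eq_sq_iff_eq_or_eq_neg.1 h1 with h2 | h2
  · left
    exact hom_ext h h2
  · right
    apply hom_ext h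
    rw [h2]
    simp [h.conj]

/-- the square root of `-Δ` as an integer -/
theorem s_int (h : QF F Δ s σ j) : IsIntegral ℤ s := by
  refine ⟨Polynomial.X ^ 2 + Polynomial.C (Δ : ℤ), ?_, ?_⟩
  · exact Polynomial.monic_X_pow_add_C _ (by norm_num)
  · simp [h.s2]

/-- `-Δ = 1 mod 3` -/
theorem three_dvd (h : QF F Δ s σ j) : (3 : ℤ) ∣ 1 + Δ := by
  have := h.mod3
  omega

theorem norm_three : ‖(3 : ℚ_[3])‖ = 1 / 3 := by
  have := Padic.norm_p (p := 3)
  simpa using this

theorem norm_two : ‖(2 : ℚ_[3])‖ = 1 := by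
  have := (Padic.norm_natCast_eq_one_iff (p := 3) (n := 2)).2 (by norm_num)
  simpa using this

/-- choice of the residue of `s` -/
theorem exists_n (h : QF F Δ s σ j) : ∃ n : ℤ, n ^ 2 = 1 ∧ ‖j s - n‖ < 1 ∧ ‖j s + n‖ = 1 := by
  obtain ⟨k, hk⟩ := three_dvd h
  have h1 : (j s - 1) * (j s + 1) = -3 * (k : ℚ_[3]) := by
    have h2 : j s ^ 2 = -(Δ : ℚ_[3]) := by
      rw [← map_pow, h.s2]
      simp
    have h3 : (1 + Δ : ℚ_[3]) = 3 * k := by exact_mod_cast congrArg (Int.cast : ℤ → ℚ_[3]) hk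
    linear_combination h2 - h3
  have h2 : ‖j s - 1‖ * ‖j s + 1‖ < 1 := by
    rw [← norm_mul, h1, norm_mul, norm_neg, norm_three]
    have := Padic.norm_int_le_one (p := 3) k
    linarith
  have key : ∀ n : ℤ, n ^ 2 = 1 → ‖j s - n‖ < 1 → ‖j s + n‖ = 1 := by
    intro n hn hs
    have h3 : ‖(2 * n : ℚ_[3])‖ = 1 := by
      rw [norm_mul, norm_two, one_mul]
      have h4 : ‖(n : ℚ_[3])‖ ^ 2 = 1 := by
        rw [← norm_pow]
        have : ((n : ℚ_[3])) ^ 2 = 1 := by exact_mod_cast hn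
        rw [this, norm_one]
      have h5 := norm_nonneg (n : ℚ_[3])
      nlinarith
    have h4 : j s + n = 2 * n + (j s - n) := by ring
    rw [h4, IsUltrametricDist.norm_add_eq_max_of_norm_ne_norm (by rw [h3]; exact hs.ne'), h3]
    exact max_eq_left hs.le
  by_cases h3 : ‖j s - 1‖ < 1
  · refine ⟨1, by norm_num, by simpa using h3, ?_⟩
    exact key 1 (by norm_num) (by simpa using h3)
  · have h4 : ‖j s + 1‖ < 1 := by
      push Not at h3
      by_contra h5
      push Not at h5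
      nlinarith
    refine ⟨-1, by norm_num, by simpa using h4, ?_⟩
    exact key (-1) (by norm_num) (by simpa using h4)

/-- the integer `s` -/
def sI (h : QF F Δ s σ j) : 𝓞 F := ⟨s, s_int h⟩

/-- complex conjugation on the integers -/
noncomputable abbrev cj (σ : F →+* F) : 𝓞 F →+* 𝓞 F := RingOfIntegers.mapRingHom σ

omit [NumberField F] in
theorem coe_cj (σ : F →+* F) (x : 𝓞 F) : ((cj σ x : 𝓞 F) : F) = σ (x : F) := rfl

theorem cj_sI (h : QF F Δ s σ j) : cj σ (sI h) = -sI h := by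
  apply RingOfIntegers.ext
  change σ s = -s
  exact h.conj

theorem sI_sq (h : QF F Δ s σ j) : sI h ^ 2 = -(Δ : 𝓞 F) := by
  apply RingOfIntegers.ext
  change s ^ 2 = _
  rw [h.s2]
  simp

/-- the prime of `j` -/
def PP (h : QF F Δ s σ j) (n : ℤ) : Ideal (𝓞 F) := Ideal.span {3, sI h - n}

theorem PP_mul (h : QF F Δ s σ j) {n : ℤ} (hn : n ^ 2 = 1) :
    PP h n * Ideal.map (cj σ) (PP h n) = Ideal.span {(3 : 𝓞 F)} := by
  obtain ⟨k, hk⟩ := three_dvd h
  have hn' : ((n : 𝓞 F)) ^ 2 = 1 := by exact_mod_cast hn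
  have hk' : (1 + Δ : 𝓞 F) = 3 * k := by exact_mod_cast congrArg (Int.cast : ℤ → 𝓞 F) hk
  have h0 : Ideal.map (cj σ) (PP h n) = Ideal.span {3, -sI h - n} := by
    have e1 : cj σ (3 : 𝓞 F) = 3 := map_ofNat _ 3
    have e2 : cj σ (n : 𝓞 F) = n := map_intCast _ n
    rw [PP, Ideal.map_span, Set.image_pair, map_sub, cj_sI h, e1, e2]
  rw [h0, PP, Ideal.span_pair_mul_span_pair]
  apply le_antisymm
  · rw [Ideal.span_le]
    intro x hx
    rw [SetLike.mem_coe, Ideal.mem_span_singleton]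
    simp only [Set.mem_insert_iff, Set.mem_singleton_iff] at hx
    rcases hx with rfl | rfl | rfl | rfl
    · exact Dvd.intro _ rfl
    · exact Dvd.intro _ rfl
    · exact Dvd.intro_left _ rfl
    · refine ⟨k, ?_⟩
      rw [← hk']
      linear_combination hn' - sI_sq h
  · rw [Ideal.span_singleton_le_iff_mem]
    have e : (3 : 𝓞 F) = 1 * (3 * 3) + (n : 𝓞 F) * (3 * (-sI h - n)) +
        (n : 𝓞 F) * ((sI h - n) * 3) := by
      linear_combination (6 : 𝓞 F) * hn'
    have h1 : (3 * 3 : 𝓞 F) ∈ Ideal.span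
        {(3 : 𝓞 F) * 3, 3 * (-sI h - n), (sI h - n) * 3, (sI h - n) * (-sI h - n)} :=
      Ideal.subset_span (by simp)
    have h2 : (3 * (-sI h - n) : 𝓞 F) ∈ Ideal.span
        {(3 : 𝓞 F) * 3, 3 * (-sI h - n), (sI h - n) * 3, (sI h - n) * (-sI h - n)} :=
      Ideal.subset_span (by simp)
    have h3 : ((sI h - n) * 3 : 𝓞 F) ∈ Ideal.span
        {(3 : 𝓞 F) * 3, 3 * (-sI h - n), (sI h - n) * 3, (sI h - n) * (-sI h - n)} :=
      Ideal.subset_span (by simp)
    have h4 := Ideal.add_mem _ (Ideal.add_mem _ (Ideal.mul_mem_left _ 1 h1)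
      (Ideal.mul_mem_left _ (n : 𝓞 F) h2)) (Ideal.mul_mem_left _ (n : 𝓞 F) h3)
    rwa [← e] at h4

theorem mult_mul {q : Ideal (𝓞 F)} [hq : q.IsPrime] (h0 : q ≠ ⊥) {I J : Ideal (𝓞 F)}
    (hI : I ≠ ⊥) (hJ : J ≠ ⊥) : multiplicity q (I * J) = multiplicity q I + multiplicity q J := by
  have hprime : Prime q := Ideal.prime_of_isPrime h0 hq
  exact multiplicity_mul hprime (FiniteMultiplicity.of_prime_left hprime (mul_ne_zero hI hJ))

theorem mult_zero {q I : Ideal (𝓞 F)} (h : ¬ I ≤ q) : multiplicity q I = 0 := by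
  rw [multiplicity_eq_zero, Ideal.dvd_iff_le]
  exact h

theorem three_ne : (3 : 𝓞 F) ≠ 0 := by
  have : ((3 : ℕ) : 𝓞 F) ≠ 0 := Nat.cast_ne_zero.2 (by norm_num)
  exact_mod_cast this

omit [NumberField F] in
theorem coe_int (n : ℤ) : ((n : 𝓞 F) : F) = n := map_intCast (algebraMap (𝓞 F) F) n

omit [NumberField F] in
theorem coe_three : ((3 : 𝓞 F) : F) = 3 := map_ofNat (algebraMap (𝓞 F) F) 3

/-- multiplicities and norms at a place above three -/
theorem mult_of_norm {q : Ideal (𝓞 F)} [hq : q.IsPrime] (h0 : q ≠ ⊥) (i : F →+* PadicAlgCl 3)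
    (hi : q = pr i) {y : 𝓞 F} (hy : y ≠ 0) {k : ℕ} (hk : ‖i (y : F)‖ = (1 / 3) ^ k) :
    multiplicity q (Ideal.span {y}) = k * multiplicity q (Ideal.span {(3 : 𝓞 F)}) := by
  obtain ⟨r, hr0, hr1, hr⟩ := exists_unif q h0 i hi
  have h3 : (3 : 𝓞 F) ≠ 0 := three_ne
  have e1 := hr y hy
  have e2 := hr 3 h3
  have e3 : ‖i ((3 : 𝓞 F) : F)‖ = 1 / 3 := by
    have : i ((3 : 𝓞 F) : F) = al 3 := by rw [coe_three, map_ofNat, map_ofNat]
    rw [this, norm_al, norm_three]
  rw [e3] at e2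
  rw [hk, ← pow_mul, mul_comm k, pow_mul, e2, ← pow_mul] at e1
  have e4 := pow_right_injective₀ hr0 hr1.ne e1
  rw [← e4, mul_comm]

theorem exists_nat_norm {x : ℚ_[3]} (hx : x ≠ 0) (h : ‖x‖ ≤ 1) : ∃ k : ℕ, ‖x‖ = (1 / 3) ^ k := by
  have h1 := Padic.norm_eq_zpow_neg_valuation hx
  have h2 : 0 ≤ x.valuation := (Padic.norm_le_one_iff_val_nonneg x).1 h
  obtain ⟨k, hk⟩ := Int.eq_ofNat_of_zero_le h2
  refine ⟨k, ?_⟩
  rw [h1, hk]
  simp

theorem le_one_of_lt_three {x : ℚ_[3]} (h : ‖x‖ < 3) : ‖x‖ ≤ 1 := by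
  have := (Padic.norm_le_pow_iff_norm_lt_pow_add_one x 0).2 (by simpa using h)
  simpa using this

/-- the ideal whose cube root is taken -/
theorem exists_B (h : QF F Δ s σ j) {w : F} {c : ℕ} (hw : w * σ w = 1) (hp : PowAway 3 w)
    (hc : c = 1 ∧ (∃ κ : ℚ_[3], j w = κ ^ 3) ∨ c = 3 ∧ ∃ κ : ℚ_[3], j w = 3 * κ ^ 3) :
    ∃ (m : ℤ) (a : 𝓞 F) (B Pc : Ideal (𝓞 F)), m ≠ 0 ∧ (a : F) = m ^ 3 * w ∧
      B ^ 3 = Ideal.span {(c : 𝓞 F) * a} * Pc ∧
      Pc * Ideal.map (cj σ) Pc = Ideal.span {(c : 𝓞 F)} := by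
  obtain ⟨n, hn, hn1, hn2⟩ := exists_n h
  have hw0 : w ≠ 0 := by
    rintro rfl
    simp at hw
  have halg : IsAlgebraic ℤ w :=
    (IsFractionRing.isAlgebraic_iff ℤ ℚ F).2 (Algebra.IsAlgebraic.isAlgebraic w)
  obtain ⟨m, hm0, hm⟩ := halg.exists_integral_multiple
  have hmF : (m : F) ≠ 0 := by exact_mod_cast hm0
  have hm3 : (m : ℚ_[3]) ≠ 0 := by exact_mod_cast hm0
  obtain ⟨mw, hmw⟩ : ∃ mw : 𝓞 F, (mw : F) = m • w := ⟨⟨m • w, hm⟩, rfl⟩
  set a : 𝓞 F := (m : 𝓞 F) ^ 2 * mw with ha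
  have haF : (a : F) = m ^ 3 * w := by
    have e1 : (a : F) = (((m : 𝓞 F)) : F) ^ 2 * (mw : F) := rfl
    rw [e1, coe_int, hmw, zsmul_eq_mul]
    ring
  have ha0 : a ≠ 0 := by
    rintro h0
    rw [h0] at haF
    have : (m : F) ^ 3 * w ≠ 0 := mul_ne_zero (pow_ne_zero _ hmF) hw0
    exact this (by rw [← haF]; simp)
  have hc0 : c ≠ 0 := by
    rcases hc with ⟨rfl, -⟩ | ⟨rfl, -⟩ <;> norm_num
  have hcO : (c : 𝓞 F) ≠ 0 := by exact_mod_cast hc0
  have hσw : σ w = w⁻¹ := eq_inv_of_mul_eq_one_right hw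
  -- multiplicity away from three
  have haway : PowAway 3 (a : F) := by
    intro l _ hl i
    obtain ⟨b, hb⟩ := hp l hl i
    refine ⟨m * b, ?_⟩
    rw [haF, map_mul, norm_mul, hb, map_pow, norm_pow, map_mul, norm_mul, mul_pow]
  have hsa : Ideal.span {a} ≠ (⊥ : Ideal (𝓞 F)) := by
    rw [Ne, Ideal.span_singleton_eq_bot]; exact ha0
  have hsc : Ideal.span {(c : 𝓞 F)} ≠ (⊥ : Ideal (𝓞 F)) := by
    rw [Ne, Ideal.span_singleton_eq_bot]; exact hcO
  have hs3 : Ideal.span {(3 : 𝓞 F)} ≠ (⊥ : Ideal (𝓞 F)) := by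
    rw [Ne, Ideal.span_singleton_eq_bot]; exact three_ne
  have hPP := PP_mul h hn
  have hP0 : PP h n ≠ ⊥ := by
    intro h0
    rw [h0, Ideal.bot_mul] at hPP
    exact hs3 hPP.symm
  have hP'0 : Ideal.map (cj σ) (PP h n) ≠ ⊥ := by
    intro h0
    rw [h0, Ideal.mul_bot] at hPP
    exact hs3 hPP.symm
  have hmemP : sI h - n ∈ PP h n := Ideal.subset_span (by simp)
  have hmemP' : -sI h - n ∈ Ideal.map (cj σ) (PP h n) := by
    have e1 := Ideal.mem_map_of_mem (cj σ) hmemP
    rw [map_sub, cj_sI h, map_intCast] at e1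
    exact e1
  have hin : ∀ i : F →+* PadicAlgCl 3, ‖i (a : F)‖ ≤ 1 := fun i => norm_emb_le i a
  have key : ∀ Pc : Ideal (𝓞 F), Pc ≠ ⊥ →
      (∀ q : Ideal (𝓞 F), q.IsPrime → q ≠ ⊥ →
        3 ∣ multiplicity q (Ideal.span {(c : 𝓞 F)}) + multiplicity q (Ideal.span {a}) +
          multiplicity q Pc) →
      ∃ B : Ideal (𝓞 F), B ^ 3 = Ideal.span {(c : 𝓞 F) * a} * Pc := by
    intro Pc hPc hall
    have e1 : Ideal.span {(c : 𝓞 F) * a} = Ideal.span {(c : 𝓞 F)} * Ideal.span {a} :=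
      (Ideal.span_singleton_mul_span_singleton _ _).symm
    obtain ⟨B, hB⟩ := cube_root (Ideal.span {(c : 𝓞 F) * a} * Pc)
      (by rw [e1]; exact mul_ne_zero (mul_ne_zero hsc hsa) hPc) (by
        intro q hq h0
        rw [e1, mult_mul h0 (mul_ne_zero hsc hsa) hPc, mult_mul h0 hsc hsa]
        exact hall q hq h0)
    exact ⟨B, hB.symm⟩
  rcases hc with ⟨rfl, κ, hκ⟩ | ⟨rfl, κ, hκ⟩
  · -- `c = 1`
    have hκ0 : κ ≠ 0 := by
      rintro rfl
      rw [zero_pow (by norm_num)] at hκ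
      exact hw0 ((map_eq_zero j).1 hκ)
    obtain ⟨B, hB⟩ := key ⊤ top_ne_bot (by
      intro q hq h0
      have e1 : multiplicity q (⊤ : Ideal (𝓞 F)) = 0 := mult_zero (fun hle => hq.ne_top
        (top_le_iff.1 hle))
      have e2 : multiplicity q (Ideal.span {((1 : ℕ) : 𝓞 F)}) = 0 := by
        rw [Nat.cast_one, Ideal.span_singleton_one]
        exact e1
      rw [e1, e2, zero_add, add_zero]
      by_cases h3q : (3 : 𝓞 F) ∈ q
      · have h3q' : ((3 : ℕ) : 𝓞 F) ∈ q := by exact_mod_cast h3q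
        obtain ⟨i, hi⟩ := exists_emb q h0 h3q'
        have hx : ∃ x : ℚ_[3], x ≠ 0 ∧ ‖i (a : F)‖ = ‖x‖ ^ 3 := by
          rcases emb_cases h i with rfl | rfl
          · refine ⟨m * κ, mul_ne_zero hm3 hκ0, ?_⟩
            rw [haF, RingHom.comp_apply, norm_al, map_mul, hκ, map_pow, map_intCast, ← mul_pow,
              norm_pow]
          · refine ⟨m * κ⁻¹, mul_ne_zero hm3 (inv_ne_zero hκ0), ?_⟩
            rw [haF, RingHom.comp_apply, RingHom.comp_apply, norm_al, map_mul, map_mul, hσw,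
              map_inv₀, hκ, map_pow, map_pow, map_intCast, map_intCast, ← inv_pow, ← mul_pow,
              norm_pow]
        obtain ⟨x, hx0, hx⟩ := hx
        have hx1 : ‖x‖ ≤ 1 := by
          by_contra hcon
          push Not at hcon
          have := hin i
          rw [hx] at this
          have h4 : (1 : ℝ) < ‖x‖ ^ 3 := one_lt_pow₀ hcon (by norm_num)
          linarith
        obtain ⟨k, hk⟩ := exists_nat_norm hx0 hx1
        rw [hk, ← pow_mul] at hx
        rw [mult_of_norm h0 i hi ha0 hx, mul_assoc]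
        exact Dvd.dvd.mul_left (Dvd.intro _ rfl) _
      · exact dvd_mult ha0 haway q h0 (by norm_num) (by exact_mod_cast h3q))
    refine ⟨m, a, B, ⊤, hm0, haF, hB, ?_⟩
    rw [Ideal.map_top, Ideal.top_mul, Nat.cast_one, Ideal.span_singleton_one]
  · -- `c = 3`
    have hκ0 : κ ≠ 0 := by
      rintro rfl
      rw [zero_pow (by norm_num), mul_zero] at hκ
      exact hw0 ((map_eq_zero j).1 hκ)
    obtain ⟨B, hB⟩ := key (PP h n) hP0 (by
      intro q hq h0
      have e0 : ((3 : ℕ) : 𝓞 F) = 3 := by norm_num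
      rw [e0]
      have e1 := mult_mul (q := q) h0 hP0 hP'0
      rw [hPP] at e1
      by_cases h3q : (3 : 𝓞 F) ∈ q
      · have h3q' : ((3 : ℕ) : 𝓞 F) ∈ q := by exact_mod_cast h3q
        obtain ⟨i, hi⟩ := exists_emb q h0 h3q'
        rcases emb_cases h i with hij | hij
        · -- the place `j`
          have e2 : multiplicity q (Ideal.map (cj σ) (PP h n)) = 0 := by
            apply mult_zero
            intro hle
            have h5 := hle hmemP'
            rw [hi, mem_pr, hij] at h5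
            have h6 : (al.comp j) (((-sI h - n : 𝓞 F)) : F) = -al (j s + n) := by
              have : (((-sI h - n : 𝓞 F)) : F) = -s - n := by
                change -s - (((n : 𝓞 F)) : F) = -s - n
                rw [coe_int]
              rw [this]
              simp
              ring
            rw [h6, norm_neg, norm_al, hn2] at h5
            exact lt_irrefl _ h5
          have hx : ‖i (a : F)‖ = 1 / 3 * ‖(m * κ : ℚ_[3])‖ ^ 3 := by
            rw [haF, hij, RingHom.comp_apply, norm_al, map_mul, hκ, map_pow, map_intCast,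
              ← norm_three, ← norm_pow, ← norm_mul]
            congr 1
            ring
          have hx1 : ‖(m * κ : ℚ_[3])‖ ≤ 1 := by
            apply le_one_of_lt_three
            by_contra hcon
            push Not at hcon
            have := hin i
            rw [hx] at this
            have h4 : (3 : ℝ) ^ 3 ≤ ‖(m * κ : ℚ_[3])‖ ^ 3 := by gcongr
            linarith
          obtain ⟨k, hk⟩ := exists_nat_norm (mul_ne_zero hm3 hκ0) hx1
          rw [hk, ← pow_mul, ← pow_succ'] at hx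
          rw [mult_of_norm h0 i hi ha0 hx]
          rw [e2, add_zero] at e1
          rw [← e1]
          exact ⟨(k + 1) * multiplicity q (Ideal.span {(3 : 𝓞 F)}), by ring⟩
        · -- the conjugate place
          have e2 : multiplicity q (PP h n) = 0 := by
            apply mult_zero
            intro hle
            have h5 := hle hmemP
            rw [hi, mem_pr, hij] at h5
            have h6 : ((al.comp j).comp σ) (((sI h - n : 𝓞 F)) : F) = -al (j s + n) := by
              have : (((sI h - n : 𝓞 F)) : F) = s - n := by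
                change s - (((n : 𝓞 F)) : F) = s - n
                rw [coe_int]
              rw [this]
              simp [h.conj]
              ring
            rw [h6, norm_neg, norm_al, hn2] at h5
            exact lt_irrefl _ h5
          have hx : ‖i (a : F)‖ = (1 / 3) ^ 2 * ‖(m * κ⁻¹ * 3⁻¹ : ℚ_[3])‖ ^ 3 := by
            rw [haF, hij, RingHom.comp_apply, RingHom.comp_apply, norm_al, map_mul, map_mul, hσw,
              map_inv₀, hκ, map_pow, map_pow, map_intCast, map_intCast,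
              ← norm_three, ← norm_pow, ← norm_pow, ← norm_mul]
            congr 1
            field_simp
          have hx1 : ‖(m * κ⁻¹ * 3⁻¹ : ℚ_[3])‖ ≤ 1 := by
            apply le_one_of_lt_three
            by_contra hcon
            push Not at hcon
            have := hin i
            rw [hx] at this
            have h4 : (3 : ℝ) ^ 3 ≤ ‖(m * κ⁻¹ * 3⁻¹ : ℚ_[3])‖ ^ 3 := by gcongr
            linarith
          obtain ⟨k, hk⟩ := exists_nat_norm (mul_ne_zero (mul_ne_zero hm3 (inv_ne_zero hκ0))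
            (inv_ne_zero three_ne_zero)) hx1
          rw [hk, ← pow_mul, ← pow_add] at hx
          rw [mult_of_norm h0 i hi ha0 hx, e2]
          exact ⟨(k + 1) * multiplicity q (Ideal.span {(3 : 𝓞 F)}), by ring⟩
      · have e3 : multiplicity q (Ideal.span {(3 : 𝓞 F)}) = 0 := mult_zero (fun hle =>
          h3q ((Ideal.span_singleton_le_iff_mem q).1 hle))
        have e4 : multiplicity q (PP h n) = 0 := by omega
        rw [e3, e4, zero_add, add_zero]
        exact dvd_mult ha0 haway q h0 (by norm_num) (by exact_mod_cast h3q))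
    refine ⟨m, a, B, PP h n, hm0, haF, hB, ?_⟩
    rw [hPP]
    norm_num

end LamW

open NumberField BKGen LamW in
theorem stLam : StLam := by
  intro F _ _ Δ s σ j h w c hw hp hc
  obtain ⟨m, a, B, Pc, hm0, haF, hB, hPc⟩ := exists_B h hw hp hc
  have hw0 : w ≠ 0 := by
    rintro rfl
    simp at hw
  have hmF : (m : F) ≠ 0 := by exact_mod_cast hm0
  have hc0 : c ≠ 0 := by
    rcases hc with ⟨rfl, -⟩ | ⟨rfl, -⟩ <;> norm_num
  have hcF : (c : F) ≠ 0 := by exact_mod_cast hc0
  -- the product of the ideal and its conjugate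
  have hN : B * Ideal.map (cj σ) B = Ideal.span {(c : 𝓞 F) * (m : 𝓞 F) ^ 2} := by
    have h1 : a * cj σ a = (m : 𝓞 F) ^ 6 := by
      apply RingOfIntegers.ext
      have e1 : ((a * cj σ a : 𝓞 F) : F) = (a : F) * σ (a : F) := rfl
      have e2 : (((m : 𝓞 F) ^ 6 : 𝓞 F) : F) = (((m : 𝓞 F)) : F) ^ 6 := rfl
      rw [e1, e2, coe_int, haF, map_mul, map_pow, map_intCast]
      linear_combination (m : F) ^ 6 * hw
    have h2 : (B * Ideal.map (cj σ) B) ^ 3 = (Ideal.span {(c : 𝓞 F) * (m : 𝓞 F) ^ 2}) ^ 3 := by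
      have e3 : cj σ ((c : 𝓞 F) * a) = (c : 𝓞 F) * cj σ a := by
        rw [map_mul, map_natCast]
      rw [mul_pow, ← Ideal.map_pow, hB, Ideal.map_mul, Ideal.map_span, Set.image_singleton, e3,
        mul_mul_mul_comm, hPc, Ideal.span_singleton_mul_span_singleton,
        Ideal.span_singleton_mul_span_singleton, Ideal.span_singleton_pow]
      congr 2
      linear_combination (c : 𝓞 F) ^ 3 * h1
    exact pow_left_injective (by norm_num : (3 : ℕ) ≠ 0) h2
  let φ : 𝓞 F →ₗ[ℤ] F := (LinearMap.mulLeft ℤ ((m : F)⁻¹)).comp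
    ((algebraMap (𝓞 F) F).toIntAlgHom.toLinearMap)
  have hφ : ∀ b : 𝓞 F, φ b = (m : F)⁻¹ * (b : F) := fun b => rfl
  let Λ : Submodule ℤ F := (B.restrictScalars ℤ).map φ
  have hΛ : ∀ x : F, x ∈ Λ ↔ ∃ b ∈ B, (m : F)⁻¹ * (b : F) = x := by
    intro x
    rw [Submodule.mem_map]
    rfl
  refine ⟨Λ, ?_, ?_, ?_, ?_, ?_⟩
  · have h1 : (B.restrictScalars ℤ).FG := IsNoetherian.noetherian _
    exact h1.map φ
  · intro r hr x hx
    rw [hΛ] at hx ⊢
    obtain ⟨b, hb, rfl⟩ := hx
    obtain ⟨r₀, hr₀⟩ : ∃ r₀ : 𝓞 F, (r₀ : F) = r := ⟨⟨r, hr⟩, rfl⟩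
    refine ⟨r₀ * b, Ideal.mul_mem_left _ _ hb, ?_⟩
    have e1 : (((r₀ * b : 𝓞 F)) : F) = (r₀ : F) * (b : F) := rfl
    rw [e1, hr₀]
    ring
  · intro x hx y hy z hz
    rw [hΛ] at hx hy hz
    obtain ⟨b₁, hb₁, rfl⟩ := hx
    obtain ⟨b₂, hb₂, rfl⟩ := hy
    obtain ⟨b₃, hb₃, rfl⟩ := hz
    have h1 : b₁ * b₂ * b₃ ∈ B ^ 3 := by
      rw [pow_succ, pow_two]
      exact Ideal.mul_mem_mul (Ideal.mul_mem_mul hb₁ hb₂) hb₃
    rw [hB] at h1
    have h2 := Ideal.mul_le_left h1
    rw [Ideal.mem_span_singleton] at h2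
    obtain ⟨t, ht⟩ := h2
    have h3 : (b₁ : F) * b₂ * b₃ = c * (m ^ 3 * w) * (t : F) := by
      have e1 := congrArg (fun x : 𝓞 F => (x : F)) ht
      have e2 : (((b₁ * b₂ * b₃ : 𝓞 F)) : F) = (b₁ : F) * b₂ * b₃ := rfl
      have e3 : ((((c : 𝓞 F) * a * t : 𝓞 F)) : F) = (((c : 𝓞 F)) : F) * (a : F) * (t : F) := rfl
      have e4 : (((c : 𝓞 F)) : F) = c := map_natCast (algebraMap (𝓞 F) F) c
      simp only [e2, e3, e4, haF] at e1
      exact e1
    have h4 : (m : F)⁻¹ * (b₁ : F) * ((m : F)⁻¹ * (b₂ : F)) * ((m : F)⁻¹ * (b₃ : F)) /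
        ((c : F) * w) = (t : F) := by
      rw [div_eq_iff (mul_ne_zero hcF hw0)]
      field_simp
      linear_combination h3
    rw [h4]
    exact t.isIntegral_coe
  · intro x hx y hy
    rw [hΛ] at hx hy
    obtain ⟨b₁, hb₁, rfl⟩ := hx
    obtain ⟨b₂, hb₂, rfl⟩ := hy
    have h1 : b₁ * cj σ b₂ ∈ B * Ideal.map (cj σ) B :=
      Ideal.mul_mem_mul hb₁ (Ideal.mem_map_of_mem _ hb₂)
    rw [hN, Ideal.mem_span_singleton] at h1
    obtain ⟨t, ht⟩ := h1
    have h3 : (b₁ : F) * σ (b₂ : F) = c * m ^ 2 * (t : F) := by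
      have e1 := congrArg (fun x : 𝓞 F => (x : F)) ht
      have e2 : (((b₁ * cj σ b₂ : 𝓞 F)) : F) = (b₁ : F) * σ (b₂ : F) := rfl
      have e3 : ((((c : 𝓞 F) * (m : 𝓞 F) ^ 2 * t : 𝓞 F)) : F) =
        (((c : 𝓞 F)) : F) * ((((m : 𝓞 F)) : F) ^ 2) * (t : F) := rfl
      have e4 : (((c : 𝓞 F)) : F) = c := map_natCast (algebraMap (𝓞 F) F) c
      simp only [e2, e3, e4, coe_int] at e1
      exact e1
    have h4 : (m : F)⁻¹ * (b₁ : F) * σ ((m : F)⁻¹ * (b₂ : F)) / (c : F) = (t : F) := by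
      rw [div_eq_iff hcF, map_mul, map_inv₀, map_intCast]
      field_simp
      linear_combination h3
    rw [h4]
    exact t.isIntegral_coe
  · set S : Set F := {z : F | ∃ x ∈ Λ, ∃ y ∈ Λ, z = x * σ y} with hS
    have key : ∀ t ∈ B * Ideal.map (cj σ) B, (t : F) / m ^ 2 ∈ Submodule.span ℤ S := by
      intro t ht
      rw [Ideal.map] at ht
      refine Submodule.mul_induction_on ht ?_ ?_
      · intro b hb t' ht'
        have : ∀ b ∈ B, ((b * t' : 𝓞 F) : F) / m ^ 2 ∈ Submodule.span ℤ S := by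
          refine Submodule.span_induction (p := fun t' _ => ∀ b ∈ B,
            ((b * t' : 𝓞 F) : F) / m ^ 2 ∈ Submodule.span ℤ S) ?_ ?_ ?_ ?_ ht'
          · rintro _ ⟨b', hb', rfl⟩ b hb
            apply Submodule.subset_span
            refine ⟨(m : F)⁻¹ * (b : F), (hΛ _).2 ⟨b, hb, rfl⟩, (m : F)⁻¹ * (b' : F),
              (hΛ _).2 ⟨b', hb', rfl⟩, ?_⟩
            have e2 : (((b * cj σ b' : 𝓞 F)) : F) = (b : F) * σ (b' : F) := rfl
            rw [e2, map_mul, map_inv₀, map_intCast]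
            field_simp
          · intro b _
            have e2 : (((b * 0 : 𝓞 F)) : F) = 0 := by rw [mul_zero]; rfl
            rw [e2, zero_div]
            exact Submodule.zero_mem _
          · intro x y _ _ hx hy b hb
            have e2 : (((b * (x + y) : 𝓞 F)) : F) = ((b * x : 𝓞 F) : F) + ((b * y : 𝓞 F) : F) := by
              rw [mul_add]; rfl
            rw [e2, add_div]
            exact Submodule.add_mem _ (hx b hb) (hy b hb)
          · intro r x _ hx b hb
            have e2 : b * (r • x) = (r * b) * x := by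
              rw [smul_eq_mul]; ring
            rw [e2]
            exact hx _ (Ideal.mul_mem_left _ _ hb)
        exact this b hb
      · intro x y hx hy
        have e2 : (((x + y : 𝓞 F)) : F) = (x : F) + (y : F) := rfl
        rw [e2, add_div]
        exact Submodule.add_mem _ hx hy
    have h1 := key ((c : 𝓞 F) * (m : 𝓞 F) ^ 2) (by
      rw [hN]
      exact Ideal.mem_span_singleton_self _)
    have e3 : ((((c : 𝓞 F) * (m : 𝓞 F) ^ 2 : 𝓞 F)) : F) =
        (((c : 𝓞 F)) : F) * ((((m : 𝓞 F)) : F) ^ 2) := rfl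
    have e4 : (((c : 𝓞 F)) : F) = c := map_natCast (algebraMap (𝓞 F) F) c
    rw [e3, e4, coe_int, mul_div_assoc, div_self (pow_ne_zero _ hmF), mul_one] at h1
    exact h1

end BKDH
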