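import Pool.Agent.Lib.MP_7c08ba_nt.DH.Stmts

/-!
Complex conjugation of an imaginary quadratic field and its embedding into `ℚ_3` when `3` splits.
-/

namespace BKDH

open Polynomial
open scoped IntermediateField

noncomputable section

namespace QFd

/-- A square root of `-Δ` in `ℚ_3`. -/
lemma exists_sqrt (Δ : ℕ) (hΔ : Δ % 3 = 2) : ∃ y : ℚ_[3], y ^ 2 = -(Δ : ℚ_[3]) := by
  have h2 : ‖(2 : ℤ_[3])‖ = 1 := by
    have := (PadicInt.norm_int_lt_one_iff_dvd (p := 3) 2).not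
    have h' : ¬ (((3 : ℕ) : ℤ) ∣ 2) := by norm_num
    have h'' := this.2 h'
    have h1 : ‖((2 : ℤ) : ℤ_[3])‖ = 1 :=
      le_antisymm (PadicInt.norm_le_one _) (not_lt.1 h'')
    simpa using h1
  have hn : ‖((X ^ 2 + C (Δ : ℤ_[3]) : ℤ_[3][X])).aeval (1 : ℤ_[3])‖ <
      ‖(derivative (X ^ 2 + C (Δ : ℤ_[3]) : ℤ_[3][X])).aeval (1 : ℤ_[3])‖ ^ 2 := by
    have e1 : ((X ^ 2 + C (Δ : ℤ_[3]) : ℤ_[3][X])).aeval (1 : ℤ_[3]) = ((1 + Δ : ℤ) : ℤ_[3]) := by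
      simp
    have e2 : (derivative (X ^ 2 + C (Δ : ℤ_[3]) : ℤ_[3][X])).aeval (1 : ℤ_[3]) = 2 := by
      simp
      norm_num
    rw [e1, e2, h2, one_pow, PadicInt.norm_int_lt_one_iff_dvd]
    omega
  obtain ⟨z, hz, -⟩ := hensels_lemma hn
  refine ⟨(z : ℚ_[3]), ?_⟩
  have hz' : z ^ 2 + (Δ : ℤ_[3]) = 0 := by simpa using hz
  have := congrArg (fun x : ℤ_[3] => (x : ℚ_[3])) hz'
  simp only [PadicInt.coe_add, PadicInt.coe_pow, PadicInt.coe_natCast, PadicInt.coe_zero] at this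
  linear_combination this

variable {F : Type} [Field F] [NumberField F]

lemma natDeg (Δ : ℕ) : (X ^ 2 + C (Δ : ℚ) : ℚ[X]).natDegree = 2 := by
  compute_degree!

lemma monic (Δ : ℕ) : (X ^ 2 + C (Δ : ℚ) : ℚ[X]).Monic := by
  monicity!

lemma minpoly_eq (Δ : ℕ) (s : F) (hΔ : Δ % 3 = 2) (hs : s ^ 2 = -(Δ : F)) :
    minpoly ℚ s = X ^ 2 + C (Δ : ℚ) := by
  symm
  refine minpoly.eq_of_irreducible_of_monic ?_ ?_ (monic Δ)
  · refine Polynomial.irreducible_of_degree_le_three_of_not_isRoot ?_ ?_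
    · rw [natDeg]; simp
    · intro x hx
      have : x ^ 2 + (Δ : ℚ) = 0 := by simpa [IsRoot] using hx
      have hpos : (0 : ℚ) < Δ := by
        have : 0 < Δ := by omega
        exact_mod_cast this
      nlinarith [sq_nonneg x]
  · simp [hs]

lemma exists_lift (Δ : ℕ) (s : F) (hΔ : Δ % 3 = 2) (hs : s ^ 2 = -(Δ : F))
    (hd : Module.finrank ℚ F = 2) (L : Type) [Field L] [Algebra ℚ L] (y : L)
    (hy : y ^ 2 = -(Δ : L)) : ∃ f : F →ₐ[ℚ] L, f s = y := by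
  have hm := minpoly_eq Δ s hΔ hs
  have hint : IsIntegral ℚ s := Algebra.IsIntegral.isIntegral s
  have htop : ℚ⟮s⟯ = ⊤ := by
    rw [Field.primitive_element_iff_minpoly_natDegree_eq, hm, natDeg, hd]
  have htop' : Algebra.adjoin ℚ {s} = ⊤ := by
    rw [← IntermediateField.adjoin_simple_toSubalgebra_of_isAlgebraic hint.isAlgebraic, htop,
      IntermediateField.top_toSubalgebra]
  let pb := PowerBasis.ofAdjoinEqTop hint htop'
  have hgen : pb.gen = s := rfl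
  have hr : aeval y (minpoly ℚ pb.gen) = 0 := by
    rw [hgen, hm]
    simp [hy]
  refine ⟨pb.lift y hr, ?_⟩
  have := pb.lift_gen y hr
  rwa [hgen] at this

end QFd

theorem stQF : StQF := by
  intro F _ _ Δ s hf hΔ hs hd
  obtain ⟨y, hy⟩ := QFd.exists_sqrt Δ hΔ
  obtain ⟨f, -⟩ := QFd.exists_lift Δ s hΔ hs hd ℚ_[3] y hy
  obtain ⟨g, hg⟩ := QFd.exists_lift Δ s hΔ hs hd F (-s) (by rw [neg_sq, hs])
  exact ⟨g.toRingHom, f.toRingHom, ⟨hf, hΔ, hs, hd, hg⟩⟩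

end

end BKDH
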