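import Mathlib
import Pool.Agent.Lib.MP_7c08ba_nt.Gen.Defs

/-!
Definitions for the count of imaginary quadratic fields which are not rigid at `3`: integral binary
cubic forms `a X³ + 3 b X² Y + 3 c X Y² + d Y³`, their Hessians, and the two local types at `3`.
-/

namespace BKDH

section

variable {R : Type*} [CommRing R]

/-- First coefficient of the Hessian `HA X² + HB X Y + HC Y²`. -/
def HA (v : Fin 4 → R) : R := v 1 ^ 2 - v 0 * v 2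

/-- Second coefficient of the Hessian. -/
def HB (v : Fin 4 → R) : R := v 1 * v 2 - v 0 * v 3

/-- Third coefficient of the Hessian. -/
def HC (v : Fin 4 → R) : R := v 2 ^ 2 - v 1 * v 3

/-- Minus the discriminant of the Hessian. -/
def HD (v : Fin 4 → R) : R := 4 * HA v * HC v - HB v ^ 2

/-- The cubic form. -/
def fv (v : Fin 4 → R) (x y : R) : R :=
  v 0 * x ^ 3 + 3 * v 1 * x ^ 2 * y + 3 * v 2 * x * y ^ 2 + v 3 * y ^ 3

/-- The form in the variables `X`, `Y + t X`. -/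
def actT (t : R) (v : Fin 4 → R) : Fin 4 → R :=
  ![fv v 1 t, v 1 + 2 * t * v 2 + t ^ 2 * v 3, v 2 + t * v 3, v 3]

/-- The form in the variables `Y`, `X`. -/
def swp (v : Fin 4 → R) : Fin 4 → R := ![v 3, v 2, v 1, v 0]

end

/-- Reduced integral forms with nonzero first coefficient. -/
def Red (v : Fin 4 → ℤ) : Prop := 0 < HA v ∧ |HB v| ≤ HA v ∧ HA v ≤ HC v ∧ v 0 ≠ 0

/-- The reduction of an integral form modulo `M`. -/
def red (M : ℕ) (v : Fin 4 → ℤ) : Fin 4 → ZMod M := fun i => ((v i : ℤ) : ZMod M)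

/-- The condition at `2` for `-Δ` to be a fundamental discriminant. -/
def F2 (D : ℤ) : Prop := D % 4 = 3 ∨ D % 16 = 4 ∨ D % 16 = 8

/-- `-Δ` is a fundamental discriminant. -/
def IsFund (Δ : ℕ) : Prop := F2 (Δ : ℤ) ∧ ∀ p : ℕ, p.Prime → p ≠ 2 → ¬ p ^ 2 ∣ Δ

/-- First local type at `3`. -/
def TypeA (v : Fin 4 → ℤ) : Prop :=
  HD v % 3 = 2 ∧ ((9 : ℤ) ∣ v 0 ∨ (9 : ℤ) ∣ v 3 ∨ (9 : ℤ) ∣ fv v 1 1 ∨ (9 : ℤ) ∣ fv v 1 2)

/-- Auxiliary condition for the second type. -/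
def SB (v : Fin 4 → ℤ) : Prop :=
  (3 : ℤ) ∣ v 0 ∧ (3 : ℤ) ∣ v 1 ∧ (3 : ℤ) ∣ v 2 ∧ ¬ (3 : ℤ) ∣ v 3 ∧
    ((27 : ℤ) ∣ v 0 - 3 * (v 3 - v 1) ∨ (27 : ℤ) ∣ v 0 + 3 * (v 3 - v 1))

/-- Second local type at `3`. -/
def TypeB (v : Fin 4 → ℤ) : Prop := SB v ∨ SB (actT 1 v) ∨ SB (actT 2 v) ∨ SB (swp v)

/-- Real parametrisation of the forms with positive definite Hessian:
`α (X - τ Y)³` plus its conjugate, with `α = u 0 + i u 1` and `τ = u 2 + i u 3`. -/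
def Phi (u : Fin 4 → ℝ) : Fin 4 → ℝ :=
  ![2 * u 0,
    -2 * (u 0 * u 2 - u 1 * u 3),
    2 * (u 0 * (u 2 ^ 2 - u 3 ^ 2) - 2 * u 1 * u 2 * u 3),
    -2 * (u 0 * (u 2 ^ 3 - 3 * u 2 * u 3 ^ 2) - u 1 * (3 * u 2 ^ 2 * u 3 - u 3 ^ 3))]

/-- The truncated real region. -/
def Kset (δ R : ℝ) : Set (Fin 4 → ℝ) :=
  {v | |HB v| ≤ HA v ∧ HA v ≤ HC v ∧ HD v ≤ 1 ∧ δ ≤ |v 0| ∧ ∀ i, |v i| ≤ R}

/-- The domain of the parameters. -/
def Uset : Set (Fin 4 → ℝ) :=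
  {u | |u 2| ≤ 1 / 2 ∧ 1 ≤ u 2 ^ 2 + u 3 ^ 2 ∧ 0 < u 3 ∧
    64 * (u 0 ^ 2 + u 1 ^ 2) ^ 2 * u 3 ^ 6 ≤ 1}

/-- The primes `p` with `5 ≤ p ≤ Q`. -/
def primes5 (Q : ℕ) : Finset ℕ := (Finset.Icc 5 Q).filter Nat.Prime

/-- Data of an imaginary quadratic field in which `3` splits: `σ` is complex conjugation, `s` a
square root of the discriminant `-Δ`, `j` an embedding into `ℚ_3`. -/
structure QF (F : Type) [Field F] [NumberField F] (Δ : ℕ) (s : F) (σ : F →+* F)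
    (j : F →+* ℚ_[3]) : Prop where
  fund : IsFund Δ
  mod3 : Δ % 3 = 2
  s2 : s ^ 2 = -(Δ : F)
  deg : Module.finrank ℚ F = 2
  conj : σ s = -s

/-- `N` over `F` is unramified outside `3`. -/
def UnrAway (F N : Type) [Field F] [Field N] [Algebra F N] : Prop :=
  ∀ (l : ℕ) [Fact l.Prime], l ≠ 3 → ∀ i : N →+* PadicAlgCl l, ∀ x : N, ∃ y : F,
    ‖i x‖ = ‖i (algebraMap F N y)‖

/-- `u` is a unit outside `3`. -/
def SU3 {K : Type} [Field K] (u : K) : Prop :=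
  ∀ (l : ℕ) [Fact l.Prime], l ≠ 3 → ∀ i : K →+* PadicAlgCl l, ‖i u‖ = 1

/-- All the fields `ℚ(√-Δ, √-3)` are rigid at all places above `3`. -/
def RigidAll (Δ : ℕ) : Prop :=
  ∀ (K : Type) [Field K] [NumberField K] (s t : K), s ^ 2 = -(Δ : K) → t ^ 2 = -3 →
    Module.finrank ℚ K = 4 → ∀ ι : K →+* PadicAlgCl 3, BKGen.Rigid 3 K ι

end BKDH
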