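import Pool.Agent.Lib.MP_7c08ba_nt.DH.Stmts

/-!
Every field which is not rigid gives four forms.
-/

namespace BKDH

open BKGen Polynomial
open scoped IntermediateField

/-- The form `-f`. -/
def bneg (v : Fin 4 → ℤ) : Fin 4 → ℤ := ![-v 0, -v 1, -v 2, -v 3]

/-- The form `f(X, -Y)`. -/
def balt (v : Fin 4 → ℤ) : Fin 4 → ℤ := ![v 0, -v 1, v 2, -v 3]

theorem HA_bneg (v : Fin 4 → ℤ) : HA (bneg v) = HA v := by simp [HA, bneg]
theorem HB_bneg (v : Fin 4 → ℤ) : HB (bneg v) = HB v := by simp [HB, bneg]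
theorem HC_bneg (v : Fin 4 → ℤ) : HC (bneg v) = HC v := by simp [HC, bneg]
theorem HA_balt (v : Fin 4 → ℤ) : HA (balt v) = HA v := by simp [HA, balt]
theorem HB_balt (v : Fin 4 → ℤ) : HB (balt v) = -HB v := by simp [HB, balt]; ring
theorem HC_balt (v : Fin 4 → ℤ) : HC (balt v) = HC v := by simp [HC, balt]
theorem HD_bneg (v : Fin 4 → ℤ) : HD (bneg v) = HD v := by
  simp only [HD, HA_bneg, HB_bneg, HC_bneg]
theorem HD_balt (v : Fin 4 → ℤ) : HD (balt v) = HD v := by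
  simp only [HD, HA_balt, HB_balt, HC_balt, neg_sq]

theorem red_bneg {v : Fin 4 → ℤ} (h : Red v) : Red (bneg v) := by
  obtain ⟨h1, h2, h3, h4⟩ := h
  refine ⟨by rw [HA_bneg]; exact h1, by rw [HA_bneg, HB_bneg]; exact h2,
    by rw [HA_bneg, HC_bneg]; exact h3, ?_⟩
  simpa [bneg] using h4

theorem red_balt {v : Fin 4 → ℤ} (h : Red v) : Red (balt v) := by
  obtain ⟨h1, h2, h3, h4⟩ := h
  refine ⟨by rw [HA_balt]; exact h1, by rw [HA_balt, HB_balt, abs_neg]; exact h2,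
    by rw [HA_balt, HC_balt]; exact h3, ?_⟩
  simpa [balt] using h4

theorem typeA_bneg {v : Fin 4 → ℤ} (h : TypeA v) : TypeA (bneg v) := by
  obtain ⟨h1, h2⟩ := h
  refine ⟨by rw [HD_bneg]; exact h1, ?_⟩
  simp only [fv, bneg, Matrix.cons_val_zero, Matrix.cons_val_one, Matrix.cons_val] at h2 ⊢
  omega

theorem typeA_balt {v : Fin 4 → ℤ} (h : TypeA v) : TypeA (balt v) := by
  obtain ⟨h1, h2⟩ := h
  refine ⟨by rw [HD_balt]; exact h1, ?_⟩
  simp only [fv, balt, Matrix.cons_val_zero, Matrix.cons_val_one, Matrix.cons_val] at h2 ⊢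
  omega

theorem typeB_bneg {v : Fin 4 → ℤ} (h : TypeB v) : TypeB (bneg v) := by
  rcases h with h | h | h | h
  · refine Or.inl ?_
    simp only [SB, bneg, Matrix.cons_val_zero, Matrix.cons_val_one, Matrix.cons_val] at h ⊢
    omega
  · refine Or.inr (Or.inl ?_)
    simp only [SB, actT, fv, bneg, Matrix.cons_val_zero, Matrix.cons_val_one,
      Matrix.cons_val] at h ⊢
    omega
  · refine Or.inr (Or.inr (Or.inl ?_))
    simp only [SB, actT, fv, bneg, Matrix.cons_val_zero, Matrix.cons_val_one,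
      Matrix.cons_val] at h ⊢
    omega
  · refine Or.inr (Or.inr (Or.inr ?_))
    simp only [SB, swp, bneg, Matrix.cons_val_zero, Matrix.cons_val_one, Matrix.cons_val] at h ⊢
    omega

theorem typeB_balt {v : Fin 4 → ℤ} (h : TypeB v) : TypeB (balt v) := by
  rcases h with h | h | h | h
  · refine Or.inl ?_
    simp only [SB, balt, Matrix.cons_val_zero, Matrix.cons_val_one, Matrix.cons_val] at h ⊢
    omega
  · refine Or.inr (Or.inr (Or.inl ?_))
    simp only [SB, actT, fv, balt, Matrix.cons_val_zero, Matrix.cons_val_one,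
      Matrix.cons_val] at h ⊢
    omega
  · refine Or.inr (Or.inl ?_)
    simp only [SB, actT, fv, balt, Matrix.cons_val_zero, Matrix.cons_val_one,
      Matrix.cons_val] at h ⊢
    omega
  · refine Or.inr (Or.inr (Or.inr ?_))
    simp only [SB, swp, balt, Matrix.cons_val_zero, Matrix.cons_val_one, Matrix.cons_val] at h ⊢
    omega

/-- Four forms for each element of a set of integers. -/
theorem four_count (T : (Fin 4 → ℤ) → Prop) (hn : ∀ v, T v → T (bneg v))
    (ha : ∀ v, T v → T (balt v)) (c : ℕ) (hc : 0 < c) (X : ℕ)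
    (hfin : {v : Fin 4 → ℤ | Red v ∧ T v ∧ ∃ Δ : ℕ, Δ ≤ X ∧ IsFund Δ ∧ HD v = c * Δ}.Finite) :
    4 * {Δ : ℕ | Δ ≤ X ∧ IsFund Δ ∧ ∃ v : Fin 4 → ℤ, Red v ∧ v 3 ≠ 0 ∧ T v ∧
      HD v = c * Δ}.ncard ≤
      {v : Fin 4 → ℤ | Red v ∧ T v ∧ ∃ Δ : ℕ, Δ ≤ X ∧ IsFund Δ ∧ HD v = c * Δ}.ncard := by
  classical
  have hBfin : {Δ : ℕ | Δ ≤ X ∧ IsFund Δ ∧ ∃ v : Fin 4 → ℤ, Red v ∧ v 3 ≠ 0 ∧ T v ∧
      HD v = c * Δ}.Finite := (Set.finite_Iic X).subset fun Δ h => h.1
  rw [Set.ncard_eq_toFinset_card _ hBfin, Set.ncard_eq_toFinset_card _ hfin]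
  set BB := hBfin.toFinset with hBB
  set VV := hfin.toFinset with hVV
  set g : (Fin 4 → ℤ) → ℕ := fun v => (HD v / c).toNat with hg
  have hcZ : (c : ℤ) ≠ 0 := by exact_mod_cast hc.ne'
  have hgv : ∀ (v : Fin 4 → ℤ) (Δ : ℕ), HD v = c * Δ → g v = Δ := by
    intro v Δ h
    rw [hg]
    simp only
    rw [h, Int.mul_ediv_cancel_left _ hcZ, Int.toNat_natCast]
  have hsum : (VV.filter fun v => g v ∈ BB).card =
      ∑ Δ ∈ BB, ((VV.filter fun v => g v ∈ BB).filter fun v => g v = Δ).card :=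
    Finset.card_eq_sum_card_fiberwise fun v hv => (Finset.mem_filter.1 hv).2
  have hfour : ∀ Δ ∈ BB, 4 ≤ ((VV.filter fun v => g v ∈ BB).filter fun v => g v = Δ).card := by
    intro Δ hΔ
    have hΔ' := hΔ
    rw [hBB, Set.Finite.mem_toFinset] at hΔ'
    obtain ⟨hX, hF, v, hR, h3, hT, hD⟩ := hΔ'
    have hv0 : v 0 ≠ 0 := hR.2.2.2
    have hmem : ∀ w : Fin 4 → ℤ, Red w → T w → HD w = c * Δ →
        w ∈ (VV.filter fun v => g v ∈ BB).filter fun v => g v = Δ := by
      intro w h1 h2 h3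
      have hgw := hgv w Δ h3
      rw [Finset.mem_filter, Finset.mem_filter, hVV, Set.Finite.mem_toFinset]
      exact ⟨⟨⟨h1, h2, Δ, hX, hF, h3⟩, by rw [hgw]; exact hΔ⟩, hgw⟩
    have hsub : ({v, bneg v, balt v, bneg (balt v)} : Finset (Fin 4 → ℤ)) ⊆
        (VV.filter fun v => g v ∈ BB).filter fun v => g v = Δ := by
      intro w hw
      simp only [Finset.mem_insert, Finset.mem_singleton] at hw
      rcases hw with h | h | h | h
      · rw [h]; exact hmem v hR hT hD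
      · rw [h]; exact hmem _ (red_bneg hR) (hn v hT) (by rw [HD_bneg]; exact hD)
      · rw [h]; exact hmem _ (red_balt hR) (ha v hT) (by rw [HD_balt]; exact hD)
      · rw [h]
        exact hmem _ (red_bneg (red_balt hR)) (hn _ (ha v hT))
          (by rw [HD_bneg, HD_balt]; exact hD)
    have hcard : ({v, bneg v, balt v, bneg (balt v)} : Finset (Fin 4 → ℤ)).card = 4 := by
      have e1 : v ≠ bneg v := by
        intro h
        have := congrFun h 0
        simp only [bneg, Matrix.cons_val_zero] at this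
        omega
      have e2 : v ≠ balt v := by
        intro h
        have := congrFun h 3
        simp only [balt, Matrix.cons_val] at this
        omega
      have e3 : v ≠ bneg (balt v) := by
        intro h
        have := congrFun h 0
        simp only [bneg, balt, Matrix.cons_val_zero] at this
        omega
      have e4 : bneg v ≠ balt v := by
        intro h
        have := congrFun h 0
        simp only [bneg, balt, Matrix.cons_val_zero] at this
        omega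
      have e5 : bneg v ≠ bneg (balt v) := by
        intro h
        have := congrFun h 3
        simp only [bneg, balt, Matrix.cons_val] at this
        omega
      have e6 : balt v ≠ bneg (balt v) := by
        intro h
        have := congrFun h 0
        simp only [bneg, balt, Matrix.cons_val_zero] at this
        omega
      rw [Finset.card_insert_of_notMem, Finset.card_insert_of_notMem,
        Finset.card_insert_of_notMem, Finset.card_singleton]
      · simpa using e6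
      · simp only [Finset.mem_insert, Finset.mem_singleton, not_or]
        exact ⟨e4, e5⟩
      · simp only [Finset.mem_insert, Finset.mem_singleton, not_or]
        exact ⟨e1, e2, e3⟩
    exact hcard.ge.trans (Finset.card_le_card hsub)
  have h4 : 4 * BB.card ≤ (VV.filter fun v => g v ∈ BB).card := by
    rw [hsum, mul_comm]
    exact Finset.card_nsmul_le_sum BB _ 4 hfour
  exact h4.trans (Finset.card_le_card (Finset.filter_subset _ _))

/-- The degree of `ℚ(√-Δ)`. -/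
theorem finrank_adjoin_sqrt {K : Type} [Field K] [NumberField K] {Δ : ℕ} (hΔ : 0 < Δ) {s : K}
    (hs : s ^ 2 = -(Δ : K)) : Module.finrank ℚ ℚ⟮s⟯ = 2 := by
  have hint : IsIntegral ℚ s := Algebra.IsIntegral.isIntegral s
  have hirr : Irreducible (X ^ 2 + C (Δ : ℚ) : ℚ[X]) := by
    rw [Polynomial.irreducible_iff_roots_eq_zero_of_degree_le_three]
    · rw [Multiset.eq_zero_iff_forall_notMem]
      intro x hx
      rw [Polynomial.mem_roots'] at hx
      have hx2 := hx.2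
      simp only [Polynomial.IsRoot.def, Polynomial.eval_add, Polynomial.eval_pow,
        Polynomial.eval_X, Polynomial.eval_C] at hx2
      have : (0 : ℚ) < Δ := by exact_mod_cast hΔ
      nlinarith [sq_nonneg x]
    · rw [Polynomial.natDegree_X_pow_add_C]
    · rw [Polynomial.natDegree_X_pow_add_C]
      norm_num
  have hmin : minpoly ℚ s = X ^ 2 + C (Δ : ℚ) := by
    symm
    refine minpoly.eq_of_irreducible_of_monic hirr ?_ (Polynomial.monic_X_pow_add_C _ two_ne_zero)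
    simp only [map_add, map_pow, Polynomial.aeval_X, Polynomial.aeval_C, hs]
    simp
  rw [IntermediateField.adjoin.finrank hint, hmin, Polynomial.natDegree_X_pow_add_C]

/-- A form from a field which is not rigid. -/
theorem form_of_bad (h1 : StVec) (h2 : StUpK) (h3 : StQF) {Δ : ℕ} (hF : IsFund Δ)
    (hm : Δ % 3 = 2) (hb : ¬ RigidAll Δ) :
    (∃ v : Fin 4 → ℤ, Red v ∧ v 3 ≠ 0 ∧ TypeA v ∧ HD v = Δ) ∨
      (∃ v : Fin 4 → ℤ, Red v ∧ v 3 ≠ 0 ∧ TypeB v ∧ HD v = 9 * Δ) := by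
  unfold RigidAll at hb
  push Not at hb
  obtain ⟨K, _, _, s, t, hs, ht, hdeg, ι, hι⟩ := hb
  have hΔ : 0 < Δ := by omega
  have hnot : ¬ ∀ ι : ℚ⟮s⟯ →+* PadicAlgCl 3, Rigid 3 ℚ⟮s⟯ ι := fun h =>
    hι (h2 K Δ s t hF hm hs ht hdeg h ι)
  push Not at hnot
  have hfr := finrank_adjoin_sqrt hΔ hs
  have hs' : (IntermediateField.AdjoinSimple.gen ℚ s) ^ 2 = -(Δ : ℚ⟮s⟯) := by
    apply Subtype.ext
    simpa using hs
  obtain ⟨σ, j, hQF⟩ := h3 ℚ⟮s⟯ Δ (IntermediateField.AdjoinSimple.gen ℚ s) hF hm hs' hfr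
  exact h1 ℚ⟮s⟯ Δ _ σ j hQF hnot

theorem stBad (h1 : StVec) (h2 : StUpK) (h3 : StQF) : StBad := by
  intro X hfA hfB
  have hA := four_count TypeA (fun v => typeA_bneg) (fun v => typeA_balt) 1 one_pos X
    (by simpa using hfA)
  have hB := four_count TypeB (fun v => typeB_bneg) (fun v => typeB_balt) 9 (by norm_num) X
    (by simpa using hfB)
  simp only [Nat.cast_one, one_mul] at hA
  simp only [Nat.cast_ofNat] at hB
  have hsub : {Δ : ℕ | Δ ≤ X ∧ IsFund Δ ∧ Δ % 3 = 2 ∧ ¬ RigidAll Δ} ⊆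
      {Δ : ℕ | Δ ≤ X ∧ IsFund Δ ∧ ∃ v : Fin 4 → ℤ, Red v ∧ v 3 ≠ 0 ∧ TypeA v ∧ HD v = Δ} ∪
      {Δ : ℕ | Δ ≤ X ∧ IsFund Δ ∧ ∃ v : Fin 4 → ℤ, Red v ∧ v 3 ≠ 0 ∧ TypeB v ∧
        HD v = 9 * Δ} := by
    rintro Δ ⟨hX, hF, hm, hb⟩
    rcases form_of_bad h1 h2 h3 hF hm hb with h | h
    · exact Or.inl ⟨hX, hF, h⟩
    · exact Or.inr ⟨hX, hF, h⟩
  have hfin : ({Δ : ℕ | Δ ≤ X ∧ IsFund Δ ∧ ∃ v : Fin 4 → ℤ, Red v ∧ v 3 ≠ 0 ∧ TypeA v ∧
        HD v = Δ} ∪
      {Δ : ℕ | Δ ≤ X ∧ IsFund Δ ∧ ∃ v : Fin 4 → ℤ, Red v ∧ v 3 ≠ 0 ∧ TypeB v ∧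
        HD v = 9 * Δ}).Finite := by
    refine (Set.finite_Iic X).subset ?_
    rintro Δ (h | h)
    · exact h.1
    · exact h.1
  have h5 := Set.ncard_le_ncard hsub hfin
  have h6 := Set.ncard_union_le
    {Δ : ℕ | Δ ≤ X ∧ IsFund Δ ∧ ∃ v : Fin 4 → ℤ, Red v ∧ v 3 ≠ 0 ∧ TypeA v ∧ HD v = Δ}
    {Δ : ℕ | Δ ≤ X ∧ IsFund Δ ∧ ∃ v : Fin 4 → ℤ, Red v ∧ v 3 ≠ 0 ∧ TypeB v ∧ HD v = 9 * Δ}
  omega

end BKDH
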