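import Mathlib
import Pool.Agent.Lib.MP_7c08ba_nt.DH.Stmts

/-!
Module BDD: the syzygy and the real bounds.
-/

namespace BKDH

namespace Bdd

theorem syz (v : Fin 4 → ℝ) : v 0 ^ 2 * HD v +
    (2 * v 1 ^ 3 - 3 * v 0 * v 1 * v 2 + v 0 ^ 2 * v 3) ^ 2 = 4 * HA v ^ 3 := by
  unfold HD HA HB HC
  ring

theorem lin (v : Fin 4 → ℝ) : v 0 * HB v +
    (2 * v 1 ^ 3 - 3 * v 0 * v 1 * v 2 + v 0 ^ 2 * v 3) = 2 * v 1 * HA v := by
  unfold HA HB
  ring

end Bdd

theorem stBdd : StBdd := by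
  intro v hB hAC hA h0
  have hs := Bdd.syz v
  have hl := Bdd.lin v
  set A := HA v with hAdef
  set B := HB v with hBdef
  set C := HC v with hCdef
  set U := 2 * v 1 ^ 3 - 3 * v 0 * v 1 * v 2 + v 0 ^ 2 * v 3 with hU
  have hD : HD v = 4 * A * C - B ^ 2 := rfl
  have hB2 : B ^ 2 ≤ A ^ 2 := by
    rw [← sq_abs B]
    exact pow_le_pow_left₀ (abs_nonneg B) hB 2
  have h1 : 3 * A ^ 2 ≤ HD v := by
    rw [hD]
    nlinarith [mul_le_mul_of_nonneg_left hAC hA.le]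
  have h2 : 3 * v 0 ^ 2 ≤ 4 * A := by
    have h3 : v 0 ^ 2 * HD v ≤ 4 * A ^ 3 := by nlinarith [sq_nonneg U]
    have h4 : v 0 ^ 2 * (3 * A ^ 2) ≤ v 0 ^ 2 * HD v :=
      mul_le_mul_of_nonneg_left h1 (sq_nonneg _)
    have h5 : (3 * v 0 ^ 2) * A ^ 2 ≤ (4 * A) * A ^ 2 := by nlinarith
    exact le_of_mul_le_mul_right h5 (by positivity)
  refine ⟨h1, h2, hs, ?_⟩
  intro hD1 δ hδ hδ1 hδ0
  have hA1 : A ≤ 0.58 := by nlinarith
  have ha : |v 0| ≤ 0.88 := by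
    rw [← Real.sqrt_sq_eq_abs]
    apply Real.sqrt_le_iff.2
    constructor
    · norm_num
    · nlinarith
  -- the square root of `A`
  obtain ⟨s, hs0, hsA⟩ : ∃ s : ℝ, 0 ≤ s ∧ s ^ 2 = A :=
    ⟨Real.sqrt A, Real.sqrt_nonneg A, Real.sq_sqrt hA.le⟩
  have hs1 : s ≤ 0.762 := by nlinarith
  have hUa : |U| ≤ 2 * s ^ 3 := by
    apply abs_le_of_sq_le_sq
    · have h3 : 0 ≤ v 0 ^ 2 * HD v := mul_nonneg (sq_nonneg _) (by nlinarith [sq_nonneg A])
      have h4 : (2 * s ^ 3) ^ 2 = 4 * A ^ 3 := by rw [← hsA]; ring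
      rw [h4]
      linarith
    · positivity
  have hb : |v 1| ≤ 1.21 := by
    have h3 : |v 1| * (2 * A) ≤ (|v 0| + 2 * s) * A := by
      have h4 : |v 1| * (2 * A) = |v 0 * B + U| := by
        rw [hl, abs_mul, abs_mul, abs_two, abs_of_pos hA]
        ring
      rw [h4]
      calc |v 0 * B + U| ≤ |v 0| * |B| + |U| := by
            rw [← abs_mul]; exact abs_add_le _ _
        _ ≤ |v 0| * A + 2 * s ^ 3 :=
            add_le_add (mul_le_mul_of_nonneg_left hB (abs_nonneg _)) hUa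
        _ = (|v 0| + 2 * s) * A := by rw [← hsA]; ring
    have h5 : |v 1| * 2 ≤ |v 0| + 2 * s := by
      have h6 : (|v 1| * 2) * A ≤ (|v 0| + 2 * s) * A := by linarith
      exact le_of_mul_le_mul_right h6 hA
    linarith
  have hb2 : v 1 ^ 2 ≤ 1.4641 := by
    have h3 := pow_le_pow_left₀ (abs_nonneg (v 1)) hb 2
    rw [sq_abs] at h3
    norm_num at h3 ⊢
    exact h3
  have hc : |v 2| ≤ 1.5 / δ := by
    have h3 : v 0 * v 2 = v 1 ^ 2 - A := by rw [hAdef, HA]; ring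
    have h4 : |v 0| * |v 2| ≤ 1.5 := by
      rw [← abs_mul, h3, abs_le]
      constructor
      · nlinarith [sq_nonneg (v 1)]
      · linarith
    rw [le_div_iff₀ hδ]
    calc |v 2| * δ ≤ |v 2| * |v 0| := mul_le_mul_of_nonneg_left hδ0 (abs_nonneg _)
      _ ≤ 1.5 := by rw [mul_comm]; exact h4
  have hd : |v 3| ≤ 3 / δ ^ 2 := by
    have h3 : v 0 * v 3 = v 1 * v 2 - B := by rw [hBdef, HB]; ring
    have h4 : |v 0| * |v 3| ≤ 1.21 * (1.5 / δ) + 0.58 := by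
      rw [← abs_mul, h3]
      calc |v 1 * v 2 - B| ≤ |v 1 * v 2| + |B| := abs_sub _ _
        _ = |v 1| * |v 2| + |B| := by rw [abs_mul]
        _ ≤ 1.21 * (1.5 / δ) + 0.58 := by
            apply add_le_add
            · exact mul_le_mul hb hc (abs_nonneg _) (by norm_num)
            · exact hB.trans hA1
    have h5 : |v 3| * δ ≤ 1.21 * (1.5 / δ) + 0.58 :=
      (mul_le_mul_of_nonneg_left hδ0 (abs_nonneg _)).trans (by rw [mul_comm]; exact h4)
    have h6 : |v 3| * δ ^ 2 ≤ 1.21 * 1.5 + 0.58 * δ := by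
      have h7 := mul_le_mul_of_nonneg_right h5 hδ.le
      have h8 : (1.21 * (1.5 / δ) + 0.58) * δ = 1.21 * 1.5 + 0.58 * δ := by
        field_simp
      rw [h8] at h7
      nlinarith
    rw [le_div_iff₀ (by positivity)]
    linarith
  have hone : (1 : ℝ) ≤ 1 / δ ^ 2 := by
    rw [le_div_iff₀ (by positivity)]
    nlinarith
  have hone' : 1 / δ ≤ 1 / δ ^ 2 := by
    rw [div_le_div_iff₀ hδ (by positivity)]
    nlinarith
  have e3 : 3 / δ ^ 2 = 3 * (1 / δ ^ 2) := by ring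
  have e15 : 1.5 / δ = 1.5 * (1 / δ) := by ring
  intro i
  fin_cases i
  · change |v 0| ≤ 3 / δ ^ 2
    rw [e3]
    linarith
  · change |v 1| ≤ 3 / δ ^ 2
    rw [e3]
    linarith
  · change |v 2| ≤ 3 / δ ^ 2
    rw [e3]
    rw [e15] at hc
    linarith
  · exact hd

end BKDH
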