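import Pool.Agent.Lib.MP_7c08ba_nt.DH.Stmts

/-!
Chinese remainder theorem for sets of residue vectors.
-/

namespace BKDH

theorem stCRT : StCRT := by
  classical
  intro m n _ _ h S T
  let e : ZMod (m * n) ≃+* ZMod m × ZMod n := ZMod.chineseRemainder h
  refine ⟨(S ×ˢ T).image fun q i => e.symm (q.1 i, q.2 i), ?_, ?_⟩
  · exact Finset.card_image_le.trans (Finset.card_product S T).le
  · intro v h1 h2
    refine Finset.mem_image.2 ⟨(red m v, red n v), Finset.mem_product.2 ⟨h1, h2⟩, ?_⟩
    funext i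
    change e.symm (((v i : ℤ) : ZMod m), ((v i : ℤ) : ZMod n)) = ((v i : ℤ) : ZMod (m * n))
    rw [RingEquiv.symm_apply_eq, map_intCast]
    rfl

end BKDH
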