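import Pool.Agent.Lib.MP_7c08ba_nt.DH.Defs
import Pool.Agent.Lib.MP_7c08ba_nt.DH.Stmts

set_option autoImplicit false

/-!
Integral elements of an imaginary quadratic field in coordinates.
-/

namespace BKDH

namespace Coord

/-- a rational number which is integral is an integer -/
theorem int_of_integral {F : Type} [Field F] [CharZero F] (q : ℚ)
    (h : IsIntegral ℤ (q : F)) : ∃ n : ℤ, q = n := by
  have h1 : IsIntegral ℤ q := by
    have h2 : IsIntegral ℤ (algebraMap ℚ F q) := by simpa using h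
    exact (isIntegral_algebraMap_iff (algebraMap ℚ F).injective).1 h2
  obtain ⟨n, hn⟩ := IsIntegrallyClosed.isIntegral_iff.1 h1
  exact ⟨n, by simpa using hn.symm⟩

/-- the denominator argument -/
theorem int_of_sq (Δ : ℕ) (hf : IsFund Δ) (n : ℚ) (T N : ℤ)
    (h : n ^ 2 * Δ = 4 * N - T ^ 2) : ∃ k : ℤ, n = k := by
  obtain ⟨h2, hp⟩ := hf
  have hden : (n.den : ℚ) ≠ 0 := by exact_mod_cast n.den_nz
  have hn : n = n.num / n.den := (Rat.num_div_den n).symm
  have key : n.num ^ 2 * (Δ : ℤ) = (4 * N - T ^ 2) * (n.den : ℤ) ^ 2 := by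
    have h3 : ((n.num : ℚ) / n.den) ^ 2 * Δ = 4 * N - T ^ 2 := by rw [← hn]; exact h
    have h4 : (n.num : ℚ) ^ 2 * Δ = (4 * N - T ^ 2) * (n.den : ℚ) ^ 2 := by
      field_simp at h3
      linear_combination h3
    exact_mod_cast h4
  have hcop : IsCoprime (n.den : ℤ) n.num := by
    rw [Int.isCoprime_iff_gcd_eq_one, Int.gcd_comm]
    exact n.reduced
  have hdvd : (n.den : ℤ) ^ 2 ∣ (Δ : ℤ) := by
    have h5 : (n.den : ℤ) ^ 2 ∣ n.num ^ 2 * (Δ : ℤ) := ⟨4 * N - T ^ 2, by rw [key]; ring⟩
    exact (hcop.pow).dvd_of_dvd_mul_left h5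
  have hdvd' : n.den ^ 2 ∣ Δ := by exact_mod_cast hdvd
  -- the denominator has no odd prime factor
  have hodd : ∀ p : ℕ, p.Prime → p ∣ n.den → p = 2 := by
    intro p hpp hpd
    by_contra hne
    exact hp p hpp hne ((pow_dvd_pow_of_dvd hpd 2).trans hdvd')
  have h16 : ¬ 16 ∣ Δ := by
    intro h6
    unfold F2 at h2
    omega
  have hd : n.den = 1 ∨ n.den = 2 := by
    by_contra hcon
    push Not at hcon
    obtain ⟨k, hk⟩ : ∃ k, n.den = 2 ^ k :=
      ⟨_, Nat.eq_prime_pow_of_unique_prime_dvd n.den_nz (fun {d} hd hdd => hodd d hd hdd)⟩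
    rcases k with _ | _ | k
    · exact hcon.1 (by simpa using hk)
    · exact hcon.2 (by simpa using hk)
    · apply h16
      refine Dvd.dvd.trans ?_ hdvd'
      rw [hk, pow_add, mul_pow]
      exact ⟨(2 ^ k) ^ 2, by ring⟩
  rcases hd with hd | hd
  · exact ⟨n.num, by rw [hn, hd]; simp⟩
  · exfalso
    rw [hd] at key hdvd'
    have hnum : ¬ (2 : ℤ) ∣ n.num := by
      intro h7
      rw [hd] at hcop
      have := hcop.isUnit_of_dvd' (dvd_refl (2 : ℤ)) h7
      exact absurd this (by decide)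
    obtain ⟨m, hm⟩ := hdvd'
    have hm4 : (m : ℤ) % 4 = 1 ∨ (m : ℤ) % 4 = 2 := by
      unfold F2 at h2
      omega
    have key2 : n.num ^ 2 * (m : ℤ) = 4 * N - T ^ 2 := by
      have : ((Δ : ℕ) : ℤ) = 4 * m := by rw [hm]; push_cast; ring
      rw [this] at key
      push_cast at key
      linarith
    have ha : n.num ^ 2 % 4 = 1 := by
      rcases Int.emod_two_eq_zero_or_one n.num with h8 | h8
      · exact absurd (Int.dvd_of_emod_eq_zero h8) hnum
      · obtain ⟨c, hc⟩ : ∃ c, n.num = 2 * c + 1 := ⟨n.num / 2, by omega⟩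
        rw [hc]
        ring_nf
        omega
    have hT : T ^ 2 % 4 = 0 ∨ T ^ 2 % 4 = 1 := by
      rcases Int.emod_two_eq_zero_or_one T with h8 | h8
      · left
        obtain ⟨c, hc⟩ : ∃ c, T = 2 * c := ⟨T / 2, by omega⟩
        rw [hc]
        ring_nf
        omega
      · right
        obtain ⟨c, hc⟩ : ∃ c, T = 2 * c + 1 := ⟨T / 2, by omega⟩
        rw [hc]
        ring_nf
        omega
    have hprod : (n.num ^ 2 * (m : ℤ)) % 4 = (m : ℤ) % 4 := by
      rw [Int.mul_emod, ha, one_mul, Int.emod_emod_of_dvd _ (dvd_refl 4)]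
    rw [key2] at hprod
    omega

end Coord

open Coord in
/-- Integral elements in coordinates. -/
theorem stCoord : StCoord := by
  intro F _ _ Δ s σ j hQ
  obtain ⟨hf, hm3, hs2, hdeg, hσ⟩ := hQ
  have hΔ : 0 < Δ := by
    have h2 := hf.1
    unfold F2 at h2
    omega
  have hs0 : s ≠ 0 := by
    rintro rfl
    have : (Δ : F) = 0 := by simpa using hs2.symm
    exact hΔ.ne' (by exact_mod_cast this)
  -- `s` is not rational
  have hsq : ∀ q : ℚ, (q : F) ≠ s := by
    intro q hq
    have h1 : ((q ^ 2 : ℚ) : F) = ((-(Δ : ℚ) : ℚ) : F) := by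
      push_cast
      rw [hq, hs2]
    have h2 : q ^ 2 = -(Δ : ℚ) := by exact_mod_cast h1
    have h3 : (0 : ℚ) < Δ := by exact_mod_cast hΔ
    nlinarith [sq_nonneg q]
  have hlin : LinearIndependent ℚ ![(1 : F), s] := by
    rw [LinearIndependent.pair_iff]
    intro a b hab
    have hab' : (a : F) + (b : F) * s = 0 := by
      simpa [Algebra.smul_def] using hab
    have hb : b = 0 := by
      by_contra hb
      have hb' : (b : F) ≠ 0 := by exact_mod_cast hb
      refine hsq (-a / b) ?_
      push_cast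
      rw [div_eq_iff hb']
      linear_combination -hab'
    rw [hb] at hab'
    refine ⟨?_, hb⟩
    have : (a : F) = 0 := by simpa using hab'
    exact_mod_cast this
  have h1 : ∀ z : F, ∃ x y : ℚ, z = x + y * s := by
    intro z
    have hcard : Fintype.card (Fin 2) = Module.finrank ℚ F := by rw [hdeg]; rfl
    have : FiniteDimensional ℚ F := inferInstance
    have hspan := hlin.span_eq_top_of_card_eq_finrank' hcard
    have hz : z ∈ Submodule.span ℚ (Set.range ![(1 : F), s]) := by
      rw [hspan]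
      trivial
    rw [Matrix.range_cons, Matrix.range_cons, Matrix.range_empty, Set.union_empty,
      ← Set.insert_eq, Submodule.mem_span_pair] at hz
    obtain ⟨a, b, hab⟩ := hz
    exact ⟨a, b, by rw [← hab]; simp [Algebra.smul_def]⟩
  have hσz : ∀ x y : ℚ, σ ((x : F) + y * s) = x - y * s := by
    intro x y
    rw [map_add, map_mul, map_ratCast, map_ratCast, hσ]
    ring
  have h2 : ∀ z : F, σ (σ z) = z := by
    intro z
    obtain ⟨x, y, rfl⟩ := h1 z
    rw [hσz, map_sub, map_mul, map_ratCast, map_ratCast, hσ]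
    ring
  have hnorm : ∀ x y : ℚ, ((x : F) + y * s) * σ ((x : F) + y * s) =
      ((x ^ 2 + Δ * y ^ 2 : ℚ) : F) := by
    intro x y
    rw [hσz]
    push_cast
    linear_combination -(y : F) ^ 2 * hs2
  have hint : ∀ z : F, IsIntegral ℤ z → IsIntegral ℤ (σ z) := by
    intro z hz
    exact hz.map (σ.toIntAlgHom)
  have h3 : ∀ z : F, IsIntegral ℤ z → ∃ n : ℤ, z - σ z = n * s := by
    intro z hz
    obtain ⟨x, y, rfl⟩ := h1 z
    have hi := hint _ hz
    obtain ⟨T, hT⟩ : ∃ T : ℤ, 2 * x = T := by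
      apply int_of_integral (F := F)
      have := hz.add hi
      rw [hσz] at this
      have h4 : ((x : F) + y * s) + (x - y * s) = ((2 * x : ℚ) : F) := by
        push_cast
        ring
      rwa [h4] at this
    obtain ⟨N, hN⟩ : ∃ N : ℤ, x ^ 2 + Δ * y ^ 2 = N := by
      apply int_of_integral (F := F)
      rw [← hnorm]
      exact hz.mul hi
    obtain ⟨k, hk⟩ := int_of_sq Δ hf (2 * y) T N (by rw [← hN, ← hT]; ring)
    refine ⟨k, ?_⟩
    rw [hσz]
    have : (k : F) = ((2 * y : ℚ) : F) := by rw [hk]; simp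
    rw [this]
    push_cast
    ring
  have hs_int : IsIntegral ℤ s := by
    refine IsIntegral.of_pow (n := 2) (by norm_num) ?_
    rw [hs2]
    exact (isIntegral_natCast (a := Δ)).neg
  refine ⟨h1, h2, h3, ?_, ?_, hs_int, hs0, ?_⟩
  · intro z hz hzz
    obtain ⟨x, y, rfl⟩ := h1 z
    rw [hσz] at hzz
    have hy : (y : F) * s = 0 := by linear_combination (-1 / 2 : F) * hzz
    rw [hy, add_zero] at hz ⊢
    obtain ⟨n, hn⟩ := int_of_integral (F := F) x hz
    exact ⟨n, by rw [hn]; simp⟩
  · have h2' := hf.1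
    unfold F2 at h2'
    by_cases h4 : (Δ : ℤ) % 4 = 3
    · obtain ⟨m, hm⟩ : ∃ m : ℕ, Δ + 1 = 4 * m := ⟨(Δ + 1) / 4, by omega⟩
      have hmF : (Δ : F) + 1 = 4 * m := by exact_mod_cast hm
      refine ⟨(1 + s) / 2, ?_, ?_⟩
      · have h5 : ((1 + s) / 2 : F) * ((1 + s) / 2 - 1) = -(m : F) := by
          have : ((1 + s) / 2 : F) * ((1 + s) / 2 - 1) = (s ^ 2 - 1) / 4 := by ring
          rw [this, hs2]
          linear_combination (-1 / 4 : F) * hmF
        refine ⟨Polynomial.X ^ 2 - Polynomial.X + Polynomial.C (m : ℤ), ?_, ?_⟩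
        · monicity!
        · simp only [Polynomial.eval₂_add, Polynomial.eval₂_sub, Polynomial.eval₂_pow,
            Polynomial.eval₂_X, Polynomial.eval₂_C]
          have : (algebraMap ℤ F) (m : ℤ) = (m : F) := by simp
          rw [this]
          linear_combination h5
      · rw [map_div₀, map_add, map_one, hσ, map_ofNat]
        ring
    · have h5 : 4 ∣ Δ := by omega
      obtain ⟨m, hm⟩ := h5
      refine ⟨s / 2, ?_, ?_⟩
      · refine IsIntegral.of_pow (n := 2) (by norm_num) ?_
        have : (s / 2) ^ 2 = -(m : F) := by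
          rw [div_pow, hs2, hm]
          push_cast
          ring
        rw [this]
        exact (isIntegral_natCast (a := m)).neg
      · rw [map_div₀, hσ, map_ofNat]
        ring
  · intro z hz
    obtain ⟨x, y, rfl⟩ := h1 z
    refine ⟨x ^ 2 + Δ * y ^ 2, ?_, hnorm x y⟩
    have h3' : (0 : ℚ) < Δ := by exact_mod_cast hΔ
    by_cases hy : y = 0
    · have hx : x ≠ 0 := by
        rintro rfl
        apply hz
        rw [hy]
        simp
      have := pow_pos (abs_pos.2 hx) 2
      rw [sq_abs] at this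
      rw [hy]
      simpa using this
    · have := pow_pos (abs_pos.2 hy) 2
      rw [sq_abs] at this
      nlinarith [sq_nonneg x, mul_pos h3' this]

end BKDH
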