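import Pool.Agent.Lib.MP_7c08ba_nt.DH.Stmts

/-!
The cusp: number of reduced forms with small first coefficient.
-/

namespace BKDH

namespace Cusp

lemma card_Ico_ceil (x y : ℝ) (h : x ≤ y) :
    ((Finset.Ico ⌈x⌉ ⌈y⌉).card : ℝ) ≤ y - x + 1 := by
  have h1 : ⌈x⌉ ≤ ⌈y⌉ := Int.ceil_le_ceil h
  rw [Int.card_Ico]
  have h2 : (((⌈y⌉ - ⌈x⌉).toNat : ℕ) : ℝ) = (⌈y⌉ : ℝ) - ⌈x⌉ := by
    have h3 : (((⌈y⌉ - ⌈x⌉).toNat : ℤ)) = ⌈y⌉ - ⌈x⌉ := Int.toNat_of_nonneg (by omega)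
    have h4 : (((⌈y⌉ - ⌈x⌉).toNat : ℕ) : ℝ) = (((⌈y⌉ - ⌈x⌉).toNat : ℤ) : ℝ) := by push_cast; rfl
    rw [h4, h3]; push_cast; ring
  rw [h2]
  have h5 := Int.ceil_lt_add_one y
  have h6 := Int.le_ceil x
  linarith

lemma card_Ioc_floor (x y : ℝ) (h : x ≤ y) :
    ((Finset.Ioc ⌊x⌋ ⌊y⌋).card : ℝ) ≤ y - x + 1 := by
  have h1 : ⌊x⌋ ≤ ⌊y⌋ := Int.floor_le_floor h
  rw [Int.card_Ioc]
  have h2 : (((⌊y⌋ - ⌊x⌋).toNat : ℕ) : ℝ) = (⌊y⌋ : ℝ) - ⌊x⌋ := by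
    have h3 : (((⌊y⌋ - ⌊x⌋).toNat : ℤ)) = ⌊y⌋ - ⌊x⌋ := Int.toNat_of_nonneg (by omega)
    have h4 : (((⌊y⌋ - ⌊x⌋).toNat : ℕ) : ℝ) = (((⌊y⌋ - ⌊x⌋).toNat : ℤ) : ℝ) := by push_cast; rfl
    rw [h4, h3]; push_cast; ring
  rw [h2]
  have h5 := Int.floor_le y
  have h6 := Int.lt_floor_add_one x
  linarith

/-- the interval for the last coefficient; `q = a²`, `s = 2 A^(3/2)`, `r` the lower end -/
noncomputable def Dset (q : ℝ) (U0 : ℤ) (s r : ℝ) : Finset ℤ :=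
  Finset.Ico ⌈(r - U0) / q⌉ ⌈(s - U0) / q⌉ ∪ Finset.Ioc ⌊(-s - U0) / q⌋ ⌊(-r - U0) / q⌋

lemma card_Dset {q : ℝ} (hq : 0 < q) (U0 : ℤ) {s r : ℝ} (h : r ≤ s) :
    ((Dset q U0 s r).card : ℝ) ≤ 2 + 2 * ((s - r) / q) := by
  have h1 : ((Dset q U0 s r).card : ℝ) ≤
      ((Finset.Ico ⌈(r - U0) / q⌉ ⌈(s - U0) / q⌉).card : ℝ) +
      ((Finset.Ioc ⌊(-s - U0) / q⌋ ⌊(-r - U0) / q⌋).card : ℝ) := by
    exact_mod_cast Finset.card_union_le _ _
  have h2 := card_Ico_ceil ((r - U0) / q) ((s - U0) / q)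
    (div_le_div_of_nonneg_right (by linarith) hq.le)
  have h3 := card_Ioc_floor ((-s - U0) / q) ((-r - U0) / q)
    (div_le_div_of_nonneg_right (by linarith) hq.le)
  have h4 : (s - U0) / q - (r - U0) / q + 1 + ((-r - U0) / q - (-s - U0) / q + 1) =
      2 + 2 * ((s - r) / q) := by
    field_simp
    ring
  linarith

lemma mem_Dset {q : ℝ} (hq : 0 < q) {U0 d : ℤ} {s r : ℝ}
    (h1 : r ≤ |(U0 : ℝ) + q * d|) (h2 : |(U0 : ℝ) + q * d| < s) : d ∈ Dset q U0 s r := by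
  rw [Dset, Finset.mem_union, Finset.mem_Ico, Finset.mem_Ioc]
  rcases le_or_gt 0 ((U0 : ℝ) + q * d) with h0 | h0
  · rw [abs_of_nonneg h0] at h1 h2
    left
    constructor
    · rw [Int.ceil_le, div_le_iff₀ hq]; linarith
    · rw [Int.lt_ceil, lt_div_iff₀ hq]; linarith
  · rw [abs_of_neg h0] at h1 h2
    right
    constructor
    · rw [Int.floor_lt, div_lt_iff₀ hq]; linarith
    · rw [Int.le_floor, le_div_iff₀ hq]; linarith

/-- telescoping inequality -/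
lemma tele {x h : ℝ} (hx : 0 < x) (hh : 0 < h) :
    h / ((x + h) * √(x + h)) ≤ 2 / √x - 2 / √(x + h) := by
  have hy : 0 < x + h := by linarith
  set a := √x with ha
  set b := √(x + h) with hb
  have ha0 : 0 < a := Real.sqrt_pos.mpr hx
  have hb0 : 0 < b := Real.sqrt_pos.mpr hy
  have ha2 : a ^ 2 = x := Real.sq_sqrt hx.le
  have hb2 : b ^ 2 = x + h := Real.sq_sqrt hy.le
  have hab : a < b := Real.sqrt_lt_sqrt hx.le (by linarith)
  have hh2 : h = b ^ 2 - a ^ 2 := by linarith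
  rw [← hb2, hh2, div_sub_div _ _ ha0.ne' hb0.ne', div_le_div_iff₀ (by positivity) (by positivity)]
  have key : (2 * b - a * 2) * (b ^ 2 * b) - (b ^ 2 - a ^ 2) * (a * b) =
      b * (b - a) ^ 2 * (2 * b + a) := by ring
  have h3 : 0 ≤ b * (b - a) ^ 2 * (2 * b + a) := by positivity
  linarith

/-- the sum over an arithmetic progression -/
lemma sum_range {x a : ℝ} (hx : 0 < x) (ha : 0 < a) (n : ℕ) :
    ∑ i ∈ Finset.range (n + 1), 1 / ((x + a * i) * √(x + a * i)) ≤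
      1 / (x * √x) + 2 / a * (1 / √x - 1 / √(x + a * n)) := by
  induction n with
  | zero => simp
  | succ n ih =>
    rw [Finset.sum_range_succ]
    have hp : 0 < x + a * n := by positivity
    have h1 := tele hp ha
    have h2 : x + a * (n : ℝ) + a = x + a * ((n + 1 : ℕ) : ℝ) := by push_cast; ring
    rw [h2] at h1
    have h3 : 0 < x + a * ((n + 1 : ℕ) : ℝ) := by positivity
    have h4 : 1 / ((x + a * ((n + 1 : ℕ) : ℝ)) * √(x + a * ((n + 1 : ℕ) : ℝ))) =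
        (1 / a) * (a / ((x + a * ((n + 1 : ℕ) : ℝ)) * √(x + a * ((n + 1 : ℕ) : ℝ)))) := by
      field_simp
    rw [h4]
    have h5 : (1 / a) * (a / ((x + a * ((n + 1 : ℕ) : ℝ)) * √(x + a * ((n + 1 : ℕ) : ℝ)))) ≤
        (1 / a) * (2 / √(x + a * n) - 2 / √(x + a * ((n + 1 : ℕ) : ℝ))) :=
      mul_le_mul_of_nonneg_left h1 (by positivity)
    have h6 : (1 / a) * (2 / √(x + a * n) - 2 / √(x + a * ((n + 1 : ℕ) : ℝ))) +
        2 / a * (1 / √x - 1 / √(x + a * n)) =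
        2 / a * (1 / √x - 1 / √(x + a * ((n + 1 : ℕ) : ℝ))) := by
      ring
    linarith

lemma anti {x y : ℝ} (hx : 0 < x) (h : x ≤ y) : 1 / (y * √y) ≤ 1 / (x * √x) := by
  have hs : 0 < √x := Real.sqrt_pos.mpr hx
  apply one_div_le_one_div_of_le (by positivity)
  exact mul_le_mul h (Real.sqrt_le_sqrt h) hs.le (by linarith)

/-- the sum over a finite set of values in a residue class, all larger than `A₁` -/
lemma sum_tail {A₁ : ℝ} (hA : 0 < A₁) {a : ℕ} (ha : 0 < a) (b : ℤ) (T : Finset ℤ)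
    (hT : ∀ c ∈ T, A₁ < (b : ℝ) ^ 2 - a * c) :
    ∑ c ∈ T, 1 / (((b : ℝ) ^ 2 - a * c) * √((b : ℝ) ^ 2 - a * c)) ≤
      1 / (A₁ * √A₁) + 2 / a * (1 / √A₁) := by
  have ha' : (0 : ℝ) < a := by exact_mod_cast ha
  set i : ℤ → ℕ := fun c => ⌊((b : ℝ) ^ 2 - a * c - A₁) / a⌋₊ with hi
  have hle : ∀ c ∈ T, A₁ + a * (i c : ℝ) ≤ (b : ℝ) ^ 2 - a * c := by
    intro c hc
    have h1 : 0 ≤ ((b : ℝ) ^ 2 - a * c - A₁) / a :=
      div_nonneg (by linarith [hT c hc]) ha'.le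
    have h2 := Nat.floor_le h1
    rw [le_div_iff₀ ha'] at h2
    simp only [hi]
    linarith
  have hinj : Set.InjOn i (T : Set ℤ) := by
    intro c hc c' hc' h
    have h1 : 0 ≤ ((b : ℝ) ^ 2 - a * c - A₁) / a :=
      div_nonneg (by linarith [hT c hc]) ha'.le
    have h1' : 0 ≤ ((b : ℝ) ^ 2 - a * c' - A₁) / a :=
      div_nonneg (by linarith [hT c' hc']) ha'.le
    have h2 := Nat.floor_le h1
    have h2' := Nat.floor_le h1'
    have h3 := Nat.lt_floor_add_one (((b : ℝ) ^ 2 - a * c - A₁) / a)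
    have h3' := Nat.lt_floor_add_one (((b : ℝ) ^ 2 - a * c' - A₁) / a)
    simp only [hi] at h
    rw [h] at h2 h3
    have h4 : ((b : ℝ) ^ 2 - a * c - A₁) / a - ((b : ℝ) ^ 2 - a * c' - A₁) / a =
        (c' : ℝ) - c := by
      field_simp
      ring
    have h5 : ((c' - c : ℤ) : ℝ) < 1 := by push_cast; linarith
    have h6 : (-1 : ℝ) < ((c' - c : ℤ) : ℝ) := by push_cast; linarith
    have h7 : c' - c < 1 := by exact_mod_cast h5
    have h8 : -1 < c' - c := by exact_mod_cast h6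
    omega
  obtain ⟨n, hn⟩ : ∃ n : ℕ, ∀ c ∈ T, i c ∈ Finset.range (n + 1) := by
    refine ⟨T.sup i, fun c hc => ?_⟩
    rw [Finset.mem_range, Nat.lt_succ_iff]
    exact Finset.le_sup (f := i) hc
  calc ∑ c ∈ T, 1 / (((b : ℝ) ^ 2 - a * c) * √((b : ℝ) ^ 2 - a * c))
      ≤ ∑ c ∈ T, 1 / ((A₁ + a * (i c : ℝ)) * √(A₁ + a * (i c : ℝ))) :=
        Finset.sum_le_sum fun c hc => anti (by positivity) (hle c hc)
    _ = ∑ m ∈ T.image i, 1 / ((A₁ + a * (m : ℝ)) * √(A₁ + a * (m : ℝ))) := by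
        rw [Finset.sum_image hinj]
    _ ≤ ∑ m ∈ Finset.range (n + 1), 1 / ((A₁ + a * (m : ℝ)) * √(A₁ + a * (m : ℝ))) := by
        apply Finset.sum_le_sum_of_subset_of_nonneg
        · intro m hm
          obtain ⟨c, hc, rfl⟩ := Finset.mem_image.mp hm
          exact hn c hc
        · intro m _ _
          positivity
    _ ≤ 1 / (A₁ * √A₁) + 2 / a * (1 / √A₁ - 1 / √(A₁ + a * n)) := sum_range hA ha' n
    _ ≤ 1 / (A₁ * √A₁) + 2 / a * (1 / √A₁) := by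
        have h1 : 0 ≤ 1 / √(A₁ + a * n) := by positivity
        have h2 : 0 ≤ 2 / (a : ℝ) := by positivity
        nlinarith

/-- `∑ 1/√n ≤ 2 √N` -/
lemma sum_sqrt (N : ℕ) : ∑ m ∈ Finset.Icc 1 N, 1 / √(m : ℝ) ≤ 2 * √(N : ℝ) := by
  induction N with
  | zero => simp
  | succ N ih =>
    rw [Finset.sum_Icc_succ_top (by omega)]
    have h1 : 1 / √((N + 1 : ℕ) : ℝ) ≤ 2 * √((N + 1 : ℕ) : ℝ) - 2 * √(N : ℝ) := by
      set a := √(N : ℝ)
      set b := √((N + 1 : ℕ) : ℝ)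
      have ha : 0 ≤ a := Real.sqrt_nonneg _
      have hb : 0 < b := Real.sqrt_pos.mpr (by positivity)
      have ha2 : a ^ 2 = N := Real.sq_sqrt (by positivity)
      have hb2 : b ^ 2 = ((N + 1 : ℕ) : ℝ) := Real.sq_sqrt (by positivity)
      rw [div_le_iff₀ hb]
      have h3 : b ^ 2 - a ^ 2 = 1 := by rw [ha2, hb2]; push_cast; ring
      nlinarith [sq_nonneg (b - a)]
    linarith

/-- the values of the third coefficient -/
noncomputable def Cs (a : ℕ) (b : ℤ) (t : ℝ) : Finset ℤ :=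
  Finset.Ico ⌈((b : ℝ) ^ 2 - t ^ 2) / a⌉ ⌈((b : ℝ) ^ 2) / a⌉

/-- first Hessian coefficient -/
def Ac (a : ℕ) (b c : ℤ) : ℝ := (b : ℝ) ^ 2 - a * c

/-- `2 A^(3/2)` -/
noncomputable def sc (a : ℕ) (b c : ℤ) : ℝ := 2 * (Ac a b c * √(Ac a b c))

/-- lower end -/
noncomputable def rc (a : ℕ) (b c : ℤ) (t : ℝ) : ℝ :=
  max 0 (sc a b c - (a : ℝ) ^ 2 * t ^ 4 / sc a b c)

/-- the values of the last coefficient -/
noncomputable def Ds (a : ℕ) (b c : ℤ) (t : ℝ) : Finset ℤ :=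
  Dset ((a : ℝ) ^ 2) (2 * b ^ 3 - 3 * a * b * c) (sc a b c) (rc a b c t)

lemma mem_Cs {a : ℕ} (ha : 0 < a) {b c : ℤ} {t : ℝ} :
    c ∈ Cs a b t ↔ 0 < Ac a b c ∧ Ac a b c ≤ t ^ 2 := by
  have ha' : (0 : ℝ) < a := by exact_mod_cast ha
  rw [Cs, Finset.mem_Ico, Int.ceil_le, Int.lt_ceil, div_le_iff₀ ha', lt_div_iff₀ ha', Ac]
  constructor
  · rintro ⟨h1, h2⟩
    constructor <;> linarith
  · rintro ⟨h1, h2⟩
    constructor <;> linarith

lemma card_Cs {a : ℕ} (ha : 0 < a) (b : ℤ) (t : ℝ) : ((Cs a b t).card : ℝ) ≤ t ^ 2 / a + 1 := by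
  have ha' : (0 : ℝ) < a := by exact_mod_cast ha
  have h1 := card_Ico_ceil (((b : ℝ) ^ 2 - t ^ 2) / a) (((b : ℝ) ^ 2) / a)
    (div_le_div_of_nonneg_right (by nlinarith [sq_nonneg t]) ha'.le)
  have h2 : ((b : ℝ) ^ 2) / a - ((b : ℝ) ^ 2 - t ^ 2) / a + 1 = t ^ 2 / a + 1 := by ring
  rw [Cs]
  linarith

lemma block {a : ℕ} (ha : 0 < a) (b : ℤ) {t : ℝ} (ht : 1 ≤ t) :
    (∑ c ∈ Cs a b t, ((Ds a b c t).card : ℝ)) ≤
      2 * (t ^ 2 / a + 1) + 8 * (t ^ 2 * √t) / √a + 3 * (t ^ 3 * √t) / (a * √a) := by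
  have ha' : (0 : ℝ) < a := by exact_mod_cast ha
  have ht0 : 0 < t := by linarith
  set α := √(a : ℝ) with hα
  set τ := √t with hτ
  have hα0 : 0 < α := Real.sqrt_pos.mpr ha'
  have hτ0 : 0 < τ := Real.sqrt_pos.mpr ht0
  have hα2 : α ^ 2 = a := Real.sq_sqrt ha'.le
  have hτ2 : τ ^ 2 = t := Real.sq_sqrt ht0.le
  have hA1 : √((a : ℝ) * t) = α * τ := Real.sqrt_mul ha'.le t
  have hA0 : 0 < (a : ℝ) * t := by positivity
  -- the bounds for one `c`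
  have hs0 : ∀ c ∈ Cs a b t, 0 < sc a b c := by
    intro c hc
    have h1 := ((mem_Cs ha).mp hc).1
    have h2 : 0 < √(Ac a b c) := Real.sqrt_pos.mpr h1
    rw [sc]; positivity
  have hle : ∀ c ∈ Cs a b t, rc a b c t ≤ sc a b c := by
    intro c hc
    rw [rc]
    apply max_le (hs0 c hc).le
    have := hs0 c hc
    have h3 : 0 ≤ (a : ℝ) ^ 2 * t ^ 4 / sc a b c := by positivity
    linarith
  have h1 : ∀ c ∈ Cs a b t, ((Ds a b c t).card : ℝ) ≤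
      2 + 2 * ((sc a b c - rc a b c t) / (a : ℝ) ^ 2) := fun c hc =>
    card_Dset (by positivity) _ (hle c hc)
  have hlo : ∀ c ∈ Cs a b t, Ac a b c ≤ a * t →
      (sc a b c - rc a b c t) / (a : ℝ) ^ 2 ≤ 2 * (a * t * (α * τ)) / (a : ℝ) ^ 2 := by
    intro c hc h
    apply div_le_div_of_nonneg_right _ (by positivity)
    have h2 : 0 ≤ rc a b c t := le_max_left _ _
    have h3 : sc a b c ≤ 2 * (a * t * (α * τ)) := by
      rw [sc]
      apply mul_le_mul_of_nonneg_left _ (by norm_num)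
      rw [← hA1]
      exact mul_le_mul h (Real.sqrt_le_sqrt h) (Real.sqrt_nonneg _) hA0.le
    linarith
  have hhi : ∀ c ∈ Cs a b t, (sc a b c - rc a b c t) / (a : ℝ) ^ 2 ≤
      t ^ 4 / 2 * (1 / (((b : ℝ) ^ 2 - a * c) * √((b : ℝ) ^ 2 - a * c))) := by
    intro c hc
    have h2 : sc a b c - (a : ℝ) ^ 2 * t ^ 4 / sc a b c ≤ rc a b c t := le_max_right _ _
    rw [div_le_iff₀ (by positivity)]
    have h3 : t ^ 4 / 2 * (1 / (((b : ℝ) ^ 2 - a * c) * √((b : ℝ) ^ 2 - a * c))) * (a : ℝ) ^ 2 =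
        (a : ℝ) ^ 2 * t ^ 4 / sc a b c := by
      have h4 := hs0 c hc
      rw [sc, Ac] at h4 ⊢
      have h5 : ((b : ℝ) ^ 2 - a * c) * √((b : ℝ) ^ 2 - a * c) ≠ 0 := by
        intro h6; rw [h6] at h4; simp at h4
      field_simp
    linarith
  -- summation
  set Lo := (Cs a b t).filter (fun c => Ac a b c ≤ a * t) with hLo
  set Hi := (Cs a b t).filter (fun c => ¬ Ac a b c ≤ a * t) with hHi
  have hLoc : (Lo.card : ℝ) ≤ t + 1 := by
    have hsub : Lo ⊆ Finset.Ico ⌈((b : ℝ) ^ 2 - a * t) / a⌉ ⌈((b : ℝ) ^ 2) / a⌉ := by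
      intro c hc
      rw [hLo, Finset.mem_filter] at hc
      have h2 := hc.2
      have h3 := ((mem_Cs ha).mp hc.1).1
      rw [Ac] at h2 h3
      rw [Finset.mem_Ico, Int.ceil_le, Int.lt_ceil, div_le_iff₀ ha', lt_div_iff₀ ha']
      constructor <;> linarith
    have h2 : (Lo.card : ℝ) ≤
        ((Finset.Ico ⌈((b : ℝ) ^ 2 - a * t) / a⌉ ⌈((b : ℝ) ^ 2) / a⌉).card : ℝ) := by
      exact_mod_cast Finset.card_le_card hsub
    have h3 := card_Ico_ceil (((b : ℝ) ^ 2 - a * t) / a) (((b : ℝ) ^ 2) / a)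
      (div_le_div_of_nonneg_right (by nlinarith) ha'.le)
    have h4 : ((b : ℝ) ^ 2) / a - ((b : ℝ) ^ 2 - a * t) / a + 1 = t + 1 := by
      field_simp; ring
    linarith
  have hsum : ∑ c ∈ Cs a b t, (sc a b c - rc a b c t) / (a : ℝ) ^ 2 ≤
      (t + 1) * (2 * (a * t * (α * τ)) / (a : ℝ) ^ 2) +
        t ^ 4 / 2 * (1 / (a * t * (α * τ)) + 2 / a * (1 / (α * τ))) := by
    rw [← Finset.sum_filter_add_sum_filter_not (Cs a b t) (fun c => Ac a b c ≤ a * t)]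
    apply add_le_add
    · calc ∑ c ∈ Lo, (sc a b c - rc a b c t) / (a : ℝ) ^ 2
          ≤ ∑ _c ∈ Lo, 2 * (a * t * (α * τ)) / (a : ℝ) ^ 2 :=
            Finset.sum_le_sum fun c hc => hlo c (Finset.mem_filter.mp hc).1
              (Finset.mem_filter.mp hc).2
        _ = (Lo.card : ℝ) * (2 * (a * t * (α * τ)) / (a : ℝ) ^ 2) := by
            rw [Finset.sum_const, nsmul_eq_mul]
        _ ≤ _ := mul_le_mul_of_nonneg_right hLoc (by positivity)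
    · calc ∑ c ∈ Hi, (sc a b c - rc a b c t) / (a : ℝ) ^ 2
          ≤ ∑ c ∈ Hi, t ^ 4 / 2 *
              (1 / (((b : ℝ) ^ 2 - a * c) * √((b : ℝ) ^ 2 - a * c))) :=
            Finset.sum_le_sum fun c hc => hhi c (Finset.mem_filter.mp hc).1
        _ = t ^ 4 / 2 * ∑ c ∈ Hi, 1 / (((b : ℝ) ^ 2 - a * c) * √((b : ℝ) ^ 2 - a * c)) := by
            rw [Finset.mul_sum]
        _ ≤ _ := by
            apply mul_le_mul_of_nonneg_left _ (by positivity)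
            rw [← hA1]
            apply sum_tail hA0 ha b Hi
            intro c hc
            have h2 := (Finset.mem_filter.mp hc).2
            rw [Ac, not_le] at h2
            exact h2
  have htot : (∑ c ∈ Cs a b t, ((Ds a b c t).card : ℝ)) ≤
      2 * ((Cs a b t).card : ℝ) +
        2 * ∑ c ∈ Cs a b t, (sc a b c - rc a b c t) / (a : ℝ) ^ 2 := by
    calc (∑ c ∈ Cs a b t, ((Ds a b c t).card : ℝ)) ≤
        ∑ c ∈ Cs a b t, (2 + 2 * ((sc a b c - rc a b c t) / (a : ℝ) ^ 2)) :=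
          Finset.sum_le_sum h1
      _ = _ := by
          rw [Finset.sum_add_distrib, Finset.sum_const, nsmul_eq_mul, ← Finset.mul_sum]
          ring
  have hcs := card_Cs ha b t
  have e1 : 2 * ((t + 1) * (2 * (a * t * (α * τ)) / (a : ℝ) ^ 2)) ≤ 8 * (t ^ 2 * τ) / α := by
    rw [← hα2]
    have : 2 * ((t + 1) * (2 * (α ^ 2 * t * (α * τ)) / (α ^ 2) ^ 2)) =
        4 * ((t + 1) * (t * τ)) / α := by
      field_simp
      ring
    rw [this]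
    apply div_le_div_of_nonneg_right _ hα0.le
    have h5 : t + 1 ≤ 2 * t := by linarith
    have h6 : 0 ≤ t * τ := by positivity
    nlinarith [mul_le_mul_of_nonneg_right h5 h6]
  have e2 : 2 * (t ^ 4 / 2 * (1 / (a * t * (α * τ)) + 2 / a * (1 / (α * τ)))) ≤
      3 * (t ^ 3 * τ) / (a * α) := by
    have h5 : 2 * (t ^ 4 / 2 * (1 / (a * t * (α * τ)) + 2 / a * (1 / (α * τ)))) =
        (t ^ 3 + 2 * t ^ 4) / (a * α * τ) := by
      field_simp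
    rw [h5, div_le_div_iff₀ (by positivity) (by positivity)]
    have h6 : t ^ 3 + 2 * t ^ 4 ≤ 3 * t ^ 4 := by
      have : t ^ 3 ≤ t ^ 4 := pow_le_pow_right₀ ht (by norm_num)
      linarith
    have h7 : 3 * (t ^ 3 * τ) * (a * α * τ) = 3 * t ^ 4 * (a * α) := by
      have : τ * τ = t := by rw [← hτ2]; ring
      calc 3 * (t ^ 3 * τ) * (a * α * τ) = 3 * t ^ 3 * (τ * τ) * (a * α) := by ring
        _ = _ := by rw [this]; ring
    rw [h7]
    exact mul_le_mul_of_nonneg_right h6 (by positivity)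
  nlinarith

/-- all the quadruples -/
noncomputable def W (N : ℕ) (t : ℝ) : Finset (Σ _ : ℕ, Σ _ : ℤ, Σ _ : ℤ, ℤ) :=
  (Finset.Icc 1 N).sigma fun a => (Finset.Ico (0 : ℤ) a).sigma fun b =>
    (Cs a b t).sigma fun c => Ds a b c t

lemma card_W (N : ℕ) {η t : ℝ} (hη : 0 < η) (hη1 : η ≤ 1) (ht : 1 ≤ t) (hN : (N : ℝ) ≤ η ^ 2 * t) :
    ((W N t).card : ℝ) ≤ 4 * t ^ 3 + 22 * (η * t ^ 4) := by
  have ht0 : 0 < t := by linarith
  set τ := √t with hτ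
  have hτ0 : 0 < τ := Real.sqrt_pos.mpr ht0
  have hτ2 : τ ^ 2 = t := Real.sq_sqrt ht0.le
  have hNt : (N : ℝ) ≤ t := by
    have : η ^ 2 ≤ 1 := pow_le_one₀ hη.le hη1
    nlinarith
  have hsN : √(N : ℝ) ≤ η * τ := by
    rw [← Real.sqrt_sq (by positivity : 0 ≤ η * τ)]
    apply Real.sqrt_le_sqrt
    rw [mul_pow, hτ2]
    exact hN
  -- one value of `a`
  have h1 : ∀ a ∈ Finset.Icc 1 N, (∑ b ∈ Finset.Ico (0 : ℤ) a, ∑ c ∈ Cs a b t,
      ((Ds a b c t).card : ℝ)) ≤ 4 * t ^ 2 + 11 * (t ^ 3 * τ) * (1 / √(a : ℝ)) := by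
    intro a ha
    rw [Finset.mem_Icc] at ha
    have ha0 : 0 < a := by omega
    have ha' : (0 : ℝ) < a := by exact_mod_cast ha0
    have hat : (a : ℝ) ≤ t := le_trans (by exact_mod_cast ha.2) hNt
    set α := √(a : ℝ) with hα
    have hα0 : 0 < α := Real.sqrt_pos.mpr ha'
    have hα2 : α ^ 2 = a := Real.sq_sqrt ha'.le
    calc (∑ b ∈ Finset.Ico (0 : ℤ) a, ∑ c ∈ Cs a b t, ((Ds a b c t).card : ℝ))
        ≤ ∑ b ∈ Finset.Ico (0 : ℤ) a,
          (2 * (t ^ 2 / a + 1) + 8 * (t ^ 2 * τ) / α + 3 * (t ^ 3 * τ) / (a * α)) :=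
          Finset.sum_le_sum fun b _ => block ha0 b ht
      _ = (a : ℝ) * (2 * (t ^ 2 / a + 1) + 8 * (t ^ 2 * τ) / α + 3 * (t ^ 3 * τ) / (a * α)) := by
          rw [Finset.sum_const, nsmul_eq_mul, Int.card_Ico]
          simp
      _ = 2 * t ^ 2 + 2 * a + 8 * (t ^ 2 * τ) * (a / α) + 3 * (t ^ 3 * τ) * (1 / α) := by
          field_simp
      _ ≤ _ := by
          have h2 : (a : ℝ) / α ≤ t / α := div_le_div_of_nonneg_right hat hα0.le
          have h3 : 8 * (t ^ 2 * τ) * (a / α) ≤ 8 * (t ^ 2 * τ) * (t / α) :=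
            mul_le_mul_of_nonneg_left h2 (by positivity)
          have h4 : 8 * (t ^ 2 * τ) * (t / α) = 8 * (t ^ 3 * τ) * (1 / α) := by
            ring
          have h5 : t ≤ t ^ 2 := by nlinarith
          nlinarith
  have h2 : ((W N t).card : ℝ) = ∑ a ∈ Finset.Icc 1 N, ∑ b ∈ Finset.Ico (0 : ℤ) a,
      ∑ c ∈ Cs a b t, ((Ds a b c t).card : ℝ) := by
    rw [W, Finset.card_sigma]
    push_cast
    refine Finset.sum_congr rfl fun a _ => ?_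
    rw [Finset.card_sigma]
    push_cast
    refine Finset.sum_congr rfl fun b _ => ?_
    rw [Finset.card_sigma]
    push_cast
    rfl
  rw [h2]
  calc _ ≤ ∑ a ∈ Finset.Icc 1 N, (4 * t ^ 2 + 11 * (t ^ 3 * τ) * (1 / √(a : ℝ))) :=
        Finset.sum_le_sum h1
    _ = (N : ℝ) * (4 * t ^ 2) + 11 * (t ^ 3 * τ) * ∑ a ∈ Finset.Icc 1 N, 1 / √(a : ℝ) := by
        rw [Finset.sum_add_distrib, Finset.sum_const, nsmul_eq_mul, Nat.card_Icc,
          ← Finset.mul_sum]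
        simp
    _ ≤ t * (4 * t ^ 2) + 11 * (t ^ 3 * τ) * (2 * (η * τ)) := by
        apply add_le_add
        · exact mul_le_mul_of_nonneg_right hNt (by positivity)
        · apply mul_le_mul_of_nonneg_left _ (by positivity)
          have := sum_sqrt N
          linarith
    _ = 4 * t ^ 3 + 22 * (η * (t ^ 3 * τ ^ 2)) := by ring
    _ = _ := by rw [hτ2]; ring

/-- translation -/
def tr (k : ℤ) (v : Fin 4 → ℤ) : Fin 4 → ℤ :=
  ![v 0, v 1 + k * v 0, v 2 + 2 * k * v 1 + k ^ 2 * v 0,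
    v 3 + 3 * k * v 2 + 3 * k ^ 2 * v 1 + k ^ 3 * v 0]

lemma tr_tr (k : ℤ) (v : Fin 4 → ℤ) : tr (-k) (tr k v) = v := by
  funext i
  fin_cases i <;> simp [tr] <;> ring

lemma HA_tr (k : ℤ) (v : Fin 4 → ℤ) : HA (tr k v) = HA v := by
  simp only [HA, tr, Matrix.cons_val_zero, Matrix.cons_val_one, Matrix.cons_val]
  ring

lemma HB_tr (k : ℤ) (v : Fin 4 → ℤ) : HB (tr k v) = HB v + 2 * k * HA v := by
  simp only [HA, HB, tr, Matrix.cons_val_zero, Matrix.cons_val_one, Matrix.cons_val]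
  ring

lemma HD_tr (k : ℤ) (v : Fin 4 → ℤ) : HD (tr k v) = HD v := by
  simp only [HD, HA, HB, HC, tr, Matrix.cons_val_zero, Matrix.cons_val_one, Matrix.cons_val]
  ring

lemma syz (v : Fin 4 → ℤ) : v 0 ^ 2 * HD v +
    (2 * v 1 ^ 3 - 3 * v 0 * v 1 * v 2 + v 0 ^ 2 * v 3) ^ 2 = 4 * HA v ^ 3 := by
  simp only [HD, HA, HB, HC]
  ring

/-- membership of a translated form -/
lemma mem_block {t : ℝ} (v : Fin 4 → ℤ) (h0 : 0 < v 0) (hA : 0 < HA v)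
    (hAt : ((HA v : ℤ) : ℝ) ≤ t ^ 2) (hD : 0 < HD v) (hDt : ((HD v : ℤ) : ℝ) ≤ t ^ 4) :
    v 2 ∈ Cs (v 0).toNat (v 1) t ∧ v 3 ∈ Ds (v 0).toNat (v 1) (v 2) t := by
  have ha : ((v 0).toNat : ℤ) = v 0 := Int.toNat_of_nonneg h0.le
  have haR : (((v 0).toNat : ℕ) : ℝ) = ((v 0 : ℤ) : ℝ) := by
    have h := congrArg (Int.cast : ℤ → ℝ) ha
    rwa [Int.cast_natCast] at h
  have hpos : 0 < (v 0).toNat := by omega
  have hAc : Ac (v 0).toNat (v 1) (v 2) = ((HA v : ℤ) : ℝ) := by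
    rw [Ac, haR, HA]; push_cast; ring
  have hA' : (0 : ℝ) < ((HA v : ℤ) : ℝ) := by exact_mod_cast hA
  have hD' : (0 : ℝ) < ((HD v : ℤ) : ℝ) := by exact_mod_cast hD
  have h0' : (0 : ℝ) < ((v 0 : ℤ) : ℝ) := by exact_mod_cast h0
  refine ⟨(mem_Cs hpos).mpr (by rw [hAc]; exact ⟨hA', hAt⟩), ?_⟩
  set s := sc (v 0).toNat (v 1) (v 2) with hs
  have hs1 : s = 2 * (((HA v : ℤ) : ℝ) * √((HA v : ℤ) : ℝ)) := by rw [hs, sc, hAc]
  have hsq : √((HA v : ℤ) : ℝ) ^ 2 = ((HA v : ℤ) : ℝ) := Real.sq_sqrt hA'.le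
  have hsp : 0 < √((HA v : ℤ) : ℝ) := Real.sqrt_pos.mpr hA'
  have hs0 : 0 < s := by rw [hs1]; positivity
  have hs2 : s ^ 2 = 4 * ((HA v : ℤ) : ℝ) ^ 3 := by
    rw [hs1]
    calc (2 * (((HA v : ℤ) : ℝ) * √((HA v : ℤ) : ℝ))) ^ 2
        = 4 * ((HA v : ℤ) : ℝ) ^ 2 * √((HA v : ℤ) : ℝ) ^ 2 := by ring
      _ = _ := by rw [hsq]; ring
  set U : ℝ := ((2 * v 1 ^ 3 - 3 * v 0 * v 1 * v 2 + v 0 ^ 2 * v 3 : ℤ) : ℝ) with hU
  have hsy : ((v 0 : ℤ) : ℝ) ^ 2 * ((HD v : ℤ) : ℝ) + U ^ 2 = s ^ 2 := by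
    rw [hs2, hU]
    exact_mod_cast syz v
  have hUs : |U| < s := by
    apply abs_lt_of_sq_lt_sq _ hs0.le
    have : 0 < ((v 0 : ℤ) : ℝ) ^ 2 * ((HD v : ℤ) : ℝ) := by positivity
    linarith
  have hUr : rc (v 0).toNat (v 1) (v 2) t ≤ |U| := by
    rw [rc]
    apply max_le (abs_nonneg _)
    rw [← hs, haR]
    have h1 : s ^ 2 - |U| ^ 2 ≤ ((v 0 : ℤ) : ℝ) ^ 2 * t ^ 4 := by
      rw [sq_abs]
      have : ((v 0 : ℤ) : ℝ) ^ 2 * ((HD v : ℤ) : ℝ) ≤ ((v 0 : ℤ) : ℝ) ^ 2 * t ^ 4 :=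
        mul_le_mul_of_nonneg_left hDt (by positivity)
      linarith
    have h2 : s - |U| ≤ ((v 0 : ℤ) : ℝ) ^ 2 * t ^ 4 / s := by
      rw [le_div_iff₀ hs0]
      have h3 : (s - |U|) * s ≤ (s - |U|) * (s + |U|) :=
        mul_le_mul_of_nonneg_left (by linarith [abs_nonneg U]) (by linarith)
      nlinarith
    linarith
  rw [Ds]
  apply mem_Dset (by rw [haR]; positivity)
  · convert hUr using 2
    rw [hU]
    push_cast
    rw [haR]
  · convert hUs using 2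
    rw [hU]
    push_cast
    rw [haR]

/-- the reduced forms with positive small first coefficient -/
def Sp (η t : ℝ) : Set (Fin 4 → ℤ) :=
  {v | Red v ∧ ((HD v : ℤ) : ℝ) ≤ t ^ 4 ∧ ((v 0 : ℤ) : ℝ) ≤ η ^ 2 * t ∧ 0 < v 0}

/-- the shift and the reduced form -/
noncomputable def fm (v : Fin 4 → ℤ) : (Σ _ : ℕ, Σ _ : ℤ, Σ _ : ℤ, ℤ) × ℤ :=
  (⟨(v 0).toNat, tr (-(v 1 / v 0)) v 1, tr (-(v 1 / v 0)) v 2, tr (-(v 1 / v 0)) v 3⟩,
    (v 1 / v 0) % 2)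

lemma HD_ge {v : Fin 4 → ℤ} (h : Red v) : 3 * HA v ^ 2 ≤ HD v := by
  obtain ⟨h1, h2, h3, h4⟩ := h
  have h5 : HB v ^ 2 ≤ HA v ^ 2 := by
    rw [← sq_abs (HB v)]
    exact pow_le_pow_left₀ (abs_nonneg _) h2 2
  rw [HD]
  nlinarith

lemma fm_mem {η t : ℝ} (ht : 1 ≤ t) {v : Fin 4 → ℤ} (hv : v ∈ Sp η t) :
    fm v ∈ (W ⌊η ^ 2 * t⌋₊ t) ×ˢ (Finset.Ico (0 : ℤ) 2) := by
  obtain ⟨hR, hD, ha, h0⟩ := hv
  have hge := HD_ge hR
  have hA := hR.1
  have ht0 : 0 < t := by linarith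
  have haN : ((v 0).toNat : ℤ) = v 0 := Int.toNat_of_nonneg h0.le
  have haR : (((v 0).toNat : ℕ) : ℝ) = ((v 0 : ℤ) : ℝ) := by
    have h := congrArg (Int.cast : ℤ → ℝ) haN
    rwa [Int.cast_natCast] at h
  set k := -(v 1 / v 0) with hk
  have h00 : tr k v 0 = v 0 := rfl
  have h1 : tr k v 1 = v 1 % v 0 := by
    simp only [tr, Matrix.cons_val_one, Matrix.cons_val_zero, hk]
    rw [Int.emod_def]
    ring
  have hAt : ((HA v : ℤ) : ℝ) ≤ t ^ 2 := by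
    have h2 : ((3 * HA v ^ 2 : ℤ) : ℝ) ≤ ((HD v : ℤ) : ℝ) := by exact_mod_cast hge
    push_cast at h2
    have h3 : ((HA v : ℤ) : ℝ) ^ 2 ≤ (t ^ 2) ^ 2 := by nlinarith [sq_nonneg ((HA v : ℤ) : ℝ)]
    have h4 : (0 : ℝ) ≤ t ^ 2 := by positivity
    exact le_of_sq_le_sq h3 h4
  have hDpos : 0 < HD v := by nlinarith
  have hb := mem_block (t := t) (tr k v) (by rw [h00]; exact h0) (by rw [HA_tr]; exact hA)
    (by rw [HA_tr]; exact hAt) (by rw [HD_tr]; exact hDpos) (by rw [HD_tr]; exact hD)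
  rw [h00] at hb
  rw [Finset.mem_product]
  constructor
  · simp only [fm, W, Finset.mem_sigma]
    refine ⟨?_, ?_, hb.1, hb.2⟩
    · rw [Finset.mem_Icc]
      refine ⟨by omega, ?_⟩
      apply Nat.le_floor
      rw [haR]; exact ha
    · rw [← hk, h1, Finset.mem_Ico, haN]
      exact ⟨Int.emod_nonneg _ h0.ne', Int.emod_lt_of_pos _ h0⟩
  · simp only [fm, Finset.mem_Ico]
    exact ⟨Int.emod_nonneg _ (by norm_num), Int.emod_lt_of_pos _ (by norm_num)⟩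

lemma fm_inj {η t : ℝ} : Set.InjOn fm (Sp η t) := by
  rintro v ⟨hR, -, -, h0⟩ w ⟨hR', -, -, h0'⟩ h
  have hvw : v 0 = w 0 := by
    have h1 := congrArg (fun z => (z.1.1 : ℤ)) h
    simp only [fm] at h1
    rwa [Int.toNat_of_nonneg h0.le, Int.toNat_of_nonneg h0'.le] at h1
  set k := v 1 / v 0 with hk
  set m := w 1 / w 0 with hm
  have e1 : tr (-k) v 1 = tr (-m) w 1 := by
    have h1 := congrArg (fun z => z.1.2.1) h
    simpa only [fm] using h1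
  have e2 : tr (-k) v 2 = tr (-m) w 2 := by
    have h1 := congrArg (fun z => z.1.2.2.1) h
    simpa only [fm] using h1
  have e3 : tr (-k) v 3 = tr (-m) w 3 := by
    have h1 := congrArg (fun z => z.1.2.2.2) h
    simpa only [fm] using h1
  have e4 : k % 2 = m % 2 := by
    have h1 := congrArg (fun z => z.2) h
    simpa only [fm] using h1
  have e0 : tr (-k) v 0 = tr (-m) w 0 := hvw
  have hT : tr (-k) v = tr (-m) w := by
    funext i
    fin_cases i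
    · exact e0
    · exact e1
    · exact e2
    · exact e3
  have hAA : HA v = HA w := by rw [← HA_tr (-k) v, hT, HA_tr]
  have hBB : HB v + 2 * (-k) * HA v = HB w + 2 * (-m) * HA w := by
    rw [← HB_tr, hT, HB_tr]
  have h1 := hR.2.1
  have h2 := hR'.2.1
  have h3 := hR.1
  rw [← hAA] at h2 hBB
  rw [abs_le] at h1 h2
  have h4 : HB v - HB w = 2 * (k - m) * HA v := by linarith
  have h5 : k - m ≤ 1 := by
    by_contra hcon
    have : 2 ≤ k - m := by omega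
    nlinarith
  have h6 : -1 ≤ k - m := by
    by_contra hcon
    have : k - m ≤ -2 := by omega
    nlinarith
  have h7 : k = m := by omega
  rw [← tr_tr (-k) v, hT, h7, tr_tr]

lemma Sp_bound {η t : ℝ} (hη : 0 < η) (hη1 : η ≤ 1) (ht : 1 ≤ t) :
    (Sp η t).Finite ∧ ((Sp η t).ncard : ℝ) ≤ 8 * t ^ 3 + 44 * (η * t ^ 4) := by
  set T := (W ⌊η ^ 2 * t⌋₊ t) ×ˢ (Finset.Ico (0 : ℤ) 2) with hT
  have hmaps : Set.MapsTo fm (Sp η t) (T : Set _) := fun v hv => fm_mem ht hv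
  have hfin : (Sp η t).Finite :=
    Set.Finite.of_injOn (t := (T : Set _)) hmaps fm_inj T.finite_toSet
  refine ⟨hfin, ?_⟩
  have h1 : (Sp η t).ncard ≤ T.card := by
    have h2 := Set.ncard_le_ncard_of_injOn (t := (T : Set _)) fm (fun v hv => hmaps hv) fm_inj T.finite_toSet
    rwa [Set.ncard_coe_finset] at h2
  have h2 : (T.card : ℝ) = 2 * ((W ⌊η ^ 2 * t⌋₊ t).card : ℝ) := by
    rw [hT, Finset.card_product, Int.card_Ico]
    push_cast
    norm_num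
    ring
  have h3 := card_W ⌊η ^ 2 * t⌋₊ hη hη1 ht (Nat.floor_le (by positivity))
  have h4 : ((Sp η t).ncard : ℝ) ≤ T.card := by exact_mod_cast h1
  linarith

end Cusp

open Cusp in
/-- The cusp. -/
theorem stCusp : StCusp := by
  refine ⟨88, by norm_num, fun η t hη hη1 ht => ?_⟩
  obtain ⟨hfin, hcard⟩ := Sp_bound hη hη1 ht
  have hsub : {v : Fin 4 → ℤ | Red v ∧ ((HD v : ℤ) : ℝ) ≤ t ^ 4 ∧
      |((v 0 : ℤ) : ℝ)| ≤ η ^ 2 * t} ⊆ Sp η t ∪ (fun v => -v) '' Sp η t := by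
    rintro v ⟨hR, hD, ha⟩
    rcases lt_or_gt_of_ne hR.2.2.2 with h0 | h0
    · right
      refine ⟨-v, ⟨?_, ?_, ?_, ?_⟩, by simp⟩
      · obtain ⟨h1, h2, h3, h4⟩ := hR
        have e1 : HA (-v) = HA v := by simp only [HA, Pi.neg_apply]; ring
        have e2 : HB (-v) = HB v := by simp only [HB, Pi.neg_apply]; ring
        have e3 : HC (-v) = HC v := by simp only [HC, Pi.neg_apply]; ring
        refine ⟨by rw [e1]; exact h1, by rw [e1, e2]; exact h2, by rw [e1, e3]; exact h3, ?_⟩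
        simpa using h4
      · have e : HD (-v) = HD v := by simp only [HD, HA, HB, HC, Pi.neg_apply]; ring
        rw [e]; exact hD
      · have h0' : ((v 0 : ℤ) : ℝ) < 0 := by exact_mod_cast h0
        rw [abs_of_neg h0'] at ha
        simpa using ha
      · simpa using h0
    · left
      have h0' : (0 : ℝ) < ((v 0 : ℤ) : ℝ) := by exact_mod_cast h0
      rw [abs_of_pos h0'] at ha
      exact ⟨hR, hD, ha, h0⟩
  have hfin2 : (Sp η t ∪ (fun v => -v) '' Sp η t).Finite := hfin.union (hfin.image _)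
  refine ⟨hfin2.subset hsub, ?_⟩
  have h1 := Set.ncard_le_ncard hsub hfin2
  have h2 := Set.ncard_union_le (Sp η t) ((fun v => -v) '' Sp η t)
  have h3 : ((fun v : Fin 4 → ℤ => -v) '' Sp η t).ncard ≤ (Sp η t).ncard :=
    Set.ncard_image_le hfin
  have h4 : ({v : Fin 4 → ℤ | Red v ∧ ((HD v : ℤ) : ℝ) ≤ t ^ 4 ∧
      |((v 0 : ℤ) : ℝ)| ≤ η ^ 2 * t}.ncard : ℝ) ≤ 2 * ((Sp η t).ncard : ℝ) := by
    have : {v : Fin 4 → ℤ | Red v ∧ ((HD v : ℤ) : ℝ) ≤ t ^ 4 ∧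
      |((v 0 : ℤ) : ℝ)| ≤ η ^ 2 * t}.ncard ≤ 2 * (Sp η t).ncard := by omega
    exact_mod_cast this
  have ht3 : 0 < t ^ 3 := by positivity
  have ht4 : 0 < η * t ^ 4 := by positivity
  linarith

end BKDH
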