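import Pool.Agent.Lib.MP_7c08ba_nt.DH.Stmts

/-!
The density at `3` of the first local type.
-/

namespace BKDH

namespace DA

/-- The test for the first local type on representatives of the residues modulo `9`. -/
def tst (a b c d : ℤ) : Bool :=
  ((4 * (b * b - a * c) * (c * c - b * d) - (b * c - a * d) * (b * c - a * d)) % 3 == 2) &&
    ((a % 9 == 0) || (d % 9 == 0) || ((a + 3 * b + 3 * c + d) % 9 == 0) ||
      ((a + 6 * b + 12 * c + 8 * d) % 9 == 0))

/-- The numbers of the residue classes of the first local type. -/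
def cls : Finset ℕ :=
  (Finset.range 6561).filter fun n : ℕ =>
    tst ((n / 729 : ℕ) : ℤ) ((n / 81 % 9 : ℕ) : ℤ) ((n / 9 % 9 : ℕ) : ℤ) ((n % 9 : ℕ) : ℤ) = true

theorem card_cls : cls.card = 648 := by
  decide +kernel

/-- The residue class with a given number. -/
def ev (n : ℕ) : Fin 4 → ZMod 9 :=
  ![((n / 729 : ℕ) : ZMod 9), ((n / 81 % 9 : ℕ) : ZMod 9), ((n / 9 % 9 : ℕ) : ZMod 9),
    ((n % 9 : ℕ) : ZMod 9)]

theorem cast_toNat (x : ℤ) : ((x : ℤ) : ZMod 9) = (((x % 9).toNat : ℕ) : ZMod 9) := by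
  have h1 : (((x % 9).toNat : ℕ) : ℤ) = x % 9 := Int.toNat_of_nonneg (by omega)
  have h2 : (((x % 9).toNat : ℕ) : ZMod 9) = ((((x % 9).toNat : ℕ) : ℤ) : ZMod 9) := by
    push_cast
    rfl
  rw [h2, h1]
  exact (ZMod.intCast_mod x 9).symm

theorem tst_of (v : Fin 4 → ℤ) (h : TypeA v) :
    tst (v 0 % 9) (v 1 % 9) (v 2 % 9) (v 3 % 9) = true := by
  obtain ⟨h1, h2⟩ := h
  set a := v 0 with ha
  set b := v 1 with hb
  set c := v 2 with hc
  set d := v 3 with hd
  have e1 : HD v = 4 * (b * b - a * c) * (c * c - b * d) - (b * c - a * d) * (b * c - a * d) := by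
    simp only [HD, HA, HB, HC, ← ha, ← hb, ← hc, ← hd]
    ring
  have e2 : fv v 1 1 = a + 3 * b + 3 * c + d := by
    simp only [fv, ← ha, ← hb, ← hc, ← hd]
    ring
  have e3 : fv v 1 2 = a + 6 * b + 12 * c + 8 * d := by
    simp only [fv, ← ha, ← hb, ← hc, ← hd]
    ring
  have ma : a % 9 ≡ a [ZMOD 3] := (Int.mod_modEq a 9).of_dvd (by norm_num)
  have mb : b % 9 ≡ b [ZMOD 3] := (Int.mod_modEq b 9).of_dvd (by norm_num)
  have mc : c % 9 ≡ c [ZMOD 3] := (Int.mod_modEq c 9).of_dvd (by norm_num)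
  have md : d % 9 ≡ d [ZMOD 3] := (Int.mod_modEq d 9).of_dvd (by norm_num)
  have m1 : 4 * (b % 9 * (b % 9) - a % 9 * (c % 9)) * (c % 9 * (c % 9) - b % 9 * (d % 9)) -
      (b % 9 * (c % 9) - a % 9 * (d % 9)) * (b % 9 * (c % 9) - a % 9 * (d % 9)) ≡
      4 * (b * b - a * c) * (c * c - b * d) - (b * c - a * d) * (b * c - a * d) [ZMOD 3] := by
    have hbc := mb.mul mc
    have hadd := ma.mul md
    exact Int.ModEq.sub (((Int.ModEq.refl 4).mul ((mb.mul mb).sub (ma.mul mc))).mul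
      ((mc.mul mc).sub (mb.mul md))) ((hbc.sub hadd).mul (hbc.sub hadd))
  have m2 : (4 * (b % 9 * (b % 9) - a % 9 * (c % 9)) * (c % 9 * (c % 9) - b % 9 * (d % 9)) -
      (b % 9 * (c % 9) - a % 9 * (d % 9)) * (b % 9 * (c % 9) - a % 9 * (d % 9))) % 3 = 2 := by
    rw [← h1, e1]
    exact m1
  rw [e2, e3] at h2
  simp only [tst, Bool.and_eq_true, Bool.or_eq_true, beq_iff_eq]
  refine ⟨m2, ?_⟩
  rcases h2 with h2 | h2 | h2 | h2
  · left; left; left; omega
  · left; left; right; omega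
  · left; right; omega
  · right; omega

end DA

/-- The density at `3` of the first local type. -/
theorem stDA : StDA := by
  refine ⟨DA.cls.image DA.ev, ?_, fun v hv => ?_⟩
  · exact Finset.card_image_le.trans DA.card_cls.le
  · have hn : ∀ x : ℤ, ∃ n : ℕ, n < 9 ∧ (n : ℤ) = x % 9 ∧ ((x : ℤ) : ZMod 9) = (n : ZMod 9) := by
      intro x
      refine ⟨(x % 9).toNat, by omega, Int.toNat_of_nonneg (by omega), DA.cast_toNat x⟩
    obtain ⟨a, ha, ha1, ha2⟩ := hn (v 0)
    obtain ⟨b, hb, hb1, hb2⟩ := hn (v 1)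
    obtain ⟨c, hc, hc1, hc2⟩ := hn (v 2)
    obtain ⟨d, hd, hd1, hd2⟩ := hn (v 3)
    have q1 : (729 * a + 81 * b + 9 * c + d) / 729 = a := by omega
    have q2 : (729 * a + 81 * b + 9 * c + d) / 81 % 9 = b := by omega
    have q3 : (729 * a + 81 * b + 9 * c + d) / 9 % 9 = c := by omega
    have q4 : (729 * a + 81 * b + 9 * c + d) % 9 = d := by omega
    refine Finset.mem_image.2 ⟨729 * a + 81 * b + 9 * c + d, ?_, ?_⟩
    · refine Finset.mem_filter.2 ⟨Finset.mem_range.2 (by omega), ?_⟩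
      rw [q1, q2, q3, q4, ha1, hb1, hc1, hd1]
      exact DA.tst_of v hv
    · rw [DA.ev, q1, q2, q3, q4]
      funext i
      fin_cases i
      · exact ha2.symm
      · exact hb2.symm
      · exact hc2.symm
      · exact hd2.symm

end BKDH
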