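import Pool.Agent.Lib.MP_7c08ba_nt.DH.Stmts

/-!
Local density at `p ≥ 5`: the residue classes modulo `p²` with `p² ∣ HD`.
-/

namespace BKDH

namespace DP

open Finset

section

variable {R S : Type*} [CommRing R] [CommRing S]

lemma map_HA (f : R →+* S) (v : Fin 4 → R) : HA (fun i => f (v i)) = f (HA v) := by
  simp [HA]

lemma map_HB (f : R →+* S) (v : Fin 4 → R) : HB (fun i => f (v i)) = f (HB v) := by
  simp [HB]

lemma map_HC (f : R →+* S) (v : Fin 4 → R) : HC (fun i => f (v i)) = f (HC v) := by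
  simp [HC]

lemma map_HD (f : R →+* S) (v : Fin 4 → R) : HD (fun i => f (v i)) = f (HD v) := by
  simp only [HD, map_HA, map_HB, map_HC, map_sub, map_mul, map_pow, map_ofNat]

end

section

variable {p : ℕ} [hp : Fact p.Prime]

/-- Reduction modulo `p`. -/
def rho (p : ℕ) : ZMod (p ^ 2) →+* ZMod p :=
  ZMod.castHom (dvd_pow_self p two_ne_zero) (ZMod p)

/-- Lift with given digits. -/
def phi (c e : ZMod p) : ZMod (p ^ 2) := ((c.val + p * e.val : ℕ) : ZMod (p ^ 2))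

lemma rho_phi (c e : ZMod p) : rho p (phi c e) = c := by
  have : NeZero p := ⟨hp.out.ne_zero⟩
  unfold rho phi
  rw [map_natCast]
  push_cast
  rw [ZMod.natCast_zmod_val, ZMod.natCast_self, zero_mul, add_zero]

lemma phi_inj {c e c' e' : ZMod p} (h : phi c e = phi c' e') : c = c' ∧ e = e' := by
  have : NeZero p := ⟨hp.out.ne_zero⟩
  have hc : c = c' := by
    have := congrArg (rho p) h
    rwa [rho_phi, rho_phi] at this
  refine ⟨hc, ?_⟩
  subst hc
  unfold phi at h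
  rw [ZMod.natCast_eq_natCast_iff'] at h
  have h1 := ZMod.val_lt c
  have h2 := ZMod.val_lt e
  have h3 := ZMod.val_lt e'
  have hb : ∀ x : ℕ, x < p → c.val + p * x < p ^ 2 := by
    intro x hx
    have : p * x + p ≤ p * p := by
      calc p * x + p = p * (x + 1) := by ring
        _ ≤ p * p := Nat.mul_le_mul_left _ hx
    rw [pow_two]
    omega
  rw [Nat.mod_eq_of_lt (hb _ h2), Nat.mod_eq_of_lt (hb _ h3)] at h
  have h4 : p * e.val = p * e'.val := by omega
  exact ZMod.val_injective _ (Nat.eq_of_mul_eq_mul_left hp.out.pos h4)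

lemma exists_of_rho {x : ZMod (p ^ 2)} (h : rho p x = 0) :
    ∃ y : ZMod (p ^ 2), x = (p : ZMod (p ^ 2)) * y := by
  have : NeZero (p ^ 2) := ⟨pow_ne_zero _ hp.out.ne_zero⟩
  unfold rho at h
  have hx : ((x.val : ℕ) : ZMod (p ^ 2)) = x := ZMod.natCast_zmod_val x
  rw [← hx, map_natCast, ZMod.natCast_eq_zero_iff] at h
  obtain ⟨k, hk⟩ := h
  refine ⟨(k : ZMod (p ^ 2)), ?_⟩
  rw [← hx, hk]
  push_cast
  rfl

lemma mul_zero_of_rho {x y : ZMod (p ^ 2)} (hx : rho p x = 0) (hy : rho p y = 0) : x * y = 0 := by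
  obtain ⟨a, rfl⟩ := exists_of_rho hx
  obtain ⟨b, rfl⟩ := exists_of_rho hy
  have h : ((p : ZMod (p ^ 2))) * p = 0 := by
    have := ZMod.natCast_self (p ^ 2)
    push_cast at this
    rw [← pow_two]
    exact this
  linear_combination a * b * h

/-- The twisted cubic modulo `p`. -/
def psi (l m : ZMod p) : Fin 4 → ZMod p :=
  if l = 0 then ![0, 0, 0, m] else ![l, l * m, l * m ^ 2, l * m ^ 3]

lemma psi_inj {l m l' m' : ZMod p} (h : psi l m = psi l' m') : l = l' ∧ m = m' := by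
  have h0 := congrFun h 0
  have h1 := congrFun h 1
  have h3 := congrFun h 3
  unfold psi at h0 h1 h3
  by_cases hl : l = 0 <;> by_cases hl' : l' = 0 <;> simp [hl, hl'] at h0 h1 h3
  · exact ⟨by rw [hl, hl'], h3⟩
  · exact absurd h0.symm hl'
  · subst h0
    exact ⟨rfl, by simpa [hl] using h1⟩

lemma psi_H (l m : ZMod p) : HA (psi l m) = 0 ∧ HB (psi l m) = 0 ∧ HC (psi l m) = 0 := by
  unfold psi
  split_ifs with h
  · simp [HA, HB, HC]
  · simp only [HA, HB, HC, Matrix.cons_val]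
    refine ⟨by ring, by ring, by ring⟩

/-- Elements with triple root modulo `p`. -/
def fA (x : ZMod p × ZMod p × (Fin 4 → ZMod p)) : Fin 4 → ZMod (p ^ 2) :=
  fun i => phi (psi x.1 x.2.1 i) (x.2.2 i)

lemma fA_inj : Function.Injective (fA (p := p)) := by
  rintro ⟨l, m, e⟩ ⟨l', m', e'⟩ h
  have h1 : ∀ i, psi l m i = psi l' m' i ∧ e i = e' i := fun i => phi_inj (congrFun h i)
  obtain ⟨h2, h3⟩ := psi_inj (funext fun i => (h1 i).1)
  have h4 : e = e' := funext fun i => (h1 i).2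
  subst h2 h3 h4
  rfl

lemma fA_H (x : ZMod p × ZMod p × (Fin 4 → ZMod p)) :
    HD (fA x) = 0 ∧ rho p (HA (fA x)) = 0 ∧ rho p (HC (fA x)) = 0 := by
  have hr : (fun i => rho p (fA x i)) = psi x.1 x.2.1 := by
    funext i
    exact rho_phi _ _
  obtain ⟨h1, h2, h3⟩ := psi_H x.1 x.2.1
  rw [← hr] at h1 h2 h3
  rw [map_HA] at h1
  rw [map_HB] at h2
  rw [map_HC] at h3
  refine ⟨?_, h1, h3⟩
  have h4 := mul_zero_of_rho h1 h3
  have h5 := mul_zero_of_rho h2 h2
  unfold HD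
  linear_combination 4 * h4 - h5

/-- Elements with an exact double root modulo `p` at a finite point. -/
def fB (x : ZMod p × ZMod (p ^ 2) × (ZMod p)ˣ × ZMod p × ZMod p) : Fin 4 → ZMod (p ^ 2) :=
  ![x.2.1, phi (x.2.2.1 : ZMod p) x.2.2.2.1 - x.2.1 * phi x.1 0,
    phi 0 x.2.2.2.2 - 2 * phi (x.2.2.1 : ZMod p) x.2.2.2.1 * phi x.1 0 + x.2.1 * phi x.1 0 ^ 2,
    -(x.2.1 * phi x.1 0 ^ 3) + 3 * phi (x.2.2.1 : ZMod p) x.2.2.2.1 * phi x.1 0 ^ 2 -
      3 * phi 0 x.2.2.2.2 * phi x.1 0]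

lemma fB_HA (x : ZMod p × ZMod (p ^ 2) × (ZMod p)ˣ × ZMod p × ZMod p) :
    rho p (HA (fB x)) = (x.2.2.1 : ZMod p) ^ 2 := by
  obtain ⟨t, a, u, e, c⟩ := x
  have h : HA (fB (t, a, u, e, c)) = phi (u : ZMod p) e ^ 2 - a * phi 0 c := by
    simp only [HA, fB, Matrix.cons_val]
    ring
  rw [h, map_sub, map_pow, map_mul, rho_phi, rho_phi]
  ring

lemma fB_HB (x : ZMod p × ZMod (p ^ 2) × (ZMod p)ˣ × ZMod p × ZMod p) :
    rho p (HB (fB x)) = -2 * x.1 * (x.2.2.1 : ZMod p) ^ 2 := by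
  obtain ⟨t, a, u, e, c⟩ := x
  have h : HB (fB (t, a, u, e, c)) = phi (u : ZMod p) e * phi 0 c
      - 2 * (phi (u : ZMod p) e ^ 2 - a * phi 0 c) * phi t 0 := by
    simp only [HB, fB, Matrix.cons_val]
    ring
  rw [h]
  simp only [map_sub, map_pow, map_mul, rho_phi, map_ofNat]
  ring

lemma fB_HD (x : ZMod p × ZMod (p ^ 2) × (ZMod p)ˣ × ZMod p × ZMod p) : HD (fB x) = 0 := by
  obtain ⟨t, a, u, e, c⟩ := x
  have h : HD (fB (t, a, u, e, c)) = phi 0 c * phi 0 c * (3 * phi (u : ZMod p) e ^ 2 -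
      4 * a * phi 0 c) := by
    simp only [HD, HA, HB, HC, fB, Matrix.cons_val]
    ring
  rw [h, mul_zero_of_rho (rho_phi _ _) (rho_phi _ _), zero_mul]

lemma two_ne (h5 : 5 ≤ p) : (2 : ZMod p) ≠ 0 := by
  have h : ((2 : ℕ) : ZMod p) ≠ 0 := by
    rw [Ne, ZMod.natCast_eq_zero_iff]
    intro h
    have := Nat.le_of_dvd (by norm_num) h
    omega
  exact_mod_cast h

lemma fB_inj (h5 : 5 ≤ p) : Function.Injective (fB (p := p)) := by
  rintro ⟨t, a, u, e, c⟩ ⟨t', a', u', e', c'⟩ h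
  have hA := congrArg (fun w => rho p (HA w)) h
  have hB := congrArg (fun w => rho p (HB w)) h
  simp only [fB_HA, fB_HB] at hA hB
  have hu : ((u' : ZMod p)) ^ 2 ≠ 0 := pow_ne_zero _ u'.ne_zero
  have ht : t = t' := by
    rw [hA] at hB
    have h1 := mul_right_cancel₀ hu hB
    have h2 : (-2 : ZMod p) ≠ 0 := neg_ne_zero.mpr (two_ne h5)
    exact mul_left_cancel₀ h2 h1
  subst ht
  have h0 := congrFun h 0
  have h1 := congrFun h 1
  have h2 := congrFun h 2
  simp only [fB, Matrix.cons_val] at h0 h1 h2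
  subst h0
  have h3 : phi (u : ZMod p) e = phi (u' : ZMod p) e' := by linear_combination h1
  rw [h3] at h2
  have h4 : phi (0 : ZMod p) c = phi 0 c' := by linear_combination h2
  obtain ⟨h5, h6⟩ := phi_inj h3
  obtain ⟨-, h7⟩ := phi_inj h4
  have h8 : u = u' := Units.ext h5
  subst h6 h7 h8
  rfl

/-- Elements with an exact double root modulo `p` at infinity. -/
def fC (x : ZMod p × (ZMod p)ˣ × ZMod p × ZMod (p ^ 2)) : Fin 4 → ZMod (p ^ 2) :=
  ![0, phi 0 x.1, phi (x.2.1 : ZMod p) x.2.2.1, x.2.2.2]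

lemma fC_inj : Function.Injective (fC (p := p)) := by
  rintro ⟨e, u, c, d⟩ ⟨e', u', c', d'⟩ h
  have h1 := congrFun h 1
  have h2 := congrFun h 2
  have h3 := congrFun h 3
  simp only [fC, Matrix.cons_val] at h1 h2 h3
  obtain ⟨-, h4⟩ := phi_inj h1
  obtain ⟨h5, h6⟩ := phi_inj h2
  have h8 : u = u' := Units.ext h5
  subst h3 h4 h6 h8
  rfl

lemma fC_H (x : ZMod p × (ZMod p)ˣ × ZMod p × ZMod (p ^ 2)) :
    HD (fC x) = 0 ∧ rho p (HA (fC x)) = 0 ∧ rho p (HC (fC x)) ≠ 0 := by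
  obtain ⟨e, u, c, d⟩ := x
  have hA : HA (fC (e, u, c, d)) = phi 0 e * phi 0 e := by
    simp only [HA, fC, Matrix.cons_val]
    ring
  have hC : HC (fC (e, u, c, d)) = phi (u : ZMod p) c ^ 2 - phi 0 e * d := by
    simp only [HC, fC, Matrix.cons_val]
  have hD : HD (fC (e, u, c, d)) = phi 0 e * phi 0 e * (3 * phi (u : ZMod p) c ^ 2 -
      4 * phi 0 e * d) := by
    simp only [HD, HA, HB, HC, fC, Matrix.cons_val]
    ring
  refine ⟨?_, ?_, ?_⟩
  · rw [hD, mul_zero_of_rho (rho_phi _ _) (rho_phi _ _), zero_mul]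
  · rw [hA, map_mul, rho_phi, zero_mul]
  · rw [hC, map_sub, map_pow, map_mul, rho_phi, rho_phi, zero_mul, sub_zero]
    exact pow_ne_zero _ u.ne_zero

lemma card_Z (h5 : 5 ≤ p) [Fintype (Fin 4 → ZMod (p ^ 2))] [DecidableEq (ZMod (p ^ 2))]
    [DecidableEq (ZMod p)] :
    p ^ 6 + p ^ 5 * (p - 1) + p ^ 4 * (p - 1) ≤
      (Finset.univ.filter fun w : Fin 4 → ZMod (p ^ 2) => HD w = 0).card := by
  classical
  have : NeZero p := ⟨hp.out.ne_zero⟩
  have : NeZero (p ^ 2) := ⟨pow_ne_zero _ hp.out.ne_zero⟩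
  set Z := Finset.univ.filter fun w : Fin 4 → ZMod (p ^ 2) => HD w = 0 with hZ
  have e1 := Finset.card_filter_add_card_filter_not (s := Z)
    (fun w : Fin 4 → ZMod (p ^ 2) => rho p (HA w) = 0)
  have e2 := Finset.card_filter_add_card_filter_not
    (s := Z.filter fun w : Fin 4 → ZMod (p ^ 2) => rho p (HA w) = 0)
    (fun w : Fin 4 → ZMod (p ^ 2) => rho p (HC w) = 0)
  have cA : p ^ 6 ≤ ((Z.filter fun w : Fin 4 → ZMod (p ^ 2) => rho p (HA w) = 0).filter
      (fun w : Fin 4 → ZMod (p ^ 2) => rho p (HC w) = 0)).card := by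
    have h := Finset.card_le_card_of_injOn
      (s := (Finset.univ : Finset (ZMod p × ZMod p × (Fin 4 → ZMod p))))
      (t := (Z.filter fun w : Fin 4 → ZMod (p ^ 2) => rho p (HA w) = 0).filter
        (fun w : Fin 4 → ZMod (p ^ 2) => rho p (HC w) = 0)) fA
      (fun x _ => by
        obtain ⟨h1, h2, h3⟩ := fA_H x
        simp [hZ, h1, h2, h3]) fA_inj.injOn
    refine le_trans (le_of_eq ?_) h
    simp only [Finset.card_univ, Fintype.card_prod, ZMod.card, Fintype.card_pi, Finset.prod_const,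
      Fintype.card_fin]
    ring
  have cB : p ^ 5 * (p - 1) ≤ (Z.filter fun w : Fin 4 → ZMod (p ^ 2) =>
      ¬ rho p (HA w) = 0).card := by
    have h := Finset.card_le_card_of_injOn
      (s := (Finset.univ : Finset (ZMod p × ZMod (p ^ 2) × (ZMod p)ˣ × ZMod p × ZMod p)))
      (t := Z.filter fun w : Fin 4 → ZMod (p ^ 2) => ¬ rho p (HA w) = 0) fB
      (fun x _ => by
        have h1 := fB_HD x
        have h2 := fB_HA x
        simp [hZ, h1, h2]) (fB_inj h5).injOn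
    refine le_trans (le_of_eq ?_) h
    simp only [Finset.card_univ, Fintype.card_prod, ZMod.card]
    rw [show Fintype.card (ZMod p)ˣ = p - 1 by convert ZMod.card_units p]
    ring
  have cC : p ^ 4 * (p - 1) ≤ ((Z.filter fun w : Fin 4 → ZMod (p ^ 2) =>
      rho p (HA w) = 0).filter (fun w : Fin 4 → ZMod (p ^ 2) => ¬ rho p (HC w) = 0)).card := by
    have h := Finset.card_le_card_of_injOn
      (s := (Finset.univ : Finset (ZMod p × (ZMod p)ˣ × ZMod p × ZMod (p ^ 2))))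
      (t := (Z.filter fun w : Fin 4 → ZMod (p ^ 2) => rho p (HA w) = 0).filter
        (fun w : Fin 4 → ZMod (p ^ 2) => ¬ rho p (HC w) = 0)) fC
      (fun x _ => by
        obtain ⟨h1, h2, h3⟩ := fC_H x
        simp [hZ, h1, h2, h3]) fC_inj.injOn
    refine le_trans (le_of_eq ?_) h
    simp only [Finset.card_univ, Fintype.card_prod, ZMod.card]
    rw [show Fintype.card (ZMod p)ˣ = p - 1 by convert ZMod.card_units p]
    ring
  omega

end

end DP

theorem stDP : StDP := by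
  classical
  intro p hp h5
  have : Fact p.Prime := ⟨hp⟩
  have : NeZero (p ^ 2) := ⟨pow_ne_zero _ hp.ne_zero⟩
  refine ⟨Finset.univ.filter fun w : Fin 4 → ZMod (p ^ 2) => ¬ HD w = 0, ?_, ?_⟩
  · have h1 := Finset.card_filter_add_card_filter_not
      (s := (Finset.univ : Finset (Fin 4 → ZMod (p ^ 2)))) (fun w => HD w = 0)
    have h2 := DP.card_Z h5
    have h3 : (Finset.univ : Finset (Fin 4 → ZMod (p ^ 2))).card = p ^ 8 := by
      simp only [Finset.card_univ, Fintype.card_pi, ZMod.card, Finset.prod_const, Fintype.card_fin]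
      ring
    rw [h3] at h1
    obtain ⟨q, rfl⟩ : ∃ q, p = q + 1 := ⟨p - 1, by omega⟩
    have h4 : (q + 1) ^ 2 - 1 = q ^ 2 + 2 * q := by
      have : (q + 1) ^ 2 = q ^ 2 + 2 * q + 1 := by ring
      omega
    rw [h4]
    rw [Nat.add_sub_cancel] at h2
    have h5 : (q + 1) ^ 8 = (q + 1) ^ 4 * (q ^ 2 + 2 * q) ^ 2 + ((q + 1) ^ 6 + (q + 1) ^ 5 * q +
      (q + 1) ^ 4 * q) := by ring
    omega
  · intro v hv
    rw [Finset.mem_filter]
    refine ⟨Finset.mem_univ _, ?_⟩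
    intro h
    apply hv
    have h1 : HD (red (p ^ 2) v) = ((HD v : ℤ) : ZMod (p ^ 2)) := by
      exact DP.map_HD (Int.castRingHom (ZMod (p ^ 2))) v
    rw [h1, ZMod.intCast_zmod_eq_zero_iff_dvd] at h
    exact_mod_cast h

end BKDH
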