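import Pool.Agent.Lib.MP_7c08ba_nt.DH.Stmts

/-!
The density at `2`.
-/

namespace BKDH

/-- The condition at `2` on residue classes modulo `4`. -/
def cond2 (w : Fin 4 → ZMod 4) : Prop :=
  HB w = 1 ∨ HB w = 3 ∨ (HB w = 0 ∧ (HA w * HC w = 1 ∨ HA w * HC w = 2)) ∨
    (HB w = 2 ∧ (HA w * HC w = 2 ∨ HA w * HC w = 3))

instance : DecidablePred cond2 := fun w => by unfold cond2; infer_instance

theorem card_cond2 : ((Finset.univ : Finset (Fin 4 → ZMod 4)).filter cond2).card ≤ 144 := by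
  decide +kernel

theorem cast4 (x k : ℤ) (h : x % 4 = k % 4) : ((x : ℤ) : ZMod 4) = (k : ZMod 4) :=
  (ZMod.intCast_eq_intCast_iff x k 4).2 h

theorem HA_red (M : ℕ) (v : Fin 4 → ℤ) : HA (red M v) = ((HA v : ℤ) : ZMod M) := by
  simp [HA, red]

theorem HB_red (M : ℕ) (v : Fin 4 → ℤ) : HB (red M v) = ((HB v : ℤ) : ZMod M) := by
  simp [HB, red]

theorem HC_red (M : ℕ) (v : Fin 4 → ℤ) : HC (red M v) = ((HC v : ℤ) : ZMod M) := by
  simp [HC, red]

theorem stDTwo : StDTwo := by
  refine ⟨(Finset.univ : Finset (Fin 4 → ZMod 4)).filter cond2, card_cond2, ?_⟩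
  intro v hv
  rw [Finset.mem_filter]
  refine ⟨Finset.mem_univ _, ?_⟩
  unfold cond2
  rw [HA_red, HB_red, HC_red, ← Int.cast_mul]
  have hD : HD v = 4 * (HA v * HC v) - HB v ^ 2 := by unfold HD; ring
  unfold F2 at hv
  rw [hD] at hv
  generalize HA v * HC v = P at hv ⊢
  generalize HB v = B at hv ⊢
  obtain ⟨m, j, hj0, hj4, hB⟩ : ∃ m j : ℤ, 0 ≤ j ∧ j < 4 ∧ B = 4 * m + j :=
    ⟨B / 4, B % 4, by omega, by omega, by omega⟩
  have hcases : j = 0 ∨ j = 1 ∨ j = 2 ∨ j = 3 := by omega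
  rcases hcases with h | h | h | h
  · subst h
    have hB2 : B ^ 2 = 16 * m ^ 2 := by rw [hB]; ring
    rw [hB2] at hv
    right; right; left
    refine ⟨by simpa using cast4 B 0 (by omega), ?_⟩
    have : P % 4 = 1 ∨ P % 4 = 2 := by omega
    rcases this with h | h
    · left; simpa using cast4 P 1 (by omega)
    · right; simpa using cast4 P 2 (by omega)
  · left
    simpa using cast4 B 1 (by omega)
  · subst h
    have hB2 : B ^ 2 = 16 * (m ^ 2 + m) + 4 := by rw [hB]; ring
    rw [hB2] at hv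
    right; right; right
    refine ⟨by simpa using cast4 B 2 (by omega), ?_⟩
    have : P % 4 = 2 ∨ P % 4 = 3 := by omega
    rcases this with h | h
    · left; simpa using cast4 P 2 (by omega)
    · right; simpa using cast4 P 3 (by omega)
  · right; left
    simpa using cast4 B 3 (by omega)

end BKDH
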