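import Pool.Agent.Lib.MP_7c08ba_nt.DH.Stmts

set_option autoImplicit false

/-!
Module Euler: partial Euler products of `ζ(2)`.
-/

noncomputable section

namespace BKDH

namespace Euler

open Filter Topology

/-- the product over all primes `p < n` -/
def P (n : ℕ) : ℝ := ∏ p ∈ Nat.primesBelow n, (1 - 1 / (p : ℝ) ^ 2)

lemma factor_pos {p : ℕ} (hp : 2 ≤ p) : 0 < 1 - 1 / (p : ℝ) ^ 2 := by
  have h1 : (2 : ℝ) ≤ p := by exact_mod_cast hp
  have h2 : (1 : ℝ) < (p : ℝ) ^ 2 := by nlinarith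
  have h3 : 1 / (p : ℝ) ^ 2 < 1 := by
    rw [div_lt_one (by positivity)]
    exact h2
  linarith

lemma factor_le {p : ℕ} : 1 - 1 / (p : ℝ) ^ 2 ≤ 1 := by
  have : (0 : ℝ) ≤ 1 / (p : ℝ) ^ 2 := by positivity
  linarith

lemma P_tendsto : Tendsto P atTop (𝓝 (6 / Real.pi ^ 2)) := by
  have h1 := riemannZeta_eulerProduct (s := 2) (by norm_num)
  have h2 : Tendsto (fun n : ℕ => (((P n)⁻¹ : ℝ) : ℂ)) atTop
      (𝓝 ((Real.pi ^ 2 / 6 : ℝ) : ℂ)) := by
    have h3 : riemannZeta 2 = ((Real.pi ^ 2 / 6 : ℝ) : ℂ) := by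
      rw [riemannZeta_two]
      push_cast
      rfl
    rw [← h3]
    refine h1.congr fun n => ?_
    rw [P, ← Finset.prod_inv_distrib, Complex.ofReal_prod]
    refine Finset.prod_congr rfl fun p _ => ?_
    rw [Complex.ofReal_inv]
    congr 1
    rw [Complex.ofReal_sub, Complex.ofReal_one, Complex.ofReal_div, Complex.ofReal_one,
      Complex.ofReal_pow, Complex.ofReal_natCast, Complex.cpow_neg, one_div]
    norm_num
  have h4 : Tendsto (fun n : ℕ => (P n)⁻¹) atTop (𝓝 (Real.pi ^ 2 / 6)) := by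
    exact Filter.tendsto_ofReal_iff.mp h2
  have h5 := h4.inv₀ (by positivity)
  simp only [inv_inv] at h5
  rw [inv_div] at h5
  exact h5

lemma P_eq (Q : ℕ) (hQ : 3 ≤ Q) : P (Q + 1) =
    2 / 3 * ∏ p ∈ primes5 Q, (1 - 1 / (p : ℝ) ^ 2) := by
  have h1 : Nat.primesBelow (Q + 1) = insert 2 (insert 3 (primes5 Q)) := by
    ext p
    simp only [Nat.primesBelow, primes5, Finset.mem_filter, Finset.mem_range, Finset.mem_insert,
      Finset.mem_Icc]
    constructor
    · rintro ⟨h1, h2⟩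
      by_cases h3 : p = 2
      · exact Or.inl h3
      by_cases h4 : p = 3
      · exact Or.inr (Or.inl h4)
      right; right
      refine ⟨⟨?_, by omega⟩, h2⟩
      by_contra h5
      have h6 := h2.two_le
      have h7 : p = 4 := by omega
      rw [h7] at h2
      norm_num at h2
    · rintro (rfl | rfl | ⟨⟨h1, h2⟩, h3⟩)
      · exact ⟨by omega, by norm_num⟩
      · exact ⟨by omega, by norm_num⟩
      · exact ⟨by omega, h3⟩
  have h2 : (3 : ℕ) ∉ primes5 Q := by
    simp [primes5]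
  have h3 : (2 : ℕ) ∉ insert 3 (primes5 Q) := by
    simp [primes5]
  rw [P, h1, Finset.prod_insert h3, Finset.prod_insert h2]
  push_cast
  ring

lemma antitone : Antitone fun Q : ℕ => ∏ p ∈ primes5 Q, (1 - 1 / (p : ℝ) ^ 2) := by
  intro a b hab
  refine Finset.prod_le_prod_of_subset_of_le_one ?_ (fun p hp => ?_) (fun p _ _ => factor_le)
  · intro p hp
    rw [primes5, Finset.mem_filter, Finset.mem_Icc] at hp ⊢
    exact ⟨⟨hp.1.1, hp.1.2.trans hab⟩, hp.2⟩
  · rw [primes5, Finset.mem_filter, Finset.mem_Icc] at hp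
    exact (factor_pos (by omega)).le

lemma Q_tendsto : Tendsto (fun Q : ℕ => ∏ p ∈ primes5 Q, (1 - 1 / (p : ℝ) ^ 2)) atTop
    (𝓝 (9 / Real.pi ^ 2)) := by
  have h1 := (P_tendsto.comp (tendsto_add_atTop_nat 1)).const_mul (3 / 2)
  have h2 : 3 / 2 * (6 / Real.pi ^ 2) = 9 / Real.pi ^ 2 := by ring
  rw [h2] at h1
  refine h1.congr' ?_
  filter_upwards [eventually_ge_atTop 3] with Q hQ
  rw [Function.comp_apply, P_eq Q hQ]
  ring

end Euler

theorem stEuler : StEuler := by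
  refine ⟨fun Q => Euler.antitone.le_of_tendsto Euler.Q_tendsto Q, fun ε hε => ?_⟩
  have h1 := Euler.Q_tendsto.eventually_le_const (show 9 / Real.pi ^ 2 < 9 / Real.pi ^ 2 + ε by
    linarith)
  exact h1.exists

end BKDH
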