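import Pool.Agent.Lib.MP_7c08ba_nt.DH.Stmts

/-!
The binary cubic form of a reduced basis.
-/

namespace BKDH

/-- If `x = a³ / (c w)` is fixed by conjugation then `w` is a cube. -/
theorem form_cube {F : Type} [Field F] [CharZero F] (σ : F →+* F) (w a : F) (c : ℕ) (A n : ℤ)
    (hc : c ≠ 0) (hw : w * σ w = 1) (hA : a * σ a = A) (hA0 : 0 < A)
    (hx : a ^ 3 / ((c : F) * w) = n) (hfix : σ (a ^ 3 / ((c : F) * w)) = n) :
    ∃ b : F, b ^ 3 = w := by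
  have hcF : (c : F) ≠ 0 := Nat.cast_ne_zero.mpr hc
  have hw0 : w ≠ 0 := fun h => by simp [h] at hw
  have hw1 : σ w ≠ 0 := fun h => by simp [h] at hw
  have hx' : a ^ 3 = n * ((c : F) * w) := (div_eq_iff (mul_ne_zero hcF hw0)).mp hx
  have hf : σ a ^ 3 / ((c : F) * σ w) = n := by
    rw [← hfix, map_div₀, map_pow, map_mul, map_natCast]
  have hf' : σ a ^ 3 = n * ((c : F) * σ w) := (div_eq_iff (mul_ne_zero hcF hw1)).mp hf
  have h1 : (A : F) ^ 3 = ((c : F) * n) ^ 2 := by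
    rw [← hA]
    calc (a * σ a) ^ 3 = a ^ 3 * σ a ^ 3 := by ring
      _ = (n * ((c : F) * w)) * (n * ((c : F) * σ w)) := by rw [hx', hf']
      _ = ((c : F) * n) ^ 2 * (w * σ w) := by ring
      _ = ((c : F) * n) ^ 2 := by rw [hw, mul_one]
  have h2 : A ^ 3 = ((c : ℤ) * n) ^ 2 := by
    have : ((A ^ 3 : ℤ) : F) = (((c : ℤ) * n) ^ 2 : ℤ) := by push_cast; exact h1
    exact_mod_cast this
  have h3 : A ∣ (c : ℤ) * n := by
    have : A ^ 2 ∣ ((c : ℤ) * n) ^ 2 := by rw [← h2]; exact pow_dvd_pow A (by norm_num)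
    exact (Int.pow_dvd_pow_iff (by norm_num)).mp this
  obtain ⟨m, hm⟩ := h3
  have h4 : A = m ^ 2 := by
    have : A ^ 2 * A = A ^ 2 * m ^ 2 := by
      calc A ^ 2 * A = A ^ 3 := by ring
        _ = (A * m) ^ 2 := by rw [h2, hm]
        _ = A ^ 2 * m ^ 2 := by ring
    exact mul_left_cancel₀ (pow_ne_zero 2 hA0.ne') this
  have hm0 : m ≠ 0 := by rintro rfl; simp at h4; omega
  have h5 : (c : ℤ) * n = m ^ 3 := by rw [hm, h4]; ring
  have h6 : (c : F) * n = (m : F) ^ 3 := by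
    have : (((c : ℤ) * n : ℤ) : F) = ((m ^ 3 : ℤ) : F) := by rw [h5]
    push_cast at this; exact this
  have hmF : (m : F) ≠ 0 := Int.cast_ne_zero.mpr hm0
  refine ⟨a / m, ?_⟩
  rw [div_pow, hx', div_eq_iff (pow_ne_zero 3 hmF), ← h6]
  ring

/-- The Hessian identities. -/
theorem form_hess {F : Type} [Field F] (s p p' a a' b b' cc : F)
    (v0 v1 v2 v3 : F) (hs : s ≠ 0) (hpp : p * p' * cc ^ 2 = 1) (hd : a * b' - a' * b = cc * s)
    (h0 : v0 * s = a ^ 3 * p - a' ^ 3 * p') (h1 : v1 * s = a ^ 2 * b * p - a' ^ 2 * b' * p')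
    (h2 : v2 * s = a * b ^ 2 * p - a' * b' ^ 2 * p') (h3 : v3 * s = b ^ 3 * p - b' ^ 3 * p') :
    v1 ^ 2 - v0 * v2 = a * a' ∧ v1 * v2 - v0 * v3 = a * b' + a' * b ∧
      v2 ^ 2 - v1 * v3 = b * b' := by
  have hs2 : s ^ 2 ≠ 0 := pow_ne_zero 2 hs
  have key : p * p' * (a * b' - a' * b) ^ 2 = s ^ 2 := by
    rw [hd]
    calc p * p' * (cc * s) ^ 2 = (p * p' * cc ^ 2) * s ^ 2 := by ring
      _ = s ^ 2 := by rw [hpp, one_mul]
  refine ⟨?_, ?_, ?_⟩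
  · refine mul_right_cancel₀ hs2 ?_
    calc (v1 ^ 2 - v0 * v2) * s ^ 2 = (v1 * s) ^ 2 - (v0 * s) * (v2 * s) := by ring
      _ = a * a' * (p * p' * (a * b' - a' * b) ^ 2) := by rw [h0, h1, h2]; ring
      _ = a * a' * s ^ 2 := by rw [key]
  · refine mul_right_cancel₀ hs2 ?_
    calc (v1 * v2 - v0 * v3) * s ^ 2 = (v1 * s) * (v2 * s) - (v0 * s) * (v3 * s) := by ring
      _ = (a * b' + a' * b) * (p * p' * (a * b' - a' * b) ^ 2) := by rw [h0, h1, h2, h3]; ring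
      _ = (a * b' + a' * b) * s ^ 2 := by rw [key]
  · refine mul_right_cancel₀ hs2 ?_
    calc (v2 ^ 2 - v1 * v3) * s ^ 2 = (v2 * s) ^ 2 - (v1 * s) * (v3 * s) := by ring
      _ = b * b' * (p * p' * (a * b' - a' * b) ^ 2) := by rw [h1, h2, h3]; ring
      _ = b * b' * s ^ 2 := by rw [key]

theorem stForm (h : StCoord) : StForm := by
  intro F _ _ Δ s σ j hQ w c α β A B C hc hw hcube hα hβ hd hA hB hC hA0 hBA hAC i0 i1 i2 i3
  obtain ⟨_, _, hint, hfix, _, _, hs0, _⟩ := h F Δ s σ j hQ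
  have hc0 : c ≠ 0 := by rcases hc with rfl | rfl <;> norm_num
  have hcF : (c : F) ≠ 0 := Nat.cast_ne_zero.mpr hc0
  have hw0 : w ≠ 0 := fun h => by simp [h] at hw
  have hw1 : σ w ≠ 0 := fun h => by simp [h] at hw
  obtain ⟨v0, h0⟩ := hint _ i0
  obtain ⟨v1, h1⟩ := hint _ i1
  obtain ⟨v2, h2⟩ := hint _ i2
  obtain ⟨v3, h3⟩ := hint _ i3
  have hp : ∀ x : F, σ (x / ((c : F) * w)) = σ x * ((c : F) * σ w)⁻¹ := by
    intro x
    rw [map_div₀, map_mul, map_natCast, div_eq_mul_inv]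
  have hpp : ((c : F) * w)⁻¹ * ((c : F) * σ w)⁻¹ * (c : F) ^ 2 = 1 := by
    have : (c : F) * w * ((c : F) * σ w) = (c : F) ^ 2 := by
      calc (c : F) * w * ((c : F) * σ w) = (c : F) ^ 2 * (w * σ w) := by ring
        _ = (c : F) ^ 2 := by rw [hw, mul_one]
    rw [← mul_inv, this]
    exact inv_mul_cancel₀ (pow_ne_zero 2 hcF)
  obtain ⟨e1, e2, e3⟩ := form_hess s ((c : F) * w)⁻¹ ((c : F) * σ w)⁻¹ α (σ α) β (σ β) (c : F)
    (v0 : F) v1 v2 v3 hs0 hpp hd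
    (by rw [← h0, hp, div_eq_mul_inv, map_pow]) (by rw [← h1, hp, div_eq_mul_inv, map_mul, map_pow])
    (by rw [← h2, hp, div_eq_mul_inv, map_mul, map_pow]) (by rw [← h3, hp, div_eq_mul_inv, map_pow])
  rw [hA] at e1
  rw [hB] at e2
  rw [hC] at e3
  have f1 : v1 ^ 2 - v0 * v2 = A := by exact_mod_cast e1
  have f2 : v1 * v2 - v0 * v3 = B := by exact_mod_cast e2
  have f3 : v2 ^ 2 - v1 * v3 = C := by exact_mod_cast e3
  have hHA : HA ![v0, v1, v2, v3] = A := by simpa [HA] using f1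
  have hHB : HB ![v0, v1, v2, v3] = B := by simpa [HB] using f2
  have hHC : HC ![v0, v1, v2, v3] = C := by simpa [HC] using f3
  have hC0 : 0 < C := lt_of_lt_of_le hA0 hAC
  have hv0 : v0 ≠ 0 := by
    intro hv
    rw [hv, Int.cast_zero, zero_mul, sub_eq_zero] at h0
    obtain ⟨n, hn⟩ := hfix _ i0 h0.symm
    exact hcube (form_cube σ w α c A n hc0 hw hA hA0 hn (h0 ▸ hn))
  have hv3 : v3 ≠ 0 := by
    intro hv
    rw [hv, Int.cast_zero, zero_mul, sub_eq_zero] at h3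
    obtain ⟨n, hn⟩ := hfix _ i3 h3.symm
    exact hcube (form_cube σ w β c C n hc0 hw hC hC0 hn (h3 ▸ hn))
  have hdisc : 4 * A * C - B ^ 2 = (c : ℤ) ^ 2 * Δ := by
    have : ((4 * A * C - B ^ 2 : ℤ) : F) = (((c : ℤ) ^ 2 * Δ : ℤ) : F) := by
      push_cast
      rw [← hA, ← hB, ← hC]
      calc 4 * (α * σ α) * (β * σ β) - (α * σ β + σ α * β) ^ 2
          = -(α * σ β - σ α * β) ^ 2 := by ring
        _ = (c : F) ^ 2 * Δ := by rw [hd, mul_pow, hQ.s2]; ring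
    exact_mod_cast this
  refine ⟨![v0, v1, v2, v3], ⟨?_, ?_, ?_, ?_⟩, ?_, ?_, ?_, ?_, ?_, ?_⟩
  · rw [hHA]; exact hA0
  · rw [hHA, hHB]; exact hBA
  · rw [hHA, hHC]; exact hAC
  · simpa using hv0
  · simpa using hv3
  · rw [HD, hHA, hHB, hHC]; exact hdisc
  · simpa using h0.symm
  · simpa using h1.symm
  · simpa using h2.symm
  · simpa using h3.symm

end BKDH
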