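import Pool.Agent.Lib.MP_7c08ba_nt.DH.Stmts

/-! At least half of the fields are rigid: final arithmetic. -/

namespace BKDH

theorem stHalf (h1 : StNA) (h2 : StNB) (h3 : StNF) (h4 : StBad) : StHalf := by
  intro ε hε
  have hpi := Real.pi_pos
  set P : ℝ := Real.pi ^ 2 with hP
  have hP0 : 0 < P := by positivity
  set c : ℝ := 1 / P with hc
  have hc0 : 0 < c := by positivity
  obtain ⟨e, he0, he1, he2⟩ : ∃ e : ℝ, 0 < e ∧ e ≤ 9 / 16 * c ∧ e ≤ ε * (9 / 16 * c) :=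
    ⟨min (9 / 16 * c) (ε * (9 / 16 * c)), lt_min (by positivity) (by positivity),
      min_le_left _ _, min_le_right _ _⟩
  obtain ⟨X₁, h1⟩ := h1 e he0
  obtain ⟨X₂, h2⟩ := h2 e he0
  obtain ⟨X₃, h3⟩ := h3 e he0
  refine ⟨max X₁ (max X₂ X₃), fun X hX => ?_⟩
  obtain ⟨fA, hA⟩ := h1 X ((le_max_left _ _).trans hX)
  obtain ⟨fB, hB⟩ := h2 X ((le_max_left _ _).trans ((le_max_right _ _).trans hX))
  have hF := h3 X ((le_max_right _ _).trans ((le_max_right _ _).trans hX))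
  have hbad := h4 X fA fB
  have eA : 3 / (4 * P) = 3 / 4 * c := by rw [hc]; ring
  have eB : 3 / (2 * P) = 3 / 2 * c := by rw [hc]; ring
  have eF : 9 / (8 * P) = 9 / 8 * c := by rw [hc]; ring
  rw [eA] at hA
  rw [eB] at hB
  rw [eF] at hF
  set S : Set ℕ := {Δ : ℕ | Δ ≤ X ∧ IsFund Δ ∧ Δ % 3 = 2} with hS
  have hSf : S.Finite := (Set.finite_Iic X).subset fun Δ h => h.1
  have hsplit := Set.ncard_inter_add_ncard_sdiff_eq_ncard S {Δ : ℕ | RigidAll Δ} hSf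
  have eG : S ∩ {Δ : ℕ | RigidAll Δ} = {Δ : ℕ | Δ ≤ X ∧ IsFund Δ ∧ Δ % 3 = 2 ∧ RigidAll Δ} := by
    ext Δ
    simp only [hS, Set.mem_inter_iff, Set.mem_ofPred_eq]
    tauto
  have eD : S \ {Δ : ℕ | RigidAll Δ} =
      {Δ : ℕ | Δ ≤ X ∧ IsFund Δ ∧ Δ % 3 = 2 ∧ ¬ RigidAll Δ} := by
    ext Δ
    simp only [hS, Set.mem_sdiff, Set.mem_ofPred_eq]
    tauto
  rw [eG, eD] at hsplit
  have hbad' : (4 : ℝ) * ({Δ : ℕ | Δ ≤ X ∧ IsFund Δ ∧ Δ % 3 = 2 ∧ ¬ RigidAll Δ}.ncard : ℝ) ≤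
      ({v : Fin 4 → ℤ | Red v ∧ TypeA v ∧ ∃ Δ : ℕ, Δ ≤ X ∧ IsFund Δ ∧ HD v = Δ}.ncard : ℝ) +
      ({v : Fin 4 → ℤ | Red v ∧ TypeB v ∧ ∃ Δ : ℕ, Δ ≤ X ∧ IsFund Δ ∧ HD v = 9 * Δ}.ncard : ℝ) := by
    exact_mod_cast hbad
  have hsplit' : ({Δ : ℕ | Δ ≤ X ∧ IsFund Δ ∧ Δ % 3 = 2 ∧ RigidAll Δ}.ncard : ℝ) +
      ({Δ : ℕ | Δ ≤ X ∧ IsFund Δ ∧ Δ % 3 = 2 ∧ ¬ RigidAll Δ}.ncard : ℝ) = (S.ncard : ℝ) := by
    exact_mod_cast hsplit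
  have hX0 : (0 : ℝ) ≤ X := Nat.cast_nonneg X
  have k1 : 9 / 16 * c * X ≤ S.ncard := by
    refine le_trans ?_ hF
    apply mul_le_mul_of_nonneg_right _ hX0
    linarith
  have k2 : e * X ≤ ε * S.ncard := by
    calc e * X ≤ ε * (9 / 16 * c) * X := mul_le_mul_of_nonneg_right he2 hX0
      _ = ε * (9 / 16 * c * X) := by ring
      _ ≤ ε * S.ncard := mul_le_mul_of_nonneg_left k1 hε.le
  nlinarith

end BKDH
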