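import Pool.Agent.Lib.MP_7c08ba_nt.DH.CAux

/-!
First cohomology of the `S`-units of a cyclic cubic extension.
-/

namespace BKDH
namespace Hone

open Module NumberField BKGen CAux

/-- Hilbert's theorem 90 for a cyclic cubic extension. -/
lemma hilbert {F N : Type} [Field F] [Field N] [Algebra F N] {g : N ≃ₐ[F] N}
    (h3 : finrank F N = 3) (hg : g ≠ 1) {z : N} (hz : z * g z * g (g z) = 1) :
    ∃ x : N, x ≠ 0 ∧ g x = z * x := by
  have hz0 : z ≠ 0 := by
    rintro rfl
    simp at hz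
  have hgz0 : g z ≠ 0 := (map_ne_zero g).mpr hz0
  set w := z⁻¹ with hw
  have hw0 : w ≠ 0 := inv_ne_zero hz0
  have hw1 : w * g w * g (g w) = 1 := by
    rw [hw, map_inv₀, map_inv₀, ← mul_inv, ← mul_inv, hz, inv_one]
  obtain ⟨c, hc⟩ : ∃ c : N, c + w * g c + w * g w * g (g c) ≠ 0 := by
    by_contra hcon
    push Not at hcon
    let χ : Fin 3 → (N →* N) := fun k => (((g ^ (k : ℕ) : N ≃ₐ[F] N) : N →+* N) : N →* N)
    have hχ : Function.Injective χ := by
      intro k m h
      have h1 : g ^ (k : ℕ) = g ^ (m : ℕ) := by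
        ext x
        exact congrArg (fun f => f x) h
      have h2 := pow_injOn_Iio_orderOf (x := g) (by rw [order_three h3 hg]; exact k.2)
        (by rw [order_three h3 hg]; exact m.2) h1
      exact Fin.ext h2
    have hli := (linearIndependent_monoidHom N N).comp χ hχ
    rw [Fintype.linearIndependent_iff] at hli
    have h1 := hli ![1, w, w * g w] (by
      funext c
      rw [Fin.sum_univ_three]
      have e0 : χ 0 c = c := rfl
      have e1 : χ 1 c = g c := by
        show (g ^ 1) c = g c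
        rw [pow_one]
      have e2 : χ 2 c = g (g c) := by
        show (g ^ 2) c = g (g c)
        rw [pow_two, AlgEquiv.mul_apply]
      simp only [Pi.add_apply, Pi.smul_apply, Function.comp_apply, smul_eq_mul, e0, e1, e2,
        Pi.zero_apply, Matrix.cons_val_zero, Matrix.cons_val_one, Matrix.cons_val]
      rw [one_mul]
      exact hcon c) 0
    simp at h1
  refine ⟨c + w * g c + w * g w * g (g c), hc, ?_⟩
  have h1 : g (c + w * g c + w * g w * g (g c)) =
      g c + g w * g (g c) + g w * g (g w) * c := by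
    rw [map_add, map_add, map_mul, map_mul, map_mul, g_three h3 hg]
  rw [h1]
  have h2 : z * w = 1 := mul_inv_cancel₀ hz0
  have h3' : z * (c + w * g c + w * g w * g (g c)) = z * c + (z * w) * g c +
      (z * w) * (g w * g (g c)) := by ring
  have h4 : g w * g (g w) = z := by
    have : z * (w * g w * g (g w)) = z * 1 := by rw [hw1]
    calc g w * g (g w) = (z * w) * (g w * g (g w)) := by rw [h2, one_mul]
      _ = z * (w * g w * g (g w)) := by ring
      _ = z := by rw [hw1, mul_one]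
  rw [h3', h2, h4]
  ring

end Hone

open Module NumberField BKGen CAux in
theorem stHone (h : StSU) : StHone := by
  intro F _ _ Δ s σ j hQ hR N _ _ _ g h3 hg hunr z hz0 hz hz1
  obtain ⟨x, hx0, hx⟩ := Hone.hilbert h3 hg hz1
  obtain ⟨y, hy⟩ := fixed_norm h3 hg x
  haveI := fd h3
  -- norms of the conjugates
  have hgx : ∀ (l : ℕ) [Fact l.Prime], l ≠ 3 → ∀ i : N →+* PadicAlgCl l, ‖i (g x)‖ = ‖i x‖ := by
    intro l _ hl i
    rw [hx, map_mul, norm_mul, hz l hl i, one_mul]
  have hNx : ∀ (l : ℕ) [Fact l.Prime], l ≠ 3 → ∀ i : N →+* PadicAlgCl l,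
      ‖i (algebraMap F N y)‖ = ‖i x‖ ^ 3 := by
    intro l _ hl i
    have h1 := hgx l hl i
    have h2 : ‖i (g (g x))‖ = ‖i (g x)‖ := by
      have := hgx l hl (i.comp (g : N →+* N))
      exact this
    rw [hy, map_mul, map_mul, norm_mul, norm_mul, h2, h1]
    ring
  have hy0 : y ≠ 0 := by
    rintro rfl
    rw [map_zero] at hy
    have : x * g x * g (g x) ≠ 0 := mul_ne_zero (mul_ne_zero hx0 ((map_ne_zero g).mpr hx0))
      ((map_ne_zero g).mpr ((map_ne_zero g).mpr hx0))
    exact this hy.symm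
  have hya : ∀ (l : ℕ) [Fact l.Prime], l ≠ 3 → ∀ i : F →+* PadicAlgCl l,
      ∃ b : F, ‖i y‖ = ‖i b‖ ^ 3 := by
    intro l _ hl i
    obtain ⟨J, hJ⟩ := exists_extension (Ω := N) l i
    obtain ⟨b, hb⟩ := hunr l hl J x
    refine ⟨b, ?_⟩
    have h1 := hNx l hl J
    have e : ∀ c : F, J (algebraMap F N c) = i c := fun c => congrArg (fun f => f c) hJ
    rw [hb, e, e] at h1
    exact h1
  -- the `S`-unit
  have hj0 : (j y)⁻¹ ≠ 0 := inv_ne_zero (by rwa [map_ne_zero])
  obtain ⟨u, hu0, hu, κ, hκ0, hκ⟩ := (h F Δ s σ j hQ hR).1 j (j y)⁻¹ hj0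
  have hju : j (u * y) = (κ⁻¹) ^ 3 := by
    rw [map_mul]
    have hjy : j y ≠ 0 := by rwa [map_ne_zero]
    have hju0 : j u ≠ 0 := by rwa [map_ne_zero]
    field_simp
    rw [inv_eq_iff_eq_inv] at hκ
    rw [hκ]
    field_simp
  obtain ⟨b, hb⟩ := hR ((algebraMap ℚ_[3] (PadicAlgCl 3)).comp j) (u * y) (mul_ne_zero hu0 hy0)
    (by
      intro l _ hl i
      obtain ⟨b, hb⟩ := hya l hl i
      refine ⟨b, ?_⟩
      rw [map_mul, norm_mul, hu l hl i, one_mul, hb])
    ⟨algebraMap ℚ_[3] (PadicAlgCl 3) κ⁻¹, IntermediateField.algebraMap_mem _ _, by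
      rw [← map_pow, ← hju]
      rfl⟩
  have hb0 : b ≠ 0 := by
    rintro rfl
    rw [zero_pow (by norm_num)] at hb
    exact mul_ne_zero hu0 hy0 hb.symm
  have hbN : algebraMap F N b ≠ 0 := by rwa [map_ne_zero]
  refine ⟨x / algebraMap F N b, div_ne_zero hx0 hbN, ?_, ?_⟩
  · intro l _ hl i
    have h1 : ‖i (algebraMap F N b)‖ ^ 3 = ‖i x‖ ^ 3 := by
      have h2 := hNx l hl i
      have h4 : ‖i (algebraMap F N u)‖ = 1 := hu l hl (i.comp (algebraMap F N))
      rw [← norm_pow, ← map_pow, ← map_pow, hb, map_mul, map_mul, norm_mul, h4, one_mul, h2]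
    have h2 : ‖i (algebraMap F N b)‖ = ‖i x‖ :=
      (pow_left_inj₀ (norm_nonneg _) (norm_nonneg _) (by norm_num)).mp h1
    rw [map_div₀, norm_div, h2, div_self]
    rw [norm_ne_zero_iff, map_ne_zero]
    exact hx0
  · rw [map_div₀, AlgEquiv.commutes, hx]
    field_simp

end BKDH
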