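import Pool.Agent.Lib.MP_7c08ba_nt.DH.Stmts

/-!
The integral of the Jacobian over `Uset` (module `DH-Int`).
-/

namespace BKDH

namespace IntM

open MeasureTheory Set
open scoped ENNReal

theorem measurable_cons (n : ℕ) :
    Measurable fun z : ℝ × (Fin n → ℝ) => (Fin.cons z.1 z.2 : Fin (n + 1) → ℝ) := by
  refine measurable_pi_iff.2 fun i => ?_
  refine Fin.cases ?_ (fun j => ?_) i
  · simpa only [Fin.cons_zero] using measurable_fst
  · simp only [Fin.cons_succ]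
    fun_prop

/-- peeling off the first coordinate -/
theorem peel {n : ℕ} (f : (Fin (n + 1) → ℝ) → ℝ≥0∞) (hf : Measurable f) :
    ∫⁻ u, f u = ∫⁻ w : Fin n → ℝ, ∫⁻ a : ℝ, f (Fin.cons a w) := by
  have e := (volume_preserving_piFinSuccAbove (fun _ : Fin (n + 1) => ℝ) 0).symm
  rw [← e.lintegral_comp_emb (MeasurableEquiv.measurableEmbedding _) f]
  have h1 : ∀ z : ℝ × (Fin n → ℝ),
      f ((MeasurableEquiv.piFinSuccAbove (fun _ : Fin (n + 1) => ℝ) 0).symm z) =
        f (Fin.cons z.1 z.2) := by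
    intro z
    congr 1
    exact Fin.insertNth_zero' z.1 z.2
  simp_rw [h1]
  rw [Measure.volume_eq_prod, lintegral_prod_symm]
  exact Measurable.aemeasurable (hf.comp (measurable_cons n))

/-- two coordinates -/
theorem two (f : (Fin 2 → ℝ) → ℝ≥0∞) (hf : Measurable f) :
    ∫⁻ u, f u = ∫⁻ x : ℝ, ∫⁻ y : ℝ, f ![x, y] := by
  have e := (volume_preserving_finTwoArrow ℝ).symm
  rw [← e.lintegral_comp_emb (MeasurableEquiv.measurableEmbedding _) f]
  have h1 : ∀ z : ℝ × ℝ, f (MeasurableEquiv.finTwoArrow.symm z) = f ![z.1, z.2] := by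
    intro z
    rfl
  simp_rw [h1]
  rw [Measure.volume_eq_prod, lintegral_prod]
  refine Measurable.aemeasurable (hf.comp ?_)
  exact (MeasurableEquiv.finTwoArrow (α := ℝ)).symm.measurable

/-- iterated integral in four variables -/
theorem iter (f : (Fin 4 → ℝ) → ℝ≥0∞) (hf : Measurable f) :
    ∫⁻ u, f u = ∫⁻ x : ℝ, ∫⁻ y : ℝ, ∫⁻ b : ℝ, ∫⁻ a : ℝ, f ![a, b, x, y] := by
  rw [peel f hf]
  have hm : Measurable fun z : (Fin 3 → ℝ) × ℝ => f (Fin.cons z.2 z.1) := by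
    exact hf.comp ((measurable_cons 3).comp measurable_swap)
  rw [peel (fun w : Fin 3 → ℝ => ∫⁻ a : ℝ, f (Fin.cons a w)) hm.lintegral_prod_right]
  have hm2 : Measurable fun z : ((Fin 2 → ℝ) × ℝ) × ℝ =>
      f (Fin.cons z.2 (Fin.cons z.1.2 z.1.1 : Fin 3 → ℝ)) := by
    refine hm.comp (Measurable.prodMk ?_ measurable_snd)
    exact ((measurable_cons 2).comp measurable_swap).comp measurable_fst
  rw [two _ (hm2.lintegral_prod_right.lintegral_prod_right)]
  rfl

/-- the integral over a disc -/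
theorem disc (c ρ : ℝ) (hc : 0 ≤ c) (hρ : 0 < ρ) :
    ∫⁻ b : ℝ, ∫⁻ a : ℝ, (if a ^ 2 + b ^ 2 ≤ ρ ^ 2 then ENNReal.ofReal (c * (a ^ 2 + b ^ 2)) else 0) =
      ENNReal.ofReal (Real.pi * c * ρ ^ 4 / 2) := by
  have hmeas : Measurable fun p : ℝ × ℝ =>
      (if p.1 ^ 2 + p.2 ^ 2 ≤ ρ ^ 2 then ENNReal.ofReal (c * (p.1 ^ 2 + p.2 ^ 2)) else 0) := by
    refine Measurable.ite ?_ (by fun_prop) measurable_const
    exact measurableSet_le (by fun_prop) measurable_const
  have h1 : ∫⁻ b : ℝ, ∫⁻ a : ℝ,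
      (if a ^ 2 + b ^ 2 ≤ ρ ^ 2 then ENNReal.ofReal (c * (a ^ 2 + b ^ 2)) else 0) =
      ∫⁻ p : ℝ × ℝ, (if p.1 ^ 2 + p.2 ^ 2 ≤ ρ ^ 2 then
        ENNReal.ofReal (c * (p.1 ^ 2 + p.2 ^ 2)) else 0) := by
    rw [Measure.volume_eq_prod, lintegral_prod_symm _ hmeas.aemeasurable]
  rw [h1, ← lintegral_comp_polarCoord_symm]
  set h : ℝ → ℝ≥0∞ := fun r => if r ≤ ρ then ENNReal.ofReal (c * r ^ 3) else 0 with hh
  have hhm : Measurable h := by
    refine Measurable.ite ?_ (by fun_prop) measurable_const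
    exact measurableSet_le measurable_id measurable_const
  have h2 : ∫⁻ p in polarCoord.target, ENNReal.ofReal p.1 •
      (if (polarCoord.symm p).1 ^ 2 + (polarCoord.symm p).2 ^ 2 ≤ ρ ^ 2 then
        ENNReal.ofReal (c * ((polarCoord.symm p).1 ^ 2 + (polarCoord.symm p).2 ^ 2)) else 0) =
      ∫⁻ p in polarCoord.target, h p.1 := by
    refine setLIntegral_congr_fun polarCoord.open_target.measurableSet ?_
    intro p hp
    have hp0 : 0 < p.1 := by
      rw [polarCoord_target] at hp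
      exact hp.1
    have h3 : (polarCoord.symm p).1 ^ 2 + (polarCoord.symm p).2 ^ 2 = p.1 ^ 2 := by
      rw [polarCoord_symm_apply]
      simp only
      nlinarith [Real.sin_sq_add_cos_sq p.2]
    simp only [h3, hh, smul_eq_mul]
    have h4 : p.1 ^ 2 ≤ ρ ^ 2 ↔ p.1 ≤ ρ := by
      constructor
      · intro hle
        exact le_of_sq_le_sq hle hρ.le
      · intro hle
        exact pow_le_pow_left₀ hp0.le hle 2
    by_cases h5 : p.1 ≤ ρ
    · rw [if_pos (h4.2 h5), if_pos h5, ← ENNReal.ofReal_mul hp0.le]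
      congr 1
      ring
    · rw [if_neg (fun hc => h5 (h4.1 hc)), if_neg h5, mul_zero]
  rw [h2, polarCoord_target, Measure.volume_eq_prod, ← Measure.prod_restrict,
    lintegral_prod _ (by exact (hhm.comp measurable_fst).aemeasurable)]
  simp only [lintegral_const, Measure.restrict_apply MeasurableSet.univ, univ_inter,
    Real.volume_Ioo]
  rw [lintegral_mul_const _ hhm]
  have h6 : ∫⁻ r in Ioi (0 : ℝ), h r = ENNReal.ofReal (c * ρ ^ 4 / 4) := by
    have h7 : ∫⁻ r in Ioi (0 : ℝ), h r = ∫⁻ r in Ioc (0 : ℝ) ρ, ENNReal.ofReal (c * r ^ 3) := by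
      rw [← lintegral_indicator measurableSet_Ioi, ← lintegral_indicator measurableSet_Ioc]
      refine lintegral_congr fun r => ?_
      by_cases hr : r ∈ Ioi (0 : ℝ)
      · by_cases hr2 : r ≤ ρ
        · have hr3 : r ∈ Ioc (0 : ℝ) ρ := ⟨hr, hr2⟩
          rw [indicator_of_mem hr, indicator_of_mem hr3, hh]
          simp only [if_pos hr2]
        · rw [indicator_of_mem hr, indicator_of_notMem (fun hc => hr2 hc.2), hh]
          simp only [if_neg hr2]
      · rw [indicator_of_notMem hr, indicator_of_notMem (fun hc => hr hc.1)]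
    rw [h7, ← ofReal_integral_eq_lintegral_ofReal]
    · congr 1
      rw [← intervalIntegral.integral_of_le hρ.le, intervalIntegral.integral_const_mul,
        integral_pow]
      norm_num
      ring
    · exact (Continuous.integrableOn_Icc (by fun_prop)).mono_set Ioc_subset_Icc_self
    · refine (ae_restrict_iff' measurableSet_Ioc).2 (Filter.Eventually.of_forall fun r hr => ?_)
      exact mul_nonneg hc (pow_nonneg hr.1.le 3)
  rw [h6, ← ENNReal.ofReal_mul (by positivity)]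
  congr 1
  ring

/-- the integral over `y` -/
theorem yint (x : ℝ) (hx : |x| ≤ 1 / 2) :
    ∫⁻ y : ℝ, (if 0 < y ∧ 1 ≤ x ^ 2 + y ^ 2 then ENNReal.ofReal (Real.pi / (2 * y ^ 2)) else 0) =
      ENNReal.ofReal (Real.pi / 2 * (1 / Real.sqrt (1 - x ^ 2))) := by
  have hx2 : x ^ 2 ≤ 1 / 4 := by
    have := sq_le_sq' (a := x) (b := 1 / 2) (by linarith [(abs_le.1 hx).1]) (abs_le.1 hx).2
    linarith
  set s := Real.sqrt (1 - x ^ 2) with hs
  have hs0 : 0 < s := Real.sqrt_pos.2 (by linarith)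
  have hset : ∀ y : ℝ, (0 < y ∧ 1 ≤ x ^ 2 + y ^ 2) ↔ y ∈ Ici s := by
    intro y
    rw [mem_Ici, hs, Real.sqrt_le_iff]
    constructor
    · rintro ⟨h1, h2⟩
      exact ⟨h1.le, by linarith⟩
    · rintro ⟨h1, h2⟩
      refine ⟨lt_of_le_of_ne h1 ?_, by linarith⟩
      rintro rfl
      nlinarith
  have h1 : ∫⁻ y : ℝ, (if 0 < y ∧ 1 ≤ x ^ 2 + y ^ 2 then
      ENNReal.ofReal (Real.pi / (2 * y ^ 2)) else 0) =
      ∫⁻ y in Ioi s, ENNReal.ofReal (Real.pi / 2 * y ^ (-2 : ℝ)) := by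
    rw [setLIntegral_congr Ioi_ae_eq_Ici, ← lintegral_indicator measurableSet_Ici]
    refine lintegral_congr fun y => ?_
    by_cases hy : y ∈ Ici s
    · have hy0 : 0 < y := lt_of_lt_of_le hs0 hy
      rw [if_pos ((hset y).2 hy), indicator_of_mem hy]
      congr 1
      rw [Real.rpow_neg hy0.le, Real.rpow_two]
      field_simp
    · rw [if_neg (fun hc => hy ((hset y).1 hc)), indicator_of_notMem hy]
  rw [h1, ← ofReal_integral_eq_lintegral_ofReal]
  · congr 1
    rw [integral_const_mul, integral_Ioi_rpow_of_lt (by norm_num) hs0]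
    have : (-2 : ℝ) + 1 = -1 := by norm_num
    rw [this, Real.rpow_neg_one]
    congr 1
    rw [one_div]
    ring
  · exact (integrableOn_Ioi_rpow_of_lt (by norm_num) hs0).const_mul _
  · refine (ae_restrict_iff' measurableSet_Ioi).2 (Filter.Eventually.of_forall fun y hy => ?_)
    have : 0 < y := lt_trans hs0 hy
    positivity

/-- the integral over `x` -/
theorem xint :
    ∫⁻ x : ℝ, (if |x| ≤ 1 / 2 then
      ENNReal.ofReal (Real.pi / 2 * (1 / Real.sqrt (1 - x ^ 2))) else 0) =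
      ENNReal.ofReal (Real.pi ^ 2 / 6) := by
  have hcont : ContinuousOn (fun x : ℝ => 1 / Real.sqrt (1 - x ^ 2)) (Icc (-(1 / 2)) (1 / 2)) := by
    refine ContinuousOn.div continuousOn_const (by fun_prop) fun x hx => ?_
    refine (Real.sqrt_pos.2 ?_).ne'
    nlinarith [hx.1, hx.2]
  have hle : (-(1 / 2) : ℝ) ≤ 1 / 2 := by norm_num
  have h1 : ∫⁻ x : ℝ, (if |x| ≤ 1 / 2 then
      ENNReal.ofReal (Real.pi / 2 * (1 / Real.sqrt (1 - x ^ 2))) else 0) =
      ∫⁻ x in Icc (-(1 / 2) : ℝ) (1 / 2),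
        ENNReal.ofReal (Real.pi / 2 * (1 / Real.sqrt (1 - x ^ 2))) := by
    rw [← lintegral_indicator measurableSet_Icc]
    refine lintegral_congr fun x => ?_
    by_cases hx : |x| ≤ 1 / 2
    · rw [if_pos hx, indicator_of_mem (show x ∈ Icc (-(1 / 2) : ℝ) (1 / 2) from abs_le.1 hx)]
    · have hx' : x ∉ Icc (-(1 / 2) : ℝ) (1 / 2) := fun hc => hx (abs_le.2 hc)
      rw [if_neg hx, indicator_of_notMem hx']
  rw [h1, ← ofReal_integral_eq_lintegral_ofReal]
  · congr 1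
    rw [integral_const_mul, integral_Icc_eq_integral_Ioc, ← intervalIntegral.integral_of_le hle,
      intervalIntegral.integral_eq_sub_of_hasDerivAt (f := Real.arcsin)]
    · have h2 : Real.arcsin (1 / 2) = Real.pi / 6 := by
        refine Real.arcsin_eq_of_sin_eq Real.sin_pi_div_six ⟨?_, ?_⟩ <;> linarith [Real.pi_pos]
      rw [Real.arcsin_neg, h2]
      ring
    · intro x hx
      rw [uIcc_of_le hle] at hx
      exact Real.hasDerivAt_arcsin (by rintro rfl; norm_num at hx) (by rintro rfl; norm_num at hx)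
    · rw [intervalIntegrable_iff_integrableOn_Icc_of_le hle]
      exact hcont.integrableOn_compact isCompact_Icc
  · exact (hcont.integrableOn_compact isCompact_Icc).const_mul _
  · refine Filter.Eventually.of_forall fun x => ?_
    have := Real.pi_pos
    positivity

theorem measurableSet_Uset : MeasurableSet Uset := by
  have h2 : MeasurableSet {u : Fin 4 → ℝ | |u 2| ≤ 1 / 2} :=
    measurableSet_le ((measurable_pi_apply 2).abs) measurable_const
  have h3 : MeasurableSet {u : Fin 4 → ℝ | 1 ≤ u 2 ^ 2 + u 3 ^ 2} :=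
    measurableSet_le measurable_const (by fun_prop)
  have h4 : MeasurableSet {u : Fin 4 → ℝ | 0 < u 3} :=
    measurableSet_lt measurable_const (by fun_prop)
  have h5 : MeasurableSet {u : Fin 4 → ℝ | 64 * (u 0 ^ 2 + u 1 ^ 2) ^ 2 * u 3 ^ 6 ≤ 1} :=
    measurableSet_le (by fun_prop) measurable_const
  exact h2.inter (h3.inter (h4.inter h5))

/-- the integral over `a`, `b` -/
theorem abint (x y : ℝ) (hx : |x| ≤ 1 / 2) (hy : 0 < y) (hxy : 1 ≤ x ^ 2 + y ^ 2) :
    ∫⁻ b : ℝ, ∫⁻ a : ℝ, Uset.indicator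
      (fun u : Fin 4 → ℝ => ENNReal.ofReal (64 * (u 0 ^ 2 + u 1 ^ 2) * u 3 ^ 4)) ![a, b, x, y] =
      ENNReal.ofReal (Real.pi / (2 * y ^ 2)) := by
  have hρ : 0 < Real.sqrt (1 / (8 * y ^ 3)) := Real.sqrt_pos.2 (by positivity)
  have hρ2 : Real.sqrt (1 / (8 * y ^ 3)) ^ 2 = 1 / (8 * y ^ 3) := Real.sq_sqrt (by positivity)
  have h1 : ∀ a b : ℝ, Uset.indicator
      (fun u : Fin 4 → ℝ => ENNReal.ofReal (64 * (u 0 ^ 2 + u 1 ^ 2) * u 3 ^ 4)) ![a, b, x, y] =
      if a ^ 2 + b ^ 2 ≤ Real.sqrt (1 / (8 * y ^ 3)) ^ 2 then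
        ENNReal.ofReal (64 * y ^ 4 * (a ^ 2 + b ^ 2)) else 0 := by
    intro a b
    have hab : 0 ≤ a ^ 2 + b ^ 2 := by positivity
    have h2 : (![a, b, x, y] : Fin 4 → ℝ) ∈ Uset ↔
        a ^ 2 + b ^ 2 ≤ Real.sqrt (1 / (8 * y ^ 3)) ^ 2 := by
      rw [hρ2]
      have h3 : (![a, b, x, y] : Fin 4 → ℝ) ∈ Uset ↔ 64 * (a ^ 2 + b ^ 2) ^ 2 * y ^ 6 ≤ 1 := by
        constructor
        · rintro ⟨-, -, -, h⟩
          exact h
        · intro h
          exact ⟨hx, hxy, hy, h⟩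
      rw [h3, le_div_iff₀ (by positivity)]
      have h4 : 64 * (a ^ 2 + b ^ 2) ^ 2 * y ^ 6 = ((a ^ 2 + b ^ 2) * (8 * y ^ 3)) ^ 2 := by ring
      rw [h4]
      constructor
      · intro h
        exact (sq_le_one_iff₀ (by positivity)).1 h
      · intro h
        exact (sq_le_one_iff₀ (by positivity)).2 h
    by_cases h3 : (![a, b, x, y] : Fin 4 → ℝ) ∈ Uset
    · rw [indicator_of_mem h3, if_pos (h2.1 h3)]
      congr 1
      show 64 * (a ^ 2 + b ^ 2) * y ^ 4 = _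
      ring
    · rw [indicator_of_notMem h3, if_neg (fun hc => h3 (h2.2 hc))]
  simp_rw [h1]
  rw [disc (64 * y ^ 4) _ (by positivity) hρ]
  congr 1
  have h4 : Real.sqrt (1 / (8 * y ^ 3)) ^ 4 = (Real.sqrt (1 / (8 * y ^ 3)) ^ 2) ^ 2 := by ring
  rw [h4, hρ2]
  field_simp
  ring

theorem abint0 (x y : ℝ) (h : ¬ (|x| ≤ 1 / 2 ∧ 0 < y ∧ 1 ≤ x ^ 2 + y ^ 2)) :
    ∫⁻ b : ℝ, ∫⁻ a : ℝ, Uset.indicator
      (fun u : Fin 4 → ℝ => ENNReal.ofReal (64 * (u 0 ^ 2 + u 1 ^ 2) * u 3 ^ 4)) ![a, b, x, y] =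
      0 := by
  have h1 : ∀ a b : ℝ, Uset.indicator
      (fun u : Fin 4 → ℝ => ENNReal.ofReal (64 * (u 0 ^ 2 + u 1 ^ 2) * u 3 ^ 4)) ![a, b, x, y] =
      0 := by
    intro a b
    refine indicator_of_notMem ?_ _
    rintro ⟨h2, h3, h4, -⟩
    exact h ⟨h2, h4, h3⟩
  simp_rw [h1]
  simp

end IntM

open IntM MeasureTheory in
theorem stInt : StInt := by
  refine ⟨measurableSet_Uset, ?_⟩
  rw [← lintegral_indicator measurableSet_Uset, iter _ ?_]
  · have h1 : ∀ x y : ℝ, ∫⁻ b : ℝ, ∫⁻ a : ℝ, Uset.indicator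
        (fun u : Fin 4 → ℝ => ENNReal.ofReal (64 * (u 0 ^ 2 + u 1 ^ 2) * u 3 ^ 4)) ![a, b, x, y] =
        if |x| ≤ 1 / 2 then
          (if 0 < y ∧ 1 ≤ x ^ 2 + y ^ 2 then ENNReal.ofReal (Real.pi / (2 * y ^ 2)) else 0)
        else 0 := by
      intro x y
      by_cases hx : |x| ≤ 1 / 2
      · by_cases hy : 0 < y ∧ 1 ≤ x ^ 2 + y ^ 2
        · rw [if_pos hx, if_pos hy, abint x y hx hy.1 hy.2]
        · rw [if_pos hx, if_neg hy, abint0 x y (fun hc => hy hc.2)]
      · rw [if_neg hx, abint0 x y (fun hc => hx hc.1)]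
    simp_rw [h1]
    have h2 : ∀ x : ℝ, ∫⁻ y : ℝ, (if |x| ≤ 1 / 2 then
          (if 0 < y ∧ 1 ≤ x ^ 2 + y ^ 2 then ENNReal.ofReal (Real.pi / (2 * y ^ 2)) else 0)
        else 0) =
        if |x| ≤ 1 / 2 then
          ENNReal.ofReal (Real.pi / 2 * (1 / Real.sqrt (1 - x ^ 2))) else 0 := by
      intro x
      by_cases hx : |x| ≤ 1 / 2
      · simp only [if_pos hx]
        exact yint x hx
      · simp only [if_neg hx]
        simp
    simp_rw [h2]
    rw [xint]
  · refine Measurable.indicator ?_ measurableSet_Uset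
    fun_prop

end BKDH
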