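import Pool.Agent.Lib.MP_7c08ba_nt.DH.Stmts

/-!
The Jacobian determinant of the parametrisation.
-/

namespace BKDH

noncomputable section

/-- The Jacobian matrix. -/
def JM (u : Fin 4 → ℝ) : Matrix (Fin 4) (Fin 4) ℝ :=
  !![2, 0, 0, 0;
     -2 * u 2, 2 * u 3, -2 * u 0, 2 * u 1;
     2 * (u 2 ^ 2 - u 3 ^ 2), -4 * (u 2 * u 3), 2 * (2 * u 0 * u 2 - 2 * u 1 * u 3),
       2 * (-2 * u 0 * u 3 - 2 * u 1 * u 2);
     -2 * (u 2 ^ 3 - 3 * u 2 * u 3 ^ 2), 2 * (3 * u 2 ^ 2 * u 3 - u 3 ^ 3),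
       -2 * (u 0 * (3 * u 2 ^ 2 - 3 * u 3 ^ 2) - u 1 * (6 * u 2 * u 3)),
       -2 * (u 0 * (-6 * u 2 * u 3) - u 1 * (3 * u 2 ^ 2 - 3 * u 3 ^ 2))]

theorem det_JM (u : Fin 4 → ℝ) : (JM u).det = 64 * (u 0 ^ 2 + u 1 ^ 2) * u 3 ^ 4 := by
  unfold JM
  simp [Matrix.det_succ_row_zero, Fin.sum_univ_succ, Fin.succAbove, Matrix.submatrix]
  ring

/-- The derivative. -/
def JL (u : Fin 4 → ℝ) : (Fin 4 → ℝ) →L[ℝ] (Fin 4 → ℝ) :=
  LinearMap.toContinuousLinearMap (Matrix.toLin' (JM u))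

theorem det_JL (u : Fin 4 → ℝ) : (JL u).det = (JM u).det := by
  unfold JL
  rw [ContinuousLinearMap.det]
  simp [LinearMap.det_toLin']

theorem hasFDerivAt_Phi (u : Fin 4 → ℝ) : HasFDerivAt Phi (JL u) u := by
  have h0 : HasFDerivAt (fun f : Fin 4 → ℝ => f 0) (ContinuousLinearMap.proj (R := ℝ) (φ := fun _ : Fin 4 => ℝ) 0) u :=
    hasFDerivAt_apply (𝕜 := ℝ) 0 u
  have h1 : HasFDerivAt (fun f : Fin 4 → ℝ => f 1) (ContinuousLinearMap.proj (R := ℝ) (φ := fun _ : Fin 4 => ℝ) 1) u :=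
    hasFDerivAt_apply (𝕜 := ℝ) 1 u
  have h2 : HasFDerivAt (fun f : Fin 4 → ℝ => f 2) (ContinuousLinearMap.proj (R := ℝ) (φ := fun _ : Fin 4 => ℝ) 2) u :=
    hasFDerivAt_apply (𝕜 := ℝ) 2 u
  have h3 : HasFDerivAt (fun f : Fin 4 → ℝ => f 3) (ContinuousLinearMap.proj (R := ℝ) (φ := fun _ : Fin 4 => ℝ) 3) u :=
    hasFDerivAt_apply (𝕜 := ℝ) 3 u
  rw [hasFDerivAt_pi']
  intro i
  fin_cases i
  · refine (h0.const_mul 2).congr_fderiv ?_
    ext v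
    simp [JL, JM, Matrix.toLin'_apply, dotProduct, Fin.sum_univ_succ]
  · refine (((h0.mul h2).sub (h1.mul h3)).const_mul (-2)).congr_fderiv ?_
    ext v
    simp [JL, JM, Matrix.toLin'_apply, dotProduct, Fin.sum_univ_succ]
    ring
  · refine ((((h0.mul ((h2.pow 2).sub (h3.pow 2))).sub
      (((h1.const_mul 2).mul h2).mul h3))).const_mul 2).congr_fderiv ?_
    ext v
    simp [JL, JM, Matrix.toLin'_apply, dotProduct, Fin.sum_univ_succ]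
    ring
  · refine ((((h0.mul ((h2.pow 3).sub ((h2.const_mul 3).mul (h3.pow 2)))).sub
      (h1.mul ((((h2.pow 2).const_mul 3).mul h3).sub (h3.pow 3))))).const_mul
        (-2)).congr_fderiv ?_
    ext v
    simp [JL, JM, Matrix.toLin'_apply, dotProduct, Fin.sum_univ_succ]
    ring

theorem stJac : StJac := fun u => ⟨JL u, hasFDerivAt_Phi u, by rw [det_JL, det_JM]⟩

end

end BKDH
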