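import Pool.Agent.Lib.MP_7c08ba_nt.DH.Stmts
import Pool.Agent.Lib.MP_7c08ba_nt.Gen.RT.QPart
import Pool.Agent.Lib.MP_7c08ba_nt.Gen.Unram
import Pool.Agent.Lib.MP_7c08ba_nt.Gen.Layer

/-!
Elements of `K = F(√-3)` inverted by `τ`: if `y` is no cube, the field `N = F(θ + θ⁻¹)`, `θ³ = y`, is
a cyclic cubic extension of `F` which contradicts `StCyc`.
-/

namespace BKDH

open BKGen NumberField IntermediateField Polynomial
open scoped IntermediateField

noncomputable section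

namespace Minus

section Core

variable {F K Ω : Type} [Field F] [NumberField F] [Field K] [Field Ω] [CharZero K] [Algebra F K]
  [Algebra K Ω] [Algebra F Ω] [IsScalarTower F K Ω]

/-- the cubic polynomial -/
def pol (S : F) : F[X] := X ^ 3 - C 3 * X - C S

theorem pol_natDegree (S : F) : (pol S).natDegree = 3 := by
  unfold pol
  compute_degree!

theorem pol_monic (S : F) : (pol S).Monic := by
  unfold pol
  monicity!

theorem aeval_pol {A : Type*} [CommRing A] [Algebra F A] (S : F) (x : A) :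
    aeval x (pol S) = x ^ 3 - 3 * x - algebraMap F A S := by
  unfold pol
  simp only [map_sub, map_mul, map_pow, aeval_X, aeval_C, map_ofNat]

/-- the polynomial has no root -/
theorem no_root {y : K} (hy : y ≠ 0) {S : F} (hS : algebraMap F K S = y + y⁻¹)
    (hc : ¬ ∃ b : K, b ^ 3 = y) (T : F) : T ^ 3 - 3 * T ≠ S := by
  intro h
  have h1 : y ^ 2 + 1 = y * ((algebraMap F K T) ^ 3 - 3 * algebraMap F K T) := by
    have h2 : algebraMap F K T ^ 3 - 3 * algebraMap F K T = y + y⁻¹ := by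
      rw [← hS, ← h, map_sub, map_mul, map_pow, map_ofNat]
    rw [h2]
    field_simp
  set T1 := algebraMap F K T with hT1
  by_cases hT : T1 ^ 2 - 1 = 0
  · have h3 : (y + T1) ^ 2 = 0 := by
      linear_combination h1 + (1 + y * T1) * hT
    have h4 : y = -T1 := by
      have := pow_eq_zero_iff two_ne_zero |>.1 h3
      linear_combination this
    apply hc
    refine ⟨y, ?_⟩
    rw [h4]
    linear_combination (-T1) * hT
  · apply hc
    refine ⟨(y + T1) / (T1 ^ 2 - 1), ?_⟩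
    rw [div_pow, div_eq_iff (pow_ne_zero _ hT)]
    linear_combination (y + T1 ^ 3) * h1

theorem pol_irred {y : K} (hy : y ≠ 0) {S : F} (hS : algebraMap F K S = y + y⁻¹)
    (hc : ¬ ∃ b : K, b ^ 3 = y) : Irreducible (pol S) := by
  rw [irreducible_iff_roots_eq_zero_of_degree_le_three (by rw [pol_natDegree]; norm_num)
    (by rw [pol_natDegree])]
  rw [Multiset.eq_zero_iff_forall_notMem]
  intro T hT
  have h1 := (mem_roots'.1 hT).2
  rw [IsRoot.def, ← coe_aeval_eq_eval, aeval_pol] at h1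
  exact no_root hy hS hc T (by simpa using sub_eq_zero.1 h1)

/-- The cubic field. -/
theorem core [Normal F Ω] [IsAlgClosed Ω] {t y : K} (ht : t ^ 2 = -3) (hy : y ≠ 0)
    (hK : ∀ x : K, ∃ a b : F, x = algebraMap F K a + algebraMap F K b * t)
    {S r : F} (hS : algebraMap F K S = y + y⁻¹) (hr : y - y⁻¹ = algebraMap F K r * t)
    (hc : ¬ ∃ b : K, b ^ 3 = y) (hP : PowAway 3 y) (j : F →+* ℚ_[3]) {A : ℚ_[3]}
    (hA : A ^ 3 - 3 * A = j S) :
    ∃ (N : IntermediateField F Ω) (g : N ≃ₐ[F] N), Module.finrank F N = 3 ∧ g ≠ 1 ∧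
      UnrAway F N ∧ ∃ _ : N →+* ℚ_[3], True := by
  have hnK : Normal K Ω := Normal.tower_top_of_normal F K Ω
  obtain ⟨θ, hθ⟩ := IsAlgClosed.exists_pow_nat_eq (algebraMap K Ω y) (n := 3) (by norm_num)
  have hyΩ : algebraMap K Ω y ≠ 0 := by rwa [Ne, map_eq_zero]
  have hθ0 : θ ≠ 0 := by
    rintro rfl
    rw [zero_pow three_ne_zero] at hθ
    exact hyΩ hθ.symm
  have hchar : CharZero Ω := charZero_of_injective_algebraMap (algebraMap K Ω).injective
  obtain ⟨tt, htt⟩ : ∃ tt : Ω, tt = algebraMap K Ω t := ⟨_, rfl⟩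
  have htt2 : tt ^ 2 = -3 := by
    rw [htt, ← map_pow, ht, map_neg, map_ofNat]
  obtain ⟨ζ, hζ⟩ : ∃ ζ : Ω, ζ = (-1 + tt) / 2 := ⟨_, rfl⟩
  have hζ2 : ζ ^ 2 + ζ + 1 = 0 := by
    rw [hζ]
    linear_combination (1 / 4) * htt2
  have hζ3 : ζ ^ 3 = 1 := by linear_combination (ζ - 1) * hζ2
  have hζ1 : ζ ≠ 1 := by
    intro h
    rw [h] at hζ2
    norm_num at hζ2
  have hζ0 : ζ ≠ 0 := by
    intro h
    rw [h] at hζ3
    norm_num at hζ3
  have hζi : ζ⁻¹ = ζ ^ 2 := inv_eq_of_mul_eq_one_right (by linear_combination hζ3)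
  obtain ⟨T, hT⟩ : ∃ T : Ω, T = θ + θ⁻¹ := ⟨_, rfl⟩
  have hST : algebraMap F Ω S = θ ^ 3 + (θ ^ 3)⁻¹ := by
    rw [IsScalarTower.algebraMap_apply F K Ω, hS, map_add, map_inv₀, hθ]
  have hPT : aeval T (pol S) = 0 := by
    rw [aeval_pol, hST, hT]
    field_simp
    ring
  have hirr := pol_irred hy hS hc
  have hint : IsIntegral F T := ⟨pol S, pol_monic S, by rwa [aeval_def] at hPT⟩
  have hmin : minpoly F T = pol S :=
    (minpoly.eq_of_irreducible_of_monic hirr hPT (pol_monic S)).symm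
  have hfin : Module.finrank F F⟮T⟯ = 3 := by
    rw [adjoin.finrank hint, hmin, pol_natDegree]
  -- the automorphism
  have hirrK : Irreducible (X ^ 3 - C y : K[X]) :=
    X_pow_sub_C_irreducible_of_prime Nat.prime_three (fun b hb => hc ⟨b, hb⟩)
  have hminK : minpoly K θ = X ^ 3 - C y :=
    (minpoly.eq_of_irreducible_of_monic hirrK (by simp [hθ]) (monic_X_pow_sub_C _ three_ne_zero)).symm
  obtain ⟨ρ, hρ⟩ := minpoly.exists_algEquiv_of_root' (K := K) (x := θ * ζ) (y := θ)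
    (Algebra.IsAlgebraic.isAlgebraic θ) (by
      rw [hminK]
      simp [mul_pow, hζ3, hθ])
  have hρT : ρ T = θ * ζ + θ⁻¹ * ζ⁻¹ := by
    rw [hT, map_add, map_inv₀, hρ, mul_inv]
  have hT1 : T ^ 2 - 1 ≠ 0 := by
    intro h0
    have h1 : (T - 1) * (T + 1) = 0 := by linear_combination h0
    have h2 := hPT
    rw [aeval_pol] at h2
    rcases mul_eq_zero.1 h1 with h3 | h3
    · have h4 : T = 1 := by linear_combination h3
      apply no_root hy hS hc 1
      apply (algebraMap F Ω).injective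
      rw [h4] at h2
      simp only [map_sub, map_mul, map_pow, map_one, map_ofNat]
      linear_combination h2
    · have h4 : T = -1 := by linear_combination h3
      apply no_root hy hS hc (-1)
      apply (algebraMap F Ω).injective
      rw [h4] at h2
      simp only [map_sub, map_mul, map_pow, map_one, map_ofNat, map_neg]
      linear_combination h2
  have hrΩ : θ ^ 3 - (θ ^ 3)⁻¹ = algebraMap F Ω r * tt := by
    rw [IsScalarTower.algebraMap_apply F K Ω, htt, ← map_mul, ← hr, map_sub, map_inv₀, hθ]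
  have hρT' : ρ T = (-T + (-3 * algebraMap F Ω r) / (T ^ 2 - 1)) / 2 := by
    have h1 : tt * (θ - θ⁻¹) * (T ^ 2 - 1) = -3 * algebraMap F Ω r := by
      have h2 : (θ - θ⁻¹) * (T ^ 2 - 1) = θ ^ 3 - (θ ^ 3)⁻¹ := by
        rw [hT]
        field_simp
        ring
      rw [mul_assoc, h2, hrΩ]
      linear_combination algebraMap F Ω r * htt2
    rw [← h1, mul_div_assoc, div_self hT1, mul_one, hρT, hζi, hζ, hT]
    have h3 : θ * θ⁻¹ = 1 := mul_inv_cancel₀ hθ0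
    linear_combination (θ⁻¹ / 4) * htt2
  have hTN : T ∈ F⟮T⟯ := mem_adjoin_simple_self F T
  have hρTN : ρ T ∈ F⟮T⟯ := by
    rw [hρT']
    refine div_mem (add_mem (neg_mem hTN) (div_mem (mul_mem (neg_mem (ofNat_mem _ 3))
      (IntermediateField.algebraMap_mem _ _)) (sub_mem (pow_mem hTN 2) (one_mem _))))
      (ofNat_mem _ 2)
  set ρF : Ω →ₐ[F] Ω := (ρ.restrictScalars F).toAlgHom with hρF
  have hmap : F⟮T⟯.map ρF ≤ F⟮T⟯ := by
    rw [IntermediateField.adjoin_map, IntermediateField.adjoin_le_iff]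
    rintro _ ⟨x, hx, rfl⟩
    rw [Set.mem_singleton_iff.1 hx]
    exact hρTN
  have hrN : ∀ x : F⟮T⟯, (ρF.comp F⟮T⟯.val) x ∈ F⟮T⟯.toSubalgebra := by
    intro x
    exact hmap ⟨x, x.2, rfl⟩
  set f : F⟮T⟯ →ₐ[F] F⟮T⟯ := AlgHom.codRestrict (ρF.comp F⟮T⟯.val) F⟮T⟯.toSubalgebra hrN with hf
  have hfd : FiniteDimensional F F⟮T⟯ := adjoin.finiteDimensional hint
  set g : F⟮T⟯ ≃ₐ[F] F⟮T⟯ := AlgEquiv.ofBijective f (Algebra.IsAlgebraic.algHom_bijective f) with hg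
  have hgT : ((g ⟨T, hTN⟩ : F⟮T⟯) : Ω) = ρ T := rfl
  refine ⟨F⟮T⟯, g, hfin, ?_, ?_, ?_⟩
  · intro h1
    rw [h1] at hgT
    change T = ρ T at hgT
    have h2 : (ζ - 1) * ((θ - ζ) * (θ + ζ)) = 0 := by
      rw [hρT, hT, hζi] at hgT
      have h3 : θ * θ⁻¹ = 1 := mul_inv_cancel₀ hθ0
      have h4 : θ * (θ + θ⁻¹) = θ * (θ * ζ + θ⁻¹ * ζ ^ 2) := by rw [← hgT]
      linear_combination -h4 + (1 - ζ ^ 2) * h3 - hζ3
    rcases mul_eq_zero.1 h2 with h3 | h3
    · exact hζ1 (sub_eq_zero.1 h3)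
    · rcases mul_eq_zero.1 h3 with h4 | h4
      · apply hc
        refine ⟨1, (algebraMap K Ω).injective ?_⟩
        rw [← hθ, sub_eq_zero.1 h4, hζ3]
        simp
      · apply hc
        refine ⟨-1, (algebraMap K Ω).injective ?_⟩
        rw [← hθ, eq_neg_of_add_eq_zero_left h4]
        simp only [map_pow, map_neg, map_one]
        linear_combination hζ3
  · intro l _ hl3 i x
    have halg : Algebra.IsAlgebraic F⟮T⟯ Ω := Algebra.IsAlgebraic.tower_top (K := F) F⟮T⟯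
    let _ : Algebra F⟮T⟯ (PadicAlgCl l) := i.toAlgebra
    set J : Ω →+* PadicAlgCl l := (IsAlgClosed.lift : Ω →ₐ[F⟮T⟯] PadicAlgCl l).toRingHom with hJ
    have hJi : ∀ z : F⟮T⟯, J (z : Ω) = i z := fun z =>
      (IsAlgClosed.lift : Ω →ₐ[F⟮T⟯] PadicAlgCl l).commutes z
    have h3l : ¬ l ∣ 3 := by
      intro h5
      exact hl3 ((Nat.prime_dvd_prime_iff_eq (Fact.out : l.Prime) Nat.prime_three).mp h5)
    have key : ∀ σ ∈ Inert F Ω J, σ (x : Ω) = x := by
      intro σ hσ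
      have h1 : σ ζ = ζ := by
        by_contra hne
        have hz : ‖J ζ‖ ≤ 1 := (norm_root three_ne_zero (by rw [← map_pow, hζ3, map_one])).le
        have h2 := hσ ζ hz
        have h4 : J (σ ζ) ≠ J ζ := fun h => hne (J.injective h)
        rw [map_sub, norm_root_sub h3l (by rw [← map_pow, ← map_pow, hζ3, map_one, map_one])
          (by rw [← map_pow, hζ3, map_one]) h4] at h2
        exact lt_irrefl _ h2
      have h2 : σ tt = tt := by
        have h4 : tt = 2 * ζ + 1 := by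
          rw [hζ]
          ring
        rw [h4]
        simp only [map_add, map_mul, map_ofNat, map_one, h1]
      set M : IntermediateField F Ω := (IsScalarTower.toAlgHom F K Ω).fieldRange with hM
      have hMK : ∀ x : K, algebraMap K Ω x ∈ M := fun x => ⟨x, rfl⟩
      have hfix : ∀ x ∈ M, σ x = x := by
        rintro _ ⟨x, rfl⟩
        obtain ⟨a, b, rfl⟩ := hK x
        change σ (algebraMap K Ω _) = algebraMap K Ω _
        rw [map_add, map_mul, ← IsScalarTower.algebraMap_apply, ← IsScalarTower.algebraMap_apply,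
          map_add, map_mul, σ.commutes, σ.commutes, ← htt, h2]
      obtain ⟨b, hb⟩ := hP l hl3 (J.comp (algebraMap K Ω))
      have hab : ‖J θ‖ = ‖J (algebraMap K Ω b)‖ := by
        have h4 : ‖J θ‖ ^ 3 = ‖J (algebraMap K Ω b)‖ ^ 3 := by
          rw [← norm_pow, ← map_pow, hθ]
          exact hb
        exact (pow_left_inj₀ (norm_nonneg _) (norm_nonneg _) three_ne_zero).1 h4
      have : Fact (Nat.Prime 3) := ⟨Nat.prime_three⟩
      have h5 : σ θ = θ := inert_fix (p := 3) hl3 J hσ M hfix (by rw [hθ]; exact hMK y) (hMK b) hab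
      have h6 : σ T = T := by rw [hT, map_add, map_inv₀, h5]
      have h7 : (σ : Ω →ₐ[F] Ω).comp F⟮T⟯.val = F⟮T⟯.val := by
        apply (adjoin.powerBasis hint).algHom_ext
        exact h6
      exact DFunLike.congr_fun h7 x
    obtain ⟨b, hb⟩ := norm_of_fixed_inert J (x : Ω) key
    refine ⟨b, ?_⟩
    rw [← hJi, ← hJi, hb]
    rfl
  · let _ : Algebra F ℚ_[3] := j.toAlgebra
    refine ⟨((adjoin.powerBasis hint).lift A ?_).toRingHom, trivial⟩
    have h1 : minpoly F (adjoin.powerBasis hint).gen = pol S := by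
      rw [← hmin]
      exact minpoly_gen F T
    rw [h1, aeval_pol, hA]
    exact sub_self _

end Core

variable {K : Type} [Field K] [NumberField K] {Δ : ℕ} {s t : K}

theorem s_mem : s ∈ ℚ⟮s⟯ := mem_adjoin_simple_self ℚ s

/-- the square root of `-Δ` in `ℚ(s)` -/
def sF (s : K) : ℚ⟮s⟯ := ⟨s, mem_adjoin_simple_self ℚ s⟩

theorem finrank_F (h : RT.Biq K Δ s t) : Module.finrank ℚ ℚ⟮s⟯ = 2 := by
  have h1 : aeval s (X ^ 2 + C (Δ : ℚ) : ℚ[X]) = 0 := by
    simp [h.s2]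
  have hm : (X ^ 2 + C (Δ : ℚ) : ℚ[X]).Monic := monic_X_pow_add_C _ two_ne_zero
  have hd : (X ^ 2 + C (Δ : ℚ) : ℚ[X]).natDegree = 2 := natDegree_X_pow_add_C
  have hint : IsIntegral ℚ s := ⟨_, hm, by rwa [aeval_def] at h1⟩
  have hirr : Irreducible (X ^ 2 + C (Δ : ℚ) : ℚ[X]) := by
    rw [irreducible_iff_roots_eq_zero_of_degree_le_three (by rw [hd]) (by rw [hd]; norm_num),
      Multiset.eq_zero_iff_forall_notMem]
    intro q hq
    have h2 := (mem_roots'.1 hq).2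
    rw [IsRoot.def] at h2
    simp only [eval_add, eval_pow, eval_X, eval_C] at h2
    have h3 : (0 : ℚ) < Δ := by exact_mod_cast h.dpos
    nlinarith [sq_nonneg q]
  rw [adjoin.finrank hint, ← minpoly.eq_of_irreducible_of_monic hirr h1 hm, hd]

/-- the embedding of `ℚ(s)` into `ℚ_3` -/
theorem exists_j (h : RT.Biq K Δ s t) (ι : K →+* PadicAlgCl 3) :
    ∃ j : ℚ⟮s⟯ →+* ℚ_[3], ∀ x : ℚ⟮s⟯, RT.Q3 (j x) = ι x := by
  obtain ⟨r, hr, -, -⟩ := RT.exists_r ι h
  have h1 : ∀ x : ℚ⟮s⟯, ∃ q : ℚ_[3], RT.Q3 q = ι x := by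
    intro x
    obtain ⟨a, b, hx⟩ := RT.mem_s h x.2
    refine ⟨(a : ℚ_[3]) + b * r, ?_⟩
    rw [hx, RT.iota_cf ι hr]
    simp
  choose f hf using h1
  have hinj : Function.Injective RT.Q3 := RT.Q3.injective
  refine ⟨⟨⟨⟨f, hinj ?_⟩, fun x y => hinj ?_⟩, hinj ?_, fun x y => hinj ?_⟩, hf⟩
  · rw [hf]; simp
  · rw [map_mul, hf, hf, hf]; simp
  · change RT.Q3 (f 0) = _
    rw [hf]; simp
  · change RT.Q3 (f (x + y)) = RT.Q3 (f x + f y)
    rw [map_add, hf, hf, hf]; simp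

/-- complex conjugation on `ℚ(s)` -/
theorem exists_conj (h : RT.Biq K Δ s t) :
    ∃ σ : ℚ⟮s⟯ →+* ℚ⟮s⟯, σ (sF s) = -sF s := by
  obtain ⟨c, hcs, hct⟩ := h.exists_aut (-1) 1 (by norm_num) (by norm_num)
  have h1 : ∀ x : ℚ⟮s⟯, c x ∈ ℚ⟮s⟯ := by
    intro x
    obtain ⟨a, b, hx⟩ := RT.mem_s h x.2
    rw [hx, RT.aut_mk c hcs hct, mul_zero, mul_zero]
    exact RT.cf_s_mem _ _
  refine ⟨(c.comp (algebraMap ℚ⟮s⟯ K)).codRestrict ℚ⟮s⟯.toSubfield h1, Subtype.ext ?_⟩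
  change c s = -s
  rw [hcs]
  simp

theorem qf (h : RT.Biq K Δ s t) (hf : IsFund Δ) (ι : K →+* PadicAlgCl 3) :
    ∃ (σ : ℚ⟮s⟯ →+* ℚ⟮s⟯) (j : ℚ⟮s⟯ →+* ℚ_[3]), QF ℚ⟮s⟯ Δ (sF s) σ j ∧
      ∀ x : ℚ⟮s⟯, RT.Q3 (j x) = ι x := by
  obtain ⟨σ, hσ⟩ := exists_conj h
  obtain ⟨j, hj⟩ := exists_j h ι
  refine ⟨σ, j, ⟨hf, h.hd, Subtype.ext ?_, finrank_F h, hσ⟩, hj⟩
  have := h.s2
  simpa [sF] using this

end Minus

open Minus in
theorem stMinus (h : StCyc) : StMinus := by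
  intro K _ _ Δ s t hf h3 hs ht hdeg hrig ι τ hτs hτt y hy0 hτy hP hPA
  have hB : RT.Biq K Δ s t := ⟨h3, hs, ht, hdeg⟩
  by_contra hc
  obtain ⟨σ, j, hQF, hj⟩ := qf hB hf ι
  have τmk : ∀ a b c e : ℚ, τ (RT.cf s t a b c e) = RT.cf s t a b (-c) (-e) := by
    intro a b c e
    rw [RT.aut_mk τ (ε₁ := 1) (ε₂ := -1) (by simpa using hτs) (by simpa using hτt)]
    simp
  -- the elements `S` and `r`
  obtain ⟨S, hS⟩ : ∃ S : ℚ⟮s⟯, algebraMap ℚ⟮s⟯ K S = y + y⁻¹ := by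
    obtain ⟨a, b, c, e, hx⟩ := hB.span y
    have h1 : y⁻¹ = RT.cf s t a b (-c) (-e) := by rw [← hτy, hx, τmk]
    refine ⟨⟨RT.cf s t (2 * a) (2 * b) 0 0, RT.cf_s_mem _ _⟩, ?_⟩
    change RT.cf s t (2 * a) (2 * b) 0 0 = y + y⁻¹
    rw [h1]
    nth_rewrite 1 [hx]
    unfold RT.cf
    push_cast
    ring
  obtain ⟨r, hr⟩ : ∃ r : ℚ⟮s⟯, y - y⁻¹ = algebraMap ℚ⟮s⟯ K r * t := by
    obtain ⟨a, b, c, e, hx⟩ := hB.span y
    have h1 : y⁻¹ = RT.cf s t a b (-c) (-e) := by rw [← hτy, hx, τmk]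
    refine ⟨⟨RT.cf s t (2 * c) (2 * e) 0 0, RT.cf_s_mem _ _⟩, ?_⟩
    change y - y⁻¹ = RT.cf s t (2 * c) (2 * e) 0 0 * t
    rw [h1]
    nth_rewrite 1 [hx]
    unfold RT.cf
    push_cast
    ring
  have hK : ∀ x : K, ∃ a b : ℚ⟮s⟯, x = algebraMap ℚ⟮s⟯ K a + algebraMap ℚ⟮s⟯ K b * t := by
    intro x
    obtain ⟨a, b, c, e, rfl⟩ := hB.span x
    refine ⟨⟨RT.cf s t a b 0 0, RT.cf_s_mem _ _⟩, ⟨RT.cf s t c e 0 0, RT.cf_s_mem _ _⟩, ?_⟩
    change RT.cf s t a b c e = RT.cf s t a b 0 0 + RT.cf s t c e 0 0 * t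
    unfold RT.cf
    push_cast
    ring
  -- the local cube root
  obtain ⟨A, hA⟩ : ∃ A : ℚ_[3], A ^ 3 - 3 * A = j S := by
    obtain ⟨r0, hr0, -, -⟩ := RT.exists_r ι hB
    obtain ⟨a, b, c, e, hx⟩ := hB.span y
    have h1 : y⁻¹ = RT.cf s t a b (-c) (-e) := by rw [← hτy, hx, τmk]
    have h2 := hPA
    rw [hx, RT.powAt_iff ι hB hr0] at h2
    obtain ⟨A, B, h4, h5⟩ := h2
    have h6 : (A ^ 2 + 3 * B ^ 2) ^ 3 = 1 := by
      apply RT.Q3.injective
      have h7 : ι y * ι y⁻¹ = 1 := by rw [← map_mul, mul_inv_cancel₀ hy0, map_one]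
      rw [h1] at h7
      nth_rewrite 1 [hx] at h7
      rw [RT.iota_cf ι hr0, RT.iota_cf ι hr0] at h7
      have h8 : (((-c : ℚ) : ℚ_[3]) + ((-e : ℚ) : ℚ_[3]) * r0) = -((c : ℚ_[3]) + e * r0) := by
        push_cast
        ring
      rw [h8, ← h4, ← h5] at h7
      have h9 := RT.lam_sq ι hB
      rw [map_one, ← h7]
      simp only [map_sub, map_mul, map_pow, map_add, map_ofNat, map_neg]
      linear_combination (3 * RT.Q3 A ^ 2 * RT.Q3 B - 3 * RT.Q3 B ^ 3) ^ 2 * h9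
    have h7 : A ^ 2 + 3 * B ^ 2 = 1 := by
      set w := A ^ 2 + 3 * B ^ 2 with hw
      have h8 : (w - 1) * (w ^ 2 + w + 1) = 0 := by linear_combination h6
      rcases mul_eq_zero.1 h8 with h9 | h9
      · exact sub_eq_zero.1 h9
      · exfalso
        apply RT.no_sqrt (2 * w + 1)
        linear_combination 4 * h9
    refine ⟨2 * A, ?_⟩
    apply RT.Q3.injective
    rw [hj]
    have h8 : ι (S : K) = ι y + ι y⁻¹ := by
      rw [← map_add, ← hS]
      rfl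
    rw [h8, h1]
    nth_rewrite 1 [hx]
    rw [RT.iota_cf ι hr0, RT.iota_cf ι hr0]
    have h9 : (((-c : ℚ) : ℚ_[3]) + ((-e : ℚ) : ℚ_[3]) * r0) = -((c : ℚ_[3]) + e * r0) := by
      push_cast
      ring
    rw [h9, ← h4]
    have h10 := congrArg RT.Q3 h7
    simp only [map_sub, map_mul, map_pow, map_add, map_ofNat, map_neg, map_one] at h10 ⊢
    linear_combination 6 * RT.Q3 A * h10
  have : IsAlgClosure ℚ⟮s⟯ (AlgebraicClosure K) := by
    have h1 : Algebra.IsAlgebraic ℚ⟮s⟯ (AlgebraicClosure K) :=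
      Algebra.IsAlgebraic.trans ℚ⟮s⟯ K (AlgebraicClosure K)
    exact ⟨inferInstance, h1⟩
  have : Normal ℚ⟮s⟯ (AlgebraicClosure K) := IsAlgClosure.normal _ _
  obtain ⟨N, g, h1, h2, h4, h5⟩ := core (Ω := AlgebraicClosure K) ht hy0 hK hS hr hc hP j hA
  have hfd : FiniteDimensional ℚ⟮s⟯ N := by
    apply FiniteDimensional.of_finrank_pos
    rw [h1]
    norm_num
  have hN : NumberField N := NumberField.of_module_finite ℚ⟮s⟯ N
  exact h ℚ⟮s⟯ Δ (sF s) σ j hQF hrig N g h1 h2 h4 h5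

end

end BKDH
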