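import Pool.Agent.Lib.MP_7c08ba_nt.DH.Stmts

/-!
The number of forms of the second type.
-/

namespace BKDH

namespace NBx

theorem F2_nine {D : ℤ} (h : F2 D) : F2 (9 * D) := by
  unfold F2 at *
  omega

theorem coprime_prod (Q : ℕ) : (4 * 27).Coprime (∏ p ∈ primes5 Q, p ^ 2) := by
  refine Nat.Coprime.prod_right fun p hp => ?_
  unfold primes5 at hp
  rw [Finset.mem_filter, Finset.mem_Icc] at hp
  refine Nat.Coprime.pow_right 2 ?_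
  rw [Nat.coprime_comm, Nat.Prime.coprime_iff_not_dvd hp.2]
  intro hd
  have h1 : (4 * 27 : ℕ) = 2 ^ 2 * 3 ^ 3 := by norm_num
  rw [h1, Nat.Prime.dvd_mul hp.2] at hd
  rcases hd with hd | hd
  · have := (Nat.prime_dvd_prime_iff_eq hp.2 Nat.prime_two).1 (hp.2.dvd_of_dvd_pow hd)
    omega
  · have := (Nat.prime_dvd_prime_iff_eq hp.2 Nat.prime_three).1 (hp.2.dvd_of_dvd_pow hd)
    omega

theorem prod_pos (Q : ℕ) : 0 < ∏ p ∈ primes5 Q, p ^ 2 := by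
  refine Finset.prod_pos fun p hp => ?_
  unfold primes5 at hp
  rw [Finset.mem_filter, Finset.mem_Icc] at hp
  have := hp.2.pos
  positivity

theorem not_sq_dvd {p : ℕ} (hp : p.Prime) (h5 : 5 ≤ p) {Δ : ℕ} (h : IsFund Δ) :
    ¬ (p : ℤ) ^ 2 ∣ 9 * (Δ : ℤ) := by
  intro hd
  have h1 : p ^ 2 ∣ 9 * Δ := by exact_mod_cast hd
  have hc : Nat.Coprime (p ^ 2) 9 := by
    refine Nat.Coprime.pow_left 2 ?_
    rw [Nat.Prime.coprime_iff_not_dvd hp]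
    intro h3
    have h4 : p ∣ 3 ^ 2 := by norm_num; exact h3
    have := (Nat.prime_dvd_prime_iff_eq hp Nat.prime_three).1 (hp.dvd_of_dvd_pow h4)
    omega
  have h2 : p ^ 2 ∣ Δ := (Nat.Coprime.dvd_mul_left hc).1 h1
  exact h.2 p hp (by omega) h2

theorem real_bound {P η ε : ℝ} (hP0 : 9 / Real.pi ^ 2 ≤ P) (hP : P ≤ 9 / Real.pi ^ 2 + η)
    (hη0 : 0 < η) (hη1 : η ≤ 1) (hηε : η ≤ ε) :
    (Real.pi ^ 2 / 6 * (P ^ 2 / 81) + ε / 36) * 9 ≤ 3 / (2 * Real.pi ^ 2) + ε := by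
  have hpi : 0 < Real.pi := Real.pi_pos
  have hpi2 : Real.pi ^ 2 < 10 := by
    have := Real.pi_lt_d2
    nlinarith
  have h9 : 0 < 9 / Real.pi ^ 2 := by positivity
  have hP2 : P ^ 2 ≤ (9 / Real.pi ^ 2 + η) ^ 2 := by
    apply pow_le_pow_left₀ (by linarith) hP
  have hmul : Real.pi ^ 2 * P ^ 2 ≤ Real.pi ^ 2 * (9 / Real.pi ^ 2 + η) ^ 2 := by
    apply mul_le_mul_of_nonneg_left hP2 (by positivity)
  have hexp : Real.pi ^ 2 * (9 / Real.pi ^ 2 + η) ^ 2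
      = 81 / Real.pi ^ 2 + 18 * η + Real.pi ^ 2 * η ^ 2 := by
    field_simp
    ring
  have hη2 : Real.pi ^ 2 * η ^ 2 ≤ 10 * η := by
    have : η ^ 2 ≤ η := by nlinarith
    nlinarith
  have h3 : (3 : ℝ) / (2 * Real.pi ^ 2) = 81 / Real.pi ^ 2 / 54 := by
    field_simp
    norm_num
  rw [h3]
  nlinarith

end NBx

open NBx in
theorem stNB (h1 : StUp) (h2 : StDTwo) (h3 : StDB) (h4 : StCRT) (h5 : StProd) (h6 : StEuler) :
    StNB := by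
  intro ε hε
  obtain ⟨hfin, hcount⟩ := h1
  obtain ⟨hlow, hup⟩ := h6
  obtain ⟨η, hη0, hη1, hηε⟩ : ∃ η : ℝ, 0 < η ∧ η ≤ 1 ∧ η ≤ ε :=
    ⟨min 1 ε, lt_min one_pos hε, min_le_left _ _, min_le_right _ _⟩
  obtain ⟨Q, hQ⟩ := hup η hη0
  obtain ⟨S2, hS2c, hS2⟩ := h2
  obtain ⟨S3, hS3c, hS3⟩ := h3
  obtain ⟨S5, hS5c, hS5⟩ := h5 Q
  obtain ⟨U1, hU1c, hU1⟩ := h4 4 27 (by norm_num) (by norm_num) (by norm_num) S2 S3
  obtain ⟨U, hUc, hU⟩ := h4 (4 * 27) (∏ p ∈ primes5 Q, p ^ 2) (by norm_num) (prod_pos Q)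
    (coprime_prod Q) U1 S5
  have hMpos : 0 < 4 * 27 * ∏ p ∈ primes5 Q, p ^ 2 := Nat.mul_pos (by norm_num) (prod_pos Q)
  obtain ⟨X₀, hX₀⟩ := hcount (4 * 27 * ∏ p ∈ primes5 Q, p ^ 2) hMpos U (ε / 36) (by positivity)
  refine ⟨X₀, fun X hX => ?_⟩
  have hsub : {v : Fin 4 → ℤ | Red v ∧ TypeB v ∧ ∃ Δ : ℕ, Δ ≤ X ∧ IsFund Δ ∧ HD v = 9 * Δ} ⊆
      {v : Fin 4 → ℤ | Red v ∧ HD v ≤ ((9 * X : ℕ) : ℤ) ∧
        red (4 * 27 * ∏ p ∈ primes5 Q, p ^ 2) v ∈ U} := by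
    rintro v ⟨hR, hT, Δ, hΔX, hF, hD⟩
    refine ⟨hR, ?_, ?_⟩
    · rw [hD]
      push_cast
      have : (Δ : ℤ) ≤ X := by exact_mod_cast hΔX
      linarith
    · refine hU v (hU1 v (hS2 v ?_) (hS3 v hT)) (hS5 v ?_)
      · rw [hD]
        exact F2_nine hF.1
      · intro p hp
        unfold primes5 at hp
        rw [Finset.mem_filter, Finset.mem_Icc] at hp
        rw [hD]
        exact not_sq_dvd hp.2 hp.1.1 hF
  have hfin' : {v : Fin 4 → ℤ | Red v ∧ HD v ≤ ((9 * X : ℕ) : ℤ) ∧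
        red (4 * 27 * ∏ p ∈ primes5 Q, p ^ 2) v ∈ U}.Finite := by
    refine (hfin ((9 * X : ℕ) : ℝ)).subset ?_
    rintro v ⟨hR, hD, -⟩
    refine ⟨hR, ?_⟩
    exact_mod_cast hD
  refine ⟨hfin'.subset hsub, ?_⟩
  have hle : ({v : Fin 4 → ℤ | Red v ∧ TypeB v ∧ ∃ Δ : ℕ, Δ ≤ X ∧ IsFund Δ ∧
      HD v = 9 * Δ}.ncard : ℝ) ≤ (Real.pi ^ 2 / 6 * (U.card : ℝ) /
        ((4 * 27 * ∏ p ∈ primes5 Q, p ^ 2 : ℕ) : ℝ) ^ 4 + ε / 36) * ((9 * X : ℕ) : ℝ) := by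
    refine le_trans ?_ (hX₀ (9 * X) (by omega))
    exact_mod_cast Set.ncard_le_ncard hsub hfin'
  refine hle.trans ?_
  set N : ℝ := ∏ p ∈ primes5 Q, (p : ℝ) ^ 2 with hN
  set P : ℝ := ∏ p ∈ primes5 Q, (1 - 1 / (p : ℝ) ^ 2) with hP
  have hNpos : 0 < N := by
    have := prod_pos Q
    have h' : ((∏ p ∈ primes5 Q, p ^ 2 : ℕ) : ℝ) = N := by
      rw [hN]
      push_cast
      rfl
    rw [← h']
    exact_mod_cast this
  have hM : ((4 * 27 * ∏ p ∈ primes5 Q, p ^ 2 : ℕ) : ℝ) = 108 * N := by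
    rw [hN]
    push_cast
    ring
  have hprod : ∏ p ∈ primes5 Q, ((p : ℝ) ^ 8 * (1 - 1 / (p : ℝ) ^ 2) ^ 2) = N ^ 4 * P ^ 2 := by
    rw [Finset.prod_mul_distrib, hN, hP, ← Finset.prod_pow, ← Finset.prod_pow]
    congr 1
    refine Finset.prod_congr rfl fun p _ => ?_
    ring
  have hUr : (U.card : ℝ) ≤ 144 * 11664 * (N ^ 4 * P ^ 2) := by
    have e1 : (U.card : ℝ) ≤ (U1.card : ℝ) * (S5.card : ℝ) := by exact_mod_cast hUc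
    have e2 : (U1.card : ℝ) ≤ (S2.card : ℝ) * (S3.card : ℝ) := by exact_mod_cast hU1c
    have e3 : (S2.card : ℝ) ≤ 144 := by exact_mod_cast hS2c
    have e4 : (S3.card : ℝ) ≤ 11664 := by exact_mod_cast hS3c
    rw [hprod] at hS5c
    calc (U.card : ℝ) ≤ (U1.card : ℝ) * (S5.card : ℝ) := e1
      _ ≤ (144 * 11664) * (N ^ 4 * P ^ 2) := by
        refine mul_le_mul (e2.trans ?_) hS5c (Nat.cast_nonneg _) (by norm_num)
        exact mul_le_mul e3 e4 (Nat.cast_nonneg _) (by norm_num)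
  have hdiv : Real.pi ^ 2 / 6 * (U.card : ℝ) / (108 * N) ^ 4 ≤
      Real.pi ^ 2 / 6 * (P ^ 2 / 81) := by
    rw [div_le_iff₀ (by positivity)]
    have : Real.pi ^ 2 / 6 * (P ^ 2 / 81) * (108 * N) ^ 4 =
        Real.pi ^ 2 / 6 * (144 * 11664 * (N ^ 4 * P ^ 2)) := by ring
    rw [this]
    exact mul_le_mul_of_nonneg_left hUr (by positivity)
  rw [hM]
  push_cast
  have hX0 : (0 : ℝ) ≤ X := Nat.cast_nonneg X
  calc (Real.pi ^ 2 / 6 * (U.card : ℝ) / (108 * N) ^ 4 + ε / 36) * (9 * (X : ℝ))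
      ≤ (Real.pi ^ 2 / 6 * (P ^ 2 / 81) + ε / 36) * (9 * (X : ℝ)) := by
        refine mul_le_mul_of_nonneg_right ?_ (by positivity)
        linarith
    _ = (Real.pi ^ 2 / 6 * (P ^ 2 / 81) + ε / 36) * 9 * X := by ring
    _ ≤ (3 / (2 * Real.pi ^ 2) + ε) * X :=
        mul_le_mul_of_nonneg_right (real_bound (hlow Q) hQ hη0 hη1 hηε) hX0

end BKDH
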