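import Pool.Agent.Lib.MP_7c08ba_nt.DH.Stmts

/-!
The number of fundamental discriminants `-Δ` with `Δ = 2` modulo `3`.
-/

set_option autoImplicit false

namespace BKDH

open Finset

namespace NF

theorem shift_mul {A : ℕ → Prop} {m : ℕ} (hA : ∀ x, A (x + m) ↔ A x) (k x : ℕ) :
    A (k * m + x) ↔ A x := by
  induction k with
  | zero => rw [zero_mul, zero_add]
  | succ k ih =>
    rw [add_mul, one_mul, show k * m + m + x = (k * m + x) + m by ring, hA, ih]

theorem shift_mod {A : ℕ → Prop} {m : ℕ} (hA : ∀ x, A (x + m) ↔ A x) (x : ℕ) :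
    A (x % m) ↔ A x := by
  have h := shift_mul hA (x / m) (x % m)
  rw [mul_comm, Nat.div_add_mod] at h
  exact h.symm

open Classical in
theorem count_mul {A : ℕ → Prop} {m : ℕ} (hA : ∀ x, A (x + m) ↔ A x) (k : ℕ) :
    ((range (k * m)).filter A).card = k * ((range m).filter A).card := by
  induction k with
  | zero => simp
  | succ k ih =>
    rw [add_mul, one_mul, Finset.card_filter, Finset.sum_range_add, ← Finset.card_filter, ih,
      add_mul, one_mul]
    congr 1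
    rw [Finset.card_filter]
    exact Finset.sum_congr rfl fun x _ => if_congr (shift_mul hA k x) rfl rfl

open Classical in
theorem count_step {A : ℕ → Prop} {m q : ℕ} (hm : 0 < m) (hA : ∀ x, A (x + m) ↔ A x)
    (hc : m.Coprime q) :
    (q - 1) * ((range m).filter A).card ≤
      ((range (m * q)).filter fun x => A x ∧ ¬ q ∣ x).card := by
  have h1 := count_mul hA q
  have h2 : ((range (m * q)).filter fun x => A x ∧ q ∣ x).card ≤ ((range m).filter A).card := by
    refine Finset.card_le_card_of_injOn (fun x => x % m) (fun x hx => ?_) fun x hx y hy hxy => ?_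
    · rw [Finset.mem_coe, Finset.mem_filter, Finset.mem_range] at hx ⊢
      exact ⟨Nat.mod_lt _ hm, (shift_mod hA x).2 hx.2.1⟩
    · rw [Finset.mem_coe, Finset.mem_filter, Finset.mem_range] at hx hy
      have h3 : x ≡ y [MOD q] :=
        ((Nat.modEq_zero_iff_dvd.2 hx.2.2).trans (Nat.modEq_zero_iff_dvd.2 hy.2.2).symm)
      have h4 : x ≡ y [MOD m * q] := (Nat.modEq_and_modEq_iff_modEq_mul hc).1 ⟨hxy, h3⟩
      exact Nat.ModEq.eq_of_lt_of_lt h4 hx.1 hy.1
  have h5 : ((range (m * q)).filter A).card =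
      ((range (m * q)).filter fun x => A x ∧ q ∣ x).card +
        ((range (m * q)).filter fun x => A x ∧ ¬ q ∣ x).card := by
    rw [← Finset.card_union_of_disjoint]
    · congr 1
      ext x
      simp only [Finset.mem_filter, Finset.mem_union]
      tauto
    · rw [Finset.disjoint_left]
      intro x hx hx'
      exact (Finset.mem_filter.1 hx').2.2 (Finset.mem_filter.1 hx).2.2
  rw [mul_comm q m, h5] at h1
  rw [Nat.sub_mul, one_mul]
  omega

/-- The condition modulo `48`. -/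
def B (x : ℕ) : Prop := (x % 4 = 3 ∨ x % 16 = 4 ∨ x % 16 = 8) ∧ x % 3 = 2

instance : DecidablePred B := fun x => by unfold B; infer_instance

/-- The sifted set. -/
def S (s : Finset ℕ) (x : ℕ) : Prop := B x ∧ ∀ p ∈ s, ¬ p ^ 2 ∣ x

theorem coprime_48 {a : ℕ} (ha : a.Prime) (h5 : 5 ≤ a) : Nat.Coprime 48 a := by
  rw [Nat.coprime_comm, Nat.Prime.coprime_iff_not_dvd ha]
  intro h
  have h1 : a ∣ 2 ^ 4 * 3 := h
  rcases (Nat.Prime.dvd_mul ha).1 h1 with h2 | h2
  · have := Nat.le_of_dvd (by norm_num) (ha.dvd_of_dvd_pow h2)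
    omega
  · have := Nat.le_of_dvd (by norm_num) h2
    omega

theorem S_period (s : Finset ℕ) (x : ℕ) : S s (x + 48 * ∏ p ∈ s, p ^ 2) ↔ S s x := by
  unfold S
  refine and_congr ?_ (forall₂_congr fun p hp => not_congr ?_)
  · unfold B
    generalize (∏ p ∈ s, p ^ 2) = t
    have h1 : (x + 48 * t) % 4 = x % 4 := by omega
    have h2 : (x + 48 * t) % 16 = x % 16 := by omega
    have h3 : (x + 48 * t) % 3 = x % 3 := by omega
    rw [h1, h2, h3]
  · exact (Nat.dvd_add_left (Dvd.dvd.mul_left (Finset.dvd_prod_of_mem (fun p => p ^ 2) hp) 48))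

open Classical in
theorem count_S (s : Finset ℕ) (hs : ∀ p ∈ s, p.Prime ∧ 5 ≤ p) :
    6 * ∏ p ∈ s, (p ^ 2 - 1) ≤ ((range (48 * ∏ p ∈ s, p ^ 2)).filter (S s)).card := by
  induction s using Finset.induction_on with
  | empty =>
    have h1 : (range 48).filter (S ∅) = (range 48).filter B := by
      ext x
      simp [S]
    rw [Finset.prod_empty, Finset.prod_empty, mul_one, mul_one, h1]
    have h2 : ((range 48).filter B).card = 6 := by decide
    exact h2.ge
  | insert a s ha ih =>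
    have ih' := ih fun p hp => hs p (Finset.mem_insert_of_mem hp)
    obtain ⟨hap, ha5⟩ := hs a (Finset.mem_insert_self a s)
    rw [Finset.prod_insert ha, Finset.prod_insert ha]
    have hm : 0 < 48 * ∏ p ∈ s, p ^ 2 := by
      refine Nat.mul_pos (by norm_num) (Finset.prod_pos fun p hp => ?_)
      have := (hs p (Finset.mem_insert_of_mem hp)).2
      positivity
    have hc : (48 * ∏ p ∈ s, p ^ 2).Coprime (a ^ 2) := by
      refine Nat.Coprime.pow_right 2 (Nat.Coprime.mul_left (coprime_48 hap ha5) ?_)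
      refine Nat.Coprime.prod_left fun p hp => Nat.Coprime.pow_left 2 ?_
      rw [Nat.coprime_primes (hs p (Finset.mem_insert_of_mem hp)).1 hap]
      rintro rfl
      exact ha hp
    have h1 := count_step hm (S_period s) hc
    have h2 : (range (48 * (a ^ 2 * ∏ p ∈ s, p ^ 2))).filter (S (insert a s)) =
        (range (48 * (∏ p ∈ s, p ^ 2) * a ^ 2)).filter fun x => S s x ∧ ¬ a ^ 2 ∣ x := by
      rw [show 48 * (a ^ 2 * ∏ p ∈ s, p ^ 2) = 48 * (∏ p ∈ s, p ^ 2) * a ^ 2 by ring]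
      refine Finset.filter_congr fun x _ => ?_
      unfold S
      rw [Finset.forall_mem_insert]
      tauto
    rw [h2]
    refine le_trans ?_ h1
    calc 6 * ((a ^ 2 - 1) * ∏ p ∈ s, (p ^ 2 - 1))
        = (a ^ 2 - 1) * (6 * ∏ p ∈ s, (p ^ 2 - 1)) := by ring
      _ ≤ _ := Nat.mul_le_mul_left _ ih'

open Classical in
/-- The sifted set in reals. -/
theorem count_real (s : Finset ℕ) (hs : ∀ p ∈ s, p.Prime ∧ 5 ≤ p) :
    ((48 * ∏ p ∈ s, p ^ 2 : ℕ) : ℝ) / 8 * ∏ p ∈ s, (1 - 1 / (p : ℝ) ^ 2) ≤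
      (((range (48 * ∏ p ∈ s, p ^ 2)).filter (S s)).card : ℝ) := by
  have h1 : ((6 * ∏ p ∈ s, (p ^ 2 - 1) : ℕ) : ℝ) ≤
      (((range (48 * ∏ p ∈ s, p ^ 2)).filter (S s)).card : ℝ) := by
    exact_mod_cast count_S s hs
  refine le_trans (le_of_eq ?_) h1
  push_cast
  rw [show (48 * ∏ p ∈ s, (p : ℝ) ^ 2) / 8 * ∏ p ∈ s, (1 - 1 / (p : ℝ) ^ 2) =
    6 * ((∏ p ∈ s, (p : ℝ) ^ 2) * ∏ p ∈ s, (1 - 1 / (p : ℝ) ^ 2)) by ring, ← Finset.prod_mul_distrib]
  congr 1
  refine Finset.prod_congr rfl fun p hp => ?_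
  have h5 := (hs p hp).2
  have hp0 : (p : ℝ) ≠ 0 := by
    have : p ≠ 0 := by omega
    exact_mod_cast this
  rw [Nat.cast_sub (Nat.one_le_pow _ _ (by omega))]
  push_cast
  field_simp

open Classical in
/-- Lower bound for the number of elements of the sifted set up to `X`. -/
theorem count_X (s : Finset ℕ) (hs : ∀ p ∈ s, p.Prime ∧ 5 ≤ p) (c : ℝ) (hc0 : 0 ≤ c) (hc1 : c ≤ 1)
    (hc : c ≤ 1 / 8 * ∏ p ∈ s, (1 - 1 / (p : ℝ) ^ 2)) (X : ℕ) :
    c * X - (48 * ∏ p ∈ s, p ^ 2 : ℕ) ≤ (((range (X + 1)).filter (S s)).card : ℝ) := by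
  set m : ℕ := 48 * ∏ p ∈ s, p ^ 2 with hm
  have hm0 : 0 < m := by
    refine Nat.mul_pos (by norm_num) (Finset.prod_pos fun p hp => ?_)
    have := (hs p hp).2
    positivity
  have h1 := count_real s hs
  rw [← hm] at h1
  have h2 := count_mul (S_period s) ((X + 1) / m)
  rw [← hm] at h2
  have h3 : ((range ((X + 1) / m * m)).filter (S s)).card ≤
      ((range (X + 1)).filter (S s)).card := by
    refine Finset.card_le_card (Finset.filter_subset_filter _ ?_)
    exact Finset.range_subset_range.2 (Nat.div_mul_le_self _ _)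
  have h4 : (X : ℝ) - m ≤ ((X + 1) / m : ℕ) * m := by
    have h5 := Nat.lt_div_mul_add (a := X + 1) hm0
    have h6 : ((X + 1 : ℕ) : ℝ) < (((X + 1) / m * m + m : ℕ) : ℝ) := by exact_mod_cast h5
    push_cast at h6
    linarith
  have h7 : (m : ℝ) * c ≤ (((range m).filter (S s)).card : ℝ) := by
    refine le_trans ?_ h1
    calc (m : ℝ) * c ≤ m * (1 / 8 * ∏ p ∈ s, (1 - 1 / (p : ℝ) ^ 2)) :=
          mul_le_mul_of_nonneg_left hc (Nat.cast_nonneg _)
      _ = _ := by ring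
  have h8 : ((((X + 1) / m : ℕ) : ℝ) * (m * c)) ≤
      (((range (X + 1)).filter (S s)).card : ℝ) := by
    calc ((((X + 1) / m : ℕ) : ℝ) * (m * c))
        ≤ (((X + 1) / m : ℕ) : ℝ) * (((range m).filter (S s)).card : ℝ) :=
          mul_le_mul_of_nonneg_left h7 (Nat.cast_nonneg _)
      _ = ((((X + 1) / m * ((range m).filter (S s)).card : ℕ)) : ℝ) := by push_cast; ring
      _ = (((range ((X + 1) / m * m)).filter (S s)).card : ℝ) := by rw [h2]
      _ ≤ _ := by exact_mod_cast h3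
  have hmr : (0 : ℝ) ≤ m := Nat.cast_nonneg _
  nlinarith [mul_le_mul_of_nonneg_right h4 hc0, mul_le_mul_of_nonneg_left hc1 hmr]

theorem not_fund {Q x : ℕ} (hx : S (primes5 Q) x) (hf : ¬ (IsFund x ∧ x % 3 = 2)) :
    ∃ n, Q < n ∧ n ≤ x ∧ 0 < x ∧ n ^ 2 ∣ x := by
  obtain ⟨⟨h1, h2⟩, h3⟩ := hx
  have h4 : F2 (x : ℤ) := by
    unfold F2
    omega
  have h5 : ¬ ∀ p : ℕ, p.Prime → p ≠ 2 → ¬ p ^ 2 ∣ x := fun h => hf ⟨⟨h4, h⟩, h2⟩
  push Not at h5
  obtain ⟨p, hp, hp2, hpx⟩ := h5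
  have hx0 : 0 < x := by omega
  have hp3 : p ≠ 3 := by
    rintro rfl
    have : 3 ∣ x := dvd_trans (by norm_num) hpx
    omega
  have hp5 : 5 ≤ p := by
    have h6 := hp.two_le
    have h7 : p ≠ 4 := by rintro rfl; exact absurd hp (by norm_num)
    omega
  refine ⟨p, ?_, ?_, hx0, hpx⟩
  · by_contra h
    refine h3 p ?_ hpx
    unfold primes5
    rw [Finset.mem_filter, Finset.mem_Icc]
    exact ⟨⟨hp5, not_lt.1 h⟩, hp⟩
  · have h6 := Nat.le_of_dvd hx0 hpx
    have h7 : p ≤ p ^ 2 := Nat.le_self_pow two_ne_zero p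
    omega

end NF

open NF in
open Classical in
/-- The number of fields. -/
theorem stNF (h : StEuler) : StNF := by
  intro ε hε
  have hπ : (0 : ℝ) < Real.pi ^ 2 := by positivity
  obtain ⟨Q, hQ⟩ := exists_nat_gt (2 / ε)
  have hQ0 : (0 : ℝ) < Q := lt_trans (by positivity) hQ
  have hQ0' : Q ≠ 0 := by
    rintro rfl
    simp at hQ0
  have hs : ∀ p ∈ primes5 Q, p.Prime ∧ 5 ≤ p := by
    intro p hp
    unfold primes5 at hp
    rw [Finset.mem_filter, Finset.mem_Icc] at hp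
    exact ⟨hp.2, hp.1.1⟩
  set m : ℕ := 48 * ∏ p ∈ primes5 Q, p ^ 2 with hm
  obtain ⟨X₀, hX₀⟩ := exists_nat_gt (2 * m / ε)
  refine ⟨X₀, fun X hX => ?_⟩
  have hc1 : 9 / (8 * Real.pi ^ 2) ≤ 1 := by
    rw [div_le_one (by positivity)]
    nlinarith [Real.pi_gt_three]
  have hc : 9 / (8 * Real.pi ^ 2) ≤ 1 / 8 * ∏ p ∈ primes5 Q, (1 - 1 / (p : ℝ) ^ 2) := by
    have h1 := h.1 Q
    have h2 : 9 / (8 * Real.pi ^ 2) = 1 / 8 * (9 / Real.pi ^ 2) := by
      field_simp
    rw [h2]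
    linarith
  have h1 := count_X (primes5 Q) hs (9 / (8 * Real.pi ^ 2)) (by positivity) hc1 hc X
  rw [← hm] at h1
  -- the set
  have hfin : {Δ : ℕ | Δ ≤ X ∧ IsFund Δ ∧ Δ % 3 = 2}.Finite :=
    (Set.finite_Iic X).subset fun Δ hΔ => hΔ.1
  have hsub : (range (X + 1)).filter (S (primes5 Q)) ⊆
      hfin.toFinset ∪ (Ioc Q X).biUnion fun n => (Ioc 0 X).filter fun x => n ^ 2 ∣ x := by
    intro x hx
    rw [Finset.mem_filter, Finset.mem_range] at hx
    rw [Finset.mem_union]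
    by_cases hf : IsFund x ∧ x % 3 = 2
    · left
      rw [Set.Finite.mem_toFinset]
      exact ⟨by omega, hf⟩
    · right
      obtain ⟨n, hn1, hn2, hx0, hn3⟩ := not_fund hx.2 hf
      rw [Finset.mem_biUnion]
      refine ⟨n, Finset.mem_Ioc.2 ⟨hn1, by omega⟩, ?_⟩
      rw [Finset.mem_filter, Finset.mem_Ioc]
      exact ⟨⟨hx0, by omega⟩, hn3⟩
  have h2 : (((range (X + 1)).filter (S (primes5 Q))).card : ℝ) ≤
      ({Δ : ℕ | Δ ≤ X ∧ IsFund Δ ∧ Δ % 3 = 2}.ncard : ℝ) + X * (Q : ℝ)⁻¹ := by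
    have h3 := (Finset.card_le_card hsub).trans (Finset.card_union_le _ _)
    rw [← Set.ncard_eq_toFinset_card _ hfin] at h3
    have h4 : (((Ioc Q X).biUnion fun n => (Ioc 0 X).filter fun x => n ^ 2 ∣ x).card : ℝ) ≤
        X * (Q : ℝ)⁻¹ := by
      have h5 : (((Ioc Q X).biUnion fun n => (Ioc 0 X).filter fun x => n ^ 2 ∣ x).card : ℝ) ≤
          ∑ n ∈ Ioc Q X, (((Ioc 0 X).filter fun x => n ^ 2 ∣ x).card : ℝ) := by
        exact_mod_cast Finset.card_biUnion_le
      refine h5.trans ?_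
      have h6 : ∀ n ∈ Ioc Q X, (((Ioc 0 X).filter fun x => n ^ 2 ∣ x).card : ℝ) ≤
          X * ((n : ℝ) ^ 2)⁻¹ := by
        intro n _
        rw [Nat.Ioc_filter_dvd_card_eq_div]
        refine (Nat.cast_div_le).trans ?_
        rw [div_eq_mul_inv]
        push_cast
        exact le_rfl
      refine (Finset.sum_le_sum h6).trans ?_
      rw [← Finset.mul_sum]
      refine mul_le_mul_of_nonneg_left ?_ (Nat.cast_nonneg _)
      by_cases hQX : Q ≤ X
      · refine (sum_Ioc_inv_sq_le_sub hQ0' hQX).trans ?_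
        have : (0 : ℝ) ≤ (X : ℝ)⁻¹ := by positivity
        linarith
      · rw [Finset.Ioc_eq_empty (by omega), Finset.sum_empty]
        positivity
    have h7 : (((range (X + 1)).filter (S (primes5 Q))).card : ℝ) ≤
        (({Δ : ℕ | Δ ≤ X ∧ IsFund Δ ∧ Δ % 3 = 2}.ncard +
          ((Ioc Q X).biUnion fun n => (Ioc 0 X).filter fun x => n ^ 2 ∣ x).card : ℕ) : ℝ) := by
      exact_mod_cast h3
    push_cast at h7
    linarith
  have hXX : (X₀ : ℝ) ≤ X := by exact_mod_cast hX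
  have h8 : (m : ℝ) ≤ ε / 2 * X := by
    have h9 : 2 * (m : ℝ) / ε ≤ X := hX₀.le.trans hXX
    rw [div_le_iff₀ hε] at h9
    linarith
  have h10 : (X : ℝ) * (Q : ℝ)⁻¹ ≤ ε / 2 * X := by
    have h11 : (Q : ℝ)⁻¹ ≤ ε / 2 := by
      rw [inv_le_comm₀ hQ0 (by positivity)]
      refine le_trans (le_of_eq ?_) hQ.le
      field_simp
    have hX0 : (0 : ℝ) ≤ X := Nat.cast_nonneg _
    nlinarith
  have h12 : (9 / (8 * Real.pi ^ 2) - ε) * X =
      9 / (8 * Real.pi ^ 2) * X - ε / 2 * X - ε / 2 * X := by ring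
  rw [h12]
  linarith

end BKDH
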