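import Pool.Agent.Lib.MP_7c08ba_nt.DH.Stmts

/-!
Module `Nil`: pure group theory.
-/

namespace BKDH

namespace NilAux

/-! ### Nilpotent endomorphisms -/

section

variable {G : Type} [CommGroup G]

theorem card_ker_range {H : Type} [Group H] (f : G →* H) :
    Nat.card G = Nat.card f.ker * Nat.card f.range := by
  rw [← Subgroup.card_mul_index f.ker, Subgroup.index_ker]

theorem finite_of_ker_range {H : Type} [Group H] (f : G →* H) (h1 : Finite f.ker)
    (h2 : Finite f.range) : Finite G := by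
  have : Finite (G ⧸ f.ker) := Finite.of_equiv _ (QuotientGroup.quotientKerEquivRange f).symm.toEquiv
  exact Finite.of_equiv _ (Subgroup.groupEquivQuotientProdSubgroup (s := f.ker)).symm

/-- the kernel of the square of a nilpotent endomorphism -/
theorem card_ker_sq (D : G →* G) (hf : Finite D.ker) :
    Finite (D.comp D).ker ∧ Nat.card (D.comp D).ker ≤ Nat.card D.ker * Nat.card D.ker := by
  let f : (D.comp D).ker →* D.ker :=
    { toFun := fun x => ⟨D x.1, x.2⟩
      map_one' := by ext; simp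
      map_mul' := fun x y => by ext; simp }
  have h1 : ∀ x : f.ker, D (x.1.1) = 1 := fun x => congrArg Subtype.val (MonoidHom.mem_ker.mp x.2)
  let e : f.ker → D.ker := fun x => ⟨x.1.1, h1 x⟩
  have he : Function.Injective e := by
    intro x y hxy
    have e1 : x.1.1 = y.1.1 := congrArg (Subtype.val : D.ker → G) hxy
    exact Subtype.ext (Subtype.ext e1)
  have : Finite f.ker := Finite.of_injective e he
  have : Finite f.range := inferInstance
  refine ⟨finite_of_ker_range f inferInstance inferInstance, ?_⟩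
  rw [card_ker_range f]
  exact Nat.mul_le_mul (Nat.card_le_card_of_injective e he)
    (Nat.card_le_card_of_injective (Subtype.val : f.range → D.ker) Subtype.val_injective)

theorem card_all (D : G →* G) (hf : Finite D.ker) (h3 : ∀ x, D (D (D x)) = 1) :
    Finite G ∧ Nat.card G ≤ Nat.card D.ker * (Nat.card D.ker * Nat.card D.ker) := by
  obtain ⟨h1, h2⟩ := card_ker_sq D hf
  have h4 : ∀ x : D.range, x.1 ∈ (D.comp D).ker := by
    rintro ⟨x, y, rfl⟩
    exact h3 y
  let e : D.range → (D.comp D).ker := fun x => ⟨x.1, h4 x⟩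
  have he : Function.Injective e := fun x y hxy =>
    Subtype.ext (congrArg (Subtype.val : (D.comp D).ker → G) hxy)
  have : Finite D.range := Finite.of_injective e he
  refine ⟨finite_of_ker_range D hf inferInstance, ?_⟩
  rw [card_ker_range D]
  exact Nat.mul_le_mul le_rfl ((Nat.card_le_card_of_injective e he).trans h2)

/-- in the extremal case the kernel is the image of the square -/
theorem ker_eq_range (D : G →* G) (hf : Finite D.ker) (h3 : ∀ x, D (D (D x)) = 1)
    (h9 : Nat.card D.ker ≤ 9) (hG : 3 ^ 6 ≤ Nat.card G) (x : G) (hx : D x = 1) :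
    ∃ y, D (D y) = x := by
  obtain ⟨h1, h2⟩ := card_ker_sq D hf
  have h4 : Nat.card (D.comp D).ker ≤ 81 := h2.trans (Nat.mul_le_mul h9 h9)
  have h5 : 9 ≤ Nat.card (D.comp D).range := by
    have h6 := card_ker_range (D.comp D)
    by_contra h7
    push Not at h7
    have h8 : Nat.card (D.comp D).ker * Nat.card (D.comp D).range ≤ 81 * 8 :=
      Nat.mul_le_mul h4 (by omega)
    rw [← h6] at h8
    omega
  have h6 : (D.comp D).range ≤ D.ker := by
    rintro _ ⟨y, rfl⟩
    exact h3 y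
  have h7 : (D.comp D).range = D.ker := by
    have : Finite ((D.ker : Subgroup G) : Set G) := hf
    refine SetLike.coe_injective (Set.eq_of_subset_of_ncard_le h6 ?_ (Set.toFinite _))
    rw [← Nat.card_coe_set_eq, ← Nat.card_coe_set_eq]
    exact h9.trans h5
  have h8 : x ∈ (D.comp D).range := by rw [h7]; exact hx
  obtain ⟨y, hy⟩ := h8
  exact ⟨y, hy⟩

end

/-! ### Classes modulo cubes -/

section

variable {E : Type} [CommGroup E]

/-- the cubes -/
def cub (E : Type) [CommGroup E] : Subgroup E := (powMonoidHom 3 : E →* E).range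

theorem mem_cub {x : E} : x ∈ cub E ↔ ∃ b : E, x = b ^ 3 := by
  constructor
  · rintro ⟨b, hb⟩
    exact ⟨b, hb.symm⟩
  · rintro ⟨b, hb⟩
    exact ⟨b, hb.symm⟩

/-- the map `x ↦ g x / x` -/
def dd (g : E ≃* E) : E →* E :=
  { toFun := fun x => g x / x
    map_one' := by simp
    map_mul' := fun x y => by simp [mul_div_mul_comm] }

@[simp] theorem dd_apply (g : E ≃* E) (x : E) : dd g x = g x / x := rfl

/-- the map `x ↦ g x / x` on the classes modulo cubes -/
def DV (g : E ≃* E) : E ⧸ cub E →* E ⧸ cub E :=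
  QuotientGroup.map (cub E) (cub E) (dd g) (by
    intro x hx
    obtain ⟨b, rfl⟩ := mem_cub.mp hx
    exact mem_cub.mpr ⟨dd g b, by rw [map_pow]⟩)

theorem DV_mk (g : E ≃* E) (x : E) : DV g (x : E ⧸ cub E) = ((g x / x : E) : E ⧸ cub E) := rfl

theorem mk_eq {x y : E} : (x : E ⧸ cub E) = y ↔ ∃ b : E, x = y * b ^ 3 := by
  rw [eq_comm, QuotientGroup.eq, mem_cub]
  constructor
  · rintro ⟨b, hb⟩
    exact ⟨b, by rw [← hb, mul_inv_cancel_left]⟩
  · rintro ⟨b, hb⟩
    exact ⟨b, by rw [hb, inv_mul_cancel_left]⟩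

theorem mk_eq_one {x : E} : (x : E ⧸ cub E) = 1 ↔ ∃ b : E, x = b ^ 3 := by
  rw [← QuotientGroup.mk_one, mk_eq]
  simp

theorem DV3 (g : E ≃* E) (hg : ∀ x, g (g (g x)) = x) (v : E ⧸ cub E) :
    DV g (DV g (DV g v)) = 1 := by
  obtain ⟨x, rfl⟩ := QuotientGroup.mk_surjective v
  rw [DV_mk, DV_mk, DV_mk, mk_eq_one]
  refine ⟨g x / g (g x), ?_⟩
  simp only [map_div, hg]
  apply Additive.ofMul.injective
  simp only [ofMul_div, ofMul_pow]
  abel

theorem ker_DV (g : E ≃* E) (hg : ∀ x, g (g (g x)) = x)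
    (hN : ∀ z, z * g z * g (g z) = 1 → ∃ x, z = g x / x) (h3 : ∀ x : E, x ^ 3 = 1 → x = 1)
    (v : E ⧸ cub E) (hv : DV g v = 1) : ∃ u : E, g u = u ∧ v = u := by
  obtain ⟨x, rfl⟩ := QuotientGroup.mk_surjective v
  rw [DV_mk, mk_eq_one] at hv
  obtain ⟨y, hy⟩ := hv
  have h1 : (y * g y * g (g y)) ^ 3 = 1 := by
    rw [mul_pow, mul_pow, ← map_pow, ← map_pow, ← map_pow, ← hy]
    simp only [map_div, hg]
    rw [div_mul_div_comm, mul_comm (g x) (g (g x)), div_mul_div_comm]
    rw [div_eq_one]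
    simp only [mul_comm, mul_left_comm]
  obtain ⟨z, hz⟩ := hN y (h3 _ h1)
  refine ⟨x * (z⁻¹) ^ 3, ?_, ?_⟩
  · rw [map_mul, map_pow, map_inv]
    have h2 : g x = x * (g z / z) ^ 3 := by rw [← hz, ← hy, mul_div_cancel]
    rw [h2, div_eq_mul_inv, mul_assoc, ← mul_pow]
    congr 2
    rw [mul_comm (g z) z⁻¹, mul_inv_cancel_right]
  · rw [mk_eq]
    exact ⟨z, by rw [mul_assoc, ← mul_pow, inv_mul_cancel, one_pow, mul_one]⟩

end

end NilAux

open NilAux in
theorem stNil : StNil := by
  intro E _ g hg hN h3 ⟨S, hS9, hS⟩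
  -- the kernel of `D`
  have hker : ∀ v : (DV g).ker, ∃ c : S, (v : E ⧸ cub E) = (c : E) := by
    intro v
    obtain ⟨u, hu, hvu⟩ := ker_DV g hg hN h3 v.1 v.2
    obtain ⟨c, hc, b, hb⟩ := hS u hu
    exact ⟨⟨c, hc⟩, by rw [hvu]; exact mk_eq.mpr ⟨b, hb⟩⟩
  choose f hf using hker
  have hfi : Function.Injective f := by
    intro v w hvw
    exact Subtype.ext (by rw [hf v, hf w, hvw])
  have hfin : Finite (DV g).ker := Finite.of_injective f hfi
  have h9 : Nat.card (DV g).ker ≤ 9 := by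
    refine (Nat.card_le_card_of_injective f hfi).trans ?_
    simpa using hS9
  obtain ⟨hV, hV'⟩ := card_all (DV g) hfin (DV3 g hg)
  have hcard : Nat.card (E ⧸ cub E) ≤ 3 ^ 6 := by
    refine hV'.trans ?_
    calc _ ≤ 9 * (9 * 9) := Nat.mul_le_mul h9 (Nat.mul_le_mul h9 h9)
      _ = 3 ^ 6 := by norm_num
  have hT : ∀ T : Finset E, (∀ x ∈ T, ∀ y ∈ T, x ≠ y → ¬ ∃ b : E, x = y * b ^ 3) →
      T.card ≤ Nat.card (E ⧸ cub E) := by
    intro T hT
    have h1 : Function.Injective (fun x : T => ((x : E) : E ⧸ cub E)) := by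
      intro x y hxy
      by_contra hne
      exact hT x x.2 y y.2 (fun h => hne (Subtype.ext h)) (mk_eq.mp hxy)
    have h2 := Nat.card_le_card_of_injective _ h1
    simpa using h2
  refine ⟨fun T h => (hT T h).trans hcard, ?_⟩
  rintro ⟨T, hTc, hTT⟩ u hu
  have hG : 3 ^ 6 ≤ Nat.card (E ⧸ cub E) := hTc ▸ hT T hTT
  have hDu : DV g (u : E ⧸ cub E) = 1 := by
    rw [DV_mk, hu, div_self']
    rfl
  obtain ⟨w, hw⟩ := ker_eq_range (DV g) hfin (DV3 g hg) h9 hG (u : E ⧸ cub E) hDu
  obtain ⟨v, rfl⟩ := QuotientGroup.mk_surjective w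
  rw [DV_mk, DV_mk, eq_comm, mk_eq] at hw
  obtain ⟨y, hy⟩ := hw
  -- `u = N(v) z ^ 3` with `z = y / g v`
  have h1 : u = (v * g v * g (g v)) * (y / g v) ^ 3 := by
    rw [hy]
    simp only [map_div]
    apply Additive.ofMul.injective
    simp only [ofMul_mul, ofMul_div, ofMul_pow]
    abel
  have h2 : g (v * g v * g (g v)) = v * g v * g (g v) := by
    simp only [map_mul, hg]
    simp only [mul_comm, mul_left_comm]
  have h4 : g (y / g v) = y / g v := by
    have h5 : g ((y / g v) ^ 3) = (y / g v) ^ 3 := by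
      have h6 := hu
      rw [h1, map_mul, h2] at h6
      exact mul_left_cancel h6
    have h7 := h3 (g (y / g v) / (y / g v)) (by rw [div_pow, ← map_pow, h5, div_self'])
    exact div_eq_one.mp h7
  refine ⟨v * (y / g v), ?_⟩
  simp only [map_mul, h4]
  conv_lhs => rw [h1]
  generalize y / g v = z
  apply Additive.ofMul.injective
  simp only [ofMul_mul, ofMul_pow]
  abel

end BKDH
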