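import Pool.Agent.Lib.MP_7c08ba_nt.DH.Stmts
import Pool.Agent.Lib.MP_7c08ba_nt.Odd.Norm

/-!
The local norm index theorem for cyclic cubic extensions of `ℚ_3`.
-/

namespace BKDH

open BKGen BKGen.Herb BKGen.NormIdx Module

noncomputable section

theorem stNorm : StNorm := by
  intro E g hE hg
  have : FiniteDimensional ℚ_[3] E := FiniteDimensional.of_finrank_pos (by rw [hE]; norm_num)
  have h1 : finrank (IntermediateField.fixedField (Subgroup.zpowers g)) E = orderOf g := by
    rw [IntermediateField.finrank_fixedField_eq_card, Nat.card_zpowers]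
  have h2 := Module.finrank_mul_finrank ℚ_[3]
    (IntermediateField.fixedField (Subgroup.zpowers g)) E
  rw [h1, hE] at h2
  have hord : orderOf g = 3 := by
    rcases (Nat.dvd_prime Nat.prime_three).1 (Dvd.intro_left _ h2) with h3 | h3
    · exact absurd (orderOf_eq_one_iff.1 h3) hg
    · exact h3
  have hbot : IntermediateField.fixedField (Subgroup.zpowers g) = ⊥ := by
    rw [← IntermediateField.finrank_eq_one_iff]
    rw [hord] at h2
    omega
  have h4 := BKOdd.NormAux.relIndex_of_aut 3 g hord
  by_contra! hcon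
  have h5 : (Nm (sg g) 3).range.relIndex (Dm (sg g)).ker = 1 := by
    rw [Subgroup.relIndex_eq_one]
    intro x hx
    rw [mem_ker_Dm] at hx
    have hx' : g (x : E) = x := congrArg (fun u : (E : Type)ˣ => (u : E)) hx
    have h6 : (x : E) ∈ IntermediateField.fixedField (Subgroup.zpowers g) := by
      rw [IntermediateField.mem_fixedField_iff]
      intro f hf
      have h7 : g ∈ MulAction.stabilizer (E ≃ₐ[ℚ_[3]] E) (x : E) := hx'
      exact (Subgroup.zpowers_le.2 h7) hf
    rw [hbot, IntermediateField.mem_bot] at h6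
    obtain ⟨a, ha⟩ := h6
    have ha0 : a ≠ 0 := by
      rintro rfl
      rw [map_zero] at ha
      exact x.ne_zero ha.symm
    obtain ⟨y, hy⟩ := hcon a ha0
    have hy0 : y ≠ 0 := by
      rintro rfl
      rw [zero_mul, zero_mul, ha] at hy
      exact x.ne_zero hy.symm
    refine ⟨Units.mk0 y hy0, ?_⟩
    apply Units.ext
    rw [← ha, ← hy, Nm_apply, Units.coe_prod]
    simp only [sg_iter, Finset.prod_range_succ, Finset.prod_range_zero, one_mul, Units.val_mk0,
      pow_zero, pow_one, AlgEquiv.one_apply, pow_two, AlgEquiv.mul_apply]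
  rw [h5] at h4
  norm_num at h4

end

end BKDH
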