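import Pool.Agent.Lib.MP_7c08ba_nt.DH.Stmts
import Pool.Agent.Lib.MP_7c08ba_nt.Gen.RT.Unit

/-!
Module One: from a bad element to an element of norm one.
-/

namespace BKDH
namespace OneAux

open BKGen BKGen.RT NumberField

section Quad

variable {F : Type} [Field F] [NumberField F] {Δ : ℕ} {s : F} {σ : F →+* F} {j : F →+* ℚ_[3]}

theorem delta_pos (h : QF F Δ s σ j) : 0 < Δ := by
  have := h.mod3
  omega

theorem s_not_rat (h : QF F Δ s σ j) (q : ℚ) : (q : F) ≠ s := by
  intro hq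
  have h1 := h.s2
  rw [← hq] at h1
  have h2 : q ^ 2 = -(Δ : ℚ) := by exact_mod_cast h1
  have h3 : (0 : ℚ) < Δ := by exact_mod_cast delta_pos h
  nlinarith [sq_nonneg q]

theorem li (h : QF F Δ s σ j) : LinearIndependent ℚ ![(1 : F), s] := by
  rw [LinearIndependent.pair_iff]
  intro a b hab
  rw [Algebra.smul_def, Algebra.smul_def, mul_one] at hab
  by_cases hb : b = 0
  · subst hb
    rw [map_zero, zero_mul, add_zero, map_eq_zero] at hab
    exact ⟨hab, rfl⟩
  · exfalso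
    apply s_not_rat h (-(a / b))
    have hb' : (algebraMap ℚ F) b ≠ 0 := by rwa [Ne, map_eq_zero]
    have h1 : s = -((algebraMap ℚ F) a / (algebraMap ℚ F) b) := by
      field_simp
      linear_combination hab
    rw [h1, ← map_div₀]
    push_cast
    rfl

theorem coords (h : QF F Δ s σ j) (z : F) : ∃ x y : ℚ, z = x + y * s := by
  have h1 := (li h).span_eq_top_of_card_eq_finrank (by rw [h.deg]; rfl)
  have h2 : z ∈ Submodule.span ℚ (Set.range ![(1 : F), s]) := by
    rw [h1]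
    exact Submodule.mem_top
  have h3 : Set.range ![(1 : F), s] = {1, s} := by
    simp [Matrix.range_cons, Set.pair_comm]
  rw [h3, Submodule.mem_span_pair] at h2
  obtain ⟨x, y, hxy⟩ := h2
  refine ⟨x, y, ?_⟩
  rw [← hxy, Algebra.smul_def, Algebra.smul_def, mul_one]
  rfl

theorem conj_coords (h : QF F Δ s σ j) (x y : ℚ) : σ (x + y * s) = x - y * s := by
  rw [map_add, map_mul, map_ratCast, map_ratCast, h.conj]
  ring

theorem conj_conj (h : QF F Δ s σ j) (z : F) : σ (σ z) = z := by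
  obtain ⟨x, y, rfl⟩ := coords h z
  rw [conj_coords h, map_sub, map_mul, map_ratCast, map_ratCast, h.conj]
  ring

theorem norm_rat (h : QF F Δ s σ j) (z : F) : ∃ q : ℚ, z * σ z = q := by
  obtain ⟨x, y, rfl⟩ := coords h z
  refine ⟨x ^ 2 + y ^ 2 * Δ, ?_⟩
  rw [conj_coords h]
  push_cast
  linear_combination (-(y : F) ^ 2) * h.s2

theorem trace_rat (h : QF F Δ s σ j) (z : F) : ∃ q : ℚ, z + σ z = q := by
  obtain ⟨x, y, rfl⟩ := coords h z
  refine ⟨2 * x, ?_⟩
  rw [conj_coords h]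
  push_cast
  ring

theorem rat_mem_bot (q : ℚ) : (q : F) ∈ (⊥ : IntermediateField ℚ F) :=
  IntermediateField.mem_bot.2 ⟨q, rfl⟩

/-- a rational number which is `PowAway` in `F` is `PowAway` in `ℚ` -/
theorem powAway_rat (h : QF F Δ s σ j) {q : ℚ} (hq : q ≠ 0) (hp : PowAway 3 (q : F)) :
    PowAway 3 q := by
  have h1 := PowAway.descend (p := 3) (by decide) (⊥ : IntermediateField ℚ F) σ
    (fun b => by
      obtain ⟨x, hx⟩ := trace_rat h b
      obtain ⟨y, hy⟩ := norm_rat h b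
      rw [hx, hy]
      exact ⟨rat_mem_bot x, rat_mem_bot y⟩) (rat_mem_bot q) (by exact_mod_cast hq) hp
  intro l _ hl i
  obtain ⟨b, hb⟩ := h1 l hl
    (i.comp (IntermediateField.botEquiv ℚ F : (⊥ : IntermediateField ℚ F) →+* ℚ))
  refine ⟨IntermediateField.botEquiv ℚ F b, ?_⟩
  have h2 : (⟨(q : F), rat_mem_bot q⟩ : (⊥ : IntermediateField ℚ F)) =
      algebraMap ℚ (⊥ : IntermediateField ℚ F) q := rfl
  rw [h2] at hb
  have h3 : (IntermediateField.botEquiv ℚ F : (⊥ : IntermediateField ℚ F) →+* ℚ)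
      (algebraMap ℚ (⊥ : IntermediateField ℚ F) q) = q := by
    exact (IntermediateField.botEquiv_def (F := ℚ) (E := F) q)
  rw [RingHom.comp_apply, h3] at hb
  exact hb

end Quad

/-- a rational number which is `PowAway` is a power of `3` times a cube -/
theorem rat_form {q : ℚ} (hq : q ≠ 0) (h : PowAway 3 q) :
    ∃ m : ℚ, m ≠ 0 ∧ (q = m ^ 3 ∨ q = 3 * m ^ 3 ∨ q = 9 * m ^ 3) := by
  obtain ⟨y, w, hy, hw, hS, e⟩ := exists_sunit (L := ℚ) Nat.prime_three hq h
  rw [Rat.classNumber_eq, pow_one] at e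
  obtain ⟨k, hk⟩ : ∃ k : ℤ, w = 3 ^ k ∨ w = -3 ^ k := by
    have h3 : (w : ℚ_[3]) ≠ 0 := by exact_mod_cast hw
    refine ⟨(w : ℚ_[3]).valuation, ?_⟩
    have h1 : ∀ (l : ℕ) [Fact l.Prime],
        ‖((w / 3 ^ ((w : ℚ_[3]).valuation) : ℚ) : ℚ_[l])‖ = 1 := by
      intro l hl
      push_cast
      rw [norm_div, norm_zpow]
      by_cases hl3 : l = 3
      · subst hl3
        rw [Padic.norm_eq_zpow_neg_valuation h3]
        have h4 : ‖(3 : ℚ_[3])‖ = (3 : ℝ)⁻¹ := by
          have := Padic.norm_p (p := 3)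
          simpa using this
        rw [h4, inv_zpow, ← zpow_neg]
        push_cast
        exact div_self (zpow_ne_zero _ (by norm_num))
      · obtain ⟨i, -⟩ := exists_j ℚ l
        have h4 : ‖(w : ℚ_[l])‖ = 1 := by
          rw [← norm_ratK i]
          exact hS l hl3 i
        have h5 : ‖(3 : ℚ_[l])‖ = 1 := by
          have := Padic.norm_natCast_eq_one_iff (p := l) (n := 3) |>.2
            ((Nat.coprime_primes hl.out Nat.prime_three).2 hl3)
          simpa using this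
        rw [h4, h5, one_zpow, div_one]
    rcases rat_one h1 with h2 | h2
    · left
      rw [div_eq_iff (zpow_ne_zero _ (by norm_num)), one_mul] at h2
      exact h2
    · right
      rw [div_eq_iff (zpow_ne_zero _ (by norm_num)), neg_one_mul] at h2
      exact h2
  obtain ⟨y', hy', e'⟩ : ∃ y' : ℚ, y' ≠ 0 ∧ q = 3 ^ k * y' ^ 3 := by
    rcases hk with hk | hk
    · exact ⟨y, hy, by rw [e, hk]; ring⟩
    · exact ⟨-y, neg_ne_zero.2 hy, by rw [e, hk]; ring⟩
  have h3 : (3 : ℚ) ^ (k / 3) ≠ 0 := zpow_ne_zero _ (by norm_num)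
  refine ⟨3 ^ (k / 3) * y', mul_ne_zero h3 hy', ?_⟩
  have h4 : k = 3 * (k / 3) + k % 3 := (Int.mul_ediv_add_emod k 3).symm
  have h5 : (3 : ℚ) ^ k = ((3 : ℚ) ^ (k / 3)) ^ 3 * 3 ^ (k % 3) := by
    conv_lhs => rw [h4, zpow_add₀ (by norm_num : (3 : ℚ) ≠ 0), mul_comm 3 (k / 3), zpow_mul]
    rfl
  have h6 : 0 ≤ k % 3 := Int.emod_nonneg _ (by norm_num)
  have h7 : k % 3 < 3 := Int.emod_lt_of_pos _ (by norm_num)
  generalize k % 3 = r at *
  generalize (3 : ℚ) ^ (k / 3) = T at *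
  rw [e', h5]
  interval_cases r
  · left
    rw [zpow_zero]
    ring
  · right; left
    rw [zpow_one]
    ring
  · right; right
    have : (3 : ℚ) ^ (2 : ℤ) = 9 := by norm_num
    rw [this]
    ring

theorem val_three : (3 : ℚ_[3]).valuation = 1 := by
  have := Padic.valuation_p (p := 3)
  simpa using this

theorem not_cube_three (z : ℚ_[3]) : z ^ 3 ≠ 3 := by
  intro h
  have h1 := congrArg Padic.valuation h
  rw [Padic.valuation_pow, val_three] at h1
  push_cast at h1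
  omega

theorem not_cube_nine (z : ℚ_[3]) : z ^ 3 ≠ 9 := by
  intro h
  have h0 : (9 : ℚ_[3]) = 3 ^ 2 := by norm_num
  rw [h0] at h
  have h1 := congrArg Padic.valuation h
  rw [Padic.valuation_pow, Padic.valuation_pow, val_three] at h1
  push_cast at h1
  omega

end OneAux

open OneAux BKGen BKGen.RT

theorem stOne : StOne := by
  intro F _ _ Δ s σ j h a ha hP ⟨κ, hκ⟩ hnc
  have hσa : σ a ≠ 0 := by rwa [Ne, map_eq_zero]
  obtain ⟨n, hn⟩ := norm_rat h a
  have hn0 : n ≠ 0 := by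
    rintro rfl
    rw [Rat.cast_zero] at hn
    exact mul_ne_zero ha hσa hn
  have hnF : (n : F) ≠ 0 := by exact_mod_cast hn0
  have hPn : PowAway 3 (n : F) := by
    rw [← hn]
    exact PowAway.mul hP (PowAway.map hP σ)
  have hσn : σ (n : F) = n := map_ratCast σ n
  have hjn : j (n : F) = (n : ℚ_[3]) := map_ratCast j n
  have hja : j a ≠ 0 := by rwa [Ne, map_eq_zero]
  have hκ0 : κ ≠ 0 := by
    rintro rfl
    rw [zero_pow (by norm_num)] at hκ
    exact hja hκ.symm
  have hPw : PowAway 3 (a ^ 2 / n) := by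
    rw [sq, div_eq_mul_inv]
    exact PowAway.mul (PowAway.mul hP hP) (PowAway.inv hPn)
  have hnw : (a ^ 2 / n) * σ (a ^ 2 / n) = 1 := by
    rw [map_div₀, map_pow, hσn, div_mul_div_comm, ← mul_pow, hn]
    field_simp
  -- a cube times `n` is not `a ^ 2`
  have key : ∀ b : F, b ^ 3 = a ^ 2 / n → (∃ m : ℚ, m ≠ 0 ∧ (n = m ^ 3 ∨ n = 3 * m ^ 3 ∨
      n = 9 * m ^ 3)) → False := by
    intro b hb ⟨m, hm, hc⟩
    have hb' : a ^ 2 = b ^ 3 * n := by rw [hb, div_mul_cancel₀ _ hnF]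
    have hb0 : b ≠ 0 := by
      rintro rfl
      rw [zero_pow (by norm_num), zero_mul] at hb'
      exact pow_ne_zero 2 ha hb'
    have hjb : j b ≠ 0 := by rwa [Ne, map_eq_zero]
    have hmF : (m : F) ≠ 0 := by exact_mod_cast hm
    have hm3 : (m : ℚ_[3]) ≠ 0 := by exact_mod_cast hm
    have hj : κ ^ 6 = j b ^ 3 * n := by
      have h1 := congrArg j hb'
      rw [map_pow, map_mul, map_pow, hjn, ← hκ] at h1
      rw [← h1]
      ring
    rcases hc with hc | hc | hc
    · apply hnc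
      refine ⟨a / (b * m), ?_⟩
      have h1 : a ^ 2 = (b * m) ^ 3 := by
        rw [hb', hc]
        push_cast
        ring
      rw [div_pow, ← h1]
      field_simp
    · apply not_cube_three (κ ^ 2 / (j b * m))
      rw [hc] at hj
      push_cast at hj
      rw [div_pow, div_eq_iff (pow_ne_zero _ (mul_ne_zero hjb hm3))]
      linear_combination hj
    · apply not_cube_nine (κ ^ 2 / (j b * m))
      rw [hc] at hj
      push_cast at hj
      rw [div_pow, div_eq_iff (pow_ne_zero _ (mul_ne_zero hjb hm3))]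
      linear_combination hj
  have hform := rat_form hn0 (powAway_rat h hn0 hPn)
  have hjw : j (a ^ 2 / n) = κ ^ 6 / n := by
    rw [map_div₀, map_pow, hjn, ← hκ]
    ring
  obtain ⟨m, hm, hc⟩ := id hform
  have hm3 : (m : ℚ_[3]) ≠ 0 := by exact_mod_cast hm
  rcases hc with hc | hc | hc
  · refine ⟨a ^ 2 / n, hnw, hPw, fun ⟨b, hb⟩ => key b hb hform, Or.inl ⟨κ ^ 2 / m, ?_⟩⟩
    rw [hjw, hc]
    push_cast
    rw [div_pow]
    ring
  · refine ⟨(a ^ 2 / n)⁻¹, ?_, PowAway.inv hPw, fun ⟨b, hb⟩ => key b⁻¹ ?_ hform,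
      Or.inr ⟨m / κ ^ 2, ?_⟩⟩
    · rw [map_inv₀, ← mul_inv, hnw, inv_one]
    · rw [inv_pow, hb, inv_inv]
    · rw [map_inv₀, hjw, hc]
      push_cast
      field_simp
  · refine ⟨a ^ 2 / n, hnw, hPw, fun ⟨b, hb⟩ => key b hb hform,
      Or.inr ⟨κ ^ 2 / (3 * m), ?_⟩⟩
    rw [hjw, hc]
    push_cast
    field_simp
    norm_num

end BKDH
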