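import Pool.Agent.Lib.MP_7c08ba_nt.DH.Stmts

/-!
The real parametrisation of the binary cubic forms with positive definite Hessian.
-/

namespace BKDH

theorem stParam : StParam := by
  intro v hA hD
  set A : ℝ := HA v with hAdef
  have hA0 : A ≠ 0 := hA.ne'
  set x : ℝ := -HB v / (2 * A) with hx
  set y : ℝ := Real.sqrt (HD v) / (2 * A) with hy
  have hypos : 0 < y := div_pos (Real.sqrt_pos.mpr hD) (by positivity)
  have hy0 : y ≠ 0 := hypos.ne'
  have hB : HB v = -2 * x * A := by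
    rw [hx]; field_simp
  have hy2 : y ^ 2 * (4 * A ^ 2) = HD v := by
    rw [hy, div_pow, Real.sq_sqrt hD.le]; field_simp; ring
  have hC : HC v = (x ^ 2 + y ^ 2) * A := by
    have h1 : HD v = 4 * A * HC v - HB v ^ 2 := rfl
    have h2 : 4 * A * (HC v - (x ^ 2 + y ^ 2) * A) = 0 := by
      rw [hB] at h1
      linear_combination -hy2 - h1
    have h3 : (4 : ℝ) * A ≠ 0 := by positivity
    have h4 := (mul_eq_zero.mp h2).resolve_left h3
    linarith
  set u0 : ℝ := v 0 / 2 with hu0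
  set u1 : ℝ := (v 1 + v 0 * x) / (2 * y) with hu1
  have hv0 : v 0 = 2 * u0 := by rw [hu0]; ring
  have hu1' : 2 * y * u1 = v 1 + v 0 * x := by rw [hu1]; field_simp
  have hv1 : v 1 = -2 * (u0 * x - u1 * y) := by
    linear_combination -hu1' - x * hv0
  have s1 : A * v 2 - HB v * v 1 + HC v * v 0 = 0 := by
    rw [hAdef]; unfold HA HB HC; ring
  have s2 : A * v 3 - HB v * v 2 + HC v * v 1 = 0 := by
    rw [hAdef]; unfold HA HB HC; ring
  have hv2 : v 2 = -2 * x * v 1 - (x ^ 2 + y ^ 2) * v 0 := by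
    rw [hB, hC] at s1
    have : A * (v 2 - (-2 * x * v 1 - (x ^ 2 + y ^ 2) * v 0)) = 0 := by
      linear_combination s1
    have := (mul_eq_zero.mp this).resolve_left hA0
    linarith
  have hv3 : v 3 = -2 * x * v 2 - (x ^ 2 + y ^ 2) * v 1 := by
    rw [hB, hC] at s2
    have : A * (v 3 - (-2 * x * v 2 - (x ^ 2 + y ^ 2) * v 1)) = 0 := by
      linear_combination s2
    have := (mul_eq_zero.mp this).resolve_left hA0
    linarith
  have e2 : v 2 = 2 * (u0 * (x ^ 2 - y ^ 2) - 2 * u1 * x * y) := by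
    rw [hv2, hv1, hv0]; ring
  have e3 : v 3 = -2 * (u0 * (x ^ 3 - 3 * x * y ^ 2) - u1 * (3 * x ^ 2 * y - y ^ 3)) := by
    rw [hv3, e2, hv1]; ring
  have eA : A = 4 * (u0 ^ 2 + u1 ^ 2) * y ^ 2 := by
    have : A = v 1 ^ 2 - v 0 * v 2 := rfl
    rw [this, e2, hv1, hv0]; ring
  refine ⟨![u0, u1, x, y], ?_, ?_, ?_, ?_, ?_, ?_⟩
  · simpa using hypos
  · funext i
    fin_cases i
    · simp [Phi]; rw [hv0]
    · simp [Phi]; rw [hv1]; ring
    · simp [Phi]; rw [e2]
    · simp [Phi]; rw [e3]; ring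
  · simpa using eA
  · simpa using hB
  · simpa using hC
  · have : HD v = 64 * (u0 ^ 2 + u1 ^ 2) ^ 2 * y ^ 6 := by
      rw [← hy2, eA]; ring
    simpa using this

end BKDH
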