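import Pool.Agent.Lib.MP_7c08ba_nt.DH.Stmts

/-!
The product of the local conditions at the primes `5 ≤ p ≤ Q`.
-/

namespace BKDH

/-- The statement for an arbitrary finite set of primes at least `5`. -/
theorem prod_aux (h1 : StDP) (h2 : StCRT) (s : Finset ℕ) :
    (∀ p ∈ s, p.Prime ∧ 5 ≤ p) →
    ∃ M : ℕ, M = ∏ p ∈ s, p ^ 2 ∧ 0 < M ∧ ∃ U : Finset (Fin 4 → ZMod M),
      (U.card : ℝ) ≤ ∏ p ∈ s, ((p : ℝ) ^ 8 * (1 - 1 / (p : ℝ) ^ 2) ^ 2) ∧
      ∀ v : Fin 4 → ℤ, (∀ p ∈ s, ¬ (p : ℤ) ^ 2 ∣ HD v) → red M v ∈ U := by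
  classical
  induction s using Finset.induction_on with
  | empty =>
    intro _
    refine ⟨1, by simp, one_pos, {fun _ => 0}, by simp, fun v _ => ?_⟩
    rw [Finset.mem_singleton]
    exact Subsingleton.elim _ _
  | insert a s ha ih =>
    intro hs
    obtain ⟨M, hM, hM0, U, hU, hU'⟩ := ih fun p hp => hs p (Finset.mem_insert_of_mem hp)
    obtain ⟨hap, ha5⟩ := hs a (Finset.mem_insert_self _ _)
    obtain ⟨S, hS, hS'⟩ := h1 a hap ha5
    have hcop : (a ^ 2).Coprime M := by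
      rw [hM]
      refine Nat.Coprime.prod_right fun p hp => ?_
      refine Nat.Coprime.pow 2 2 ?_
      rw [Nat.coprime_primes hap (hs p (Finset.mem_insert_of_mem hp)).1]
      intro h
      exact ha (h ▸ hp)
    obtain ⟨W, hW, hW'⟩ := h2 (a ^ 2) M (pow_pos hap.pos 2) hM0 hcop S U
    refine ⟨a ^ 2 * M, ?_, Nat.mul_pos (pow_pos hap.pos 2) hM0, W, ?_, fun v hv => ?_⟩
    · rw [Finset.prod_insert ha, hM]
    · rw [Finset.prod_insert ha]
      have hS1 : (S.card : ℝ) ≤ (a : ℝ) ^ 8 * (1 - 1 / (a : ℝ) ^ 2) ^ 2 := by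
        have e : (a : ℝ) ^ 8 * (1 - 1 / (a : ℝ) ^ 2) ^ 2 =
            ((a ^ 4 * (a ^ 2 - 1) ^ 2 : ℕ) : ℝ) := by
          have h0 : (a : ℝ) ≠ 0 := by exact_mod_cast hap.ne_zero
          have h1' : 1 ≤ a ^ 2 := Nat.one_le_pow _ _ hap.pos
          push_cast [Nat.cast_sub h1']
          field_simp
        rw [e]
        exact_mod_cast hS
      have h3 : (W.card : ℝ) ≤ (S.card : ℝ) * (U.card : ℝ) := by exact_mod_cast hW
      refine h3.trans (mul_le_mul hS1 hU (Nat.cast_nonneg _) ?_)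
      exact (Nat.cast_nonneg _).trans hS1
    · exact hW' v (hS' v (hv a (Finset.mem_insert_self _ _)))
        (hU' v fun p hp => hv p (Finset.mem_insert_of_mem hp))

theorem stProd (h1 : StDP) (h2 : StCRT) : StProd := by
  intro Q
  obtain ⟨M, hM, -, U, hU, hU'⟩ := prod_aux h1 h2 (primes5 Q) (by
    intro p hp
    rw [primes5, Finset.mem_filter, Finset.mem_Icc] at hp
    exact ⟨hp.2, hp.1.1⟩)
  subst hM
  exact ⟨U, hU, hU'⟩

end BKDH
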