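import Pool.Agent.Lib.MP_7c08ba_nt.DH.CAux

/-!
The number of classes of `S`-units of a cyclic cubic extension modulo cubes.
-/

namespace BKDH
namespace Rank

open Module NumberField BKGen CAux SUnits IsDedekindDomain

/-- classes of `S`-units modulo cubes -/
lemma card_ge {K : Type} [Field K] [NumberField K] (S : Set (HeightOneSpectrum (𝓞 K))) [Finite S] :
    3 ^ (Units.rank K + Nat.card S) ≤
      Nat.card ((S.unit K) ⧸ (powMonoidHom 3 : S.unit K →* S.unit K).range) := by
  have h := index_pR 3 (by norm_num) (Additive (S.unit K))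
  rw [finrank_sunits] at h
  have h1 : Nat.card ((S.unit K) ⧸ (powMonoidHom 3 : S.unit K →* S.unit K).range) =
      (pR 3 (Additive (S.unit K))).index := rfl
  rw [h1, h]
  have h2 : 0 < Nat.card {x : Additive (S.unit K) // 3 • x = 0} := by
    have hA : ∀ x : {x : Additive (S.unit K) // 3 • x = 0},
        ((Additive.toMul x.1 : S.unit K) : Kˣ) ∈ rootsOfUnity 3 K := by
      intro x
      rw [mem_rootsOfUnity]
      have h : 3 • x.1 = 0 := x.2
      have h' : ((Additive.toMul (3 • x.1) : S.unit K) : Kˣ) = 1 := by rw [h]; rfl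
      exact h'
    have hinj : Function.Injective (fun x : {x : Additive (S.unit K) // 3 • x = 0} =>
        (⟨_, hA x⟩ : rootsOfUnity 3 K)) := by
      intro x y hxy
      have h3 := congrArg Subtype.val hxy
      apply Subtype.ext
      apply Additive.toMul.injective
      apply Subtype.ext
      exact h3
    haveI : Finite {x : Additive (S.unit K) // 3 • x = 0} := Finite.of_injective _ hinj
    haveI : Nonempty {x : Additive (S.unit K) // 3 • x = 0} := ⟨⟨0, smul_zero _⟩⟩
    exact Nat.card_pos
  exact Nat.le_mul_of_pos_right _ h2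

/-- representatives -/
lemma exists_reps {K : Type} [Field K] [NumberField K] {n : ℕ}
    (h : n ≤ Units.rank K + Nat.card (Sp K 3)) :
    ∃ T : Finset K, T.card = 3 ^ n ∧ (∀ x ∈ T, x ≠ 0 ∧ SU3 x) ∧
      ∀ x ∈ T, ∀ y ∈ T, x ≠ y → ¬ ∃ b : K, x = y * b ^ 3 := by
  classical
  haveI := finite_Sp K 3 (by norm_num)
  set S := Sp K 3 with hS
  have h1 := card_ge S
  have h2 : 3 ^ n ≤ Nat.card ((S.unit K) ⧸ (powMonoidHom 3 : S.unit K →* S.unit K).range) :=
    (Nat.pow_le_pow_right (by norm_num) h).trans h1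
  haveI hfin : Finite ((S.unit K) ⧸ (powMonoidHom 3 : S.unit K →* S.unit K).range) :=
    Nat.finite_of_card_ne_zero (by
      have : 0 < 3 ^ n := by positivity
      omega)
  haveI := Fintype.ofFinite ((S.unit K) ⧸ (powMonoidHom 3 : S.unit K →* S.unit K).range)
  rw [Nat.card_eq_fintype_card, ← Finset.card_univ] at h2
  obtain ⟨Q, -, hQ⟩ := Finset.exists_subset_card_eq h2
  let f : ((S.unit K) ⧸ (powMonoidHom 3 : S.unit K →* S.unit K).range) → K :=
    fun q => (((Quotient.out q : S.unit K) : Kˣ) : K)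
  have hkey : ∀ q q' : ((S.unit K) ⧸ (powMonoidHom 3 : S.unit K →* S.unit K).range),
      (∃ b : K, f q = f q' * b ^ 3) → q = q' := by
    rintro q q' ⟨b, hb⟩
    set x : S.unit K := Quotient.out q with hx
    set y : S.unit K := Quotient.out q' with hy
    have hxq : (QuotientGroup.mk x : (S.unit K) ⧸ (powMonoidHom 3 : S.unit K →* S.unit K).range)
        = q := Quotient.out_eq q
    have hyq : (QuotientGroup.mk y : (S.unit K) ⧸ (powMonoidHom 3 : S.unit K →* S.unit K).range)
        = q' := Quotient.out_eq q'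
    have hfx : f q = ((x : Kˣ) : K) := rfl
    have hfy : f q' = ((y : Kˣ) : K) := rfl
    rw [hfx, hfy] at hb
    have hb0 : b ≠ 0 := by
      rintro rfl
      rw [zero_pow (by norm_num), mul_zero] at hb
      exact (x : Kˣ).ne_zero hb
    have hbu : ((Units.mk0 b hb0) ^ 3 : Kˣ) = (y : Kˣ)⁻¹ * x := by
      apply Units.ext
      rw [Units.val_pow_eq_pow_val, Units.val_mk0, Units.val_mul, Units.val_inv_eq_inv_val, hb]
      field_simp
    have hbm : Units.mk0 b hb0 ∈ S.unit K := by
      intro v hv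
      apply val_eq_one_of_pow (n := 3) (by norm_num)
      rw [hbu]
      exact (y⁻¹ * x : S.unit K).2 v hv
    rw [← hxq, ← hyq, eq_comm, QuotientGroup.eq]
    refine ⟨⟨Units.mk0 b hb0, hbm⟩, ?_⟩
    apply Subtype.ext
    exact hbu
  have hinj : Function.Injective f := by
    intro q q' hqq
    exact hkey q q' ⟨1, by rw [hqq]; ring⟩
  refine ⟨Q.image f, ?_, ?_, ?_⟩
  · rw [Finset.card_image_of_injective _ hinj, hQ]
  · intro x hx
    obtain ⟨q, -, rfl⟩ := Finset.mem_image.mp hx
    exact ⟨Units.ne_zero _, su3_of_mem (Quotient.out q : S.unit K).2⟩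
  · intro x hx y hy hxy hb
    obtain ⟨q, -, rfl⟩ := Finset.mem_image.mp hx
    obtain ⟨q', -, rfl⟩ := Finset.mem_image.mp hy
    exact hxy (by rw [hkey q q' hb])

lemma norm_add_small {a b : ℚ_[3]} (ha : ‖a‖ = 1) (hb : ‖b‖ < 1) : ‖a + b‖ = 1 := by
  rw [IsUltrametricDist.norm_add_eq_max_of_norm_ne_norm (by rw [ha]; exact hb.ne'), ha,
    max_eq_left hb.le]

/-- the embedding into the algebraic closure -/
noncomputable def up {N : Type} [Field N] (j : N →+* ℚ_[3]) : N →+* PadicAlgCl 3 :=
  (algebraMap ℚ_[3] (PadicAlgCl 3)).comp j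

lemma norm_up {N : Type} [Field N] (j : N →+* ℚ_[3]) (x : N) : ‖up j x‖ = ‖j x‖ := norm_alg _

lemma pl_up_injective {N : Type} [Field N] [NumberField N] {j j' : N →+* ℚ_[3]}
    (h : pl (up j) = pl (up j')) : j = j' := by
  apply emb_eq
  intro x
  have := norm_eq_of_pl_eq h x
  rwa [norm_up, norm_up] at this

section

variable {F N : Type} [Field F] [Field N] [Algebra F N] {g : N ≃ₐ[F] N}

/-- the three conjugates of an embedding -/
noncomputable def tw (g : N ≃ₐ[F] N) (j : N →+* ℚ_[3]) (k : Fin 3) : N →+* ℚ_[3] :=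
  j.comp ((g ^ (k : ℕ) : N ≃ₐ[F] N) : N →+* N)

lemma tw_apply (j : N →+* ℚ_[3]) (k : Fin 3) (x : N) : tw g j k x = j ((g ^ (k : ℕ)) x) := rfl

lemma tw_base (j : N →+* ℚ_[3]) (k : Fin 3) (y : F) :
    tw g j k (algebraMap F N y) = j (algebraMap F N y) := by
  rw [tw_apply, AlgEquiv.commutes]

lemma tw_injective (h3 : finrank F N = 3) (hg : g ≠ 1) (j : N →+* ℚ_[3]) :
    Function.Injective (tw g j) := by
  intro k m h
  have h1 : g ^ (k : ℕ) = g ^ (m : ℕ) := by
    ext x
    have := congrArg (fun f => f x) h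
    simp only [tw_apply] at this
    exact j.injective this
  have h2 := pow_injOn_Iio_orderOf (x := g) (by rw [order_three h3 hg]; exact k.2)
    (by rw [order_three h3 hg]; exact m.2) h1
  exact Fin.ext h2

end

theorem main {F : Type} [Field F] [NumberField F] {Δ : ℕ} {s : F} {σ : F →+* F} {j : F →+* ℚ_[3]}
    (hQ : QF F Δ s σ j) {N : Type} [Field N] [NumberField N] [Algebra F N] {g : N ≃ₐ[F] N}
    (h3 : finrank F N = 3) (hg : g ≠ 1) (j₁ : N →+* ℚ_[3]) :
    Units.rank N = 2 ∧ 4 ≤ Nat.card (Sp N 3) ∧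
    ∀ j₂ : N →+* ℚ_[3], j₂ (algebraMap F N s) ≠ j₁ (algebraMap F N s) →
      6 ≤ Nat.card (Sp N 3) := by
  classical
  haveI := finite_Sp N 3 (by norm_num)
  have hΔ : 0 < Δ := by
    have := hQ.mod3
    omega
  have hs2 : (algebraMap F N s) ^ 2 = -(Δ : N) := by
    rw [← map_pow, hQ.s2, map_neg, map_natCast]
  refine ⟨?_, ?_, ?_⟩
  · have hE : IsEmpty (N →+* ℝ) := by
      apply isEmpty_real_of_sq N (s := algebraMap F N s) (d := -(Δ : ℚ))
      · have : (0 : ℚ) < Δ := by exact_mod_cast hΔ
        linarith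
      · rw [hs2]
        push_cast
        rfl
    have h1 := rank_of_isEmpty N hE
    have h2 := finrank_mul_finrank ℚ F N
    rw [hQ.deg, h3] at h2
    rw [← h2] at h1
    omega
  · -- the fourth place
    obtain ⟨i₄, hi₄⟩ := exists_extension (Ω := N) 3
      (((algebraMap ℚ_[3] (PadicAlgCl 3)).comp (j₁.comp (algebraMap F N))).comp σ)
    have hi₄s : i₄ (algebraMap F N s) = - up j₁ (algebraMap F N s) := by
      have := congrArg (fun f => f s) hi₄
      simp only [RingHom.comp_apply] at this
      rw [this, hQ.conj, map_neg, map_neg, map_neg]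
      rfl
    -- the integer close to `j₁ s`
    have hu : ‖j₁ (algebraMap F N s)‖ = 1 := by
      have h1 : (j₁ (algebraMap F N s)) ^ 2 = -(Δ : ℚ_[3]) := by
        rw [← map_pow, hs2, map_neg, map_natCast]
      have h2 : ‖(Δ : ℚ_[3])‖ = 1 := by
        rw [Padic.norm_natCast_eq_one_iff, Nat.Prime.coprime_iff_not_dvd Nat.prime_three]
        have := hQ.mod3
        omega
      have h3 : ‖j₁ (algebraMap F N s)‖ ^ 2 = 1 := by
        rw [← norm_pow, h1, norm_neg, h2]
      exact (pow_eq_one_iff_of_nonneg (norm_nonneg _) two_ne_zero).mp h3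
    obtain ⟨n, hn⟩ : ∃ n : ℕ, ‖j₁ (algebraMap F N s) - n‖ < 1 := by
      let z : ℤ_[3] := ⟨j₁ (algebraMap F N s), hu.le⟩
      refine ⟨z.appr 1, ?_⟩
      have h := PadicInt.appr_spec 1 z
      rw [← PadicInt.norm_le_pow_iff_mem_span_pow] at h
      have h2 : ‖z - (z.appr 1 : ℤ_[3])‖ = ‖j₁ (algebraMap F N s) - (z.appr 1 : ℕ)‖ := rfl
      rw [h2] at h
      refine h.trans_lt ?_
      norm_num
    have hn1 : ‖(n : ℚ_[3])‖ = 1 := by
      have h1 : (n : ℚ_[3]) = j₁ (algebraMap F N s) + -(j₁ (algebraMap F N s) - n) := by ring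
      rw [h1, IsUltrametricDist.norm_add_eq_max_of_norm_ne_norm (by
        rw [norm_neg, hu]; exact hn.ne'), norm_neg, hu, max_eq_left hn.le]
    have h2n : ‖(2 : ℚ_[3])‖ = 1 := by
      have : ((2 : ℕ) : ℚ_[3]) = 2 := by norm_num
      rw [← this, Padic.norm_natCast_eq_one_iff]
      norm_num
    let e : Option (Fin 3) → Sp N 3
      | some k => ⟨pl (up (tw g j₁ k)), l_mem_plI _⟩
      | none => ⟨pl i₄, l_mem_plI _⟩
    have hne : ∀ k : Fin 3, pl (up (tw g j₁ k)) ≠ pl i₄ := by
      intro k h
      have h1 := norm_eq_of_pl_eq h (algebraMap F N s - n)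
      rw [norm_up, map_sub, map_sub, tw_base, map_natCast, map_natCast, hi₄s] at h1
      have h2 : ‖-up j₁ (algebraMap F N s) - n‖ = 1 := by
        have h3 : -up j₁ (algebraMap F N s) - (n : PadicAlgCl 3) =
            algebraMap ℚ_[3] (PadicAlgCl 3) (-(j₁ (algebraMap F N s)) - n) := by
          rw [map_sub, map_neg, map_natCast]
          rfl
        rw [h3, norm_alg]
        have h4 : -(j₁ (algebraMap F N s)) - (n : ℚ_[3]) = -(2 * n) + -(j₁ (algebraMap F N s) - n) := by
          ring
        have h5 : ‖-(2 * (n : ℚ_[3]))‖ = 1 := by rw [norm_neg, norm_mul, h2n, hn1, one_mul]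
        rw [h4]
        exact norm_add_small h5 (by rw [norm_neg]; exact hn)
      rw [h2] at h1
      exact hn.ne h1
    have hinj : Function.Injective e := by
      intro a b hab
      cases a with
      | none =>
        cases b with
        | none => rfl
        | some b => exact absurd (congrArg Subtype.val hab).symm (hne b)
      | some a =>
        cases b with
        | none => exact absurd (congrArg Subtype.val hab) (hne a)
        | some b =>
          have h1 := pl_up_injective (congrArg Subtype.val hab)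
          rw [tw_injective h3 hg j₁ h1]
    have := Nat.card_le_card_of_injective e hinj
    simpa using this
  · intro j₂ hj
    let e : Fin 3 × Bool → Sp N 3 := fun k =>
      ⟨pl (up (tw g (if k.2 then j₁ else j₂) k.1)), l_mem_plI _⟩
    have hinj : Function.Injective e := by
      rintro ⟨a, b⟩ ⟨c, d⟩ hab
      have h1 := pl_up_injective (congrArg Subtype.val hab)
      simp only at h1
      have h2 := congrArg (fun f => f (algebraMap F N s)) h1
      simp only [tw_base] at h2
      have hbd : b = d := by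
        cases b <;> cases d <;> simp only [if_true, if_false, Bool.false_eq_true] at h2
        · rfl
        · exact absurd h2 hj
        · exact absurd h2.symm hj
        · rfl
      subst hbd
      rw [tw_injective h3 hg _ h1]
    have := Nat.card_le_card_of_injective e hinj
    simpa using this

end Rank

theorem stRank : StRank := by
  intro F _ _ Δ s σ j hQ N _ _ _ g h3 hg j₁
  obtain ⟨h1, h2, h4⟩ := Rank.main hQ h3 hg j₁
  refine ⟨Rank.exists_reps (by omega), fun j₂ hj => Rank.exists_reps ?_⟩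
  have := h4 j₂ hj
  omega

end BKDH
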