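import Pool.Agent.Lib.MP_7c08ba_nt.DH.Stmts
import Pool.Agent.Lib.MP_7c08ba_nt.Gen.SUnits

/-!
The `S`-units of `F` represent all classes of cubes of `ℚ_3`.
-/

namespace BKDH

open BKGen BKGen.SUnits NumberField IsDedekindDomain Module

noncomputable section

namespace SUm

variable {F : Type} [Field F] [NumberField F]

/-- The embedding into the algebraic closure of `ℚ_3`. -/
def emb (j : F →+* ℚ_[3]) : F →+* PadicAlgCl 3 := (algebraMap ℚ_[3] (PadicAlgCl 3)).comp j

lemma emb_apply (j : F →+* ℚ_[3]) (x : F) : emb j x = algebraMap ℚ_[3] (PadicAlgCl 3) (j x) := rfl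

lemma norm_emb (j : F →+* ℚ_[3]) (x : F) : ‖emb j x‖ = ‖j x‖ := PadicAlgCl.norm_extends 3 (j x)

/-- Elements which are units outside `3`. -/
lemma su3_of_mem {x : Fˣ} (hx : x ∈ (Sp F 3).unit F) : SU3 (x : F) := by
  intro l hl hlp i
  apply norm_eq_of_val i
  apply hx
  intro h
  have h1 : ((3 : ℕ) : 𝓞 F) ∈ plI i := h
  rw [mem_plI, map_natCast, map_natCast, norm_natCast_one] at h1
  · exact lt_irrefl _ h1
  · intro hd
    exact hlp ((Nat.prime_dvd_prime_iff_eq hl.out Nat.prime_three).1 hd)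

lemma powAway_div {u c : F} (hu : SU3 u) (hc : SU3 c) : PowAway 3 (u / c) := by
  intro l hl hlp i
  refine ⟨1, ?_⟩
  rw [map_div₀, norm_div, hu l hlp i, hc l hlp i, map_one, norm_one]
  norm_num

lemma powAt_of {j : F →+* ℚ_[3]} {a : F} {κ : ℚ_[3]} (h : κ ^ 3 = j a) : PowAt 3 (emb j) a :=
  ⟨algebraMap ℚ_[3] (PadicAlgCl 3) κ, IntermediateField.algebraMap_mem _ _, by
    rw [← map_pow, h]; rfl⟩

/-- From a cube in `ℚ_3` to a cube in `F`. -/
lemma cube_of {j : F →+* ℚ_[3]} (hR : ∀ ι : F →+* PadicAlgCl 3, Rigid 3 F ι) {u c : F}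
    (hu0 : u ≠ 0) (hc0 : c ≠ 0) (hu : SU3 u) (hc : SU3 c) {κ : ℚ_[3]} (h : κ ^ 3 = j (u / c)) :
    ∃ b : F, u = c * b ^ 3 := by
  obtain ⟨b, hb⟩ := hR (emb j) (u / c) (div_ne_zero hu0 hc0) (powAway_div hu hc) (powAt_of h)
  exact ⟨b, by rw [hb, mul_div_cancel₀ _ hc0]⟩

/-- Two different places above `3`. -/
lemma two_places {Δ : ℕ} {s : F} {σ : F →+* F} {j : F →+* ℚ_[3]} (hQ : QF F Δ s σ j) :
    2 ≤ Nat.card (Sp F 3) := by
  have hσ : σ s = -s := hQ.conj
  have hs2 : (j s) ^ 2 = -(Δ : ℚ_[3]) := by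
    rw [← map_pow, hQ.s2, map_neg, map_natCast]
  have hprod : (j s - 1) * (j s + 1) = -(((Δ + 1 : ℕ) : ℤ) : ℚ_[3]) := by
    have e : (j s - 1) * (j s + 1) = (j s) ^ 2 - 1 := by ring
    rw [e, hs2]
    push_cast
    ring
  have hlt : ‖j s - 1‖ * ‖j s + 1‖ < 1 := by
    rw [← norm_mul, hprod, norm_neg]
    rw [Padic.norm_intCast_lt_one_iff]
    have := hQ.mod3
    omega
  have h2 : ‖(2 : ℚ_[3])‖ = 1 := by
    have h := (Padic.norm_natCast_eq_one_iff (p := 3) (n := 2)).2 (by norm_num)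
    exact_mod_cast h
  refine two_le_card_Sp F 3 (j₁ := emb j) (j₂ := emb (j.comp σ)) (x := s - 1) ?_
  intro h
  rw [norm_emb, norm_emb] at h
  have e1 : j (s - 1) = j s - 1 := by rw [map_sub, map_one]
  have e2 : (j.comp σ) (s - 1) = -(j s + 1) := by
    rw [RingHom.comp_apply, map_sub, map_one, hσ, map_sub, map_neg, map_one]
    ring
  rw [e1, e2, norm_neg] at h
  have hl : ‖j s - 1‖ < 1 := by
    by_contra hc
    rw [not_lt] at hc
    have := mul_le_mul hc (h ▸ hc) zero_le_one (norm_nonneg _)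
    linarith
  have hr : ‖j s + 1‖ < 1 := by rw [← h]; exact hl
  have e3 : (2 : ℚ_[3]) = (j s + 1) - (j s - 1) := by ring
  have h3 : ‖(2 : ℚ_[3])‖ < 1 := by
    rw [e3, sub_eq_add_neg]
    refine lt_of_le_of_lt (IsUltrametricDist.norm_add_le_max _ _) (max_lt hr ?_)
    rw [norm_neg]
    exact hl
  linarith

/-- Counting classes of `S`-units. -/
lemma nine_le {Δ : ℕ} {s : F} {σ : F →+* F} {j : F →+* ℚ_[3]} (hQ : QF F Δ s σ j) :
    Finite (((Sp F 3).unit F) ⧸ (powMonoidHom 3 : (Sp F 3).unit F →* (Sp F 3).unit F).range) →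
    9 ≤ Nat.card
      (((Sp F 3).unit F) ⧸ (powMonoidHom 3 : (Sp F 3).unit F →* (Sp F 3).unit F).range) := by
  intro hfin0
  have hfin := finite_Sp F 3 (by norm_num)
  have hΔ : 0 < Δ := by
    have := hQ.mod3
    omega
  have hK : IsEmpty (F →+* ℝ) := by
    refine isEmpty_real_of_sq F (s := s) (d := -(Δ : ℚ)) ?_ ?_
    · have : (0 : ℚ) < Δ := by exact_mod_cast hΔ
      linarith
    · rw [hQ.s2]
      push_cast
      ring
  have h1 := rank_of_isEmpty F hK
  rw [hQ.deg] at h1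
  have h2 := two_places hQ
  have h3 := index_pR 3 (by norm_num) (Additive ((Sp F 3).unit F))
  rw [finrank_sunits] at h3
  have h4 : (pR 3 (Additive ((Sp F 3).unit F))).index = Nat.card
      (((Sp F 3).unit F) ⧸ (powMonoidHom 3 : (Sp F 3).unit F →* (Sp F 3).unit F).range) := rfl
  rw [h4] at h3
  have h5 : Nat.card {x : Additive ((Sp F 3).unit F) // 3 • x = 0} ≠ 0 := by
    intro h0
    rw [h0, mul_zero] at h3
    exact Nat.card_pos.ne' h3
  have h6 : 1 ≤ Nat.card {x : Additive ((Sp F 3).unit F) // 3 • x = 0} := Nat.pos_of_ne_zero h5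
  rw [h3]
  have h7 : 3 ^ 2 ≤ 3 ^ (Units.rank F + Nat.card (Sp F 3)) :=
    Nat.pow_le_pow_right (by norm_num) (by omega)
  calc 9 = 3 ^ 2 * 1 := by norm_num
    _ ≤ _ := Nat.mul_le_mul h7 h6

end SUm

open SUm

theorem stSU (h : StCub) : StSU := by
  classical
  intro F _ _ Δ s σ j hQ hR
  obtain ⟨S, hS9, hS⟩ := h
  constructor
  · intro j' x hx
    -- the classes of cubes
    let C := ℚ_[3]ˣ ⧸ (powMonoidHom 3 : ℚ_[3]ˣ →* ℚ_[3]ˣ).range
    let q : ℚ_[3] → C := fun c => if hc : c = 0 then 1 else QuotientGroup.mk (Units.mk0 c hc)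
    have hq : Function.Surjective (fun c : S => q c) := by
      intro z
      obtain ⟨y, rfl⟩ := QuotientGroup.mk_surjective z
      obtain ⟨c, hc, κ, hκ⟩ := hS y y.ne_zero
      have hc0 : c ≠ 0 := by
        rintro rfl
        rw [zero_mul] at hκ
        exact y.ne_zero hκ
      have hκ0 : κ ≠ 0 := by
        rintro rfl
        apply y.ne_zero
        rw [hκ]
        simp
      refine ⟨⟨c, hc⟩, ?_⟩
      show q c = _
      simp only [q, dif_neg hc0]
      rw [QuotientGroup.eq]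
      refine ⟨Units.mk0 κ hκ0, ?_⟩
      rw [eq_comm, inv_mul_eq_iff_eq_mul]
      apply Units.ext
      simpa using hκ
    have hCfin : Finite C := Finite.of_surjective _ hq
    have hC9 : Nat.card C ≤ 9 := by
      have h1 := Nat.card_le_card_of_surjective _ hq
      rw [Nat.card_eq_fintype_card (α := S), Fintype.card_coe] at h1
      exact h1.trans hS9
    let f₁ : (Sp F 3).unit F →* ℚ_[3]ˣ :=
      (Units.map (j' : F →* ℚ_[3])).comp ((Sp F 3).unit F).subtype
    have hf₁ : ∀ y : (Sp F 3).unit F, ((f₁ y : ℚ_[3]ˣ) : ℚ_[3]) = j' ((y : Fˣ) : F) :=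
      fun y => rfl
    let f : ((Sp F 3).unit F) ⧸ (powMonoidHom 3 : (Sp F 3).unit F →* (Sp F 3).unit F).range →*
        C := QuotientGroup.map _ _ f₁ (by
      rintro _ ⟨y, rfl⟩
      exact ⟨f₁ y, by simp⟩)
    have hinj : Function.Injective f := by
      rw [injective_iff_map_eq_one]
      intro z
      obtain ⟨y, rfl⟩ := QuotientGroup.mk_surjective z
      intro h
      rw [QuotientGroup.map_mk, QuotientGroup.eq_one_iff] at h
      obtain ⟨g, hg⟩ := h
      rw [QuotientGroup.eq_one_iff]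
      have hg' : ((g : ℚ_[3]ˣ) : ℚ_[3]) ^ 3 = j' ((y : Fˣ) : F) := by
        have := congrArg (fun u : ℚ_[3]ˣ => (u : ℚ_[3])) hg
        rw [← hf₁]
        simpa using this
      obtain ⟨b, hb⟩ := hR (emb j') ((y : Fˣ) : F) (Units.ne_zero _) (powAway_of_mem F 3 y.2)
        (powAt_of hg')
      have hb0 : b ≠ 0 := by
        rintro rfl
        rw [zero_pow (by norm_num)] at hb
        exact Units.ne_zero _ hb.symm
      refine ⟨⟨Units.mk0 b hb0, fun v hv => ?_⟩, ?_⟩
      · apply val_eq_one_of_pow (n := 3) (by norm_num)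
        rw [Units.val_pow_eq_pow_val, Units.val_mk0, hb]
        exact y.2 v hv
      · apply Subtype.ext
        apply Units.ext
        simpa using hb
    have hEfin : Finite
        (((Sp F 3).unit F) ⧸ (powMonoidHom 3 : (Sp F 3).unit F →* (Sp F 3).unit F).range) :=
      Finite.of_injective f hinj
    have h9 := nine_le hQ hEfin
    have hle := Nat.card_le_card_of_injective f hinj
    have heq := le_antisymm hle (hC9.trans h9)
    have hsurj : Function.Surjective f :=
      ((Nat.bijective_iff_injective_and_card f).2 ⟨hinj, heq⟩).2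
    obtain ⟨z, hz⟩ := hsurj (QuotientGroup.mk (Units.mk0 x hx))
    obtain ⟨y, rfl⟩ := QuotientGroup.mk_surjective z
    rw [QuotientGroup.map_mk, QuotientGroup.eq] at hz
    obtain ⟨g, hg⟩ := hz
    refine ⟨((y : Fˣ) : F), Units.ne_zero _, su3_of_mem y.2, (g : ℚ_[3]), Units.ne_zero _, ?_⟩
    have h1 : f₁ y * g ^ 3 = Units.mk0 x hx := by
      have : g ^ 3 = (f₁ y)⁻¹ * Units.mk0 x hx := hg
      rw [this, mul_inv_cancel_left]
    have h2 := congrArg (fun u : ℚ_[3]ˣ => (u : ℚ_[3])) h1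
    rw [← hf₁]
    simpa using h2.symm
  · -- representatives
    let P : ℚ_[3] → F → Prop := fun c u => u ≠ 0 ∧ SU3 u ∧ ∃ κ : ℚ_[3], j u = c * κ ^ 3
    let rep : ℚ_[3] → F := fun c => if hc : ∃ u, P c u then hc.choose else 1
    have h1 : SU3 (1 : F) := by
      intro l _ _ i
      rw [map_one, norm_one]
    have hrep : ∀ c, rep c ≠ 0 ∧ SU3 (rep c) := by
      intro c
      by_cases hc : ∃ u, P c u
      · simp only [rep, dif_pos hc]
        exact ⟨hc.choose_spec.1, hc.choose_spec.2.1⟩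
      · simp only [rep, dif_neg hc]
        exact ⟨one_ne_zero, h1⟩
    refine ⟨S.image rep, Finset.card_image_le.trans hS9, ?_, ?_⟩
    · intro c hc
      obtain ⟨a, _, rfl⟩ := Finset.mem_image.1 hc
      exact hrep a
    · intro u hu0 hu
      obtain ⟨c, hc, κ, hκ⟩ := hS (j u) (by rwa [Ne, map_eq_zero])
      have hP : ∃ u, P c u := ⟨u, hu0, hu, κ, hκ⟩
      have e : rep c = hP.choose := by simp only [rep, dif_pos hP]
      obtain ⟨hv0, hv, μ, hμ⟩ := hP.choose_spec
      refine ⟨rep c, Finset.mem_image_of_mem _ hc, ?_⟩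
      rw [e]
      have hjv : j hP.choose ≠ 0 := by rwa [Ne, map_eq_zero]
      have hc0 : c ≠ 0 := by
        rintro rfl
        rw [zero_mul] at hμ
        exact hjv hμ
      have hμ0 : μ ≠ 0 := by
        rintro rfl
        apply hjv
        rw [hμ]
        simp
      refine cube_of (j := j) hR hu0 hv0 hu hv (κ := κ / μ) ?_
      rw [map_div₀, hκ, hμ, div_pow]
      field_simp

end

end BKDH
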