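import Pool.Agent.Lib.MP_7c08ba_nt.DH.Stmts

/-!
The first local type at `3`.
-/

namespace BKDH

namespace TA

theorem four_cases : ∀ a b a' b' : ZMod 3,
    a = a' ∨ b = b' ∨ a + b = a' + b' ∨ a + b * 2 = a' + b' * 2 := by
  decide

theorem dvd_of_toZMod_eq_zero (x : ℤ_[3]) (h : PadicInt.toZMod x = 0) : (3 : ℤ_[3]) ∣ x := by
  have h1 : x ∈ RingHom.ker (PadicInt.toZMod (p := 3)) := h
  rw [PadicInt.ker_toZMod, PadicInt.maximalIdeal_eq_span_p, Ideal.mem_span_singleton] at h1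
  exact_mod_cast h1

theorem dvd_sub_of_eq (x y : ℤ_[3]) (h : PadicInt.toZMod x = PadicInt.toZMod y) :
    (3 : ℤ_[3]) ∣ x - y := by
  apply dvd_of_toZMod_eq_zero
  rw [map_sub, h, sub_self]

theorem nine_dvd_cube_sub (x y : ℤ_[3]) (h : (3 : ℤ_[3]) ∣ x - y) :
    (9 : ℤ_[3]) ∣ x ^ 3 - y ^ 3 := by
  obtain ⟨k, hk⟩ := h
  have : x = y + 3 * k := by rw [← hk]; ring
  refine ⟨k * y ^ 2 + 3 * k ^ 2 * y + 3 * k ^ 3, ?_⟩
  rw [this]
  ring

/-- An integer whose product with a unit is divisible by `9` is divisible by `9`. -/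
theorem nine_dvd (n : ℤ) (d : ℚ_[3]) (hd : ‖d‖ = 1) (z : ℤ_[3]) (hz : (9 : ℤ_[3]) ∣ z)
    (h : (n : ℚ_[3]) * d = z) : (9 : ℤ) ∣ n := by
  obtain ⟨k, rfl⟩ := hz
  have h1 : ‖(n : ℚ_[3])‖ ≤ ((3 : ℕ) : ℝ) ^ (-((2 : ℕ) : ℤ)) := by
    have h2 : ‖(n : ℚ_[3])‖ = ‖(n : ℚ_[3]) * d‖ := by rw [norm_mul, hd, mul_one]
    rw [h2, h]
    have h3 : (((9 : ℤ_[3]) * k : ℤ_[3]) : ℚ_[3]) = (3 : ℚ_[3]) ^ 2 * (k : ℚ_[3]) := by
      have h9 : (((9 : ℤ_[3]) : ℤ_[3]) : ℚ_[3]) = 9 := PadicInt.coe_natCast 9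
      rw [PadicInt.coe_mul, h9]
      norm_num
    rw [h3, norm_mul, norm_pow]
    have h4 : ‖(3 : ℚ_[3])‖ = (3 : ℝ)⁻¹ := by
      have := Padic.norm_p (p := 3)
      exact_mod_cast this
    rw [h4]
    have h5 : ‖(k : ℚ_[3])‖ ≤ 1 := k.2
    calc ((3 : ℝ)⁻¹) ^ 2 * ‖(k : ℚ_[3])‖ ≤ ((3 : ℝ)⁻¹) ^ 2 * 1 :=
          mul_le_mul_of_nonneg_left h5 (by positivity)
      _ = _ := by norm_num
  have h6 := (Padic.norm_int_le_pow_iff_dvd n 2).mp h1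
  norm_num at h6
  exact h6

end TA

open TA in
/-- The first local type. -/
theorem stTA : StTA := by
  intro v d p q r t hp hq hr ht hd _ hD h0 h1 h2 h3
  refine ⟨hD, ?_⟩
  set P : ℤ_[3] := ⟨p, hp⟩ with hP
  set Q : ℤ_[3] := ⟨q, hq⟩ with hQ
  set R : ℤ_[3] := ⟨r, hr⟩ with hR
  set T : ℤ_[3] := ⟨t, ht⟩ with hT
  have key : ∀ x y : ℤ, ((fv v x y : ℤ) : ℚ_[3]) * d
      = (((P * x + Q * y) ^ 3 - (R * x + T * y) ^ 3 : ℤ_[3]) : ℚ_[3]) := by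
    intro x y
    have e : (((P * x + Q * y) ^ 3 - (R * x + T * y) ^ 3 : ℤ_[3]) : ℚ_[3])
        = (p * x + q * y) ^ 3 - (r * x + t * y) ^ 3 := by
      rw [PadicInt.coe_sub, PadicInt.coe_pow, PadicInt.coe_pow, PadicInt.coe_add,
        PadicInt.coe_add, PadicInt.coe_mul, PadicInt.coe_mul, PadicInt.coe_mul,
        PadicInt.coe_mul, PadicInt.coe_intCast, PadicInt.coe_intCast]
    rw [e]
    simp only [fv]
    push_cast
    linear_combination (x : ℚ_[3]) ^ 3 * h0 + 3 * (x : ℚ_[3]) ^ 2 * y * h1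
      + 3 * (x : ℚ_[3]) * y ^ 2 * h2 + (y : ℚ_[3]) ^ 3 * h3
  have main : ∀ x y : ℤ, PadicInt.toZMod (P * x + Q * y : ℤ_[3])
      = PadicInt.toZMod (R * x + T * y : ℤ_[3]) → (9 : ℤ) ∣ fv v x y := by
    intro x y hxy
    exact nine_dvd _ d hd _ (nine_dvd_cube_sub _ _ (dvd_sub_of_eq _ _ hxy)) (key x y)
  have e10 : fv v 1 0 = v 0 := by simp [fv]
  have e01 : fv v 0 1 = v 3 := by simp [fv]
  have m10 := main 1 0
  have m01 := main 0 1
  have m11 := main 1 1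
  have m12 := main 1 2
  rw [e10] at m10
  rw [e01] at m01
  simp only [map_add, map_mul, Int.cast_one, Int.cast_zero, mul_one, mul_zero,
    add_zero, zero_add, Int.cast_ofNat, map_ofNat] at m10 m01 m11 m12
  generalize PadicInt.toZMod P = a at *
  generalize PadicInt.toZMod Q = b at *
  generalize PadicInt.toZMod R = a' at *
  generalize PadicInt.toZMod T = b' at *
  rcases four_cases a b a' b' with h | h | h | h
  · exact Or.inl (m10 h)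
  · exact Or.inr (Or.inl (m01 h))
  · exact Or.inr (Or.inr (Or.inl (m11 h)))
  · exact Or.inr (Or.inr (Or.inr (m12 h)))

end BKDH
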