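import Pool.Agent.Lib.MP_7c08ba_nt.DH.Stmts

/-!
The second local type at `3`: pure `3`-adic algebra.
-/

namespace BKDH

noncomputable section

namespace TB

lemma dvd_of_unit_mul (n : ℕ) (D : ℤ_[3]) (hD : IsUnit D) (a : ℤ)
    (h : (3 : ℤ_[3]) ^ n ∣ (a : ℤ_[3]) * D) : (3 : ℤ) ^ n ∣ a := by
  have h1 : (3 : ℤ_[3]) ^ n ∣ (a : ℤ_[3]) := by
    obtain ⟨u, rfl⟩ := hD
    obtain ⟨c, hc⟩ := h
    refine ⟨c * (↑u⁻¹ : ℤ_[3]), ?_⟩
    rw [← mul_assoc, ← hc, mul_assoc, Units.mul_inv, mul_one]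
  have h2 := (PadicInt.pow_p_dvd_int_iff (p := 3) n a).1 (by simpa using h1)
  simpa using h2

lemma three_dvd_iff (x : ℤ_[3]) : (3 : ℤ_[3]) ∣ x ↔ ¬ IsUnit x := by
  have h := PadicInt.norm_lt_one_iff_dvd (p := 3) x
  have h3 : ((3 : ℕ) : ℤ_[3]) = 3 := by norm_num
  rw [h3] at h
  rw [← h, PadicInt.isUnit_iff]
  constructor
  · intro h1 h2
    linarith
  · intro h1
    exact lt_of_le_of_ne (PadicInt.norm_le_one x) h1

lemma exists_res (x : ℤ_[3]) :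
    (∃ y, x = 3 * y) ∨ (∃ y, x = 1 + 3 * y) ∨ ∃ y, x = -1 + 3 * y := by
  obtain ⟨n, hn, hx⟩ := PadicInt.exists_mem_range (p := 3) x
  rw [PadicInt.maximalIdeal_eq_span_p, Ideal.mem_span_singleton] at hx
  obtain ⟨y, hy⟩ := hx
  have h3 : ((3 : ℕ) : ℤ_[3]) = 3 := by norm_num
  rw [h3] at hy
  interval_cases n
  · left
    exact ⟨y, by simpa using hy⟩
  · right; left
    refine ⟨y, ?_⟩
    have : x - 1 = 3 * y := by simpa using hy
    linear_combination this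
  · right; right
    refine ⟨y + 1, ?_⟩
    have : x - 2 = 3 * y := by simpa using hy
    linear_combination this

lemma not_unit_three_mul (y : ℤ_[3]) : ¬ IsUnit (3 * y) := by
  rw [← three_dvd_iff]
  exact dvd_mul_right _ _

lemma unit_res (x : ℤ_[3]) (hx : IsUnit x) : ∃ e y : ℤ_[3], (e = 1 ∨ e = -1) ∧ x = e + 3 * y := by
  rcases exists_res x with ⟨y, hy⟩ | ⟨y, hy⟩ | ⟨y, hy⟩
  · exact absurd hx (hy ▸ not_unit_three_mul y)
  · exact ⟨1, y, Or.inl rfl, hy⟩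
  · exact ⟨-1, y, Or.inr rfl, hy⟩

lemma cube_sub (Q : ℤ_[3]) : ∃ w, Q ^ 3 - Q = 3 * w := by
  rcases exists_res Q with ⟨y, hy⟩ | ⟨y, hy⟩ | ⟨y, hy⟩
  · exact ⟨9 * y ^ 3 - y, by rw [hy]; ring⟩
  · exact ⟨2 * y + 9 * y ^ 2 + 9 * y ^ 3, by rw [hy]; ring⟩
  · exact ⟨2 * y - 9 * y ^ 2 + 9 * y ^ 3, by rw [hy]; ring⟩

lemma core (v : Fin 4 → ℤ) (D P Q R T : ℤ_[3]) (hD : IsUnit D) (hdet : IsUnit (P * T - Q * R))
    (h0 : (v 0 : ℤ_[3]) * D = 3 * P ^ 3 - R ^ 3)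
    (h1 : (v 1 : ℤ_[3]) * D = 3 * P ^ 2 * Q - R ^ 2 * T)
    (h2 : (v 2 : ℤ_[3]) * D = 3 * P * Q ^ 2 - R * T ^ 2)
    (h3 : (v 3 : ℤ_[3]) * D = 3 * Q ^ 3 - T ^ 3) (hR : (3 : ℤ_[3]) ∣ R) : SB v := by
  obtain ⟨R', rfl⟩ := hR
  have hP : IsUnit P := by
    by_contra hc
    rw [← three_dvd_iff] at hc
    obtain ⟨y, rfl⟩ := hc
    refine absurd hdet ?_
    rw [← three_dvd_iff]
    exact ⟨y * T - Q * R', by ring⟩
  have hT : IsUnit T := by
    by_contra hc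
    rw [← three_dvd_iff] at hc
    obtain ⟨y, rfl⟩ := hc
    refine absurd hdet ?_
    rw [← three_dvd_iff]
    exact ⟨P * y - Q * R', by ring⟩
  have d0 : (3 : ℤ) ∣ v 0 := by
    have := dvd_of_unit_mul 1 D hD (v 0) ⟨P ^ 3 - 9 * R' ^ 3, by rw [h0]; ring⟩
    simpa using this
  have d1 : (3 : ℤ) ∣ v 1 := by
    have := dvd_of_unit_mul 1 D hD (v 1) ⟨P ^ 2 * Q - 3 * R' ^ 2 * T, by rw [h1]; ring⟩
    simpa using this
  have d2 : (3 : ℤ) ∣ v 2 := by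
    have := dvd_of_unit_mul 1 D hD (v 2) ⟨P * Q ^ 2 - R' * T ^ 2, by rw [h2]; ring⟩
    simpa using this
  have d3 : ¬ (3 : ℤ) ∣ v 3 := by
    rintro ⟨m, hm⟩
    rw [hm] at h3
    have hT3 : IsUnit (T ^ 3) := hT.pow 3
    refine absurd hT3 ?_
    rw [← three_dvd_iff]
    refine ⟨Q ^ 3 - m * D, ?_⟩
    push_cast at h3
    linear_combination h3
  refine ⟨d0, d1, d2, d3, ?_⟩
  obtain ⟨e, P', he, hPe⟩ := unit_res P hP
  obtain ⟨f, T', hf, hTf⟩ := unit_res T hT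
  obtain ⟨w, hw⟩ := cube_sub Q
  have hcP : ∃ x, P ^ 3 = e + 9 * x := by
    refine ⟨e ^ 2 * P' + 3 * e * P' ^ 2 + 3 * P' ^ 3, ?_⟩
    rw [hPe]
    rcases he with rfl | rfl <;> ring
  have hcT : ∃ x, T ^ 3 = f + 9 * x := by
    refine ⟨f ^ 2 * T' + 3 * f * T' ^ 2 + 3 * T' ^ 3, ?_⟩
    rw [hTf]
    rcases hf with rfl | rfl <;> ring
  have hP2 : ∃ x, P ^ 2 = 1 + 3 * x := by
    refine ⟨2 * e * P' + 3 * P' ^ 2, ?_⟩
    rw [hPe]
    rcases he with rfl | rfl <;> ring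
  obtain ⟨x, hx⟩ := hcP
  obtain ⟨y, hy⟩ := hcT
  obtain ⟨z, hz⟩ := hP2
  have key : e + f = 0 ∨ e = f := by
    rcases he with rfl | rfl <;> rcases hf with rfl | rfl
    · right; rfl
    · left; ring
    · left; ring
    · right; rfl
  rcases key with h | h
  · left
    have := dvd_of_unit_mul 3 D hD (v 0 - 3 * (v 3 - v 1)) ⟨x + y - R' ^ 3 - (w - z * Q) - R' ^ 2 * T, by
      push_cast
      linear_combination h0 - 3 * h3 + 3 * h1 + 3 * hx + 3 * hy - 9 * hw + 9 * Q * hz + 3 * h⟩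
    norm_num at this
    exact this
  · right
    have := dvd_of_unit_mul 3 D hD (v 0 + 3 * (v 3 - v 1)) ⟨x - y - R' ^ 3 + (w - z * Q) + R' ^ 2 * T, by
      push_cast
      linear_combination h0 + 3 * h3 - 3 * h1 + 3 * hx - 3 * hy + 9 * hw - 9 * Q * hz + 3 * h⟩
    norm_num at this
    exact this

lemma main (v : Fin 4 → ℤ) (D P Q R T : ℤ_[3]) (hD : IsUnit D) (hdet : P * T - Q * R = D)
    (h0 : (v 0 : ℤ_[3]) * D = 3 * P ^ 3 - R ^ 3)
    (h1 : (v 1 : ℤ_[3]) * D = 3 * P ^ 2 * Q - R ^ 2 * T)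
    (h2 : (v 2 : ℤ_[3]) * D = 3 * P * Q ^ 2 - R * T ^ 2)
    (h3 : (v 3 : ℤ_[3]) * D = 3 * Q ^ 3 - T ^ 3) : TypeB v := by
  by_cases hT : IsUnit T
  · have hk : ∃ k : ℤ, (k = 0 ∨ k = 1 ∨ k = 2) ∧ (3 : ℤ_[3]) ∣ R + k * T := by
      obtain ⟨f, T', hf, hTf⟩ := unit_res T hT
      rcases exists_res R with ⟨y, hy⟩ | ⟨y, hy⟩ | ⟨y, hy⟩
      · exact ⟨0, Or.inl rfl, ⟨y, by rw [hy]; push_cast; ring⟩⟩
      · rcases hf with rfl | rfl
        · exact ⟨2, Or.inr (Or.inr rfl), ⟨y + 1 + 2 * T', by rw [hy, hTf]; push_cast; ring⟩⟩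
        · exact ⟨1, Or.inr (Or.inl rfl), ⟨y + T', by rw [hy, hTf]; push_cast; ring⟩⟩
      · rcases hf with rfl | rfl
        · exact ⟨1, Or.inr (Or.inl rfl), ⟨y + T', by rw [hy, hTf]; push_cast; ring⟩⟩
        · exact ⟨2, Or.inr (Or.inr rfl), ⟨y - 1 + 2 * T', by rw [hy, hTf]; push_cast; ring⟩⟩
    obtain ⟨k, hk, hdvd⟩ := hk
    have hS : SB (actT k v) := by
      refine core (actT k v) D (P + k * Q) Q (R + k * T) T hD ?_ ?_ ?_ ?_ ?_ hdvd
      · have : (P + k * Q) * T - Q * (R + k * T) = D := by rw [← hdet]; ring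
        rw [this]; exact hD
      · have e : (actT k v) 0 = v 0 + 3 * v 1 * k + 3 * v 2 * k ^ 2 + v 3 * k ^ 3 := by
          simp [actT, fv]
        rw [e]; push_cast
        linear_combination h0 + 3 * (k : ℤ_[3]) * h1 + 3 * (k : ℤ_[3]) ^ 2 * h2 +
          (k : ℤ_[3]) ^ 3 * h3
      · have e : (actT k v) 1 = v 1 + 2 * k * v 2 + k ^ 2 * v 3 := by simp [actT]
        rw [e]; push_cast
        linear_combination h1 + 2 * (k : ℤ_[3]) * h2 + (k : ℤ_[3]) ^ 2 * h3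
      · have e : (actT k v) 2 = v 2 + k * v 3 := by simp [actT]
        rw [e]; push_cast
        linear_combination h2 + (k : ℤ_[3]) * h3
      · have e : (actT k v) 3 = v 3 := by simp [actT]
        rw [e]; exact h3
    rcases hk with rfl | rfl | rfl
    · left
      have e : actT 0 v = v := by
        funext i
        fin_cases i <;> simp [actT, fv]
      rwa [e] at hS
    · right; left; exact hS
    · right; right; left; exact hS
  · right; right; right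
    rw [← three_dvd_iff] at hT
    refine core (swp v) D Q P T R hD ?_ ?_ ?_ ?_ ?_ hT
    · have : Q * R - P * T = -D := by rw [← hdet]; ring
      rw [this]; exact hD.neg
    · have e : (swp v) 0 = v 3 := by simp [swp]
      rw [e, h3]
    · have e : (swp v) 1 = v 2 := by simp [swp]
      rw [e, h2]; ring
    · have e : (swp v) 2 = v 1 := by simp [swp]
      rw [e, h1]; ring
    · have e : (swp v) 3 = v 0 := by simp [swp]
      rw [e, h0]

end TB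

theorem stTB : StTB := by
  intro v d p q r t hp hq hr ht hd hdet h0 h1 h2 h3
  have hd' : ‖d‖ ≤ 1 := hd.le
  refine TB.main v ⟨d, hd'⟩ ⟨p, hp⟩ ⟨q, hq⟩ ⟨r, hr⟩ ⟨t, ht⟩ ?_ ?_ ?_ ?_ ?_ ?_
  · rw [PadicInt.isUnit_iff]
    exact hd
  · apply Subtype.ext
    push_cast
    exact hdet
  · apply Subtype.ext
    push_cast
    exact h0
  · apply Subtype.ext
    push_cast
    exact h1
  · apply Subtype.ext
    push_cast
    exact h2
  · apply Subtype.ext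
    push_cast
    exact h3

end

end BKDH
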