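import Pool.Agent.Lib.MP_7c08ba_nt.DH.Stmts

/-!
Counting reduced integral forms in a set of residue classes: assembly of the count of lattice points
in the truncated region and the bound of the cusp.
-/

namespace BKDH

open MeasureTheory

noncomputable section

theorem castR_HA (v : Fin 4 → ℤ) : HA (fun i => (v i : ℝ)) = ((HA v : ℤ) : ℝ) := by
  simp [HA]

theorem castR_HB (v : Fin 4 → ℤ) : HB (fun i => (v i : ℝ)) = ((HB v : ℤ) : ℝ) := by
  simp [HB]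

theorem castR_HC (v : Fin 4 → ℤ) : HC (fun i => (v i : ℝ)) = ((HC v : ℤ) : ℝ) := by
  simp [HC]

theorem castR_HD (v : Fin 4 → ℤ) : HD (fun i => (v i : ℝ)) = ((HD v : ℤ) : ℝ) := by
  simp [HD, HA, HB, HC]

theorem div_HA (v : Fin 4 → ℝ) (t : ℝ) (ht : t ≠ 0) : HA (fun i => v i / t) = HA v / t ^ 2 := by
  simp only [HA]; field_simp

theorem div_HB (v : Fin 4 → ℝ) (t : ℝ) (ht : t ≠ 0) : HB (fun i => v i / t) = HB v / t ^ 2 := by
  simp only [HB]; field_simp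

theorem div_HC (v : Fin 4 → ℝ) (t : ℝ) (ht : t ≠ 0) : HC (fun i => v i / t) = HC v / t ^ 2 := by
  simp only [HC]; field_simp

theorem div_HD (v : Fin 4 → ℝ) (t : ℝ) (ht : t ≠ 0) : HD (fun i => v i / t) = HD v / t ^ 4 := by
  simp only [HD, HA, HB, HC]; field_simp

/-- The first coefficient of a reduced form. -/
theorem abs_zero_le (h3 : StBdd) (v : Fin 4 → ℤ) (hv : Red v) (t : ℝ) (ht : 0 ≤ t)
    (hD : ((HD v : ℤ) : ℝ) ≤ t ^ 4) : |((v 0 : ℤ) : ℝ)| ≤ t := by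
  obtain ⟨hA, hB, hC, h0⟩ := hv
  have hb := h3 (fun i => (v i : ℝ)) (by rw [castR_HA, castR_HB]; exact_mod_cast hB)
    (by rw [castR_HA, castR_HC]; exact_mod_cast hC) (by rw [castR_HA]; exact_mod_cast hA)
    (by simpa using h0)
  obtain ⟨h1, h2, -, -⟩ := hb
  rw [castR_HA] at h1 h2
  rw [castR_HD] at h1
  have hA' : (0 : ℝ) < ((HA v : ℤ) : ℝ) := by exact_mod_cast hA
  have h5 : ((v 0 : ℤ) : ℝ) ^ 2 ≤ 4 / 3 * ((HA v : ℤ) : ℝ) := by
    linarith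
  have h6 : (((v 0 : ℤ) : ℝ) ^ 2) ^ 2 ≤ (t ^ 2) ^ 2 := by
    have h7 : (((v 0 : ℤ) : ℝ) ^ 2) ^ 2 ≤ (4 / 3 * ((HA v : ℤ) : ℝ)) ^ 2 :=
      pow_le_pow_left₀ (sq_nonneg _) h5 2
    nlinarith
  have h8 : ((v 0 : ℤ) : ℝ) ^ 2 ≤ t ^ 2 := le_of_pow_le_pow_left₀ two_ne_zero (sq_nonneg t) h6
  exact abs_le_of_sq_le_sq h8 ht

/-- Reduced forms with large first coefficient lie in the truncated region. -/
theorem mem_Kset (h3 : StBdd) (v : Fin 4 → ℤ) (hv : Red v) (t δ : ℝ) (ht : 0 < t)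
    (hδ : 0 < δ) (hδ1 : δ ≤ 1)
    (hD : ((HD v : ℤ) : ℝ) ≤ t ^ 4) (h0 : δ * t ≤ |((v 0 : ℤ) : ℝ)|) :
    (fun i => ((v i : ℤ) : ℝ) / t) ∈ Kset δ (3 / δ ^ 2) := by
  obtain ⟨hA, hB, hC, hz⟩ := hv
  have hA' : (0 : ℝ) < ((HA v : ℤ) : ℝ) := by exact_mod_cast hA
  have hB' : |((HB v : ℤ) : ℝ)| ≤ ((HA v : ℤ) : ℝ) := by exact_mod_cast hB
  have hC' : ((HA v : ℤ) : ℝ) ≤ ((HC v : ℤ) : ℝ) := by exact_mod_cast hC
  have t2 : 0 < t ^ 2 := by positivity
  have t4 : 0 < t ^ 4 := by positivity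
  have eA : HA (fun i => ((v i : ℤ) : ℝ) / t) = ((HA v : ℤ) : ℝ) / t ^ 2 := by
    rw [div_HA (fun i => ((v i : ℤ) : ℝ)) t ht.ne', castR_HA]
  have eB : HB (fun i => ((v i : ℤ) : ℝ) / t) = ((HB v : ℤ) : ℝ) / t ^ 2 := by
    rw [div_HB (fun i => ((v i : ℤ) : ℝ)) t ht.ne', castR_HB]
  have eC : HC (fun i => ((v i : ℤ) : ℝ) / t) = ((HC v : ℤ) : ℝ) / t ^ 2 := by
    rw [div_HC (fun i => ((v i : ℤ) : ℝ)) t ht.ne', castR_HC]
  have eD : HD (fun i => ((v i : ℤ) : ℝ) / t) = ((HD v : ℤ) : ℝ) / t ^ 4 := by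
    rw [div_HD (fun i => ((v i : ℤ) : ℝ)) t ht.ne', castR_HD]
  have k1 : |HB (fun i => ((v i : ℤ) : ℝ) / t)| ≤ HA (fun i => ((v i : ℤ) : ℝ) / t) := by
    rw [eA, eB, abs_div, abs_of_pos t2]
    exact div_le_div_of_nonneg_right hB' t2.le
  have k2 : HA (fun i => ((v i : ℤ) : ℝ) / t) ≤ HC (fun i => ((v i : ℤ) : ℝ) / t) := by
    rw [eA, eC]
    exact div_le_div_of_nonneg_right hC' t2.le
  have k3 : HD (fun i => ((v i : ℤ) : ℝ) / t) ≤ 1 := by
    rw [eD]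
    exact (div_le_one t4).2 hD
  have k4 : δ ≤ |((v 0 : ℤ) : ℝ) / t| := by
    rw [abs_div, abs_of_pos ht]
    exact (le_div_iff₀ ht).2 h0
  have k5 : 0 < HA (fun i => ((v i : ℤ) : ℝ) / t) := by
    rw [eA]; positivity
  have k6 : ((v 0 : ℤ) : ℝ) / t ≠ 0 := by
    intro h
    rw [h, abs_zero] at k4
    linarith
  have hb := h3 (fun i => ((v i : ℤ) : ℝ) / t) k1 k2 k5 k6
  exact ⟨k1, k2, k3, k4, hb.2.2.2 k3 δ hδ hδ1 k4⟩

/-- Representatives of residue classes. -/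
theorem exists_rep (M : ℕ) (s : Fin 4 → ZMod M) : ∃ r : Fin 4 → ℤ, red M r = s := by
  refine ⟨fun i => ((s i).cast : ℤ), ?_⟩
  funext i
  simp [red]

theorem dvd_of_red {M : ℕ} {v r : Fin 4 → ℤ} (h : red M v = red M r) (i : Fin 4) :
    (M : ℤ) ∣ v i - r i := by
  have h1 := congrFun h i
  simp only [red] at h1
  rw [← ZMod.intCast_zmod_eq_zero_iff_dvd]
  push_cast
  rw [h1, sub_self]

/-- The set of representatives of all large points. -/
theorem stUp (h1 : StCompact) (h2 : StVol) (h3 : StBdd) (h4 : StCusp) : StUp := by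
  obtain ⟨C, hC, hcusp⟩ := h4
  constructor
  · intro X
    have ht : (1 : ℝ) ≤ max 1 X := le_max_left _ _
    have hX : X ≤ (max 1 X) ^ 4 :=
      le_trans (le_max_right 1 X) (le_self_pow₀ ht (by norm_num))
    refine ((hcusp 1 (max 1 X) one_pos le_rfl ht).1).subset ?_
    rintro v ⟨hv, hD⟩
    refine ⟨hv, hD.trans hX, ?_⟩
    rw [one_pow, one_mul]
    exact abs_zero_le h3 v hv _ (by linarith) (hD.trans hX)
  · intro M hM S ε hε
    -- parameters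
    obtain ⟨η, hη, hη1, hηC⟩ : ∃ η : ℝ, 0 < η ∧ η ≤ 1 ∧ C * η ≤ ε / 4 := by
      refine ⟨min 1 (ε / (4 * C)), lt_min one_pos (by positivity), min_le_left _ _, ?_⟩
      calc C * min 1 (ε / (4 * C)) ≤ C * (ε / (4 * C)) :=
            mul_le_mul_of_nonneg_left (min_le_right _ _) hC.le
        _ = ε / 4 := by field_simp
    have hδ : 0 < η ^ 2 := by positivity
    have hδ1 : η ^ 2 ≤ 1 := pow_le_one₀ hη.le hη1
    obtain ⟨hK, hvol⟩ := h2 (η ^ 2) (3 / (η ^ 2) ^ 2) hδ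
    choose rep hrep using exists_rep M
    have hε' : 0 < ε / (4 * (S.card + 1)) := by positivity
    have hcpt : ∀ s : Fin 4 → ZMod M, ∃ t₀ : ℝ, 0 < t₀ ∧ ∀ t : ℝ, t₀ ≤ t →
        {z : Fin 4 → ℤ | (∀ i, (M : ℤ) ∣ z i - rep s i) ∧
          (fun i => (z i : ℝ) / t) ∈ Kset (η ^ 2) (3 / (η ^ 2) ^ 2)}.Finite ∧
        ({z : Fin 4 → ℤ | (∀ i, (M : ℤ) ∣ z i - rep s i) ∧
          (fun i => (z i : ℝ) / t) ∈ Kset (η ^ 2) (3 / (η ^ 2) ^ 2)}.ncard : ℝ) ≤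
          ((volume (Kset (η ^ 2) (3 / (η ^ 2) ^ 2))).toReal / M ^ 4 +
            ε / (4 * (S.card + 1))) * t ^ 4 := fun s =>
      h1 _ hK M hM (rep s) _ hε'
    choose T hT0 hT using hcpt
    set T₀ : ℝ := 1 + 4 * C / ε + ∑ s ∈ S, T s with hT₀
    have hsum0 : 0 ≤ ∑ s ∈ S, T s := Finset.sum_nonneg fun s _ => (hT0 s).le
    have h4C : 0 < 4 * C / ε := by positivity
    have hT1 : 1 ≤ T₀ := by rw [hT₀]; linarith
    refine ⟨⌈T₀ ^ 4⌉₊, fun X hX => ?_⟩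
    have hX' : T₀ ^ 4 ≤ (X : ℝ) := le_trans (Nat.le_ceil _) (by exact_mod_cast hX)
    set t : ℝ := Real.sqrt (Real.sqrt X) with htdef
    have ht4 : t ^ 4 = X := by
      have e1 : t ^ 2 = Real.sqrt X := Real.sq_sqrt (Real.sqrt_nonneg _)
      have e2 : t ^ 4 = (t ^ 2) ^ 2 := by ring
      rw [e2, e1]
      exact Real.sq_sqrt (Nat.cast_nonneg _)
    have ht0 : 0 ≤ t := Real.sqrt_nonneg _
    have htT : T₀ ≤ t := by
      rw [← ht4] at hX'
      exact le_of_pow_le_pow_left₀ (by norm_num) ht0 hX'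
    have ht1 : 1 ≤ t := hT1.trans htT
    have htpos : 0 < t := by linarith
    obtain ⟨hcf, hcb⟩ := hcusp η t hη hη1 ht1
    set A : Set (Fin 4 → ℤ) := {v : Fin 4 → ℤ | Red v ∧ ((HD v : ℤ) : ℝ) ≤ t ^ 4 ∧
      |((v 0 : ℤ) : ℝ)| ≤ η ^ 2 * t} with hA
    set B : (Fin 4 → ZMod M) → Set (Fin 4 → ℤ) := fun s =>
      {z : Fin 4 → ℤ | (∀ i, (M : ℤ) ∣ z i - rep s i) ∧
          (fun i => (z i : ℝ) / t) ∈ Kset (η ^ 2) (3 / (η ^ 2) ^ 2)} with hB
    have hBs : ∀ s ∈ S, (B s).Finite ∧ ((B s).ncard : ℝ) ≤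
        ((volume (Kset (η ^ 2) (3 / (η ^ 2) ^ 2))).toReal / M ^ 4 +
            ε / (4 * (S.card + 1))) * t ^ 4 := by
      intro s hs
      refine hT s t ?_
      have : T s ≤ ∑ s ∈ S, T s := Finset.single_le_sum (fun s _ => (hT0 s).le) hs
      rw [hT₀] at htT
      linarith
    have hsub : {v : Fin 4 → ℤ | Red v ∧ HD v ≤ (X : ℤ) ∧ red M v ∈ S} ⊆
        A ∪ ⋃ s ∈ S, B s := by
      rintro v ⟨hv, hD, hr⟩
      have hD' : ((HD v : ℤ) : ℝ) ≤ t ^ 4 := by rw [ht4]; exact_mod_cast hD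
      rcases le_total |((v 0 : ℤ) : ℝ)| (η ^ 2 * t) with h | h
      · exact Or.inl ⟨hv, hD', h⟩
      · refine Or.inr ?_
        refine Set.mem_iUnion₂.2 ⟨red M v, hr, ?_, ?_⟩
        · exact dvd_of_red (hrep (red M v)).symm
        · exact mem_Kset h3 v hv t (η ^ 2) htpos hδ hδ1 hD' h
    have hUf : (⋃ s ∈ S, B s).Finite :=
      Set.Finite.biUnion S.finite_toSet (fun s hs => (hBs s hs).1)
    have hUc : ((⋃ s ∈ S, B s).ncard : ℝ) ≤ ∑ s ∈ S, ((B s).ncard : ℝ) := by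
      have : (⋃ s ∈ S, B s).ncard ≤ ∑ s ∈ S, (B s).ncard := by
        classical
        clear_value B
        clear hB hsub hT htT hT₀ hT1
        have key : ∀ S' : Finset (Fin 4 → ZMod M), S' ⊆ S →
            (⋃ s ∈ S', B s).ncard ≤ ∑ s ∈ S', (B s).ncard := by
          intro S'
          induction S' using Finset.induction_on with
          | empty => intro _; simp
          | insert a s ha ih =>
            intro hs
            rw [Finset.sum_insert ha, Finset.set_biUnion_insert]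
            refine (Set.ncard_union_le _ _).trans ?_
            have := ih (fun x hx => hs (Finset.mem_insert_of_mem hx))
            omega
        exact key S (Finset.Subset.refl S)
      exact_mod_cast this
    have hmain : ({v : Fin 4 → ℤ | Red v ∧ HD v ≤ (X : ℤ) ∧ red M v ∈ S}.ncard : ℝ) ≤
        (A.ncard : ℝ) + ∑ s ∈ S, ((B s).ncard : ℝ) := by
      have q1 : {v : Fin 4 → ℤ | Red v ∧ HD v ≤ (X : ℤ) ∧ red M v ∈ S}.ncard ≤
          (A ∪ ⋃ s ∈ S, B s).ncard := Set.ncard_le_ncard hsub (hcf.union hUf)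
      have q2 : (A ∪ ⋃ s ∈ S, B s).ncard ≤ A.ncard + (⋃ s ∈ S, B s).ncard :=
        Set.ncard_union_le _ _
      have q3 : (({v : Fin 4 → ℤ | Red v ∧ HD v ≤ (X : ℤ) ∧ red M v ∈ S}.ncard : ℕ) : ℝ) ≤
          (A.ncard : ℝ) + ((⋃ s ∈ S, B s).ncard : ℝ) := by exact_mod_cast q1.trans q2
      linarith
    have hsumB : ∑ s ∈ S, ((B s).ncard : ℝ) ≤
        (S.card : ℝ) * (((volume (Kset (η ^ 2) (3 / (η ^ 2) ^ 2))).toReal / M ^ 4 +
            ε / (4 * (S.card + 1))) * t ^ 4) := by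
      have := Finset.sum_le_card_nsmul S (fun s => ((B s).ncard : ℝ)) _
        (fun s hs => (hBs s hs).2)
      simpa [nsmul_eq_mul] using this
    have hM' : (0 : ℝ) < (M : ℝ) ^ 4 := by positivity
    have hX0 : (0 : ℝ) ≤ (X : ℝ) := Nat.cast_nonneg _
    have hcard0 : (0 : ℝ) ≤ (S.card : ℝ) := Nat.cast_nonneg _
    have b1 : (S.card : ℝ) * (((volume (Kset (η ^ 2) (3 / (η ^ 2) ^ 2))).toReal / M ^ 4 +
            ε / (4 * (S.card + 1))) * t ^ 4) ≤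
        (Real.pi ^ 2 / 6 * (S.card : ℝ) / M ^ 4 + ε / 4) * X := by
      rw [ht4]
      have c1 : (S.card : ℝ) * ((volume (Kset (η ^ 2) (3 / (η ^ 2) ^ 2))).toReal / M ^ 4) ≤
          Real.pi ^ 2 / 6 * (S.card : ℝ) / M ^ 4 := by
        rw [mul_div_assoc', mul_comm (S.card : ℝ)]
        gcongr
      have c2 : (S.card : ℝ) * (ε / (4 * (S.card + 1))) ≤ ε / 4 := by
        rw [mul_div_assoc', div_le_div_iff₀ (by positivity) (by norm_num)]
        nlinarith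
      calc (S.card : ℝ) * (((volume (Kset (η ^ 2) (3 / (η ^ 2) ^ 2))).toReal / M ^ 4 +
            ε / (4 * (S.card + 1))) * X)
          = ((S.card : ℝ) * ((volume (Kset (η ^ 2) (3 / (η ^ 2) ^ 2))).toReal / M ^ 4) +
            (S.card : ℝ) * (ε / (4 * (S.card + 1)))) * X := by ring
        _ ≤ _ := mul_le_mul_of_nonneg_right (add_le_add c1 c2) hX0
    have b2 : C * (η * t ^ 4 + t ^ 3) ≤ (ε / 4 + ε / 4) * X := by
      have c3 : C * t ^ 3 ≤ ε / 4 * X := by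
        have d1 : 4 * C / ε ≤ t := by rw [hT₀] at htT; linarith
        have d2 : C ≤ ε / 4 * t := by
          rw [div_le_iff₀ hε] at d1
          linarith
        calc C * t ^ 3 ≤ (ε / 4 * t) * t ^ 3 :=
              mul_le_mul_of_nonneg_right d2 (by positivity)
          _ = ε / 4 * X := by rw [← ht4]; ring
      have c4 : C * (η * t ^ 4) ≤ ε / 4 * X := by
        rw [ht4, ← mul_assoc]
        exact mul_le_mul_of_nonneg_right hηC hX0
      nlinarith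
    have hfin : (Real.pi ^ 2 / 6 * (S.card : ℝ) / M ^ 4 + ε / 4) * (X : ℝ) +
        (ε / 4 + ε / 4) * X ≤ (Real.pi ^ 2 / 6 * (S.card : ℝ) / M ^ 4 + ε) * X := by
      have : 0 ≤ ε * X := by positivity
      nlinarith
    linarith

end

end BKDH
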