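import Pool.Agent.Lib.MP_7c08ba_nt.DH.Stmts
import Pool.Agent.Lib.MP_7c08ba_nt.Gen.RigidThree

/-!
Rigidity of `K = F(√-3)` from rigidity of `F`: `a² = (a τ(a)) (a / τ(a))`, the first factor lies in
`F`, the second is inverted by `τ`.
-/

namespace BKDH

open BKGen NumberField IntermediateField
open scoped IntermediateField

theorem stUpK (h : StMinus) : StUpK := by
  intro K _ _ Δ s t hf h3 hs ht hdeg hrig ι a ha0 hP hA
  have hB : RT.Biq K Δ s t := ⟨h3, hs, ht, hdeg⟩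
  obtain ⟨σ, hσs, hσt⟩ := hB.exists_aut 1 (-1) (by norm_num) (by norm_num)
  replace hσs : σ s = s := by simpa using hσs
  replace hσt : σ t = -t := by simpa using hσt
  have smk : ∀ a b c e : ℚ, σ (RT.cf s t a b c e) = RT.cf s t a b (-c) (-e) := by
    intro a b c e
    rw [RT.aut_mk σ (ε₁ := 1) (ε₂ := -1) (by simpa using hσs) (by simpa using hσt)]
    simp
  have hσσ := RT.sigma_sigma hB σ hσs hσt
  have hsa0 : σ a ≠ 0 := by rwa [Ne, map_eq_zero]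
  obtain ⟨r, hr, hr2, hr1⟩ := RT.exists_r ι hB
  have hsA : PowAt 3 ι (σ a) := by
    obtain ⟨a1, b1, c1, e1, rfl⟩ := hB.span a
    rw [smk, RT.powAt_iff ι hB hr]
    rw [RT.powAt_iff ι hB hr] at hA
    obtain ⟨A, B, h3, h4⟩ := hA
    refine ⟨A, -B, by rw [← h3]; ring, ?_⟩
    push_cast
    linear_combination -h4
  -- the product
  have hn0 : a * σ a ≠ 0 := mul_ne_zero ha0 hsa0
  have hnF : ∀ b : K, b * σ b ∈ ℚ⟮s⟯ := by
    intro b
    obtain ⟨a', b', c', e', rfl⟩ := hB.span b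
    rw [smk]
    have e1 : RT.cf s t a' b' c' e' * RT.cf s t a' b' (-c') (-e') =
        RT.cf s t a' b' 0 0 ^ 2 + 3 * RT.cf s t c' e' 0 0 ^ 2 := by
      unfold RT.cf
      push_cast
      linear_combination (-((c' : K) + e' * s) ^ 2) * ht
    rw [e1]
    exact add_mem (pow_mem (RT.cf_s_mem _ _) 2)
      (mul_mem (ofNat_mem _ 3) (pow_mem (RT.cf_s_mem _ _) 2))
  have hsF : ∀ b : K, b + σ b ∈ ℚ⟮s⟯ := by
    intro b
    obtain ⟨a', b', c', e', rfl⟩ := hB.span b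
    rw [smk]
    have e1 : RT.cf s t a' b' c' e' + RT.cf s t a' b' (-c') (-e') =
        RT.cf s t (2 * a') (2 * b') 0 0 := by
      unfold RT.cf
      push_cast
      ring
    rw [e1]
    exact RT.cf_s_mem _ _
  have hA' : Units.mk0 a ha0 ∈ RT.LCub ι := hA
  have hSA : Units.mk0 (σ a) hsa0 ∈ RT.LCub ι := hsA
  have hnL : PowAt 3 ι (a * σ a) := (mul_mem hA' hSA : _ ∈ RT.LCub ι)
  obtain ⟨b1, hb1⟩ : ∃ b : K, b ^ 3 = a * σ a := by
    have h1 := RT.PowAway.descend (p := 3) (by decide) ℚ⟮s⟯ σ (fun b => ⟨hsF b, hnF b⟩) (hnF a) hn0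
      (RT.PowAway.mul hP (RT.PowAway.map hP σ))
    have h2 : PowAt 3 (ι.comp (algebraMap ℚ⟮s⟯ K)) (⟨a * σ a, hnF a⟩ : ℚ⟮s⟯) := by
      obtain ⟨a', b', hx⟩ := RT.mem_s hB (hnF a)
      have h4 := hnL
      rw [hx] at h4
      obtain ⟨g, hg⟩ := RT.powAt_F ι hB hr h4
      refine ⟨RT.Q3 g, IntermediateField.algebraMap_mem _ _, ?_⟩
      change _ = ι (a * σ a)
      rw [hx, RT.iota_cf ι hr, ← map_pow, hg]
      simp
    obtain ⟨b, hb⟩ := hrig (ι.comp (algebraMap ℚ⟮s⟯ K)) ⟨a * σ a, hnF a⟩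
      (fun h0 => hn0 (congrArg Subtype.val h0)) h1 h2
    exact ⟨b, congrArg Subtype.val hb⟩
  -- the quotient
  have hq0 : a * (σ a)⁻¹ ≠ 0 := mul_ne_zero ha0 (inv_ne_zero hsa0)
  have hqL : PowAt 3 ι (a * (σ a)⁻¹) := by
    have e1 := mul_mem hA' (inv_mem hSA)
    rw [RT.mem_LCub] at e1
    simpa using e1
  have hσq : σ (a * (σ a)⁻¹) = (a * (σ a)⁻¹)⁻¹ := by
    rw [map_mul, map_inv₀, hσσ, mul_inv, inv_inv, mul_comm]
  obtain ⟨b2, hb2⟩ := h K Δ s t hf h3 hs ht hdeg hrig ι σ hσs hσt _ hq0 hσq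
    (RT.PowAway.mul hP (RT.PowAway.inv (RT.PowAway.map hP σ))) hqL
  have hb0 : b1 * b2 ≠ 0 := by
    intro h0
    have h1 : (b1 * b2) ^ 3 = 0 := by rw [h0, zero_pow three_ne_zero]
    rw [mul_pow, hb1, hb2] at h1
    exact mul_ne_zero hn0 hq0 h1
  refine ⟨a / (b1 * b2), ?_⟩
  rw [div_pow, mul_pow, hb1, hb2]
  field_simp

end BKDH
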