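import Pool.Agent.Lib.MP_7c08ba_nt.DH.Stmts

/-!
Assembly: a field which is not rigid gives a form.
-/

set_option autoImplicit false

namespace BKDH

open BKGen NumberField

namespace Vec

section

variable {F : Type} [Field F] [NumberField F] {Δ : ℕ} {s : F} {σ : F →+* F} {j : F →+* ℚ_[3]}

/-- integral elements have norm at most one -/
theorem norm_le {x : ℚ_[3]} (hx : IsIntegral ℤ x) : ‖x‖ ≤ 1 := by
  have h1 : IsIntegral ℤ_[3] x := hx.tower_top
  obtain ⟨y, hy⟩ := IsIntegrallyClosed.isIntegral_iff.mp h1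
  rw [← hy]
  exact y.2

theorem norm_j (hj : QF F Δ s σ j) : ‖j s‖ = 1 := by
  have h1 : (j s) ^ 2 = -(Δ : ℚ_[3]) := by
    rw [← map_pow, hj.s2, map_neg, map_natCast]
  have h2 : ‖(Δ : ℚ_[3])‖ = 1 := by
    rw [Padic.norm_natCast_eq_one_iff, Nat.Prime.coprime_iff_not_dvd (by norm_num)]
    have := hj.mod3
    omega
  have h3 : ‖j s‖ ^ 2 = 1 := by rw [← norm_pow, h1, norm_neg, h2]
  exact (pow_eq_one_iff_of_nonneg (norm_nonneg _) (by norm_num)).mp h3

theorem exists_place (h3 : StCoord) (hj : QF F Δ s σ j) (ι : F →+* PadicAlgCl 3) :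
    ∃ j' : F →+* ℚ_[3], ∀ x, ι x = algebraMap ℚ_[3] (PadicAlgCl 3) (j' x) := by
  obtain ⟨hco, -⟩ := h3 F Δ s σ j hj
  have hs : ι s = algebraMap ℚ_[3] (PadicAlgCl 3) (j s) ∨
      ι s = -algebraMap ℚ_[3] (PadicAlgCl 3) (j s) := by
    apply sq_eq_sq_iff_eq_or_eq_neg.mp
    rw [← map_pow, ← map_pow, ← map_pow, hj.s2]
    simp
  have key : ∀ k : F →+* ℚ_[3], ι s = algebraMap ℚ_[3] (PadicAlgCl 3) (k s) →
      ∀ x, ι x = algebraMap ℚ_[3] (PadicAlgCl 3) (k x) := by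
    intro k hk x
    obtain ⟨a, b, rfl⟩ := hco x
    rw [map_add, map_mul, hk, map_ratCast, map_ratCast, map_add, map_mul, map_ratCast,
      map_ratCast, map_add, map_mul, map_ratCast, map_ratCast]
  rcases hs with hs | hs
  · exact ⟨j, key j hs⟩
  · refine ⟨j.comp σ, key _ ?_⟩
    rw [RingHom.comp_apply, hj.conj, map_neg, map_neg]
    exact hs

theorem QF.change (hj : QF F Δ s σ j) (j' : F →+* ℚ_[3]) : QF F Δ s σ j' :=
  ⟨hj.fund, hj.mod3, hj.s2, hj.deg, hj.conj⟩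

omit [NumberField F] in
theorem exists_root {ι : F →+* PadicAlgCl 3} {j' : F →+* ℚ_[3]}
    (h : ∀ x, ι x = algebraMap ℚ_[3] (PadicAlgCl 3) (j' x)) {a : F} (ha : PowAt 3 ι a) :
    ∃ κ : ℚ_[3], κ ^ 3 = j' a := by
  obtain ⟨β, hβ, hβ3⟩ := ha
  have h1 : comp 3 ι ≤ ⊥ := by
    unfold comp
    rw [IntermediateField.adjoin_le_iff]
    rintro _ ⟨x, rfl⟩
    rw [h x]
    exact (⊥ : IntermediateField ℚ_[3] (PadicAlgCl 3)).algebraMap_mem _
  have h2 := h1 hβ
  rw [IntermediateField.mem_bot] at h2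
  obtain ⟨κ, rfl⟩ := h2
  refine ⟨κ, (algebraMap ℚ_[3] (PadicAlgCl 3)).injective ?_⟩
  rw [map_pow, hβ3, h a]

theorem norm_of_cube {x : ℚ_[3]} (h : ‖x ^ 3‖ ≤ 1) : ‖x‖ ≤ 1 := by
  rw [norm_pow] at h
  exact (pow_le_one_iff_of_nonneg (norm_nonneg x) (by norm_num)).mp h

theorem norm_of_three_cube {x : ℚ_[3]} (h : ‖3 * x ^ 3‖ ≤ 1) : ‖x‖ ≤ 1 := by
  by_contra hcon
  push Not at hcon
  have hx0 : x ≠ 0 := by
    rintro rfl
    rw [norm_zero] at hcon
    linarith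
  have hn := Padic.norm_eq_zpow_neg_valuation hx0
  have h3 : (3 : ℝ) ≤ ‖x‖ := by
    rw [hn] at hcon ⊢
    have h1 : 0 < -x.valuation := by
      by_contra h
      have : ((3 : ℕ) : ℝ) ^ (-x.valuation) ≤ 1 :=
        zpow_le_one_of_nonpos₀ (by norm_num) (not_lt.mp h)
      linarith
    calc (3 : ℝ) = ((3 : ℕ) : ℝ) ^ (1 : ℤ) := by norm_num
      _ ≤ ((3 : ℕ) : ℝ) ^ (-x.valuation) := zpow_le_zpow_right₀ (by norm_num) (by omega)
  have h4 : ‖(3 : ℚ_[3])‖ = 3⁻¹ := by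
    have := Padic.norm_p (p := 3)
    exact_mod_cast this
  rw [norm_mul, norm_pow, h4] at h
  have h5 : (3 : ℝ) ^ 3 ≤ ‖x‖ ^ 3 := pow_le_pow_left₀ (by norm_num) h3 3
  linarith

end

end Vec

open Vec

/-- The assembly. -/
theorem stVec (h1 : StOne) (h2 : StLam) (h3 : StCoord) (h4 : StBasis) (h5 : StForm) (h6 : StTA)
    (h7 : StTB) : StVec := by
  intro F _ _ Δ s σ j hj hnr
  obtain ⟨ι, hι⟩ := hnr
  obtain ⟨j', hj'⟩ := exists_place h3 hj ι
  have hQ : QF F Δ s σ j' := QF.change hj j'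
  unfold Rigid at hι
  push Not at hι
  obtain ⟨a, ha0, haw, hat, hcube⟩ := hι
  obtain ⟨w, hw, hww, hwc, hwj⟩ := h1 F Δ s σ j' hQ a ha0 haw (exists_root hj' hat)
    (by rintro ⟨b, hb⟩; exact hcube b hb)
  obtain ⟨-, hσσ, -, -, -, hsI, hs0, -⟩ := h3 F Δ s σ j' hQ
  have hw0 : w ≠ 0 := by
    rintro rfl
    rw [zero_mul] at hw
    exact zero_ne_one hw
  have hσw : σ w = w⁻¹ := by
    exact eq_inv_of_mul_eq_one_right hw
  -- the two cases
  have main : ∀ c : ℕ, (c = 1 ∧ (∃ κ : ℚ_[3], j' w = κ ^ 3) ∨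
      c = 3 ∧ ∃ κ : ℚ_[3], j' w = 3 * κ ^ 3) →
      ∃ (α β : F) (v : Fin 4 → ℤ), Red v ∧ v 3 ≠ 0 ∧ HD v = (c : ℤ) ^ 2 * Δ ∧
        α * σ β - σ α * β = (c : F) * s ∧
        IsIntegral ℤ (α ^ 3 / ((c : F) * w)) ∧ IsIntegral ℤ (β ^ 3 / ((c : F) * w)) ∧
        (v 0 : F) * s = α ^ 3 / ((c : F) * w) - σ (α ^ 3 / ((c : F) * w)) ∧
        (v 1 : F) * s = α ^ 2 * β / ((c : F) * w) - σ (α ^ 2 * β / ((c : F) * w)) ∧
        (v 2 : F) * s = α * β ^ 2 / ((c : F) * w) - σ (α * β ^ 2 / ((c : F) * w)) ∧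
        (v 3 : F) * s = β ^ 3 / ((c : F) * w) - σ (β ^ 3 / ((c : F) * w)) := by
    intro c hc
    have hc13 : c = 1 ∨ c = 3 := hc.imp And.left And.left
    have hc0 : 0 < c := by rcases hc13 with rfl | rfl <;> norm_num
    obtain ⟨Λ, hFG, hO, hcube, hsq, hspan⟩ := h2 F Δ s σ j' hQ w c hw hww hc
    obtain ⟨α, hα, β, hβ, hα0, hβ0, hdet, A, B, C, hA, hB, hC, hA0, hBA, hAC⟩ :=
      h4 F Δ s σ j' hQ c hc0 Λ hFG hO hsq hspan
    have i1 : IsIntegral ℤ (α ^ 3 / ((c : F) * w)) := by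
      have := hcube α hα α hα α hα
      rwa [show α * α * α = α ^ 3 by ring] at this
    have i2 : IsIntegral ℤ (α ^ 2 * β / ((c : F) * w)) := by
      have := hcube α hα α hα β hβ
      rwa [show α * α * β = α ^ 2 * β by ring] at this
    have i3 : IsIntegral ℤ (α * β ^ 2 / ((c : F) * w)) := by
      have := hcube α hα β hβ β hβ
      rwa [show α * β * β = α * β ^ 2 by ring] at this
    have i4 : IsIntegral ℤ (β ^ 3 / ((c : F) * w)) := by
      have := hcube β hβ β hβ β hβ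
      rwa [show β * β * β = β ^ 3 by ring] at this
    obtain ⟨v, hv, hv3, hHD, e0, e1, e2, e3⟩ := h5 F Δ s σ j' hQ w c α β A B C hc13 hw hwc hα0
      hβ0 hdet hA hB hC hA0 hBA hAC i1 i2 i3 i4
    exact ⟨α, β, v, hv, hv3, hHD, hdet, i1, i4, e0, e1, e2, e3⟩
  have hjint : ∀ x : F, IsIntegral ℤ x → ‖j' x‖ ≤ 1 := fun x hx => norm_le (hx.map j'.toIntAlgHom)
  have hσint : ∀ x : F, IsIntegral ℤ x → ‖j' (σ x)‖ ≤ 1 :=
    fun x hx => hjint _ (hx.map σ.toIntAlgHom)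
  have hd : ‖j' s‖ = 1 := norm_j hQ
  have hjw0 : j' w ≠ 0 := by
    rw [Ne, map_eq_zero]
    exact hw0
  rcases hwj with ⟨κ, hκ⟩ | ⟨κ, hκ⟩
  · left
    have hκ0 : κ ≠ 0 := by
      rintro rfl
      rw [zero_pow (by norm_num)] at hκ
      exact hjw0 hκ
    obtain ⟨α, β, v, hv, hv3, hHD, hdet, i1, i4, e0, e1, e2, e3⟩ := main 1 (Or.inl ⟨rfl, κ, hκ⟩)
    have hHD' : HD v = Δ := by
      rw [hHD]
      norm_num
    have hjσw : j' (σ w) = (κ ^ 3)⁻¹ := by rw [hσw, map_inv₀, hκ]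
    have hdet' := congrArg j' hdet
    have e0' := congrArg j' e0
    have e1' := congrArg j' e1
    have e2' := congrArg j' e2
    have e3' := congrArg j' e3
    have n1 := hjint _ i1
    have n2 := hσint _ i1
    have n3 := hjint _ i4
    have n4 := hσint _ i4
    simp only [map_sub, map_mul, map_div₀, map_pow, map_intCast, Nat.cast_one,
      one_mul, hκ, hjσw] at hdet' e0' e1' e2' e3' n1 n2 n3 n4
    refine ⟨v, hv, hv3, h6 v (j' s) (j' α / κ) (j' β / κ) (κ * j' (σ α)) (κ * j' (σ β))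
      (norm_of_cube ?_) (norm_of_cube ?_) (norm_of_cube ?_) (norm_of_cube ?_) hd ?_ ?_ ?_ ?_ ?_ ?_,
      hHD'⟩
    · rw [div_pow]
      exact n1
    · rw [div_pow]
      exact n3
    · have : (κ * j' (σ α)) ^ 3 = j' (σ α) ^ 3 / (κ ^ 3)⁻¹ := by
        field_simp
      rw [this]
      exact n2
    · have : (κ * j' (σ β)) ^ 3 = j' (σ β) ^ 3 / (κ ^ 3)⁻¹ := by
        field_simp
      rw [this]
      exact n4
    · rw [← hdet']
      field_simp
    · rw [hHD']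
      have := hQ.mod3
      omega
    · rw [e0']
      field_simp
    · rw [e1']
      field_simp
    · rw [e2']
      field_simp
    · rw [e3']
      field_simp
  · right
    have hκ0 : κ ≠ 0 := by
      rintro rfl
      rw [zero_pow (by norm_num), mul_zero] at hκ
      exact hjw0 hκ
    obtain ⟨α, β, v, hv, hv3, hHD, hdet, i1, i4, e0, e1, e2, e3⟩ := main 3 (Or.inr ⟨rfl, κ, hκ⟩)
    have hHD' : HD v = 9 * Δ := by
      rw [hHD]
      norm_num
    have hjσw : j' (σ w) = (3 * κ ^ 3)⁻¹ := by rw [hσw, map_inv₀, hκ]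
    have h30 : (3 : ℚ_[3]) ≠ 0 := by norm_num
    have hdet' := congrArg j' hdet
    have e0' := congrArg j' e0
    have e1' := congrArg j' e1
    have e2' := congrArg j' e2
    have e3' := congrArg j' e3
    have n1 := hjint _ i1
    have n2 := hσint _ i1
    have n3 := hjint _ i4
    have n4 := hσint _ i4
    simp only [map_sub, map_mul, map_div₀, map_pow, map_intCast, Nat.cast_ofNat,
      hκ, hjσw, map_ofNat] at hdet' e0' e1' e2' e3' n1 n2 n3 n4
    refine ⟨v, hv, hv3, h7 v (j' s) (j' α / (3 * κ)) (j' β / (3 * κ)) (κ * j' (σ α))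
      (κ * j' (σ β))
      (norm_of_three_cube ?_) (norm_of_three_cube ?_) (norm_of_cube ?_) (norm_of_cube ?_) hd
      ?_ ?_ ?_ ?_ ?_, hHD'⟩
    · have : 3 * (j' α / (3 * κ)) ^ 3 = j' α ^ 3 / (3 * (3 * κ ^ 3)) := by
        field_simp
      rw [this]
      exact n1
    · have : 3 * (j' β / (3 * κ)) ^ 3 = j' β ^ 3 / (3 * (3 * κ ^ 3)) := by
        field_simp
      rw [this]
      exact n3
    · have : (κ * j' (σ α)) ^ 3 = j' (σ α) ^ 3 / (3 * (3 * κ ^ 3)⁻¹) := by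
        field_simp
      rw [this]
      exact n2
    · have : (κ * j' (σ β)) ^ 3 = j' (σ β) ^ 3 / (3 * (3 * κ ^ 3)⁻¹) := by
        field_simp
      rw [this]
      exact n4
    · have : j' s = (j' α * j' (σ β) - j' (σ α) * j' β) / 3 := by
        rw [hdet']
        field_simp
      rw [this]
      field_simp
    · rw [e0']
      field_simp
    · rw [e1']
      field_simp
    · rw [e2']
      field_simp
    · rw [e3']
      field_simp

end BKDH
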