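import Pool.Agent.Lib.MP_7c08ba_nt.DH.Stmts

/-!
The volume of the truncated real region, from the parametrisation, its Jacobian and the integral
of the Jacobian.
-/

namespace BKDH

open MeasureTheory

noncomputable section

theorem isCompact_Kset (δ R : ℝ) : IsCompact (Kset δ R) := by
  have hcl : IsClosed (Kset δ R) := by
    have h1 : IsClosed {v : Fin 4 → ℝ | |HB v| ≤ HA v} := by
      apply isClosed_le
      · unfold HB; fun_prop
      · unfold HA; fun_prop
    have h2 : IsClosed {v : Fin 4 → ℝ | HA v ≤ HC v} := by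
      apply isClosed_le
      · unfold HA; fun_prop
      · unfold HC; fun_prop
    have h3 : IsClosed {v : Fin 4 → ℝ | HD v ≤ 1} := by
      apply isClosed_le
      · unfold HD HA HB HC; fun_prop
      · fun_prop
    have h4 : IsClosed {v : Fin 4 → ℝ | δ ≤ |v 0|} := by
      apply isClosed_le <;> fun_prop
    have h5 : IsClosed {v : Fin 4 → ℝ | ∀ i, |v i| ≤ R} := by
      rw [Set.ofPred_forall]
      refine isClosed_iInter fun i => ?_
      apply isClosed_le <;> fun_prop
    have : Kset δ R = {v : Fin 4 → ℝ | |HB v| ≤ HA v} ∩ ({v : Fin 4 → ℝ | HA v ≤ HC v} ∩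
        ({v : Fin 4 → ℝ | HD v ≤ 1} ∩ ({v : Fin 4 → ℝ | δ ≤ |v 0|} ∩
        {v : Fin 4 → ℝ | ∀ i, |v i| ≤ R}))) := rfl
    rw [this]
    exact h1.inter (h2.inter (h3.inter (h4.inter h5)))
  refine (isCompact_closedBall (0 : Fin 4 → ℝ) R).of_isClosed_subset hcl ?_
  rintro v ⟨-, -, -, -, h⟩
  rw [Metric.mem_closedBall, dist_zero_right]
  have hR : 0 ≤ R := (abs_nonneg _).trans (h 0)
  rw [pi_norm_le_iff_of_nonneg hR]
  intro i
  exact h i

theorem Kset_subset (h1 : StParam) {δ R : ℝ} (hδ : 0 < δ) :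
    Kset δ R ⊆ Phi '' Uset ∪ Phi '' {u | u 3 = 0} := by
  rintro v ⟨hB, hC, hD, h0, -⟩
  have hA : 0 ≤ HA v := (abs_nonneg _).trans hB
  have hv0 : v 0 ≠ 0 := by
    intro h
    rw [h, abs_zero] at h0
    linarith
  rcases hA.lt_or_eq with hA | hA
  · left
    have hB2 : HB v ^ 2 ≤ HA v ^ 2 := by
      rw [← sq_abs (HB v)]
      exact pow_le_pow_left₀ (abs_nonneg _) hB 2
    have hDpos : 0 < HD v := by
      have : HD v = 4 * HA v * HC v - HB v ^ 2 := rfl
      rw [this]
      nlinarith [mul_le_mul_of_nonneg_left hC hA.le, mul_pos hA hA]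
    obtain ⟨u, hu3, hPhi, hAe, hBe, hCe, hDe⟩ := h1 v hA hDpos
    refine ⟨u, ⟨?_, ?_, hu3, ?_⟩, hPhi⟩
    · rw [hBe, abs_mul, abs_of_pos hA, abs_mul, abs_neg, abs_two] at hB
      have : 2 * |u 2| ≤ 1 := by
        by_contra hcon
        push Not at hcon
        nlinarith
      linarith
    · rw [hCe] at hC
      by_contra hcon
      push Not at hcon
      nlinarith
    · rw [← hDe]
      exact hD
  · right
    have hB0 : HB v = 0 := by
      rw [← hA] at hB
      exact abs_eq_zero.mp (le_antisymm hB (abs_nonneg _))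
    have e1 : v 1 ^ 2 = v 0 * v 2 := by
      have : HA v = v 1 ^ 2 - v 0 * v 2 := rfl
      linarith
    have e2 : v 1 * v 2 = v 0 * v 3 := by
      have : HB v = v 1 * v 2 - v 0 * v 3 := rfl
      linarith
    refine ⟨![v 0 / 2, 0, -(v 1) / v 0, 0], by simp, ?_⟩
    ext i
    fin_cases i
    · simp [Phi]
      ring
    · simp [Phi]
      field_simp
    · simp [Phi]
      field_simp
      linarith
    · simp [Phi]
      field_simp
      linear_combination v 1 * e1 + v 0 * e2

/-- The volume of the truncated region. -/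
theorem stVol (h1 : StParam) (h2 : StJac) (h3 : StInt) : StVol := by
  intro δ R hδ
  refine ⟨isCompact_Kset δ R, ?_⟩
  choose L hL hdet using h2
  obtain ⟨hmeas, hint⟩ := h3
  have hU : volume (Phi '' Uset) ≤ ENNReal.ofReal (Real.pi ^ 2 / 6) := by
    refine (addHaar_image_le_lintegral_abs_det_fderiv volume hmeas
      (fun u _ => (hL u).hasFDerivWithinAt)).trans (le_trans (le_of_eq ?_) hint)
    refine lintegral_congr fun u => ?_
    rw [hdet u, abs_of_nonneg]
    positivity
  have hN : volume (Phi '' {u | u 3 = 0}) = 0 := by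
    have hm : MeasurableSet {u : Fin 4 → ℝ | u 3 = 0} :=
      measurableSet_eq_fun (by fun_prop) (by fun_prop)
    refine le_antisymm ((addHaar_image_le_lintegral_abs_det_fderiv volume hm
      (fun u _ => (hL u).hasFDerivWithinAt)).trans (le_of_eq ?_)) zero_le
    refine setLIntegral_eq_zero hm fun u hu => ?_
    have h0 : u 3 = 0 := hu
    simp [hdet u, h0]
  apply ENNReal.toReal_le_of_le_ofReal (by positivity)
  calc volume (Kset δ R) ≤ volume (Phi '' Uset ∪ Phi '' {u | u 3 = 0}) :=
        measure_mono (Kset_subset h1 hδ)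
    _ ≤ volume (Phi '' Uset) + volume (Phi '' {u | u 3 = 0}) := measure_union_le _ _
    _ ≤ ENNReal.ofReal (Real.pi ^ 2 / 6) := by rw [hN, add_zero]; exact hU

end

end BKDH
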