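import Pool.Agent.Lib.MP_7c08ba_nt.DH.Compact
import Pool.Agent.Lib.MP_7c08ba_nt.DH.Param
import Pool.Agent.Lib.MP_7c08ba_nt.DH.Jac
import Pool.Agent.Lib.MP_7c08ba_nt.DH.Int
import Pool.Agent.Lib.MP_7c08ba_nt.DH.Vol
import Pool.Agent.Lib.MP_7c08ba_nt.DH.Bdd
import Pool.Agent.Lib.MP_7c08ba_nt.DH.Cusp
import Pool.Agent.Lib.MP_7c08ba_nt.DH.Up
import Pool.Agent.Lib.MP_7c08ba_nt.DH.DTwo
import Pool.Agent.Lib.MP_7c08ba_nt.DH.DA
import Pool.Agent.Lib.MP_7c08ba_nt.DH.DB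
import Pool.Agent.Lib.MP_7c08ba_nt.DH.DP
import Pool.Agent.Lib.MP_7c08ba_nt.DH.CRT
import Pool.Agent.Lib.MP_7c08ba_nt.DH.Prod
import Pool.Agent.Lib.MP_7c08ba_nt.DH.Euler
import Pool.Agent.Lib.MP_7c08ba_nt.DH.NA
import Pool.Agent.Lib.MP_7c08ba_nt.DH.NB
import Pool.Agent.Lib.MP_7c08ba_nt.DH.NF
import Pool.Agent.Lib.MP_7c08ba_nt.DH.One
import Pool.Agent.Lib.MP_7c08ba_nt.DH.Lam
import Pool.Agent.Lib.MP_7c08ba_nt.DH.Coord
import Pool.Agent.Lib.MP_7c08ba_nt.DH.Basis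
import Pool.Agent.Lib.MP_7c08ba_nt.DH.Form
import Pool.Agent.Lib.MP_7c08ba_nt.DH.TA
import Pool.Agent.Lib.MP_7c08ba_nt.DH.TB
import Pool.Agent.Lib.MP_7c08ba_nt.DH.Vec
import Pool.Agent.Lib.MP_7c08ba_nt.DH.Cub
import Pool.Agent.Lib.MP_7c08ba_nt.DH.SU
import Pool.Agent.Lib.MP_7c08ba_nt.DH.Hone
import Pool.Agent.Lib.MP_7c08ba_nt.DH.Rank
import Pool.Agent.Lib.MP_7c08ba_nt.DH.Nil
import Pool.Agent.Lib.MP_7c08ba_nt.DH.Norm
import Pool.Agent.Lib.MP_7c08ba_nt.DH.Cyc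
import Pool.Agent.Lib.MP_7c08ba_nt.DH.Minus
import Pool.Agent.Lib.MP_7c08ba_nt.DH.UpK
import Pool.Agent.Lib.MP_7c08ba_nt.DH.QF
import Pool.Agent.Lib.MP_7c08ba_nt.DH.Bad
import Pool.Agent.Lib.MP_7c08ba_nt.DH.Half

set_option autoImplicit false

/-!
Assembly: at least half of the imaginary quadratic fields in which `3` splits are rigid at `3`.
-/

namespace BKDH

theorem vol : StVol := stVol stParam stJac stInt

theorem up : StUp := stUp stCompact vol stBdd stCusp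

theorem prod : StProd := stProd stDP stCRT

theorem nA : StNA := stNA up stDTwo stDA stCRT prod stEuler

theorem nB : StNB := stNB up stDTwo stDB stCRT prod stEuler

theorem vec : StVec := stVec stOne stLam stCoord (stBasis stCoord) (stForm stCoord) stTA stTB

theorem su : StSU := stSU stCub

theorem cyc : StCyc := stCyc su (stHone su) stRank stNil stNorm

theorem upK : StUpK := stUpK (stMinus cyc)

/-- At least half of the imaginary quadratic fields in which `3` splits are rigid at `3`. -/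
theorem half : StHalf := stHalf nA nB (stNF stEuler) (stBad vec upK stQF)

end BKDH
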