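import Pool.Agent.Lib.MP_7c08ba_nt.DH.Stmts
import Pool.Agent.Lib.MP_7c08ba_nt.DH.Vec
import Pool.Agent.Lib.MP_7c08ba_nt.DH.QF
import Pool.Agent.Lib.MP_7c08ba_nt.DH.Coord
import Pool.Agent.Lib.MP_7c08ba_nt.DH.Bad
import Pool.Agent.Lib.MP_7c08ba_nt.Odd.Stmts

set_option autoImplicit false

/-!
From rigidity of the fields `ℚ(√-Δ, √-3)` to the hypotheses of the parity theorem at `p = 3`.
-/

noncomputable section

namespace BKDH

open BKGen NumberField
open scoped IntermediateField

variable {F : Type} [Field F] [NumberField F]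

/-- `√-3` is not in `F`. -/
theorem no_sqrt (j : F →+* ℚ_[3]) (x : F) : x ^ 2 ≠ -3 := by
  intro hx
  have h1 : (j x) ^ 2 = -3 := by
    rw [← map_pow, hx, map_neg, map_ofNat]
  have h2 : ‖(-3 : ℚ_[3])‖ = 3⁻¹ := by
    rw [norm_neg]
    have := Padic.norm_p (p := 3)
    exact_mod_cast this
  have hx0 : j x ≠ 0 := by
    intro h0
    rw [h0] at h1
    norm_num at h1
  have h3 : ‖j x‖ ^ 2 = 3⁻¹ := by rw [← norm_pow, h1, h2]
  rw [Padic.norm_eq_zpow_neg_valuation hx0, ← zpow_natCast, ← zpow_mul] at h3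
  have h4 : ((3 : ℕ) : ℝ) ^ (-(j x).valuation * ((2 : ℕ) : ℤ)) = ((3 : ℕ) : ℝ) ^ (-1 : ℤ) := by
    rw [h3]
    norm_num
  have h5 := zpow_right_injective₀ (by norm_num : (0 : ℝ) < ((3 : ℕ) : ℝ)) (by norm_num) h4
  omega

theorem three_add {K : Type} [Field K] [CharZero K] {ζ : K} (hζ : IsPrimitiveRoot ζ 3) :
    (2 * ζ + 1) ^ 2 = -3 := by
  have h1 : ζ ^ 3 = 1 := hζ.pow_eq_one
  have h2 : ζ ≠ 1 := hζ.ne_one (by norm_num)
  have h3 : (ζ - 1) * (ζ ^ 2 + ζ + 1) = 0 := by linear_combination h1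
  have h4 : ζ ^ 2 + ζ + 1 = 0 := by
    rcases mul_eq_zero.mp h3 with h | h
    · exact absurd (sub_eq_zero.mp h) h2
    · exact h
  linear_combination 4 * h4

/-- The hypotheses of the parity theorem. -/
theorem oddHyp {Δ : ℕ} (hf : IsFund Δ) (h3 : Δ % 3 = 2) (hR : RigidAll Δ) {s : F}
    (hs : s ^ 2 = -(Δ : F)) (hdeg : Module.finrank ℚ F = 2) (ζ : AlgebraicClosure F)
    (hζ : IsPrimitiveRoot ζ 3) (ι : AlgebraicClosure F →+* PadicAlgCl 3) :
    BKOdd.OddHyp 3 F ζ ι := by
  obtain ⟨σ, j, hj⟩ := stQF F Δ s hf h3 hs hdeg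
  have hΔ : 0 < Δ := by omega
  have hint : IsIntegral F ζ := Algebra.IsIntegral.isIntegral ζ
  have hquad : ζ ^ 2 + ζ + 1 = 0 := by
    have h1 := three_add hζ
    have h4 : (4 : AlgebraicClosure F) * (ζ ^ 2 + ζ + 1) = 0 := by linear_combination h1
    exact (mul_eq_zero.mp h4).resolve_left (by norm_num)
  have hζF : ∀ x : F, algebraMap F (AlgebraicClosure F) x ≠ ζ := by
    intro x hx
    refine no_sqrt j (2 * x + 1) ?_
    apply (algebraMap F (AlgebraicClosure F)).injective
    rw [map_pow, map_add, map_mul, hx, map_one, map_neg, map_ofNat, map_ofNat]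
    exact three_add hζ
  have hdegζ : Module.finrank F (BKOdd.Kz ζ) = 2 := by
    let P : Polynomial F := Polynomial.X ^ 2 + Polynomial.X + 1
    have hPdeg : P.natDegree = 2 := by
      unfold P
      compute_degree!
    have hPmon : P.Monic := by
      unfold P
      monicity!
    have hPev : ∀ x : F, P.eval x = x ^ 2 + x + 1 := by
      intro x
      simp [P]
    have hPirr : Irreducible P := by
      rw [Polynomial.irreducible_iff_roots_eq_zero_of_degree_le_three]
      · rw [Multiset.eq_zero_iff_forall_notMem]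
        intro x hx
        rw [Polynomial.mem_roots'] at hx
        have hx2 := hx.2
        rw [Polynomial.IsRoot.def, hPev] at hx2
        refine no_sqrt j (2 * x + 1) ?_
        linear_combination 4 * hx2
      · rw [hPdeg]
      · rw [hPdeg]
        norm_num
    have hmin : minpoly F ζ = P := by
      symm
      refine minpoly.eq_of_irreducible_of_monic hPirr ?_ hPmon
      simpa [P] using hquad
    rw [BKOdd.Kz, IntermediateField.adjoin.finrank hint, hmin, hPdeg]
  refine ⟨by norm_num, hdeg, ?_, hζ, ?_, ?_⟩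
  · constructor
    intro f
    have h1 : (f s) ^ 2 = -(Δ : ℝ) := by
      rw [← map_pow, hs, map_neg, map_natCast]
    have h2 : (0 : ℝ) < Δ := by exact_mod_cast hΔ
    nlinarith [sq_nonneg (f s)]
  · intro a
    obtain ⟨j', hj'⟩ := Vec.exists_place stCoord hj (ι.comp (algebraMap F (AlgebraicClosure F)))
    have h1 := hj' a
    rw [RingHom.comp_apply] at h1
    rw [h1]
    exact (⊥ : IntermediateField ℚ_[3] (PadicAlgCl 3)).algebraMap_mem _
  · have hfd : FiniteDimensional F (BKOdd.Kz ζ) := by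
      refine Module.finite_of_finrank_pos ?_
      rw [hdegζ]
      norm_num
    have htower : IsScalarTower ℚ F (BKOdd.Kz ζ) := inferInstance
    have hfdQ : FiniteDimensional ℚ (BKOdd.Kz ζ) := Module.Finite.trans F (BKOdd.Kz ζ)
    have hN : NumberField (BKOdd.Kz ζ) := ⟨⟩
    have hdegQ : Module.finrank ℚ (BKOdd.Kz ζ) = 4 := by
      rw [← Module.finrank_mul_finrank ℚ F (BKOdd.Kz ζ), hdeg, hdegζ]
    have hmem : ζ ∈ BKOdd.Kz ζ := IntermediateField.subset_adjoin F _ (Set.mem_singleton ζ)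
    refine hR (BKOdd.Kz ζ) (algebraMap F _ s) (2 * ⟨ζ, hmem⟩ + 1) ?_ ?_ hdegQ _
    · rw [← map_pow, hs, map_neg, map_natCast]
    · apply Subtype.ext
      have h1 := three_add hζ
      change (2 * ζ + 1) ^ 2 = -3
      exact h1

end BKDH
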