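import Pool.Agent.Lib.MP_7c08ba_nt.DH.Stmts

/-!
A reduced basis of the lattice.
-/

namespace BKDH

set_option autoImplicit false

/-- A reduced basis of the lattice. -/
theorem stBasis (h : StCoord) : StBasis := by
  classical
  intro F _ _ Δ s σ j hQ c hc Λ _ hO hint hspan
  obtain ⟨h1, h2, h3, h4, ⟨ω, hω, hωs⟩, hs, hs0, h7⟩ := h F Δ s σ j hQ
  have hcF : (c : F) ≠ 0 := by exact_mod_cast hc.ne'
  have hcs : (c : F) * s ≠ 0 := mul_ne_zero hcF hs0
  have hσ0 : ∀ x : F, x ≠ 0 → σ x ≠ 0 := fun x hx => (map_ne_zero σ).mpr hx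
  -- the pairing
  have hn : ∀ x ∈ Λ, ∀ y ∈ Λ, ∃ n : ℤ, x * σ y - σ x * y = n * (c * s) := by
    intro x hx y hy
    obtain ⟨n, hn⟩ := h3 _ (hint x hx y hy)
    refine ⟨n, ?_⟩
    have e : σ (x * σ y / c) = σ x * y / c := by rw [map_div₀, map_mul, h2, map_natCast]
    rw [e] at hn
    have e2 : x * σ y - σ x * y = c * (x * σ y / c - σ x * y / c) := by
      field_simp
    rw [e2, hn]
    ring
  have hN : ∀ x ∈ Λ, x ≠ 0 → ∃ m : ℕ, 0 < m ∧ x * σ x = m := by
    intro x hx hx0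
    have e : σ (x * σ x / c) = x * σ x / c := by
      rw [map_div₀, map_mul, h2, map_natCast, mul_comm]
    obtain ⟨n, hn⟩ := h4 _ (hint x hx x hx) e
    obtain ⟨q, hq, hq2⟩ := h7 x hx0
    have e2 : x * σ x = ((c * n : ℤ) : F) := by
      push_cast
      rw [← hn]
      field_simp
    have e3 : ((c * n : ℤ) : ℚ) = q := by
      have : (((c * n : ℤ) : ℚ) : F) = (q : F) := by
        rw [← hq2, e2]
        push_cast
        ring
      exact_mod_cast this
    have e4 : 0 < (c * n : ℤ) := by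
      have : (0 : ℚ) < ((c * n : ℤ) : ℚ) := e3 ▸ hq
      exact_mod_cast this
    refine ⟨(c * n : ℤ).toNat, by omega, ?_⟩
    rw [e2]
    have e5 : (((c * n : ℤ).toNat : ℤ) : F) = ((c * n : ℤ) : F) := by
      rw [Int.toNat_of_nonneg e4.le]
    rw [← e5]
    push_cast
    rfl
  have hne : ∃ x ∈ Λ, x ≠ 0 := by
    by_contra hcon
    push Not at hcon
    have h5 : Submodule.span ℤ {z : F | ∃ x ∈ Λ, ∃ y ∈ Λ, z = x * σ y} ≤ ⊥ := by
      rw [Submodule.span_le]
      rintro z ⟨x, hx, y, hy, rfl⟩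
      rw [hcon x hx, zero_mul]
      exact Submodule.zero_mem _
    have h6 := h5 hspan
    exact hcF ((Submodule.mem_bot ℤ).mp h6)
  -- the vector of least norm
  have hex : ∃ n : ℕ, ∃ x ∈ Λ, x ≠ 0 ∧ x * σ x = (n : F) := by
    obtain ⟨x, hx, hx0⟩ := hne
    obtain ⟨m, _, hm⟩ := hN x hx hx0
    exact ⟨m, x, hx, hx0, hm⟩
  obtain ⟨α, hα, hα0, hA⟩ := Nat.find_spec hex
  set A := Nat.find hex with hAdef
  have hmin : ∀ y ∈ Λ, y ≠ 0 → ∀ m : ℕ, y * σ y = (m : F) → A ≤ m := by
    intro y hy hy0 m hm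
    exact Nat.find_min' hex ⟨y, hy, hy0, hm⟩
  have hApos : 0 < A := by
    obtain ⟨m, hm, hm2⟩ := hN α hα hα0
    have : (m : F) = (A : F) := by rw [← hm2, hA]
    have h5 : m = A := by exact_mod_cast this
    omega
  have hσα : σ α ≠ 0 := hσ0 α hα0
  -- the second vector
  let G : AddSubgroup ℤ :=
    { carrier := {n | ∃ y ∈ Λ, α * σ y - σ α * y = n * (c * s)}
      zero_mem' := ⟨0, Λ.zero_mem, by simp⟩
      add_mem' := by
        rintro a b ⟨x, hx, ex⟩ ⟨y, hy, ey⟩
        refine ⟨x + y, Λ.add_mem hx hy, ?_⟩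
        rw [map_add]
        push_cast
        linear_combination ex + ey
      neg_mem' := by
        rintro a ⟨x, hx, ex⟩
        refine ⟨-x, Λ.neg_mem hx, ?_⟩
        rw [map_neg]
        push_cast
        linear_combination -ex }
  obtain ⟨g, hg⟩ := Int.subgroup_cyclic G
  have hgG : g ∈ G := by
    rw [hg]
    exact AddSubgroup.mem_closure_singleton.mpr ⟨1, one_smul _ _⟩
  obtain ⟨β, hβ, hαβ⟩ := hgG
  have hmulG : ∀ y ∈ Λ, ∃ k : ℤ, α * σ y - σ α * y = (k * g : ℤ) * (c * s) := by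
    intro y hy
    obtain ⟨n, hn'⟩ := hn α hα y hy
    have h5 : n ∈ G := ⟨y, hy, hn'⟩
    rw [hg] at h5
    obtain ⟨k, hk⟩ := AddSubgroup.mem_closure_singleton.mp h5
    refine ⟨k, ?_⟩
    rw [hn', ← hk, smul_eq_mul]
  -- Λ = ℤ α + ℤ β
  have hgen : ∀ y ∈ Λ, ∃ a b : ℤ, y = a * α + b * β := by
    intro y hy
    obtain ⟨k, hk⟩ := hmulG y hy
    have hy' : y - k • β ∈ Λ := Λ.sub_mem hy (Λ.smul_mem k hβ)
    rw [zsmul_eq_mul] at hy'
    set y' := y - (k : F) * β with hy'def
    have e1 : α * σ y' - σ α * y' = 0 := by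
      rw [hy'def, map_sub, map_mul, map_intCast]
      push_cast at hk
      linear_combination hk - k * hαβ
    have e2 : σ (y' / α) = y' / α := by
      rw [map_div₀]
      field_simp
      linear_combination e1
    obtain ⟨x, r, hxr⟩ := h1 (y' / α)
    have hr : (r : F) * s = 0 := by
      have e3 := e2
      rw [hxr, map_add, map_mul, map_ratCast, map_ratCast, hQ.conj] at e3
      have : 2 * ((r : F) * s) = 0 := by linear_combination -e3
      have h20 : (2 : F) ≠ 0 := two_ne_zero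
      exact (mul_eq_zero.mp this).resolve_left h20
    have e4 : y' = (x : F) * α := by
      rw [hr, add_zero] at hxr
      rw [← hxr, div_mul_cancel₀ _ hα0]
    have hy2 : y' - (round x) • α ∈ Λ := Λ.sub_mem hy' (Λ.smul_mem _ hα)
    rw [zsmul_eq_mul] at hy2
    have e5 : y' - (round x : F) * α = ((x - round x : ℚ) : F) * α := by
      rw [e4]
      push_cast
      ring
    have e6 : y' - (round x : F) * α = 0 := by
      by_contra hcon
      obtain ⟨m, hm, hm2⟩ := hN _ hy2 hcon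
      have h6 := hmin _ hy2 hcon m hm2
      rw [e5, map_mul, map_ratCast] at hm2
      have e7 : (((x - round x : ℚ) ^ 2 * (A : ℚ) : ℚ) : F) = (((m : ℕ) : ℚ) : F) := by
        push_cast
        push_cast at hm2
        rw [← hA, ← hm2]
        ring
      have e8 : (x - round x : ℚ) ^ 2 * (A : ℚ) = (m : ℚ) := Rat.cast_injective e7
      have e9 : |x - round x| ≤ 1 / 2 := abs_sub_round x
      have e10 : (x - round x : ℚ) ^ 2 ≤ 1 / 4 := by
        rw [← sq_abs]
        nlinarith [abs_nonneg (x - round x : ℚ)]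
      have e11 : (A : ℚ) ≤ m := by exact_mod_cast h6
      have e12 : (0 : ℚ) < A := by exact_mod_cast hApos
      nlinarith
    refine ⟨round x, k, ?_⟩
    have e13 : y' = (round x : F) * α := by linear_combination e6
    rw [hy'def] at e13
    linear_combination e13
  -- the pairing is divisible by g
  have hdiv : ∀ x ∈ Λ, ∀ y ∈ Λ, ∃ k : ℤ, x * σ y - σ x * y = (k * g : ℤ) * (c * s) := by
    intro x hx y hy
    obtain ⟨a, b, rfl⟩ := hgen x hx
    obtain ⟨a', b', rfl⟩ := hgen y hy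
    refine ⟨a * b' - a' * b, ?_⟩
    simp only [map_add, map_mul, map_intCast]
    push_cast
    linear_combination (a * b' - a' * b : F) * hαβ
  have hspan2 : ∀ z ∈ Submodule.span ℤ {z : F | ∃ x ∈ Λ, ∃ y ∈ Λ, z = x * σ y},
      (∃ k : ℤ, z - σ z = (k * g : ℤ) * (c * s)) ∧
        ω * z ∈ Submodule.span ℤ {z : F | ∃ x ∈ Λ, ∃ y ∈ Λ, z = x * σ y} := by
    intro z hz
    induction hz using Submodule.span_induction with
    | mem z hz =>
      obtain ⟨x, hx, y, hy, rfl⟩ := hz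
      constructor
      · obtain ⟨k, hk⟩ := hdiv x hx y hy
        refine ⟨k, ?_⟩
        rw [map_mul, h2]
        exact hk
      · exact Submodule.subset_span ⟨ω * x, hO ω hω x hx, y, hy, by ring⟩
    | zero =>
      refine ⟨⟨0, by simp⟩, ?_⟩
      rw [mul_zero]
      exact Submodule.zero_mem _
    | add x y _ _ hx hy =>
      obtain ⟨⟨k, hk⟩, hx2⟩ := hx
      obtain ⟨⟨l, hl⟩, hy2⟩ := hy
      refine ⟨⟨k + l, ?_⟩, ?_⟩
      · rw [map_add]
        push_cast
        push_cast at hk hl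
        linear_combination hk + hl
      · rw [mul_add]
        exact Submodule.add_mem _ hx2 hy2
    | smul a x _ hx =>
      obtain ⟨⟨k, hk⟩, hx2⟩ := hx
      refine ⟨⟨a * k, ?_⟩, ?_⟩
      · rw [zsmul_eq_mul, map_mul, map_intCast]
        push_cast
        push_cast at hk
        linear_combination (a : F) * hk
      · have : ω * a • x = a • (ω * x) := by
          rw [zsmul_eq_mul, zsmul_eq_mul]; ring
        rw [this]
        exact Submodule.smul_mem _ a hx2
  have hgunit : g = 1 ∨ g = -1 := by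
    obtain ⟨⟨k, hk⟩, -⟩ := hspan2 _ (hspan2 _ hspan).2
    have e1 : ω * (c : F) - σ (ω * (c : F)) = c * s := by
      rw [map_mul, map_natCast, ← hωs]
      ring
    rw [e1] at hk
    have e2 : ((k * g : ℤ) : F) = 1 := by
      have h5 : (((k * g : ℤ) : F) - 1) * (c * s) = 0 := by linear_combination -hk
      have h6 := (mul_eq_zero.mp h5).resolve_right hcs
      linear_combination h6
    have e3 : k * g = 1 := by exact_mod_cast e2
    exact Int.isUnit_iff.mp (IsUnit.of_mul_eq_one k (by rw [mul_comm]; exact e3))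
  obtain ⟨β₁, hβ₁, hαβ₁⟩ : ∃ β₁ ∈ Λ, α * σ β₁ - σ α * β₁ = c * s := by
    rcases hgunit with rfl | rfl
    · refine ⟨β, hβ, ?_⟩
      rw [hαβ]; push_cast; ring
    · refine ⟨-β, Λ.neg_mem hβ, ?_⟩
      rw [map_neg]
      push_cast at hαβ
      linear_combination -hαβ
  have hBint : ∀ x ∈ Λ, ∀ y ∈ Λ, ∃ n : ℤ, x * σ y + σ x * y = n := by
    intro x hx y hy
    have e : σ (x * σ y / c + y * σ x / c) = x * σ y / c + y * σ x / c := by
      rw [map_add, map_div₀, map_mul, h2, map_natCast, map_div₀, map_mul, h2, map_natCast]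
      ring
    obtain ⟨n, hn'⟩ := h4 _ ((hint x hx y hy).add (hint y hy x hx)) e
    refine ⟨c * n, ?_⟩
    push_cast
    rw [← hn']
    field_simp
  obtain ⟨B₁, hB₁⟩ := hBint α hα β₁ hβ₁
  set X : ℚ := -(B₁ : ℚ) / (2 * A) with hX
  set k : ℤ := round X with hk
  have hβ₂ : β₁ + k • α ∈ Λ := Λ.add_mem hβ₁ (Λ.smul_mem _ hα)
  rw [zsmul_eq_mul] at hβ₂
  have hαβ₂ : α * σ (β₁ + (k : F) * α) - σ α * (β₁ + (k : F) * α) = c * s := by
    rw [map_add, map_mul, map_intCast]
    linear_combination hαβ₁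
  have hβ₂0 : β₁ + (k : F) * α ≠ 0 := by
    intro h0
    rw [h0, map_zero, mul_zero, mul_zero, sub_zero] at hαβ₂
    exact hcs hαβ₂.symm
  obtain ⟨C, hC, hC2⟩ := hN _ hβ₂ hβ₂0
  refine ⟨α, hα, _, hβ₂, hα0, hβ₂0, hαβ₂, A, B₁ + 2 * k * A, C, ?_, ?_, ?_, ?_, ?_, ?_⟩
  · rw [hA]; push_cast; rfl
  · rw [map_add, map_mul, map_intCast]
    push_cast
    rw [← hB₁, ← hA]
    ring
  · rw [hC2]; push_cast; rfl
  · exact_mod_cast hApos
  · have e1 : |X - k| ≤ 1 / 2 := abs_sub_round X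
    have e2 : (0 : ℚ) < A := by exact_mod_cast hApos
    have e3 : (B₁ : ℚ) = -(2 * A * X) := by
      rw [hX]
      field_simp
      try ring
    have e4 : |(B₁ : ℚ) + 2 * k * A| ≤ A := by
      have : (B₁ : ℚ) + 2 * k * A = -(2 * A * (X - k)) := by rw [e3]; ring
      rw [this, abs_neg, abs_mul, abs_of_pos (by linarith : (0 : ℚ) < 2 * A)]
      nlinarith
    exact_mod_cast e4
  · have := hmin _ hβ₂ hβ₂0 C hC2
    exact_mod_cast this

end BKDH
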