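import Pool.Agent.Lib.MP_7c08ba_nt.DH.Stmts
import Pool.Agent.Lib.MP_7c08ba_nt.Gen.SUnits
import Pool.Agent.Lib.MP_7c08ba_nt.Gen.Main

/-!
Auxiliary facts on cyclic cubic extensions and on units outside `3`.
-/

namespace BKDH
namespace CAux

open Module NumberField BKGen

section Cubic

variable {F N : Type} [Field F] [Field N] [Algebra F N] {g : N ≃ₐ[F] N}

lemma fd (h3 : finrank F N = 3) : FiniteDimensional F N :=
  FiniteDimensional.of_finrank_pos (by omega)

lemma order_three (h3 : finrank F N = 3) (hg : g ≠ 1) : orderOf g = 3 := by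
  haveI := fd h3
  have h1 := IntermediateField.finrank_fixedField_eq_card (F := F) (E := N) (Subgroup.zpowers g)
  have h2 := finrank_mul_finrank F (IntermediateField.fixedField (Subgroup.zpowers g)) N
  rw [h1, h3, Nat.card_zpowers] at h2
  have h4 : orderOf g ∣ 3 := ⟨_, by rw [mul_comm]; exact h2.symm⟩
  rcases (Nat.dvd_prime Nat.prime_three).mp h4 with h | h
  · exact absurd (orderOf_eq_one_iff.mp h) hg
  · exact h

lemma g_three (h3 : finrank F N = 3) (hg : g ≠ 1) (x : N) : g (g (g x)) = x := by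
  have h := pow_orderOf_eq_one g
  rw [order_three h3 hg] at h
  have h2 := DFunLike.congr_fun h x
  simpa [pow_succ, AlgEquiv.mul_apply] using h2

lemma g_two (h3 : finrank F N = 3) (hg : g ≠ 1) : g ^ 2 ≠ 1 := by
  intro h
  have := orderOf_dvd_of_pow_eq_one h
  rw [order_three h3 hg] at this
  norm_num at this

lemma mem_of_fixed (h3 : finrank F N = 3) (hg : g ≠ 1) {x : N} (hx : g x = x) :
    ∃ y : F, algebraMap F N y = x := by
  haveI := fd h3
  have h1 := IntermediateField.finrank_fixedField_eq_card (F := F) (E := N) (Subgroup.zpowers g)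
  have h2 := finrank_mul_finrank F (IntermediateField.fixedField (Subgroup.zpowers g)) N
  rw [h1, h3, Nat.card_zpowers, order_three h3 hg] at h2
  have h4 : finrank F (IntermediateField.fixedField (Subgroup.zpowers g)) = 1 := by omega
  have h5 := IntermediateField.finrank_eq_one_iff.mp h4
  have hm : x ∈ IntermediateField.fixedField (Subgroup.zpowers g) := by
    rw [IntermediateField.mem_fixedField_iff]
    intro f hf
    have hle : Subgroup.zpowers g ≤ MulAction.stabilizer (N ≃ₐ[F] N) x := by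
      rw [Subgroup.zpowers_le, MulAction.mem_stabilizer_iff, AlgEquiv.smul_def]
      exact hx
    have := hle hf
    rwa [MulAction.mem_stabilizer_iff, AlgEquiv.smul_def] at this
  rw [h5, IntermediateField.mem_bot] at hm
  exact hm

lemma fixed_norm (h3 : finrank F N = 3) (hg : g ≠ 1) (x : N) :
    ∃ y : F, algebraMap F N y = x * g x * g (g x) := by
  apply mem_of_fixed h3 hg
  rw [map_mul, map_mul, g_three h3 hg]
  ring

end Cubic

lemma norm_alg (c : ℚ_[3]) : ‖algebraMap ℚ_[3] (PadicAlgCl 3) c‖ = ‖c‖ :=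
  PadicAlgCl.norm_extends 3 c

/-- embeddings into `ℚ_3` with the same absolute value agree -/
lemma emb_eq {N : Type} [Field N] [CharZero N] (j j' : N →+* ℚ_[3])
    (h : ∀ x, ‖j x‖ = ‖j' x‖) : j = j' := by
  ext x
  by_contra hne
  have hpos : 0 < ‖j x - j' x‖ := norm_pos_iff.mpr (sub_ne_zero.mpr hne)
  obtain ⟨r, hr⟩ := Padic.rat_dense 3 (j x) hpos
  have h1 : ‖j (x - (r : N))‖ = ‖j' (x - (r : N))‖ := h _
  rw [map_sub, map_sub, map_ratCast, map_ratCast] at h1
  have h2 : j x - j' x = (j x - r) - (j' x - r) := by ring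
  have h3 : ‖j x - j' x‖ ≤ max ‖j x - r‖ ‖j' x - r‖ := by
    rw [h2, sub_eq_add_neg, ← norm_neg (j' x - (r : ℚ_[3]))]
    exact IsUltrametricDist.norm_add_le_max _ _
  rw [← h1, max_self] at h3
  linarith

lemma su3_of_mem {K : Type} [Field K] [NumberField K] {x : Kˣ}
    (hx : x ∈ (SUnits.Sp K 3).unit K) : SU3 (x : K) := by
  intro l hl hlp j
  apply SUnits.norm_eq_of_val j
  apply hx
  intro h
  have h1 : ((3 : ℕ) : 𝓞 K) ∈ SUnits.plI j := h
  rw [SUnits.mem_plI, map_natCast, map_natCast, SUnits.norm_natCast_one] at h1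
  · exact lt_irrefl _ h1
  · intro hd
    exact hlp ((Nat.prime_dvd_prime_iff_eq hl.out Nat.prime_three).1 hd)

end CAux
end BKDH
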