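import Pool.Agent.Lib.MP_7c08ba_nt.DH.Stmts

/-!
Lattice points of a residue class in a large homothetic copy of a compact set.
-/

namespace BKDH

open MeasureTheory Set

theorem finite_box (K : Set (Fin 4 → ℝ)) (hK : IsCompact K) (t : ℝ) (ht : 0 < t) :
    {z : Fin 4 → ℤ | (fun i => (z i : ℝ) / t) ∈ K}.Finite := by
  obtain ⟨R, hR⟩ := hK.isBounded.exists_norm_le
  refine (Set.finite_Icc (fun _ : Fin 4 => -⌈R * t⌉) (fun _ : Fin 4 => ⌈R * t⌉)).subset ?_
  intro z hz
  have h1 : ‖(fun i => (z i : ℝ) / t)‖ ≤ R := hR _ hz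
  have h2 : ∀ i, |(z i : ℝ)| ≤ R * t := by
    intro i
    have h3 := (norm_le_pi_norm (fun i => (z i : ℝ) / t) i).trans h1
    simp only [Real.norm_eq_abs, abs_div, abs_of_pos ht] at h3
    rwa [div_le_iff₀ ht] at h3
  constructor
  · intro i
    have h4 := (abs_le.1 (h2 i)).1
    have h5 : -((⌈R * t⌉ : ℤ) : ℝ) ≤ (z i : ℝ) := by
      have := Int.le_ceil (R * t)
      linarith
    exact_mod_cast h5
  · intro i
    have h4 := (abs_le.1 (h2 i)).2
    have h5 : (z i : ℝ) ≤ ((⌈R * t⌉ : ℤ) : ℝ) := h4.trans (Int.le_ceil (R * t))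
    exact_mod_cast h5

/-- The cube attached to a lattice point. -/
def cube (M : ℕ) (t : ℝ) (z : Fin 4 → ℤ) : Set (Fin 4 → ℝ) :=
  Set.pi Set.univ fun i => Set.Ico ((z i : ℝ) / t) (((z i : ℝ) + M) / t)

theorem volume_cube (M : ℕ) (t : ℝ) (ht : 0 < t) (z : Fin 4 → ℤ) :
    volume (cube M t z) = ENNReal.ofReal ((M / t) ^ 4) := by
  have h : ∀ i, ((z i : ℝ) + M) / t - (z i : ℝ) / t = M / t := by
    intro i; field_simp; ring
  unfold cube
  rw [Real.volume_pi_Ico]
  simp only [h, Finset.prod_const, Finset.card_univ, Fintype.card_fin]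
  rw [ENNReal.ofReal_pow (by positivity)]

theorem disj_cube (M : ℕ) (hM : 0 < M) (t : ℝ) (ht : 0 < t) (r z w : Fin 4 → ℤ)
    (hz : ∀ i, (M : ℤ) ∣ z i - r i) (hw : ∀ i, (M : ℤ) ∣ w i - r i) (hne : z ≠ w) :
    Disjoint (cube M t z) (cube M t w) := by
  rw [Set.disjoint_left]
  intro x hx hy
  apply hne
  funext i
  have h1 := hx i (Set.mem_univ i)
  have h2 := hy i (Set.mem_univ i)
  simp only [Set.mem_Ico, div_le_iff₀ ht, lt_div_iff₀ ht] at h1 h2
  obtain ⟨a, ha⟩ := hz i
  obtain ⟨b, hb⟩ := hw i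
  have h3 : z i < w i + M := by
    have : (z i : ℝ) < (w i : ℝ) + M := by linarith
    exact_mod_cast this
  have h4 : w i < z i + M := by
    have : (w i : ℝ) < (z i : ℝ) + M := by linarith
    exact_mod_cast this
  have h5 : z i - w i = M * (a - b) := by linarith
  have hM' : (0 : ℤ) < M := by exact_mod_cast hM
  have h6 : a - b < 1 := by
    by_contra h
    push Not at h
    have : (M : ℤ) * 1 ≤ M * (a - b) := mul_le_mul_of_nonneg_left h hM'.le
    linarith
  have h7 : -1 < a - b := by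
    by_contra h
    push Not at h
    have : (M : ℤ) * (a - b) ≤ M * (-1) := mul_le_mul_of_nonneg_left h hM'.le
    linarith
  have h8 : a - b = 0 := by omega
  rw [h8, mul_zero] at h5
  linarith

theorem stCompact : StCompact := by
  intro K hK M hM r ε hε
  have hM' : (0 : ℝ) < M := by exact_mod_cast hM
  have hη : ENNReal.ofReal (ε * M ^ 4) ≠ 0 := by
    rw [Ne, ENNReal.ofReal_eq_zero, not_le]
    positivity
  obtain ⟨U, hKU, hUo, hUlt⟩ := K.exists_isOpen_lt_add (μ := volume) hK.measure_lt_top.ne hη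
  obtain ⟨ρ, hρ, hth⟩ := hK.exists_thickening_subset_open hUo hKU
  refine ⟨M / ρ + 1, by positivity, fun t ht => ?_⟩
  have ht0 : 0 < t := lt_of_lt_of_le (by positivity) ht
  have hfin : {z : Fin 4 → ℤ | (∀ i, (M : ℤ) ∣ z i - r i) ∧
      (fun i => (z i : ℝ) / t) ∈ K}.Finite :=
    (finite_box K hK t ht0).subset fun z hz => hz.2
  refine ⟨hfin, ?_⟩
  have hMt : (M : ℝ) / t < ρ := by
    rw [div_lt_iff₀ ht0]
    have : (M : ℝ) / ρ < t := by linarith
    rwa [div_lt_iff₀ hρ, mul_comm] at this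
  set F := hfin.toFinset with hF
  have hcard : {z : Fin 4 → ℤ | (∀ i, (M : ℤ) ∣ z i - r i) ∧
      (fun i => (z i : ℝ) / t) ∈ K}.ncard = F.card := Set.ncard_eq_toFinset_card _ hfin
  rw [hcard]
  have hsub : (⋃ z ∈ F, cube M t z) ⊆ U := by
    intro x hx
    simp only [Set.mem_iUnion, exists_prop] at hx
    obtain ⟨z, hzF, hxz⟩ := hx
    have hz := (hfin.mem_toFinset).1 hzF
    apply hth
    rw [Metric.mem_thickening_iff]
    refine ⟨_, hz.2, ?_⟩
    rw [dist_pi_lt_iff hρ]
    intro i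
    have h1 := hxz i (Set.mem_univ i)
    simp only [Set.mem_Ico] at h1
    rw [Real.dist_eq, abs_lt]
    have h2 : ((z i : ℝ) + M) / t = (z i : ℝ) / t + M / t := by ring
    constructor <;> linarith [h1.1, h1.2]
  have hmeas : ∀ z ∈ F, MeasurableSet (cube M t z) := fun z _ =>
    MeasurableSet.univ_pi fun i => measurableSet_Ico
  have hdisj : Set.PairwiseDisjoint (F : Set (Fin 4 → ℤ)) (fun z => cube M t z) := by
    intro z hz w hw hne
    exact disj_cube M hM t ht0 r z w ((hfin.mem_toFinset).1 hz).1 ((hfin.mem_toFinset).1 hw).1 hne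
  have hvol : volume (⋃ z ∈ F, cube M t z) = (F.card : ENNReal) * ENNReal.ofReal ((M / t) ^ 4) := by
    rw [measure_biUnion_finset hdisj hmeas, Finset.sum_congr rfl fun z _ => volume_cube M t ht0 z,
      Finset.sum_const, nsmul_eq_mul]
  have hle : (F.card : ENNReal) * ENNReal.ofReal ((M / t) ^ 4) ≤
      volume K + ENNReal.ofReal (ε * M ^ 4) := by
    rw [← hvol]
    exact (measure_mono hsub).trans hUlt.le
  have hreal : (F.card : ℝ) * (M / t) ^ 4 ≤ (volume K).toReal + ε * M ^ 4 := by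
    have h1 := ENNReal.toReal_mono (by
      simp [hK.measure_lt_top.ne]) hle
    rw [ENNReal.toReal_mul, ENNReal.toReal_natCast, ENNReal.toReal_ofReal (by positivity),
      ENNReal.toReal_add hK.measure_lt_top.ne ENNReal.ofReal_ne_top,
      ENNReal.toReal_ofReal (by positivity)] at h1
    exact h1
  have h2 : (F.card : ℝ) * (M / t) ^ 4 = (F.card : ℝ) * M ^ 4 / t ^ 4 := by
    rw [div_pow]; ring
  rw [h2, div_le_iff₀ (by positivity)] at hreal
  have h3 : ((volume K).toReal / M ^ 4 + ε) * t ^ 4 =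
      ((volume K).toReal + ε * M ^ 4) * t ^ 4 / M ^ 4 := by
    field_simp
  rw [h3, le_div_iff₀ (by positivity)]
  exact hreal

end BKDH
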