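import Pool.Agent.Lib.MP_7c08ba_nt.DH.CAux
import Pool.Agent.Lib.MP_7c08ba_nt.Gen.Count

/-!
A rigid imaginary quadratic field has no cyclic cubic extension which is unramified outside `3` and
split at a place above `3`.
-/

namespace BKDH
namespace CycP

open Module NumberField BKGen CAux

/-- The units outside `3`. -/
def SG (K : Type) [Field K] : Subgroup Kˣ where
  carrier := {u | SU3 (u : K)}
  mul_mem' := by
    intro a b ha hb l _ hl i
    rw [Units.val_mul, map_mul, norm_mul, ha l hl i, hb l hl i, one_mul]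
  one_mem' := by
    intro l _ hl i
    rw [Units.val_one, map_one, norm_one]
  inv_mem' := by
    intro a ha l _ hl i
    rw [Units.val_inv_eq_inv_val, map_inv₀, norm_inv, ha l hl i, inv_one]

section

variable {F N : Type} [Field F] [Field N] [Algebra F N]

lemma su3_map (g : N ≃ₐ[F] N) {x : N} (hx : SU3 x) : SU3 (g x) := by
  intro l _ hl i
  exact hx l hl (i.comp (g : N →+* N))

/-- The automorphism of the units outside `3`. -/
def gS (g : N ≃ₐ[F] N) : SG N ≃* SG N where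
  toFun u := ⟨Units.mapEquiv (g : N ≃* N) u.1, su3_map g u.2⟩
  invFun u := ⟨Units.mapEquiv (g.symm : N ≃* N) u.1, su3_map g.symm u.2⟩
  left_inv u := by
    apply Subtype.ext
    apply Units.ext
    exact g.symm_apply_apply _
  right_inv u := by
    apply Subtype.ext
    apply Units.ext
    exact g.apply_symm_apply _
  map_mul' u v := by
    apply Subtype.ext
    apply Units.ext
    exact map_mul g _ _

lemma gS_apply (g : N ≃ₐ[F] N) (u : SG N) :
    ((gS g u : SG N) : Nˣ).val = g ((u : Nˣ) : N) := rfl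

end

/-- no square root of `-3` in `ℚ_3` -/
lemma no_sqrt (w : ℚ_[3]) : w ^ 2 ≠ -3 := by
  intro h
  have hw : w ≠ 0 := by
    rintro rfl
    norm_num at h
  have h1 : ‖w‖ ^ 2 = (3 : ℝ)⁻¹ := by
    rw [← norm_pow, h, norm_neg]
    have := Padic.norm_p (p := 3)
    simpa using this
  rw [Padic.norm_eq_zpow_neg_valuation hw] at h1
  have h2 : ((3 : ℕ) : ℝ) ^ (-w.valuation * 2) = ((3 : ℕ) : ℝ) ^ (-1 : ℤ) := by
    rw [zpow_mul, zpow_neg_one]
    have : ((3 : ℕ) : ℝ) = 3 := by norm_num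
    rw [this] at h1 ⊢
    rw [← h1]
    norm_cast
  have h3 := zpow_right_injective₀ (by norm_num) (by norm_num) h2
  omega

lemma cube_one {x : ℚ_[3]} (h : x ^ 3 = 1) : x = 1 := by
  by_contra hne
  have h1 : (x - 1) * (x ^ 2 + x + 1) = 0 := by linear_combination h
  have h2 : x ^ 2 + x + 1 = 0 := (mul_eq_zero.mp h1).resolve_left (sub_ne_zero.mpr hne)
  exact no_sqrt (2 * x + 1) (by linear_combination 4 * h2)

variable {F : Type} [Field F] [NumberField F] {Δ : ℕ} {s : F} {σ : F →+* F} {j : F →+* ℚ_[3]}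

/-- conversion of representatives -/
lemma conv {N : Type} [Field N] {n : ℕ} {T : Finset N} (hT : T.card = n)
    (hT1 : ∀ x ∈ T, x ≠ 0 ∧ SU3 x)
    (hT2 : ∀ x ∈ T, ∀ y ∈ T, x ≠ y → ¬ ∃ b : N, x = y * b ^ 3) :
    ∃ T' : Finset (SG N), T'.card = n ∧
      ∀ x ∈ T', ∀ y ∈ T', x ≠ y → ¬ ∃ b : SG N, x = y * b ^ 3 := by
  classical
  let f : {x // x ∈ T} → SG N := fun x => ⟨Units.mk0 x.1 (hT1 x.1 x.2).1, (hT1 x.1 x.2).2⟩
  have hf : ∀ x, ((f x : Nˣ) : N) = x.1 := fun x => rfl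
  have hinj : Function.Injective f := by
    intro x y h
    apply Subtype.ext
    rw [← hf, ← hf, h]
  refine ⟨T.attach.image f, ?_, ?_⟩
  · rw [Finset.card_image_of_injective _ hinj, Finset.card_attach, hT]
  · intro x hx y hy hxy
    obtain ⟨a, -, rfl⟩ := Finset.mem_image.mp hx
    obtain ⟨b, -, rfl⟩ := Finset.mem_image.mp hy
    rintro ⟨c, hc⟩
    refine hT2 a.1 a.2 b.1 b.2 (fun h => hxy (by rw [Subtype.ext h])) ⟨((c : Nˣ) : N), ?_⟩
    have := congrArg (fun u : SG N => ((u : Nˣ) : N)) hc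
    exact this

theorem main1 (h1 : StSU) (h2 : StHone) (h3 : StRank) (h4 : StNil) (hQ : QF F Δ s σ j)
    (hR : ∀ ι : F →+* PadicAlgCl 3, Rigid 3 F ι)
    {N : Type} [Field N] [NumberField N] [Algebra F N] {g : N ≃ₐ[F] N}
    (hd : finrank F N = 3) (hg : g ≠ 1) (hu : UnrAway F N) (j₁ : N →+* ℚ_[3]) :
    (∀ j₂ : N →+* ℚ_[3], j₂ (algebraMap F N s) = j₁ (algebraMap F N s)) ∧
      ∀ u : N, u ≠ 0 → SU3 u → g u = u → ∃ x : N, u = x * g x * g (g x) := by
  classical
  haveI := fd hd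
  obtain ⟨⟨T, hT, hT1, hT2⟩, hrank⟩ := h3 F Δ s σ j hQ N g hd hg j₁
  have hone := h2 F Δ s σ j hQ hR N g hd hg hu
  obtain ⟨S, hS, hS1, hS2⟩ := (h1 F Δ s σ j hQ hR).2
  have hnil := h4 (SG N) (gS g) (by
    intro x
    apply Subtype.ext
    apply Units.ext
    rw [gS_apply, gS_apply, gS_apply, g_three hd hg]) (by
    intro z hz
    have hz' : ((z : Nˣ) : N) * g ((z : Nˣ) : N) * g (g ((z : Nˣ) : N)) = 1 := by
      have := congrArg (fun u : SG N => ((u : Nˣ) : N)) hz
      exact this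
    obtain ⟨x, hx0, hx, hzx⟩ := hone _ (Units.ne_zero _) z.2 hz'
    refine ⟨⟨Units.mk0 x hx0, hx⟩, ?_⟩
    rw [eq_div_iff_mul_eq']
    apply Subtype.ext
    apply Units.ext
    show ((z : Nˣ) : N) * x = g x
    rw [hzx]
    field_simp) (by
    intro x hx
    have hx' : (((x : Nˣ) : N)) ^ 3 = 1 := by
      have := congrArg (fun u : SG N => ((u : Nˣ) : N)) hx
      exact this
    apply Subtype.ext
    apply Units.ext
    apply j₁.injective
    have h5 := cube_one (x := j₁ ((x : Nˣ) : N)) (by rw [← map_pow, hx', map_one])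
    rw [h5]
    exact (map_one j₁).symm) (by
    let f : {c // c ∈ S} → SG N := fun c =>
      ⟨Units.mk0 (algebraMap F N c.1) (by
        rw [map_ne_zero]
        exact (hS1 c.1 c.2).1), fun l _ hl i => (hS1 c.1 c.2).2 l hl (i.comp (algebraMap F N))⟩
    refine ⟨S.attach.image f, Finset.card_image_le.trans (by rw [Finset.card_attach]; exact hS),
      ?_⟩
    intro u hu'
    have hu1 : g ((u : Nˣ) : N) = ((u : Nˣ) : N) := by
      have := congrArg (fun u : SG N => ((u : Nˣ) : N)) hu'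
      exact this
    obtain ⟨y, hy⟩ := mem_of_fixed hd hg hu1
    have hy0 : y ≠ 0 := by
      rintro rfl
      rw [map_zero] at hy
      exact Units.ne_zero _ hy.symm
    have hysu : SU3 y := by
      intro l _ hl i
      obtain ⟨J, hJ⟩ := exists_extension (Ω := N) l i
      have := u.2 l hl J
      rw [← hy] at this
      have e : J (algebraMap F N y) = i y := congrArg (fun f => f y) hJ
      rwa [e] at this
    obtain ⟨c, hc, b, hb⟩ := hS2 y hy0 hysu
    have hb0 : b ≠ 0 := by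
      rintro rfl
      rw [zero_pow (by norm_num), mul_zero] at hb
      exact hy0 hb
    have hbsu : SU3 (algebraMap F N b) := by
      intro l _ hl i
      have h5 : ‖i (algebraMap F N y)‖ = 1 := hysu l hl (i.comp (algebraMap F N))
      have h6 : ‖i (algebraMap F N c)‖ = 1 := (hS1 c hc).2 l hl (i.comp (algebraMap F N))
      rw [hb, map_mul, map_mul, norm_mul, h6, one_mul, map_pow, map_pow, norm_pow] at h5
      exact (pow_eq_one_iff_of_nonneg (norm_nonneg _) (by norm_num)).mp h5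
    refine ⟨f ⟨c, hc⟩, Finset.mem_image.mpr ⟨⟨c, hc⟩, Finset.mem_attach _ _, rfl⟩,
      ⟨Units.mk0 (algebraMap F N b) (by rwa [map_ne_zero]), hbsu⟩, ?_⟩
    apply Subtype.ext
    apply Units.ext
    show ((u : Nˣ) : N) = algebraMap F N c * (algebraMap F N b) ^ 3
    rw [← hy, hb, map_mul, map_pow])
  refine ⟨fun j₂ => ?_, fun u hu0 hu1 hu2 => ?_⟩
  · by_contra hne
    obtain ⟨T', hT', hT'1, hT'2⟩ := hrank j₂ hne
    obtain ⟨T'', h5, h6⟩ := conv hT' hT'1 hT'2
    have := hnil.1 T'' h6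
    rw [h5] at this
    norm_num at this
  · obtain ⟨T'', h5, h6⟩ := conv hT hT1 hT2
    obtain ⟨x, hx⟩ := hnil.2 ⟨T'', h5, h6⟩ ⟨Units.mk0 u hu0, hu1⟩ (by
      apply Subtype.ext
      apply Units.ext
      exact hu2)
    refine ⟨((x : Nˣ) : N), ?_⟩
    have := congrArg (fun u : SG N => ((u : Nˣ) : N)) hx
    exact this

lemma galois {F N : Type} [Field F] [CharZero F] [Field N] [Algebra F N] {g : N ≃ₐ[F] N}
    (hd : finrank F N = 3) (hg : g ≠ 1) : IsGalois F N := by
  haveI := fd hd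
  apply IsGalois.of_card_aut_eq_finrank
  refine le_antisymm ?_ ?_
  · have := AlgEquiv.card_le (F := F) (K := N)
    rwa [← Nat.card_eq_fintype_card] at this
  · rw [hd, ← order_three hd hg]
    exact orderOf_le_card

/-- an automorphism of the algebraic closure over `ℚ_3` acts on the image of `N` -/
lemma exists_aut {F N : Type} [Field F] [Field N] [Algebra F N] [Normal F N]
    (i : N →+* PadicAlgCl 3) (j' : F →+* ℚ_[3])
    (hi : ∀ y, i (algebraMap F N y) = algebraMap ℚ_[3] (PadicAlgCl 3) (j' y))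
    (τ : PadicAlgCl 3 ≃ₐ[ℚ_[3]] PadicAlgCl 3) :
    ∃ θ : N ≃ₐ[F] N, ∀ x, i (θ x) = τ (i x) := by
  have hbot : comp 3 (i.comp (algebraMap F N)) ≤ ⊥ := by
    refine IntermediateField.adjoin_le_iff.mpr ?_
    rintro _ ⟨y, rfl⟩
    rw [SetLike.mem_coe, IntermediateField.mem_bot]
    exact ⟨j' y, (hi y).symm⟩
  let τ' : PadicAlgCl 3 ≃ₐ[comp 3 (i.comp (algebraMap F N))] PadicAlgCl 3 :=
    AlgEquiv.ofRingEquiv (f := τ.toRingEquiv) (by
      intro x
      obtain ⟨c, hc⟩ := IntermediateField.mem_bot.mp (hbot x.2)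
      change τ (x : PadicAlgCl 3) = (x : PadicAlgCl 3)
      rw [← hc]
      exact τ.commutes c)
  obtain ⟨θ, hθ⟩ := exists_restrict i τ'
  exact ⟨θ, hθ⟩

/-- the completion is of degree at most three -/
lemma degree_le {F N : Type} [Field F] [CharZero F] [Field N] [Algebra F N]
    (hd : finrank F N = 3) (i : N →+* PadicAlgCl 3) (j' : F →+* ℚ_[3])
    (hi : ∀ y, i (algebraMap F N y) = algebraMap ℚ_[3] (PadicAlgCl 3) (j' y)) :
    FiniteDimensional ℚ_[3] (comp 3 i) ∧ finrank ℚ_[3] (comp 3 i) ≤ 3 := by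
  haveI := fd hd
  have hbot : comp 3 (i.comp (algebraMap F N)) = ⊥ := by
    rw [eq_bot_iff]
    refine IntermediateField.adjoin_le_iff.mpr ?_
    rintro _ ⟨y, rfl⟩
    rw [SetLike.mem_coe, IntermediateField.mem_bot]
    exact ⟨j' y, (hi y).symm⟩
  have hrange : comp 3 (i.comp (algebraMap (⊤ : IntermediateField F N) N)) = comp 3 i := by
    unfold comp
    congr 1
    ext x
    constructor
    · rintro ⟨y, rfl⟩
      exact ⟨_, rfl⟩
    · rintro ⟨y, rfl⟩
      exact ⟨⟨y, trivial⟩, rfl⟩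
  haveI hfd0 : FiniteDimensional ℚ_[3] (comp 3 (i.comp (algebraMap F N))) := by
    rw [hbot]
    infer_instance
  obtain ⟨h1, h2⟩ := finrank_comp_le (p := 3) i (⊤ : IntermediateField F N)
  rw [hrange] at h1 h2
  refine ⟨h1, ?_⟩
  rw [hbot, IntermediateField.finrank_bot, one_mul, IntermediateField.finrank_top', hd] at h2
  exact h2

end CycP

open Module NumberField BKGen CAux in
theorem stCyc (h1 : StSU) (h2 : StHone) (h3 : StRank) (h4 : StNil) (h5 : StNorm) : StCyc := by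
  classical
  intro F _ _ Δ s σ j hQ hR N _ _ _ g hd hg hu hN
  obtain ⟨j₁, -⟩ := hN
  haveI := fd hd
  haveI := CycP.galois hd hg
  obtain ⟨hj, -⟩ := CycP.main1 h1 h2 h3 h4 hQ hR hd hg hu j₁
  have hs0 : s ≠ 0 := by
    rintro rfl
    have h := hQ.s2
    have hm := hQ.mod3
    rw [zero_pow two_ne_zero, eq_comm, neg_eq_zero, Nat.cast_eq_zero] at h
    omega
  set j' : F →+* ℚ_[3] := (j₁.comp (algebraMap F N)).comp σ with hj'
  have hj's : j' s = -j₁ (algebraMap F N s) := by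
    rw [hj', RingHom.comp_apply, hQ.conj, map_neg]
    rfl
  obtain ⟨i, hi₀⟩ := exists_extension (Ω := N) 3 ((algebraMap ℚ_[3] (PadicAlgCl 3)).comp j')
  have hi : ∀ y, i (algebraMap F N y) = algebraMap ℚ_[3] (PadicAlgCl 3) (j' y) :=
    fun y => congrArg (fun f => f y) hi₀
  -- an automorphism which moves the image of `N`
  obtain ⟨τ, x₀, hx₀⟩ : ∃ (τ : PadicAlgCl 3 ≃ₐ[ℚ_[3]] PadicAlgCl 3) (x : N), τ (i x) ≠ i x := by
    by_contra hcon
    push Not at hcon
    have hr : ∀ x : N, ∃ c : ℚ_[3], algebraMap ℚ_[3] (PadicAlgCl 3) c = i x := by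
      intro x
      have : i x ∈ Set.range (algebraMap ℚ_[3] (PadicAlgCl 3)) := by
        rw [InfiniteGalois.mem_range_algebraMap_iff_fixed]
        exact fun τ => hcon τ x
      exact this
    choose c hc using hr
    have hinj := (algebraMap ℚ_[3] (PadicAlgCl 3)).injective
    let j₂ : N →+* ℚ_[3] :=
      { toFun := c
        map_one' := hinj (by rw [hc, map_one, map_one])
        map_mul' := fun x y => hinj (by rw [hc, map_mul, map_mul, hc, hc])
        map_zero' := hinj (by rw [hc, map_zero, map_zero])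
        map_add' := fun x y => hinj (by rw [hc, map_add, map_add, hc, hc]) }
    have h6 : j₂ (algebraMap F N s) = -j₁ (algebraMap F N s) := by
      apply hinj
      show algebraMap ℚ_[3] (PadicAlgCl 3) (c (algebraMap F N s)) = _
      rw [hc, hi, hj's]
    rw [hj j₂] at h6
    have h7 : j₁ (algebraMap F N s) = 0 := by
      have : (2 : ℚ_[3]) * j₁ (algebraMap F N s) = 0 := by linear_combination h6
      exact (mul_eq_zero.mp this).resolve_left two_ne_zero
    rw [map_eq_zero, map_eq_zero] at h7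
    exact hs0 h7
  obtain ⟨θ, hθ⟩ := CycP.exists_aut i j' hi τ
  have hθ1 : θ ≠ 1 := by
    rintro rfl
    exact hx₀ (hθ x₀).symm
  obtain ⟨-, hnorm⟩ := CycP.main1 h1 h2 h3 h4 hQ hR hd hθ1 hu j₁
  have hθ3 := g_three hd hθ1
  -- the completion
  have hmap : (comp 3 i).map τ.toAlgHom = comp 3 i := by
    unfold comp
    rw [IntermediateField.adjoin_map]
    congr 1
    ext x
    constructor
    · rintro ⟨_, ⟨y, rfl⟩, rfl⟩
      exact ⟨θ y, hθ y⟩
    · rintro ⟨y, rfl⟩
      refine ⟨i (θ.symm y), ⟨_, rfl⟩, ?_⟩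
      have := hθ (θ.symm y)
      rw [AlgEquiv.apply_symm_apply] at this
      exact this.symm
  let g₀ : comp 3 i ≃ₐ[ℚ_[3]] comp 3 i :=
    (IntermediateField.equivMap (comp 3 i) τ.toAlgHom).trans (IntermediateField.equivOfEq hmap)
  have hg₀ : ∀ y : comp 3 i, ((g₀ y : comp 3 i) : PadicAlgCl 3) = τ (y : PadicAlgCl 3) :=
    fun y => rfl
  have hmem : ∀ x : N, i x ∈ comp 3 i := fun x => mem_comp i x
  have hg₀i : ∀ x : N, g₀ ⟨i x, hmem x⟩ = ⟨i (θ x), hmem _⟩ := by
    intro x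
    apply Subtype.ext
    rw [hg₀]
    exact (hθ x).symm
  have hg₀1 : g₀ ≠ 1 := by
    intro h
    have := congrArg (fun f : comp 3 i ≃ₐ[ℚ_[3]] comp 3 i =>
      ((f ⟨i x₀, hmem x₀⟩ : comp 3 i) : PadicAlgCl 3)) h
    simp only [AlgEquiv.one_apply] at this
    rw [hg₀] at this
    exact hx₀ this
  have hg₀3 : g₀ ^ 3 = 1 := by
    have h6 : ((g₀ ^ 3 : comp 3 i ≃ₐ[ℚ_[3]] comp 3 i) : comp 3 i →ₐ[ℚ_[3]] comp 3 i) =
        AlgHom.id ℚ_[3] _ := by
      apply IntermediateField.adjoin_algHom_ext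
      rintro _ ⟨x, rfl⟩
      show (g₀ ^ 3) ⟨i x, _⟩ = ⟨i x, _⟩
      rw [pow_succ, pow_two, AlgEquiv.mul_apply, AlgEquiv.mul_apply, hg₀i, hg₀i, hg₀i]
      apply Subtype.ext
      show i (θ (θ (θ x))) = i x
      rw [hθ3]
    ext x
    exact congrArg (fun f : comp 3 i →ₐ[ℚ_[3]] comp 3 i => ((f x : comp 3 i) : PadicAlgCl 3)) h6
  obtain ⟨hfd, hle⟩ := CycP.degree_le hd i j' hi
  have hord : orderOf g₀ = 3 := orderOf_eq_prime hg₀3 hg₀1
  have hfin : finrank ℚ_[3] (comp 3 i) = 3 := by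
    have h6 := IntermediateField.finrank_fixedField_eq_card (F := ℚ_[3]) (E := comp 3 i)
      (Subgroup.zpowers g₀)
    have h7 := finrank_mul_finrank ℚ_[3]
      (IntermediateField.fixedField (Subgroup.zpowers g₀)) (comp 3 i)
    rw [h6, Nat.card_zpowers, hord] at h7
    have h8 : 0 < finrank ℚ_[3] (comp 3 i) := finrank_pos
    omega
  obtain ⟨x, hx0, hx⟩ := h5 (comp 3 i) g₀ hfin hg₀1
  -- every element is a norm
  obtain ⟨u, hu0, hu1, κ, hκ0, hκ⟩ := (h1 F Δ s σ j hQ hR).1 j' x hx0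
  obtain ⟨v, hv⟩ := hnorm (algebraMap F N u) (by rwa [Ne, map_eq_zero])
    (fun l _ hl i => hu1 l hl (i.comp (algebraMap F N))) (θ.commutes u)
  apply hx (⟨i v, hmem v⟩ * algebraMap ℚ_[3] (comp 3 i) κ)
  rw [map_mul, map_mul, AlgEquiv.commutes, AlgEquiv.commutes, hg₀i, hg₀i]
  apply Subtype.ext
  show (i v * algebraMap ℚ_[3] (PadicAlgCl 3) κ) * (i (θ v) * algebraMap ℚ_[3] (PadicAlgCl 3) κ) *
    (i (θ (θ v)) * algebraMap ℚ_[3] (PadicAlgCl 3) κ) = algebraMap ℚ_[3] (PadicAlgCl 3) x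
  have h6 : i v * i (θ v) * i (θ (θ v)) = algebraMap ℚ_[3] (PadicAlgCl 3) (j' u) := by
    rw [← hi, hv, map_mul, map_mul]
  rw [hκ, map_mul, map_pow, ← h6]
  ring

end BKDH
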