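import Pool.Agent.Lib.MP_7c08ba_nt.DH.Stmts

/-!
Module DB: density at `3`, second type. The residue vectors modulo `27` of the four pieces of
`TypeB` lie in bijective images of one explicit set with `9 * 9 * 18 * 2 = 2916` elements.
-/

namespace BKDH

namespace DBAux

theorem fv_actT {R : Type*} [CommRing R] (t : R) (v : Fin 4 → R) : actT (-t) (actT t v) = v := by
  funext i
  fin_cases i <;> simp [actT, fv] <;> ring

theorem swp_swp {R : Type*} [CommRing R] (v : Fin 4 → R) : swp (swp v) = v := by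
  funext i
  fin_cases i <;> simp [swp]

theorem red_actT (M : ℕ) (t : ℤ) (v : Fin 4 → ℤ) :
    red M (actT t v) = actT (t : ZMod M) (red M v) := by
  funext i
  fin_cases i <;> simp [red, actT, fv]

theorem red_swp (M : ℕ) (v : Fin 4 → ℤ) : red M (swp v) = swp (red M v) := by
  funext i
  fin_cases i <;> simp [red, swp]

/-- the parameters -/
def par : Finset (Fin 9 × Fin 9 × Fin 27 × Bool) :=
  (Finset.univ : Finset (Fin 9)) ×ˢ (Finset.univ : Finset (Fin 9)) ×ˢ
    ((Finset.univ : Finset (Fin 27)).filter (fun d => d.val % 3 ≠ 0)) ×ˢ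
    (Finset.univ : Finset Bool)

theorem card_par : par.card = 2916 := by
  have h : ((Finset.univ : Finset (Fin 27)).filter (fun d => d.val % 3 ≠ 0)).card = 18 := by
    decide
  rw [par, Finset.card_product, Finset.card_product, Finset.card_product, h]
  simp

/-- the vector attached to the parameters -/
def vec (x : Fin 9 × Fin 9 × Fin 27 × Bool) : Fin 4 → ZMod 27 :=
  ![(if x.2.2.2 then 1 else -1) * (3 * (((x.2.2.1.val : ℕ) : ZMod 27) - 3 * (x.1.val : ℕ))),
    3 * (x.1.val : ℕ), 3 * (x.2.1.val : ℕ), (x.2.2.1.val : ℕ)]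

/-- the residue classes of the first piece -/
def S0 : Finset (Fin 4 → ZMod 27) := par.image vec

theorem card_S0 : S0.card ≤ 2916 := by
  rw [← card_par]
  exact Finset.card_image_le

theorem cast_three (b : ℤ) : ((3 * b : ℤ) : ZMod 27) = 3 * ((b % 9).toNat : ZMod 27) := by
  have h1 : ((b % 9).toNat : ℤ) = b % 9 := Int.toNat_of_nonneg (by omega)
  have h2 : ((b % 9).toNat : ZMod 27) = ((b % 9 : ℤ) : ZMod 27) :=
    (Int.cast_natCast _).symm.trans (congrArg (Int.cast : ℤ → ZMod 27) h1)
  rw [h2]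
  have h3 : (3 : ZMod 27) * ((b % 9 : ℤ) : ZMod 27) = ((3 * (b % 9) : ℤ) : ZMod 27) := by
    push_cast; ring
  rw [h3, ZMod.intCast_eq_intCast_iff_dvd_sub]
  have := Int.emod_add_mul_ediv b 9
  refine ⟨-(b / 9), ?_⟩
  push_cast
  omega

theorem mem_S0 {v : Fin 4 → ℤ} (h : SB v) : red 27 v ∈ S0 := by
  obtain ⟨⟨a, ha⟩, ⟨b, hb⟩, ⟨c, hc⟩, hd, h0⟩ := h
  have hb9 : (b % 9).toNat < 9 := by omega
  have hc9 : (c % 9).toNat < 9 := by omega
  have hd27 : (v 3 % 27).toNat < 27 := by omega
  have hd' : (v 3 % 27).toNat % 3 ≠ 0 := by omega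
  have e1 : ((v 1 : ℤ) : ZMod 27) = 3 * ((b % 9).toNat : ZMod 27) := by rw [hb, cast_three]
  have e2 : ((v 2 : ℤ) : ZMod 27) = 3 * ((c % 9).toNat : ZMod 27) := by rw [hc, cast_three]
  have e3 : ((v 3 : ℤ) : ZMod 27) = ((v 3 % 27).toNat : ZMod 27) := by
    have h1 : ((v 3 % 27).toNat : ℤ) = v 3 % 27 := Int.toNat_of_nonneg (by omega)
    have h2 : ((v 3 % 27).toNat : ZMod 27) = ((v 3 % 27 : ℤ) : ZMod 27) :=
      (Int.cast_natCast _).symm.trans (congrArg (Int.cast : ℤ → ZMod 27) h1)
    rw [h2, ZMod.intCast_eq_intCast_iff_dvd_sub]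
    refine ⟨-(v 3 / 27), ?_⟩
    push_cast
    omega
  have key : ∀ (e : Bool), ((v 0 : ℤ) : ZMod 27) =
      (if e then 1 else -1) * (3 * (((v 3 : ℤ) : ZMod 27) - ((v 1 : ℤ) : ZMod 27))) →
      red 27 v ∈ S0 := by
    intro e he
    rw [S0, Finset.mem_image]
    refine ⟨(⟨(b % 9).toNat, hb9⟩, ⟨(c % 9).toNat, hc9⟩, ⟨(v 3 % 27).toNat, hd27⟩, e), ?_, ?_⟩
    · simp only [par, Finset.mem_product, Finset.mem_univ, Finset.mem_filter, true_and, and_true]
      exact hd'
    · funext i
      fin_cases i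
      · simp only [vec, red]
        change (if e = true then (1 : ZMod 27) else -1) * (3 * (((v 3 % 27).toNat : ZMod 27) -
          3 * ((b % 9).toNat : ZMod 27))) = ((v 0 : ℤ) : ZMod 27)
        rw [he, e3, e1]
      · exact e1.symm
      · exact e2.symm
      · exact e3.symm
  rcases h0 with h0 | h0
  · apply key true
    have : ((v 0 - 3 * (v 3 - v 1) : ℤ) : ZMod 27) = 0 := by
      rw [ZMod.intCast_zmod_eq_zero_iff_dvd]; exact_mod_cast h0
    push_cast at this
    simp only [if_true]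
    linear_combination this
  · apply key false
    have : ((v 0 + 3 * (v 3 - v 1) : ℤ) : ZMod 27) = 0 := by
      rw [ZMod.intCast_zmod_eq_zero_iff_dvd]; exact_mod_cast h0
    push_cast at this
    simp only [Bool.false_eq_true, if_false]
    linear_combination this

end DBAux

open DBAux

theorem stDB : StDB := by
  classical
  refine ⟨S0 ∪ S0.image (actT (-1)) ∪ S0.image (actT (-2)) ∪ S0.image swp, ?_, ?_⟩
  · have h0 := card_S0
    have h1 : (S0.image (actT (-1))).card ≤ S0.card := Finset.card_image_le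
    have h2 : (S0.image (actT (-2))).card ≤ S0.card := Finset.card_image_le
    have h3 : (S0.image swp).card ≤ S0.card := Finset.card_image_le
    have a1 := Finset.card_union_le (S0 ∪ S0.image (actT (-1)) ∪ S0.image (actT (-2)))
      (S0.image swp)
    have a2 := Finset.card_union_le (S0 ∪ S0.image (actT (-1))) (S0.image (actT (-2)))
    have a3 := Finset.card_union_le S0 (S0.image (actT (-1)))
    omega
  · intro v hv
    simp only [Finset.mem_union]
    rcases hv with h | h | h | h
    · exact Or.inl (Or.inl (Or.inl (mem_S0 h)))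
    · refine Or.inl (Or.inl (Or.inr (Finset.mem_image.mpr ⟨_, mem_S0 h, ?_⟩)))
      rw [red_actT, Int.cast_one, fv_actT]
    · refine Or.inl (Or.inr (Finset.mem_image.mpr ⟨_, mem_S0 h, ?_⟩))
      rw [red_actT]
      have : ((2 : ℤ) : ZMod 27) = 2 := by norm_cast
      rw [this, fv_actT]
    · refine Or.inr (Finset.mem_image.mpr ⟨_, mem_S0 h, ?_⟩)
      rw [red_swp, swp_swp]

end BKDH
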