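import Pool.Agent.Lib.MP_7c08ba_nt.DH.Link
import Pool.Agent.Lib.MP_7c08ba_nt.DH.Cub
import Pool.Agent.Lib.MP_7c08ba_nt.DH.Lam
import Pool.Agent.Lib.MP_7c08ba_nt.DH.Coord

/-!
The primes above `3` of a rigid imaginary quadratic field: generators of the powers of a prime.
-/

set_option autoImplicit false

noncomputable section

namespace BKDH

open BKGen BKGen.RT NumberField LamW
open scoped IntermediateField

namespace FC3

/-- The square of a unit of `ℤ_3` is `1` modulo `3`. -/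
theorem sq_sub_one {u : ℤ_[3]} (hu : ‖u‖ = 1) : ‖u ^ 2 - 1‖ < 1 := by
  have h1 : PadicInt.toZMod u ≠ 0 := by
    intro h
    have h2 : u ∈ RingHom.ker (PadicInt.toZMod (p := 3)) := h
    rw [PadicInt.ker_toZMod, PadicInt.maximalIdeal_eq_span_p] at h2
    have h3 := PadicInt.norm_lt_one_iff_dvd u
    rw [Ideal.mem_span_singleton] at h2
    have := h3.2 h2
    linarith
  have h2 : ∀ r : ZMod 3, r ≠ 0 → r ^ 2 - 1 = 0 := by decide
  have h3 : u ^ 2 - 1 ∈ RingHom.ker (PadicInt.toZMod (p := 3)) := by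
    rw [RingHom.mem_ker, map_sub, map_pow, map_one]
    exact h2 _ h1
  rw [PadicInt.ker_toZMod, PadicInt.maximalIdeal_eq_span_p, Ideal.mem_span_singleton] at h3
  exact (PadicInt.norm_lt_one_iff_dvd _).2 h3

/-- If `u⁴ = 1` modulo `9` then `u²` is a cube. -/
theorem sq_cube {u : ℚ_[3]} (hu : ‖u‖ = 1) (h : ‖u ^ 4 - 1‖ ≤ 1 / 9) :
    ∃ z : ℚ_[3], z ^ 3 = u ^ 2 := by
  set v : ℤ_[3] := ⟨u, hu.le⟩ with hv
  have hv1 : ‖v‖ = 1 := hu
  have h1 := sq_sub_one hv1
  have h2 : ‖v ^ 2 + 1‖ = 1 := by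
    have e : v ^ 2 + 1 = 2 + (v ^ 2 - 1) := by ring
    have h3 : ‖(2 : ℤ_[3])‖ = 1 := by
      have := norm_two
      exact_mod_cast this
    rw [e, IsUltrametricDist.norm_add_eq_max_of_norm_ne_norm (by rw [h3]; exact h1.ne'), h3]
    exact max_eq_left h1.le
  have h3 : ‖v ^ 2 - 1‖ ≤ 1 / 9 := by
    have e : v ^ 4 - 1 = (v ^ 2 - 1) * (v ^ 2 + 1) := by ring
    have h4 : ‖v ^ 4 - 1‖ ≤ 1 / 9 := by
      have : ‖v ^ 4 - 1‖ = ‖u ^ 4 - 1‖ := by
        rw [PadicInt.norm_def]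
        congr 1
      rw [this]
      exact h
    rw [e, norm_mul, h2, mul_one] at h4
    exact h4
  have h4 : v ^ 2 - 1 ∈ Ideal.span {((3 : ℕ) : ℤ_[3]) ^ 2} := by
    rw [← PadicInt.norm_le_pow_iff_mem_span_pow]
    refine h3.trans (le_of_eq ?_)
    norm_num
  rw [Ideal.mem_span_singleton] at h4
  obtain ⟨w, hw⟩ := h4
  obtain ⟨z, hz⟩ := Cub.one_add_nine w
  refine ⟨z, ?_⟩
  have h5 : z ^ 3 = v ^ 2 := by
    rw [hz]
    push_cast at hw
    linear_combination -hw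
  have h6 := congrArg (fun t : ℤ_[3] => (t : ℚ_[3])) h5
  simpa using h6

variable {F : Type} [Field F] [NumberField F] {Δ : ℕ} {s : F}

/-- Rigidity of `F` itself. -/
theorem rigidF (hf : IsFund Δ) (h3 : Δ % 3 = 2) (hR : RigidAll Δ) (hs : s ^ 2 = -(Δ : F))
    (hdeg : Module.finrank ℚ F = 2) (i : F →+* PadicAlgCl 3) : Rigid 3 F i := by
  obtain ⟨σ, j, hj⟩ := stQF F Δ s hf h3 hs hdeg
  have h3c : ((3 : ℕ) : AlgebraicClosure F) ≠ 0 := by norm_num
  have : NeZero ((3 : ℕ) : AlgebraicClosure F) := ⟨h3c⟩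
  obtain ⟨ζ, hζ⟩ : ∃ ζ : AlgebraicClosure F, IsPrimitiveRoot ζ 3 := by
    obtain ⟨ζ, hζ⟩ := IsAlgClosed.exists_root (Polynomial.cyclotomic 3 (AlgebraicClosure F)) (by
      rw [Polynomial.degree_cyclotomic]
      decide)
    exact ⟨ζ, (Polynomial.isRoot_cyclotomic_iff).1 hζ⟩
  let _ : Algebra F (PadicAlgCl 3) := i.toAlgebra
  let φ : AlgebraicClosure F →ₐ[F] PadicAlgCl 3 := IsAlgClosed.lift
  have hφ : ∀ a : F, φ (algebraMap F _ a) = i a := fun a => φ.commutes a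
  have hO := oddHyp hf h3 hR hs hdeg ζ hζ φ.toRingHom
  intro a ha hA hP
  have hfd : FiniteDimensional F (BKOdd.Kz ζ) := by
    have hint : IsIntegral F ζ := Algebra.IsIntegral.isIntegral ζ
    exact IntermediateField.adjoin.finiteDimensional hint
  -- the element in `K`
  obtain ⟨b, hb⟩ := hO.hrig (algebraMap F (BKOdd.Kz ζ) a) (by
      rw [Ne, map_eq_zero]; exact ha) (by
      intro l _ hl jl
      obtain ⟨b, hb⟩ := hA l hl (jl.comp (algebraMap F (BKOdd.Kz ζ)))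
      exact ⟨algebraMap F (BKOdd.Kz ζ) b, hb⟩) (by
      obtain ⟨β, hβ, hβ3⟩ := hP
      refine ⟨β, ?_, ?_⟩
      · unfold comp at hβ ⊢
        refine IntermediateField.adjoin.mono ℚ_[3] _ _ ?_ hβ
        rintro _ ⟨x, rfl⟩
        refine ⟨algebraMap F (BKOdd.Kz ζ) x, ?_⟩
        exact hφ x
      · rw [hβ3]
        exact (hφ a).symm)
  -- descent by the norm
  have hdegζ : Module.finrank F (BKOdd.Kz ζ) = 2 := by
    have h1 : Module.finrank F (BKOdd.Kz ζ) ≤ 2 := by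
      have hint : IsIntegral F ζ := Algebra.IsIntegral.isIntegral ζ
      rw [BKOdd.Kz, IntermediateField.adjoin.finrank hint]
      have hquad : ζ ^ 2 + ζ + 1 = 0 := by
        have h1 := three_add hζ
        have h4 : (4 : AlgebraicClosure F) * (ζ ^ 2 + ζ + 1) = 0 := by linear_combination h1
        exact (mul_eq_zero.mp h4).resolve_left (by norm_num)
      have h2 : minpoly F ζ ∣ (Polynomial.X ^ 2 + Polynomial.X + 1 : Polynomial F) := by
        apply minpoly.dvd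
        simpa using hquad
      have h3 : (Polynomial.X ^ 2 + Polynomial.X + 1 : Polynomial F).natDegree = 2 := by
        compute_degree!
      have h4 : (Polynomial.X ^ 2 + Polynomial.X + 1 : Polynomial F) ≠ 0 := by
        intro h0
        rw [h0] at h3
        simp at h3
      exact (Polynomial.natDegree_le_of_dvd h2 h4).trans h3.le
    have h2 : Module.finrank F (BKOdd.Kz ζ) ≠ 0 := Module.finrank_pos.ne'
    have h4 : Module.finrank F (BKOdd.Kz ζ) ≠ 1 := by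
      intro h1
      have hmem : ζ ∈ BKOdd.Kz ζ := IntermediateField.subset_adjoin F _ (Set.mem_singleton ζ)
      rw [IntermediateField.finrank_eq_one_iff] at h1
      rw [h1, IntermediateField.mem_bot] at hmem
      obtain ⟨x, hx⟩ := hmem
      refine no_sqrt j (2 * x + 1) ?_
      apply (algebraMap F (AlgebraicClosure F)).injective
      rw [map_pow, map_add, map_mul, hx, map_one, map_neg, map_ofNat, map_ofNat]
      exact three_add hζ
    omega
  have h5 : (Algebra.norm F b) ^ 3 = a ^ 2 := by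
    rw [← map_pow, hb, Algebra.norm_algebraMap, hdegζ]
  have h6 : Algebra.norm F b ≠ 0 := by
    intro h0
    rw [h0, zero_pow (by norm_num)] at h5
    exact ha (pow_eq_zero_iff (by norm_num) |>.1 h5.symm)
  refine ⟨a / Algebra.norm F b, ?_⟩
  rw [div_pow, h5]
  field_simp

/-- The prime ideal of a place contains an element of norm `< 1`; powers. -/
theorem norm_of_mem_sq {i : F →+* PadicAlgCl 3} {j : F →+* ℚ_[3]} (hij : ∀ x, i x = al (j x))
    {y : 𝓞 F} (hy : y ∈ (pr i) ^ 2) : ‖i (y : F)‖ ≤ 1 / 9 := by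
  have key : ∀ a : 𝓞 F, a ∈ pr i → ‖i (a : F)‖ ≤ 1 / 3 := by
    intro a ha
    rw [mem_pr] at ha
    rw [hij, norm_al] at ha ⊢
    have h1 : ‖j (a : F)‖ < (3 : ℝ) ^ (0 : ℤ) := by simpa using ha
    have h2 := (Padic.norm_le_pow_iff_norm_lt_pow_add_one (j (a : F)) (-1)).2 (by simpa using ha)
    refine h2.trans (le_of_eq ?_)
    norm_num
  rw [pow_two] at hy
  refine Submodule.mul_induction_on hy ?_ ?_
  · intro a ha b hb
    have h1 := key a ha
    have h2 := key b hb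
    have e : ((a * b : 𝓞 F) : F) = (a : F) * (b : F) := by simp
    rw [e, map_mul, norm_mul]
    have h3 := norm_nonneg (i (a : F))
    have h4 := norm_nonneg (i (b : F))
    nlinarith
  · intro a b ha hb
    have e : ((a + b : 𝓞 F) : F) = (a : F) + (b : F) := by simp
    rw [e, map_add]
    exact (IsUltrametricDist.norm_add_le_max _ _).trans (max_le ha hb)

/-- The two primes above `3`. -/
theorem split (hf : IsFund Δ) (h3 : Δ % 3 = 2) (hs : s ^ 2 = -(Δ : F))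
    (hdeg : Module.finrank ℚ F = 2) : ∃ P P' : Ideal (𝓞 F), P.IsPrime ∧ P'.IsPrime ∧ P ≠ P' ∧
      Ideal.absNorm P = 3 ∧ Ideal.absNorm P' = 3 := by
  obtain ⟨σ, j, hj⟩ := stQF F Δ s hf h3 hs hdeg
  obtain ⟨n, hn, hn1, hn2⟩ := exists_n hj
  have hPP := PP_mul hj hn
  set P := PP hj n with hP
  set P' := Ideal.map (cj σ) P with hP'
  have h3P : (3 : 𝓞 F) ∈ P := Ideal.subset_span (by simp)
  have hsP : sI hj - n ∈ P := Ideal.subset_span (by simp)
  have h3P' : (3 : 𝓞 F) ∈ P' := by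
    have e1 := Ideal.mem_map_of_mem (cj σ) h3P
    rwa [map_ofNat] at e1
  have hsP' : -sI hj - n ∈ P' := by
    have e1 := Ideal.mem_map_of_mem (cj σ) hsP
    rwa [map_sub, cj_sI hj, map_intCast] at e1
  -- the primes of the places
  have h3al : ∀ i : F →+* PadicAlgCl 3, (3 : 𝓞 F) ∈ pr i := by
    intro i
    rw [mem_pr]
    have : i ((3 : 𝓞 F) : F) = al 3 := by rw [coe_three, map_ofNat, map_ofNat]
    rw [this, norm_al, norm_three]
    norm_num
  have hle : P ≤ pr (al.comp j) := by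
    rw [hP, PP, Ideal.span_le]
    intro x hx
    simp only [Set.mem_insert_iff, Set.mem_singleton_iff] at hx
    rcases hx with rfl | rfl
    · exact h3al _
    · change ‖al (j (((sI hj - n : 𝓞 F)) : F))‖ < 1
      rw [norm_al]
      have e : ((sI hj - n : 𝓞 F) : F) = s - n := by
        change (s : F) - ((n : 𝓞 F) : F) = s - n
        rw [coe_int]
      rw [e, map_sub, map_intCast]
      exact hn1
  have hle' : P' ≤ pr ((al.comp j).comp σ) := by
    rw [hP', Ideal.map_le_iff_le_comap]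
    intro x hx
    have h1 := hle hx
    rw [mem_pr] at h1
    rw [Ideal.mem_comap, mem_pr]
    change ‖al (j (σ ((cj σ x : 𝓞 F) : F)))‖ < 1
    rw [coe_cj]
    have h2 : σ (σ (x : F)) = x := (stCoord F Δ s σ j hj).2.1 _
    rw [h2]
    exact h1
  have hne : P ≠ ⊤ := by
    intro h
    rw [h] at hle
    exact (pr_prime (al.comp j)).ne_top (top_le_iff.1 hle)
  have hne' : P' ≠ ⊤ := by
    intro h
    rw [h] at hle'
    exact (pr_prime ((al.comp j).comp σ)).ne_top (top_le_iff.1 hle')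
  have hN : Ideal.absNorm P * Ideal.absNorm P' = 9 := by
    rw [← map_mul, hPP, Ideal.absNorm_span_singleton]
    have e : (3 : 𝓞 F) = algebraMap ℤ (𝓞 F) 3 := by simp
    rw [e, Algebra.norm_algebraMap, RingOfIntegers.rank, hdeg]
    norm_num
  have h1 : Ideal.absNorm P ≠ 1 := fun h => hne (Ideal.absNorm_eq_one_iff.1 h)
  have h2 : Ideal.absNorm P' ≠ 1 := fun h => hne' (Ideal.absNorm_eq_one_iff.1 h)
  have hd : Ideal.absNorm P ∣ 3 ^ 2 := ⟨_, by rw [hN]; norm_num⟩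
  obtain ⟨k, hk, hk'⟩ := (Nat.dvd_prime_pow Nat.prime_three).1 hd
  have hPn : Ideal.absNorm P = 3 ∧ Ideal.absNorm P' = 3 := by
    interval_cases k
    · exact absurd hk' h1
    · rw [pow_one] at hk'
      refine ⟨hk', ?_⟩
      rw [hk'] at hN
      omega
    · rw [hk'] at hN
      exfalso
      apply h2
      omega
  refine ⟨P, P', ?_, ?_, ?_, hPn.1, hPn.2⟩
  · exact Ideal.isPrime_of_irreducible_absNorm (by rw [hPn.1]; exact Nat.prime_three)
  · exact Ideal.isPrime_of_irreducible_absNorm (by rw [hPn.2]; exact Nat.prime_three)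
  · intro he
    rw [← he] at hsP'
    have e1 : (n : 𝓞 F) * (n : 𝓞 F) = 1 := by
      have : ((n : 𝓞 F)) ^ 2 = 1 := by exact_mod_cast hn
      rw [← this]
      ring
    have h4 : (1 : 𝓞 F) ∈ P := by
      have h5 := Ideal.add_mem _ (Ideal.mul_mem_left _ (n : 𝓞 F) (Ideal.add_mem _ hsP hsP')) h3P
      have e2 : (n : 𝓞 F) * ((sI hj - n) + (-sI hj - n)) + 3 = 1 := by
        linear_combination -2 * e1
      rwa [e2] at h5
    exact hne ((Ideal.eq_top_iff_one _).2 h4)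

/-- If `P ^ m = (x)` and `x⁴ = 1` modulo `P' ²` then `x²` is a cube. -/
theorem pow_rig (hf : IsFund Δ) (h3 : Δ % 3 = 2) (hR : RigidAll Δ) (hs : s ^ 2 = -(Δ : F))
    (hdeg : Module.finrank ℚ F = 2) {P P' : Ideal (𝓞 F)} (hP : P.IsPrime) (hP' : P'.IsPrime)
    (hne : P ≠ P') (hn : Ideal.absNorm P = 3) (hn' : Ideal.absNorm P' = 3) {m : ℕ} (hm : m ≠ 0)
    {x : 𝓞 F} (hx : P ^ m = Ideal.span {x}) (hmem : x ^ 4 - 1 ∈ P' ^ 2) :
    ∃ c : 𝓞 F, c ^ 3 = x ^ 2 ∧ (Ideal.span {c}) ^ 3 = P ^ (2 * m) ∧ 3 ∣ m := by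
  obtain ⟨σ, j₀, hj₀⟩ := stQF F Δ s hf h3 hs hdeg
  have hP0 : P ≠ ⊥ := by
    rintro rfl
    rw [Ideal.absNorm_bot] at hn
    omega
  have hP'0 : P' ≠ ⊥ := by
    rintro rfl
    rw [Ideal.absNorm_bot] at hn'
    omega
  have h3P : ((3 : ℕ) : 𝓞 F) ∈ P := by
    have := Ideal.absNorm_mem P
    rwa [hn] at this
  have h3P' : ((3 : ℕ) : 𝓞 F) ∈ P' := by
    have := Ideal.absNorm_mem P'
    rwa [hn'] at this
  obtain ⟨i, hi⟩ := exists_emb P' hP'0 h3P'
  obtain ⟨j, hj⟩ := Vec.exists_place stCoord hj₀ i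
  have hx0 : x ≠ 0 := by
    rintro rfl
    rw [Ideal.span_singleton_zero] at hx
    exact hP0 (pow_eq_zero_iff hm |>.1 hx)
  have hxF : (x : F) ≠ 0 := by exact_mod_cast hx0
  -- the norm at `P'`
  have hxP' : x ∉ P' := by
    intro h
    have h1 : P ^ m ≤ P' := by
      rw [hx, Ideal.span_singleton_le_iff_mem]
      exact h
    have h2 : P ≤ P' := hP'.le_of_pow_le h1
    have h4 : P.IsMaximal := hP.isMaximal hP0
    exact hne (h4.eq_of_le hP'.ne_top h2)
  have hnx : ‖i (x : F)‖ = 1 := by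
    refine le_antisymm (norm_emb_le i x) ?_
    by_contra hcon
    push Not at hcon
    apply hxP'
    rw [hi]
    exact hcon
  have hnj : ‖j (x : F)‖ = 1 := by
    rw [hj] at hnx
    rw [← hnx]
    exact (norm_al _).symm
  have h4 : ‖(j (x : F)) ^ 4 - 1‖ ≤ 1 / 9 := by
    rw [hi] at hmem
    have h5 := norm_of_mem_sq hj hmem
    have e : ((x ^ 4 - 1 : 𝓞 F) : F) = (x : F) ^ 4 - 1 := by simp
    rw [e, hj, norm_al] at h5
    rwa [map_sub, map_pow, map_one] at h5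
  obtain ⟨z, hz⟩ := sq_cube hnj h4
  -- the square of `x` is a cube
  obtain ⟨b, hb⟩ := rigidF hf h3 hR hs hdeg i ((x : F) ^ 2) (pow_ne_zero _ hxF) (by
    intro l _ hl jl
    refine ⟨1, ?_⟩
    obtain ⟨y, hy⟩ : ∃ y : 𝓞 F, ((3 : ℕ) : 𝓞 F) ^ m = x * y := by
      have h5 : ((3 : ℕ) : 𝓞 F) ^ m ∈ P ^ m := Ideal.pow_mem_pow h3P m
      rw [hx, Ideal.mem_span_singleton] at h5
      exact h5
    have h6 : ‖jl ((((3 : ℕ) : 𝓞 F) ^ m : 𝓞 F) : F)‖ = 1 := by
      have e : ((((3 : ℕ) : 𝓞 F) ^ m : 𝓞 F) : F) = ((3 : ℕ) : F) ^ m := by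
        have e0 : (algebraMap (𝓞 F) F) (((3 : ℕ) : 𝓞 F) ^ m) = ((3 : ℕ) : F) ^ m := by
          rw [map_pow, map_natCast]
        exact e0
      rw [e, map_pow, map_natCast, norm_pow, norm_nat_ne Nat.prime_three hl, one_pow]
    rw [hy] at h6
    have e : ((x * y : 𝓞 F) : F) = (x : F) * (y : F) := by simp
    rw [e, map_mul, norm_mul] at h6
    have h7 := norm_emb_le jl x
    have h8 := norm_emb_le jl y
    have h9 := norm_nonneg (jl (x : F))
    have h10 := norm_nonneg (jl (y : F))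
    have h11 : ‖jl (x : F)‖ = 1 := by nlinarith
    rw [map_pow, norm_pow, h11, map_one, norm_one, one_pow, one_pow]) (by
    refine ⟨al z, ?_, ?_⟩
    · exact (comp 3 i).algebraMap_mem z
    · rw [← map_pow, hz, hj, map_pow j])
  -- integrality
  have hbint : IsIntegral ℤ b := by
    refine IsIntegral.of_pow (n := 3) (by norm_num) ?_
    rw [hb]
    exact (x.isIntegral_coe).pow 2
  obtain ⟨c, hc⟩ : ∃ c : 𝓞 F, (c : F) = b := ⟨⟨b, hbint⟩, rfl⟩
  have hc3 : c ^ 3 = x ^ 2 := by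
    apply RingOfIntegers.ext
    have e1 : ((c ^ 3 : 𝓞 F) : F) = (c : F) ^ 3 := by simp
    have e2 : ((x ^ 2 : 𝓞 F) : F) = (x : F) ^ 2 := by simp
    rw [e1, e2, hc, hb]
  have hI : (Ideal.span {c}) ^ 3 = P ^ (2 * m) := by
    rw [Ideal.span_singleton_pow, hc3, ← Ideal.span_singleton_pow, ← hx, ← pow_mul, mul_comm m 2]
  have hc0 : Ideal.span {c} ≠ (⊥ : Ideal (𝓞 F)) := by
    rw [Ne, Ideal.span_singleton_eq_bot]
    rintro rfl
    rw [zero_pow (by norm_num)] at hc3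
    exact hx0 (pow_eq_zero_iff (by norm_num) |>.1 hc3.symm)
  have hprime : Prime P := Ideal.prime_of_isPrime hP0 hP
  have h5 := congrArg (multiplicity P) hI
  rw [FiniteMultiplicity.multiplicity_pow hprime
    (FiniteMultiplicity.of_prime_left hprime hc0),
    multiplicity_pow_self hprime.ne_zero hprime.not_isUnit] at h5
  exact ⟨c, hc3, hI, by omega⟩

/-- The generator of `P ^ m`, `m` the order of the class of `P`. -/
theorem rig (hf : IsFund Δ) (h3 : Δ % 3 = 2) (hR : RigidAll Δ) (hs : s ^ 2 = -(Δ : F))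
    (hdeg : Module.finrank ℚ F = 2) (P P' : nonZeroDivisors (Ideal (𝓞 F)))
    (hP : (P : Ideal (𝓞 F)).IsPrime) (hP' : (P' : Ideal (𝓞 F)).IsPrime) (hne : P ≠ P')
    (hn : Ideal.absNorm (P : Ideal (𝓞 F)) = 3) (hn' : Ideal.absNorm (P' : Ideal (𝓞 F)) = 3)
    (x : 𝓞 F) (hx : (P : Ideal (𝓞 F)) ^ orderOf (ClassGroup.mk0 P) = Ideal.span {x}) :
    x ^ 4 - 1 ∉ (P' : Ideal (𝓞 F)) ^ 2 := by
  intro hmem
  set m := orderOf (ClassGroup.mk0 P) with hm
  have hm0 : 0 < m := orderOf_pos _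
  obtain ⟨c, hc3, hI, k, hk⟩ := pow_rig hf h3 hR hs hdeg hP hP' (fun h => hne (Subtype.ext h)) hn
    hn' hm0.ne' hx hmem
  have h1 : (Ideal.span {c}) ^ 3 = ((P : Ideal (𝓞 F)) ^ (2 * k)) ^ 3 := by
    rw [hI, ← pow_mul, hk]
    congr 1
    ring
  have h2 : Ideal.span {c} = (P : Ideal (𝓞 F)) ^ (2 * k) := by
    apply dvd_antisymm
    · exact (UniqueFactorizationMonoid.pow_dvd_pow_iff_dvd (by norm_num : (3 : ℕ) ≠ 0)).1 h1.dvd
    · exact (UniqueFactorizationMonoid.pow_dvd_pow_iff_dvd (by norm_num : (3 : ℕ) ≠ 0)).1 h1.symm.dvd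
  have h4 : (ClassGroup.mk0 P) ^ (2 * k) = 1 := by
    rw [← map_pow, ClassGroup.mk0_eq_one_iff]
    refine ⟨c, ?_⟩
    rw [Ideal.submodule_span_eq, h2]
    rfl
  have h5 : m ∣ 2 * k := orderOf_dvd_of_pow_eq_one h4
  have h6 := Nat.le_of_dvd (by omega) h5
  omega

end FC3

end BKDH
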