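import Pool.Agent.Lib.MP_7c08ba_nt.DH.Final

/-!
Among the imaginary quadratic fields of ODD discriminant in which `3` splits, at least half are
rigid at `3` (variant of `Half.lean`).
-/

set_option autoImplicit false

namespace BKDH

open Finset

/-- The density at `2` of the forms with odd discriminant. -/
def StDTwoO : Prop :=
  ∃ S : Finset (Fin 4 → ZMod 4), S.card ≤ 96 ∧ ∀ v : Fin 4 → ℤ, HD v % 4 = 3 → red 4 v ∈ S

/-- The number of fields with odd discriminant. -/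
def StNFO : Prop :=
  ∀ ε : ℝ, 0 < ε → ∃ X₀ : ℕ, ∀ X : ℕ, X₀ ≤ X →
    (3 / (4 * Real.pi ^ 2) - ε) * X ≤
      ({Δ : ℕ | Δ ≤ X ∧ IsFund Δ ∧ Δ % 3 = 2 ∧ Δ % 4 = 3}.ncard : ℝ)

namespace OddH

/-- The condition at `2` on residue classes modulo `4`. -/
def condO (w : Fin 4 → ZMod 4) : Prop := HB w = 1 ∨ HB w = 3

instance : DecidablePred condO := fun w => by unfold condO; infer_instance

theorem card_condO : ((Finset.univ : Finset (Fin 4 → ZMod 4)).filter condO).card ≤ 96 := by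
  decide +kernel

end OddH

open OddH in
theorem stDTwoO : StDTwoO := by
  refine ⟨(Finset.univ : Finset (Fin 4 → ZMod 4)).filter condO, card_condO, ?_⟩
  intro v hv
  rw [Finset.mem_filter]
  refine ⟨Finset.mem_univ _, ?_⟩
  unfold condO
  rw [HB_red]
  have hD : HD v = 4 * (HA v * HC v) - HB v ^ 2 := by unfold HD; ring
  rw [hD] at hv
  generalize HA v * HC v = P at hv
  generalize HB v = B at hv ⊢
  obtain ⟨m, j, hj0, hj4, hB⟩ : ∃ m j : ℤ, 0 ≤ j ∧ j < 4 ∧ B = 4 * m + j :=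
    ⟨B / 4, B % 4, by omega, by omega, by omega⟩
  have hcases : j = 0 ∨ j = 1 ∨ j = 2 ∨ j = 3 := by omega
  rcases hcases with h | h | h | h
  · subst h
    have hB2 : B ^ 2 = 16 * m ^ 2 := by rw [hB]; ring
    rw [hB2] at hv
    omega
  · left
    simpa using cast4 B 1 (by omega)
  · subst h
    have hB2 : B ^ 2 = 16 * (m ^ 2 + m) + 4 := by rw [hB]; ring
    rw [hB2] at hv
    omega
  · right
    simpa using cast4 B 3 (by omega)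

/-- The general count: forms with a fundamental condition outside `3` and a condition modulo `k`,
where `k` is a power of `3`. -/
theorem naCountO (h1 : StUp) (h2 : StDTwoO) (h4 : StCRT) (h5 : StProd) (h6 : StEuler)
    (k c : ℕ) (hk : k = 9 ∨ k = 27) (S : Finset (Fin 4 → ZMod k)) (hS : S.card ≤ c)
    (ε : ℝ) (hε : 0 < ε) :
    ∃ X₀ : ℕ, ∀ X : ℕ, X₀ ≤ X →
      {v : Fin 4 → ℤ | Red v ∧ HD v ≤ (X : ℤ) ∧ HD v % 4 = 3 ∧ red k v ∈ S ∧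
        ∀ p : ℕ, p.Prime → 5 ≤ p → ¬ (p : ℤ) ^ 2 ∣ HD v}.Finite ∧
      ({v : Fin 4 → ℤ | Red v ∧ HD v ≤ (X : ℤ) ∧ HD v % 4 = 3 ∧ red k v ∈ S ∧
        ∀ p : ℕ, p.Prime → 5 ≤ p → ¬ (p : ℤ) ^ 2 ∣ HD v}.ncard : ℝ) ≤
        (81 / (16 * Real.pi ^ 2) * (c : ℝ) / (k : ℝ) ^ 4 + ε) * X := by
  have hpi : 0 < Real.pi := Real.pi_pos
  have hpi3 : 3 < Real.pi := Real.pi_gt_three
  have hk0 : 0 < k := by rcases hk with h | h <;> omega
  have hkR : (0 : ℝ) < k := by exact_mod_cast hk0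
  obtain ⟨S2, hS2, hS2'⟩ := h2
  -- constants
  set κ : ℝ := Real.pi ^ 2 / 6 * (3 / 8) * ((c : ℝ) / (k : ℝ) ^ 4) with hκ
  have hκ0 : 0 ≤ κ := by positivity
  obtain ⟨e, he0, he1, he⟩ : ∃ e : ℝ, 0 < e ∧ e ≤ 1 ∧ κ * (3 * e) ≤ ε / 2 := by
    refine ⟨min 1 (ε / (6 * (κ + 1))), lt_min one_pos (by positivity), min_le_left _ _, ?_⟩
    have h : min 1 (ε / (6 * (κ + 1))) ≤ ε / (6 * (κ + 1)) := min_le_right _ _
    have h' : κ * (3 * min 1 (ε / (6 * (κ + 1)))) ≤ κ * (3 * (ε / (6 * (κ + 1)))) := by gcongr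
    refine h'.trans ?_
    have : κ * (3 * (ε / (6 * (κ + 1)))) = (κ / (κ + 1)) * (ε / 2) := by
      field_simp
      ring
    rw [this]
    have h3 : κ / (κ + 1) ≤ 1 := by
      rw [div_le_one (by positivity)]
      linarith
    nlinarith
  obtain ⟨Q, hQ⟩ := h6.2 e he0
  have hQ' := h6.1 Q
  have h5Q := h5 Q
  generalize hN : (∏ p ∈ primes5 Q, p ^ 2) = N at h5Q
  obtain ⟨U5, hU5, hU5'⟩ := h5Q
  set P : ℝ := ∏ p ∈ primes5 Q, (1 - 1 / (p : ℝ) ^ 2) with hP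
  have hmem : ∀ p ∈ primes5 Q, p.Prime ∧ 5 ≤ p := by
    intro p hp
    rw [primes5, Finset.mem_filter, Finset.mem_Icc] at hp
    exact ⟨hp.2, hp.1.1⟩
  have hN0 : 0 < N := by
    rw [← hN]
    exact Finset.prod_pos fun p hp => pow_pos (hmem p hp).1.pos 2
  have hNR : (0 : ℝ) < N := by exact_mod_cast hN0
  have hprod : ∏ p ∈ primes5 Q, ((p : ℝ) ^ 8 * (1 - 1 / (p : ℝ) ^ 2) ^ 2) = (N : ℝ) ^ 4 * P ^ 2 := by
    have hN8 : (N : ℝ) ^ 4 = ∏ p ∈ primes5 Q, (p : ℝ) ^ 8 := by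
      rw [← hN, Nat.cast_prod, ← Finset.prod_pow]
      refine Finset.prod_congr rfl fun p _ => ?_
      push_cast
      ring
    rw [hN8, hP, ← Finset.prod_pow, ← Finset.prod_mul_distrib]
  rw [hprod] at hU5
  -- coprimality
  have hc1 : Nat.Coprime 4 k := by rcases hk with h | h <;> subst h <;> decide
  have hc2 : Nat.Coprime (4 * k) N := by
    rw [← hN]
    refine Nat.Coprime.prod_right fun p hp => ?_
    refine Nat.Coprime.pow_right 2 ?_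
    obtain ⟨hpp, hp5⟩ := hmem p hp
    rw [Nat.coprime_comm, Nat.Prime.coprime_iff_not_dvd hpp]
    intro hd
    have h108 : p ∣ 108 := by
      refine hd.trans ?_
      rcases hk with h | h <;> subst h <;> decide
    have h6 : p ∣ 2 ^ 2 * 3 ^ 3 := by simpa using h108
    rcases (Nat.Prime.dvd_mul hpp).1 h6 with h | h
    · have := Nat.le_of_dvd (by norm_num) (hpp.dvd_of_dvd_pow h)
      omega
    · have := Nat.le_of_dvd (by norm_num) (hpp.dvd_of_dvd_pow h)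
      omega
  obtain ⟨U1, hU1, hU1'⟩ := h4 4 k (by norm_num) hk0 hc1 S2 S
  obtain ⟨U, hU, hU'⟩ := h4 (4 * k) N (by positivity) hN0 hc2 U1 U5
  obtain ⟨X₀, hX₀⟩ := h1.2 (4 * k * N) (by positivity) U (ε / 2) (by positivity)
  have hcard : (U.card : ℝ) ≤ 96 * c * ((N : ℝ) ^ 4 * P ^ 2) := by
    have a1 : (U.card : ℝ) ≤ (U1.card : ℝ) * U5.card := by exact_mod_cast hU
    have a2 : (U1.card : ℝ) ≤ (S2.card : ℝ) * S.card := by exact_mod_cast hU1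
    have a3 : (S2.card : ℝ) ≤ 96 := by exact_mod_cast hS2
    have a4 : (S.card : ℝ) ≤ c := by exact_mod_cast hS
    have a5 : (U1.card : ℝ) ≤ 96 * c :=
      a2.trans (mul_le_mul a3 a4 (by positivity) (by positivity))
    exact a1.trans (mul_le_mul a5 hU5 (by positivity) (by positivity))
  have hPsq : P ^ 2 ≤ 81 / Real.pi ^ 4 + 3 * e := by
    have b1 : 0 < 9 / Real.pi ^ 2 := by positivity
    have b2 : 9 / Real.pi ^ 2 ≤ 1 := by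
      rw [div_le_one (by positivity)]
      nlinarith
    have b3 : P ^ 2 ≤ (9 / Real.pi ^ 2 + e) ^ 2 :=
      pow_le_pow_left₀ (b1.le.trans hQ') hQ 2
    refine b3.trans ?_
    have b4 : (9 / Real.pi ^ 2 + e) ^ 2 = 81 / Real.pi ^ 4 + (2 * (9 / Real.pi ^ 2) * e + e * e) := by
      field_simp
      ring
    rw [b4]
    nlinarith
  have hmain : Real.pi ^ 2 / 6 * (U.card : ℝ) / ((4 * k * N : ℕ) : ℝ) ^ 4 + ε / 2 ≤
      81 / (16 * Real.pi ^ 2) * (c : ℝ) / (k : ℝ) ^ 4 + ε := by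
    have d1 : Real.pi ^ 2 / 6 * (U.card : ℝ) / ((4 * k * N : ℕ) : ℝ) ^ 4 ≤
        Real.pi ^ 2 / 6 * (96 * c * ((N : ℝ) ^ 4 * P ^ 2)) / ((4 * k * N : ℕ) : ℝ) ^ 4 := by
      gcongr
    have d2 : Real.pi ^ 2 / 6 * (96 * c * ((N : ℝ) ^ 4 * P ^ 2)) / ((4 * k * N : ℕ) : ℝ) ^ 4 =
        κ * P ^ 2 := by
      rw [hκ]
      push_cast
      field_simp
      ring
    have d3 : κ * P ^ 2 ≤ κ * (81 / Real.pi ^ 4 + 3 * e) := by gcongr
    have d4 : κ * (81 / Real.pi ^ 4) = 81 / (16 * Real.pi ^ 2) * (c : ℝ) / (k : ℝ) ^ 4 := by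
      rw [hκ]
      field_simp
      ring
    have d5 : κ * (81 / Real.pi ^ 4 + 3 * e) = κ * (81 / Real.pi ^ 4) + κ * (3 * e) := by ring
    rw [d2] at d1
    rw [d5, d4] at d3
    linarith
  refine ⟨X₀, fun X hX => ?_⟩
  have hsub : {v : Fin 4 → ℤ | Red v ∧ HD v ≤ (X : ℤ) ∧ HD v % 4 = 3 ∧ red k v ∈ S ∧
        ∀ p : ℕ, p.Prime → 5 ≤ p → ¬ (p : ℤ) ^ 2 ∣ HD v} ⊆
      {v : Fin 4 → ℤ | Red v ∧ HD v ≤ (X : ℤ) ∧ red (4 * k * N) v ∈ U} := by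
    rintro v ⟨hr, hX, hF, hkS, hp⟩
    exact ⟨hr, hX, hU' v (hU1' v (hS2' v hF) hkS)
      (hU5' v fun p hp' => hp p (hmem p hp').1 (hmem p hp').2)⟩
  have hfin : {v : Fin 4 → ℤ | Red v ∧ HD v ≤ (X : ℤ) ∧ red (4 * k * N) v ∈ U}.Finite := by
    refine (h1.1 (X : ℝ)).subset ?_
    rintro v ⟨hr, hX, -⟩
    exact ⟨hr, by exact_mod_cast hX⟩
  refine ⟨hfin.subset hsub, ?_⟩
  have hle : ({v : Fin 4 → ℤ | Red v ∧ HD v ≤ (X : ℤ) ∧ HD v % 4 = 3 ∧ red k v ∈ S ∧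
        ∀ p : ℕ, p.Prime → 5 ≤ p → ¬ (p : ℤ) ^ 2 ∣ HD v}.ncard : ℝ) ≤
      ({v : Fin 4 → ℤ | Red v ∧ HD v ≤ (X : ℤ) ∧ red (4 * k * N) v ∈ U}.ncard : ℝ) := by
    exact_mod_cast Set.ncard_le_ncard hsub hfin
  refine (hle.trans (hX₀ X hX)).trans ?_
  exact mul_le_mul_of_nonneg_right hmain (by positivity)


namespace OddH

open NF (count_mul count_step shift_mod shift_mul)

/-- The condition modulo `12`. -/
def B (x : ℕ) : Prop := x % 4 = 3 ∧ x % 3 = 2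

instance : DecidablePred B := fun x => by unfold B; infer_instance

/-- The sifted set. -/
def S (s : Finset ℕ) (x : ℕ) : Prop := B x ∧ ∀ p ∈ s, ¬ p ^ 2 ∣ x

theorem coprime_12 {a : ℕ} (ha : a.Prime) (h5 : 5 ≤ a) : Nat.Coprime 12 a := by
  rw [Nat.coprime_comm, Nat.Prime.coprime_iff_not_dvd ha]
  intro h
  have h1 : a ∣ 2 ^ 2 * 3 := h
  rcases (Nat.Prime.dvd_mul ha).1 h1 with h2 | h2
  · have := Nat.le_of_dvd (by norm_num) (ha.dvd_of_dvd_pow h2)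
    omega
  · have := Nat.le_of_dvd (by norm_num) h2
    omega

theorem S_period (s : Finset ℕ) (x : ℕ) : S s (x + 12 * ∏ p ∈ s, p ^ 2) ↔ S s x := by
  unfold S
  refine and_congr ?_ (forall₂_congr fun p hp => not_congr ?_)
  · unfold B
    generalize (∏ p ∈ s, p ^ 2) = t
    have h1 : (x + 12 * t) % 4 = x % 4 := by omega
    have h3 : (x + 12 * t) % 3 = x % 3 := by omega
    rw [h1, h3]
  · exact (Nat.dvd_add_left (Dvd.dvd.mul_left (Finset.dvd_prod_of_mem (fun p => p ^ 2) hp) 12))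

open Classical in
theorem count_S (s : Finset ℕ) (hs : ∀ p ∈ s, p.Prime ∧ 5 ≤ p) :
    1 * ∏ p ∈ s, (p ^ 2 - 1) ≤ ((range (12 * ∏ p ∈ s, p ^ 2)).filter (S s)).card := by
  induction s using Finset.induction_on with
  | empty =>
    have h1 : (range 12).filter (S ∅) = (range 12).filter B := by
      ext x
      simp [S]
    rw [Finset.prod_empty, Finset.prod_empty, mul_one, mul_one, h1]
    have h2 : ((range 12).filter B).card = 1 := by decide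
    exact h2.ge
  | insert a s ha ih =>
    have ih' := ih fun p hp => hs p (Finset.mem_insert_of_mem hp)
    obtain ⟨hap, ha5⟩ := hs a (Finset.mem_insert_self a s)
    rw [Finset.prod_insert ha, Finset.prod_insert ha]
    have hm : 0 < 12 * ∏ p ∈ s, p ^ 2 := by
      refine Nat.mul_pos (by norm_num) (Finset.prod_pos fun p hp => ?_)
      have := (hs p (Finset.mem_insert_of_mem hp)).2
      positivity
    have hc : (12 * ∏ p ∈ s, p ^ 2).Coprime (a ^ 2) := by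
      refine Nat.Coprime.pow_right 2 (Nat.Coprime.mul_left (coprime_12 hap ha5) ?_)
      refine Nat.Coprime.prod_left fun p hp => Nat.Coprime.pow_left 2 ?_
      rw [Nat.coprime_primes (hs p (Finset.mem_insert_of_mem hp)).1 hap]
      rintro rfl
      exact ha hp
    have h1 := count_step hm (S_period s) hc
    have h2 : (range (12 * (a ^ 2 * ∏ p ∈ s, p ^ 2))).filter (S (insert a s)) =
        (range (12 * (∏ p ∈ s, p ^ 2) * a ^ 2)).filter fun x => S s x ∧ ¬ a ^ 2 ∣ x := by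
      rw [show 12 * (a ^ 2 * ∏ p ∈ s, p ^ 2) = 12 * (∏ p ∈ s, p ^ 2) * a ^ 2 by ring]
      refine Finset.filter_congr fun x _ => ?_
      unfold S
      rw [Finset.forall_mem_insert]
      tauto
    rw [h2]
    refine le_trans ?_ h1
    calc 1 * ((a ^ 2 - 1) * ∏ p ∈ s, (p ^ 2 - 1))
        = (a ^ 2 - 1) * (1 * ∏ p ∈ s, (p ^ 2 - 1)) := by ring
      _ ≤ _ := Nat.mul_le_mul_left _ ih'

open Classical in
/-- The sifted set in reals. -/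
theorem count_real (s : Finset ℕ) (hs : ∀ p ∈ s, p.Prime ∧ 5 ≤ p) :
    ((12 * ∏ p ∈ s, p ^ 2 : ℕ) : ℝ) / 12 * ∏ p ∈ s, (1 - 1 / (p : ℝ) ^ 2) ≤
      (((range (12 * ∏ p ∈ s, p ^ 2)).filter (S s)).card : ℝ) := by
  have h1 : ((1 * ∏ p ∈ s, (p ^ 2 - 1) : ℕ) : ℝ) ≤
      (((range (12 * ∏ p ∈ s, p ^ 2)).filter (S s)).card : ℝ) := by
    exact_mod_cast count_S s hs
  refine le_trans (le_of_eq ?_) h1
  push_cast
  rw [show (12 * ∏ p ∈ s, (p : ℝ) ^ 2) / 12 * ∏ p ∈ s, (1 - 1 / (p : ℝ) ^ 2) =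
    1 * ((∏ p ∈ s, (p : ℝ) ^ 2) * ∏ p ∈ s, (1 - 1 / (p : ℝ) ^ 2)) by ring, ← Finset.prod_mul_distrib]
  congr 1
  refine Finset.prod_congr rfl fun p hp => ?_
  have h5 := (hs p hp).2
  have hp0 : (p : ℝ) ≠ 0 := by
    have : p ≠ 0 := by omega
    exact_mod_cast this
  rw [Nat.cast_sub (Nat.one_le_pow _ _ (by omega))]
  push_cast
  field_simp

open Classical in
/-- Lower bound for the number of elements of the sifted set up to `X`. -/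
theorem count_X (s : Finset ℕ) (hs : ∀ p ∈ s, p.Prime ∧ 5 ≤ p) (c : ℝ) (hc0 : 0 ≤ c) (hc1 : c ≤ 1)
    (hc : c ≤ 1 / 12 * ∏ p ∈ s, (1 - 1 / (p : ℝ) ^ 2)) (X : ℕ) :
    c * X - (12 * ∏ p ∈ s, p ^ 2 : ℕ) ≤ (((range (X + 1)).filter (S s)).card : ℝ) := by
  set m : ℕ := 12 * ∏ p ∈ s, p ^ 2 with hm
  have hm0 : 0 < m := by
    refine Nat.mul_pos (by norm_num) (Finset.prod_pos fun p hp => ?_)
    have := (hs p hp).2
    positivity
  have h1 := count_real s hs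
  rw [← hm] at h1
  have h2 := count_mul (S_period s) ((X + 1) / m)
  rw [← hm] at h2
  have h3 : ((range ((X + 1) / m * m)).filter (S s)).card ≤
      ((range (X + 1)).filter (S s)).card := by
    refine Finset.card_le_card (Finset.filter_subset_filter _ ?_)
    exact Finset.range_subset_range.2 (Nat.div_mul_le_self _ _)
  have h4 : (X : ℝ) - m ≤ ((X + 1) / m : ℕ) * m := by
    have h5 := Nat.lt_div_mul_add (a := X + 1) hm0
    have h6 : ((X + 1 : ℕ) : ℝ) < (((X + 1) / m * m + m : ℕ) : ℝ) := by exact_mod_cast h5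
    push_cast at h6
    linarith
  have h7 : (m : ℝ) * c ≤ (((range m).filter (S s)).card : ℝ) := by
    refine le_trans ?_ h1
    calc (m : ℝ) * c ≤ m * (1 / 12 * ∏ p ∈ s, (1 - 1 / (p : ℝ) ^ 2)) :=
          mul_le_mul_of_nonneg_left hc (Nat.cast_nonneg _)
      _ = _ := by ring
  have h8 : ((((X + 1) / m : ℕ) : ℝ) * (m * c)) ≤
      (((range (X + 1)).filter (S s)).card : ℝ) := by
    calc ((((X + 1) / m : ℕ) : ℝ) * (m * c))
        ≤ (((X + 1) / m : ℕ) : ℝ) * (((range m).filter (S s)).card : ℝ) :=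
          mul_le_mul_of_nonneg_left h7 (Nat.cast_nonneg _)
      _ = ((((X + 1) / m * ((range m).filter (S s)).card : ℕ)) : ℝ) := by push_cast; ring
      _ = (((range ((X + 1) / m * m)).filter (S s)).card : ℝ) := by rw [h2]
      _ ≤ _ := by exact_mod_cast h3
  have hmr : (0 : ℝ) ≤ m := Nat.cast_nonneg _
  nlinarith [mul_le_mul_of_nonneg_right h4 hc0, mul_le_mul_of_nonneg_left hc1 hmr]

theorem not_fund {Q x : ℕ} (hx : S (primes5 Q) x)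
    (hf : ¬ (IsFund x ∧ x % 3 = 2 ∧ x % 4 = 3)) :
    ∃ n, Q < n ∧ n ≤ x ∧ 0 < x ∧ n ^ 2 ∣ x := by
  obtain ⟨⟨h1, h2⟩, h3⟩ := hx
  have h4 : F2 (x : ℤ) := by
    unfold F2
    omega
  have h5 : ¬ ∀ p : ℕ, p.Prime → p ≠ 2 → ¬ p ^ 2 ∣ x := fun h => hf ⟨⟨h4, h⟩, h2, h1⟩
  push Not at h5
  obtain ⟨p, hp, hp2, hpx⟩ := h5
  have hx0 : 0 < x := by omega
  have hp3 : p ≠ 3 := by
    rintro rfl
    have : 3 ∣ x := dvd_trans (by norm_num) hpx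
    omega
  have hp5 : 5 ≤ p := by
    have h6 := hp.two_le
    have h7 : p ≠ 4 := by rintro rfl; exact absurd hp (by norm_num)
    omega
  refine ⟨p, ?_, ?_, hx0, hpx⟩
  · by_contra h
    refine h3 p ?_ hpx
    unfold primes5
    rw [Finset.mem_filter, Finset.mem_Icc]
    exact ⟨⟨hp5, not_lt.1 h⟩, hp⟩
  · have h6 := Nat.le_of_dvd hx0 hpx
    have h7 : p ≤ p ^ 2 := Nat.le_self_pow two_ne_zero p
    omega

end OddH

open OddH in
open Classical in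
/-- The number of fields. -/
theorem stNFO (h : StEuler) : StNFO := by
  intro ε hε
  have hπ : (0 : ℝ) < Real.pi ^ 2 := by positivity
  obtain ⟨Q, hQ⟩ := exists_nat_gt (2 / ε)
  have hQ0 : (0 : ℝ) < Q := lt_trans (by positivity) hQ
  have hQ0' : Q ≠ 0 := by
    rintro rfl
    simp at hQ0
  have hs : ∀ p ∈ primes5 Q, p.Prime ∧ 5 ≤ p := by
    intro p hp
    unfold primes5 at hp
    rw [Finset.mem_filter, Finset.mem_Icc] at hp
    exact ⟨hp.2, hp.1.1⟩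
  set m : ℕ := 12 * ∏ p ∈ primes5 Q, p ^ 2 with hm
  obtain ⟨X₀, hX₀⟩ := exists_nat_gt (2 * m / ε)
  refine ⟨X₀, fun X hX => ?_⟩
  have hc1 : 3 / (4 * Real.pi ^ 2) ≤ 1 := by
    rw [div_le_one (by positivity)]
    nlinarith [Real.pi_gt_three]
  have hc : 3 / (4 * Real.pi ^ 2) ≤ 1 / 12 * ∏ p ∈ primes5 Q, (1 - 1 / (p : ℝ) ^ 2) := by
    have h1 := h.1 Q
    have h2 : 3 / (4 * Real.pi ^ 2) = 1 / 12 * (9 / Real.pi ^ 2) := by
      field_simp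
      norm_num
    rw [h2]
    linarith
  have h1 := count_X (primes5 Q) hs (3 / (4 * Real.pi ^ 2)) (by positivity) hc1 hc X
  rw [← hm] at h1
  -- the set
  have hfin : {Δ : ℕ | Δ ≤ X ∧ IsFund Δ ∧ Δ % 3 = 2 ∧ Δ % 4 = 3}.Finite :=
    (Set.finite_Iic X).subset fun Δ hΔ => hΔ.1
  have hsub : (range (X + 1)).filter (S (primes5 Q)) ⊆
      hfin.toFinset ∪ (Ioc Q X).biUnion fun n => (Ioc 0 X).filter fun x => n ^ 2 ∣ x := by
    intro x hx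
    rw [Finset.mem_filter, Finset.mem_range] at hx
    rw [Finset.mem_union]
    by_cases hf : IsFund x ∧ x % 3 = 2 ∧ x % 4 = 3
    · left
      rw [Set.Finite.mem_toFinset]
      exact ⟨by omega, hf⟩
    · right
      obtain ⟨n, hn1, hn2, hx0, hn3⟩ := not_fund hx.2 hf
      rw [Finset.mem_biUnion]
      refine ⟨n, Finset.mem_Ioc.2 ⟨hn1, by omega⟩, ?_⟩
      rw [Finset.mem_filter, Finset.mem_Ioc]
      exact ⟨⟨hx0, by omega⟩, hn3⟩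
  have h2 : (((range (X + 1)).filter (S (primes5 Q))).card : ℝ) ≤
      ({Δ : ℕ | Δ ≤ X ∧ IsFund Δ ∧ Δ % 3 = 2 ∧ Δ % 4 = 3}.ncard : ℝ) + X * (Q : ℝ)⁻¹ := by
    have h3 := (Finset.card_le_card hsub).trans (Finset.card_union_le _ _)
    rw [← Set.ncard_eq_toFinset_card _ hfin] at h3
    have h4 : (((Ioc Q X).biUnion fun n => (Ioc 0 X).filter fun x => n ^ 2 ∣ x).card : ℝ) ≤
        X * (Q : ℝ)⁻¹ := by
      have h5 : (((Ioc Q X).biUnion fun n => (Ioc 0 X).filter fun x => n ^ 2 ∣ x).card : ℝ) ≤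
          ∑ n ∈ Ioc Q X, (((Ioc 0 X).filter fun x => n ^ 2 ∣ x).card : ℝ) := by
        exact_mod_cast Finset.card_biUnion_le
      refine h5.trans ?_
      have h6 : ∀ n ∈ Ioc Q X, (((Ioc 0 X).filter fun x => n ^ 2 ∣ x).card : ℝ) ≤
          X * ((n : ℝ) ^ 2)⁻¹ := by
        intro n _
        rw [Nat.Ioc_filter_dvd_card_eq_div]
        refine (Nat.cast_div_le).trans ?_
        rw [div_eq_mul_inv]
        push_cast
        exact le_rfl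
      refine (Finset.sum_le_sum h6).trans ?_
      rw [← Finset.mul_sum]
      refine mul_le_mul_of_nonneg_left ?_ (Nat.cast_nonneg _)
      by_cases hQX : Q ≤ X
      · refine (sum_Ioc_inv_sq_le_sub hQ0' hQX).trans ?_
        have : (0 : ℝ) ≤ (X : ℝ)⁻¹ := by positivity
        linarith
      · rw [Finset.Ioc_eq_empty (by omega), Finset.sum_empty]
        positivity
    have h7 : (((range (X + 1)).filter (S (primes5 Q))).card : ℝ) ≤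
        (({Δ : ℕ | Δ ≤ X ∧ IsFund Δ ∧ Δ % 3 = 2 ∧ Δ % 4 = 3}.ncard +
          ((Ioc Q X).biUnion fun n => (Ioc 0 X).filter fun x => n ^ 2 ∣ x).card : ℕ) : ℝ) := by
      exact_mod_cast h3
    push_cast at h7
    linarith
  have hXX : (X₀ : ℝ) ≤ X := by exact_mod_cast hX
  have h8 : (m : ℝ) ≤ ε / 2 * X := by
    have h9 : 2 * (m : ℝ) / ε ≤ X := hX₀.le.trans hXX
    rw [div_le_iff₀ hε] at h9
    linarith
  have h10 : (X : ℝ) * (Q : ℝ)⁻¹ ≤ ε / 2 * X := by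
    have h11 : (Q : ℝ)⁻¹ ≤ ε / 2 := by
      rw [inv_le_comm₀ hQ0 (by positivity)]
      refine le_trans (le_of_eq ?_) hQ.le
      field_simp
    have hX0 : (0 : ℝ) ≤ X := Nat.cast_nonneg _
    nlinarith
  have h12 : (3 / (4 * Real.pi ^ 2) - ε) * X =
      3 / (4 * Real.pi ^ 2) * X - ε / 2 * X - ε / 2 * X := by ring
  rw [h12]
  linarith


namespace OddH

/-- The forms of type `T` with odd discriminant: the count. -/
theorem countO (T : (Fin 4 → ℤ) → Prop) (k c a : ℕ) (hk : k = 9 ∨ k = 27)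
    (ha : ∀ Δ : ℕ, IsFund Δ → ∀ p : ℕ, p.Prime → 5 ≤ p → ¬ (p : ℤ) ^ 2 ∣ (a : ℤ) * Δ)
    (hT : ∃ S : Finset (Fin 4 → ZMod k), S.card ≤ c ∧ ∀ v : Fin 4 → ℤ, T v → red k v ∈ S)
    (ε : ℝ) (hε : 0 < ε) :
    ∃ X₀ : ℕ, ∀ X : ℕ, X₀ ≤ X →
      {v : Fin 4 → ℤ | Red v ∧ (T v ∧ HD v % 4 = 3) ∧
        ∃ Δ : ℕ, Δ ≤ X ∧ IsFund Δ ∧ HD v = a * Δ}.Finite ∧
      ({v : Fin 4 → ℤ | Red v ∧ (T v ∧ HD v % 4 = 3) ∧
        ∃ Δ : ℕ, Δ ≤ X ∧ IsFund Δ ∧ HD v = a * Δ}.ncard : ℝ) ≤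
        (81 / (16 * Real.pi ^ 2) * (c : ℝ) / (k : ℝ) ^ 4 + ε) * (a * X) := by
  obtain ⟨SA, hSA, hSA'⟩ := hT
  obtain ⟨X₀, hX₀⟩ := naCountO up stDTwoO stCRT prod stEuler k c hk SA hSA ε hε
  refine ⟨X₀, fun X hX => ?_⟩
  rcases Nat.eq_zero_or_pos a with ha0 | ha0
  · subst ha0
    have hemp : {v : Fin 4 → ℤ | Red v ∧ (T v ∧ HD v % 4 = 3) ∧
        ∃ Δ : ℕ, Δ ≤ X ∧ IsFund Δ ∧ HD v = ((0 : ℕ) : ℤ) * Δ} = ∅ := by
      ext v
      simp only [Set.mem_ofPred_eq, Set.mem_empty_iff_false, iff_false]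
      rintro ⟨-, ⟨-, h4⟩, Δ, -, -, hD⟩
      rw [hD] at h4
      simp at h4
    rw [hemp]
    simp
  obtain ⟨hfin, hle⟩ := hX₀ (a * X) (hX.trans (Nat.le_mul_of_pos_left X ha0))
  have hsub : {v : Fin 4 → ℤ | Red v ∧ (T v ∧ HD v % 4 = 3) ∧
        ∃ Δ : ℕ, Δ ≤ X ∧ IsFund Δ ∧ HD v = a * Δ} ⊆
      {v : Fin 4 → ℤ | Red v ∧ HD v ≤ ((a * X : ℕ) : ℤ) ∧ HD v % 4 = 3 ∧ red k v ∈ SA ∧
        ∀ p : ℕ, p.Prime → 5 ≤ p → ¬ (p : ℤ) ^ 2 ∣ HD v} := by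
    rintro v ⟨hr, ⟨hA, h4⟩, Δ, hΔ, hF, hD⟩
    refine ⟨hr, ?_, h4, hSA' v hA, ?_⟩
    · rw [hD]
      exact_mod_cast Nat.mul_le_mul_left a hΔ
    · intro p hp hp5 hd
      rw [hD] at hd
      exact ha Δ hF p hp hp5 hd
  refine ⟨hfin.subset hsub, ?_⟩
  have hle2 := Set.ncard_le_ncard hsub hfin
  refine le_trans (by exact_mod_cast hle2) (hle.trans (le_of_eq ?_))
  push_cast
  ring

end OddH

theorem OddH.arith {c e X ε N S' B A' B' : ℝ} (hA : A' ≤ (1 / 2 * c + e / 4) * X)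
    (hB : B' ≤ (c + e / 4) * X) (hbad : 4 * B ≤ A' + B') (hF : (3 / 4 * c - e) * X ≤ N)
    (hs : S' + B = N) (k2 : e * X ≤ ε * N) (k3 : 0 ≤ e * X) : (1 / 2 - ε) * N ≤ S' := by
  have h1 : A' ≤ 1 / 2 * (c * X) + 1 / 4 * (e * X) := by
    refine hA.trans (le_of_eq ?_)
    ring
  have h2 : B' ≤ c * X + 1 / 4 * (e * X) := by
    refine hB.trans (le_of_eq ?_)
    ring
  have h3 : 3 / 4 * (c * X) - e * X ≤ N := by
    refine le_trans (le_of_eq ?_) hF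
    ring
  have h4 : (1 / 2 - ε) * N = 1 / 2 * N - ε * N := by ring
  rw [h4]
  linarith

open OddH in
/-- Among the fundamental discriminants `-Δ` with `Δ` odd and `Δ = 2` modulo `3`, at least half
are such that `ℚ(√-Δ, √-3)` is rigid at all places above `3`. -/
theorem halfOdd : ∀ ε : ℝ, 0 < ε → ∃ X₀ : ℕ, ∀ X : ℕ, X₀ ≤ X →
    (1 / 2 - ε) * ({Δ : ℕ | Δ ≤ X ∧ IsFund Δ ∧ Δ % 3 = 2 ∧ Δ % 4 = 3}.ncard : ℝ) ≤
      ({Δ : ℕ | Δ ≤ X ∧ IsFund Δ ∧ Δ % 3 = 2 ∧ Δ % 4 = 3 ∧ RigidAll Δ}.ncard : ℝ) := by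
  intro ε hε
  have hpi := Real.pi_pos
  set P : ℝ := Real.pi ^ 2 with hP
  have hP0 : 0 < P := by positivity
  set c : ℝ := 1 / P with hc
  have hc0 : 0 < c := by positivity
  obtain ⟨e, he0, he1, he2⟩ : ∃ e : ℝ, 0 < e ∧ e ≤ 3 / 8 * c ∧ e ≤ ε * (3 / 8 * c) :=
    ⟨min (3 / 8 * c) (ε * (3 / 8 * c)), lt_min (by positivity) (by positivity),
      min_le_left _ _, min_le_right _ _⟩
  obtain ⟨X₁, h1⟩ := countO TypeA 9 648 1 (Or.inl rfl)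
    (fun Δ hF p hp hp5 hd => hF.2 p hp (by omega) (by simpa using (by exact_mod_cast hd :
      p ^ 2 ∣ 1 * Δ))) stDA (e / 4) (by positivity)
  obtain ⟨X₂, h2⟩ := countO TypeB 27 11664 9 (Or.inr rfl)
    (fun Δ hF p hp hp5 hd => NBx.not_sq_dvd hp hp5 hF (by exact_mod_cast hd)) stDB (e / 36)
    (by positivity)
  obtain ⟨X₃, h3⟩ := stNFO stEuler e he0
  refine ⟨max X₁ (max X₂ X₃), fun X hX => ?_⟩
  obtain ⟨fA, hA⟩ := h1 X ((le_max_left _ _).trans hX)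
  obtain ⟨fB, hB⟩ := h2 X ((le_max_left _ _).trans ((le_max_right _ _).trans hX))
  have hF := h3 X ((le_max_right _ _).trans ((le_max_right _ _).trans hX))
  have hfA := four_count (fun v => TypeA v ∧ HD v % 4 = 3)
    (fun v hv => ⟨typeA_bneg hv.1, by rw [HD_bneg]; exact hv.2⟩)
    (fun v hv => ⟨typeA_balt hv.1, by rw [HD_balt]; exact hv.2⟩) 1 one_pos X fA
  have hfB := four_count (fun v => TypeB v ∧ HD v % 4 = 3)
    (fun v hv => ⟨typeB_bneg hv.1, by rw [HD_bneg]; exact hv.2⟩)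
    (fun v hv => ⟨typeB_balt hv.1, by rw [HD_balt]; exact hv.2⟩) 9 (by norm_num) X fB
  set S : Set ℕ := {Δ : ℕ | Δ ≤ X ∧ IsFund Δ ∧ Δ % 3 = 2 ∧ Δ % 4 = 3} with hS
  have hSf : S.Finite := (Set.finite_Iic X).subset fun Δ h => h.1
  have hsplit := Set.ncard_inter_add_ncard_sdiff_eq_ncard S {Δ : ℕ | RigidAll Δ} hSf
  have eG : S ∩ {Δ : ℕ | RigidAll Δ} =
      {Δ : ℕ | Δ ≤ X ∧ IsFund Δ ∧ Δ % 3 = 2 ∧ Δ % 4 = 3 ∧ RigidAll Δ} := by
    ext Δ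
    simp only [hS, Set.mem_inter_iff, Set.mem_ofPred_eq]
    tauto
  rw [eG] at hsplit
  have hsub : S \ {Δ : ℕ | RigidAll Δ} ⊆
      {Δ : ℕ | Δ ≤ X ∧ IsFund Δ ∧ ∃ v : Fin 4 → ℤ, Red v ∧ v 3 ≠ 0 ∧
        (TypeA v ∧ HD v % 4 = 3) ∧ HD v = ((1 : ℕ) : ℤ) * Δ} ∪
      {Δ : ℕ | Δ ≤ X ∧ IsFund Δ ∧ ∃ v : Fin 4 → ℤ, Red v ∧ v 3 ≠ 0 ∧
        (TypeB v ∧ HD v % 4 = 3) ∧ HD v = ((9 : ℕ) : ℤ) * Δ} := by
    rintro Δ ⟨⟨hX, hF, hm, h4⟩, hb⟩
    rcases form_of_bad vec upK stQF hF hm hb with ⟨v, a1, a2, a3, a4⟩ | ⟨v, a1, a2, a3, a4⟩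
    · exact Or.inl ⟨hX, hF, v, a1, a2, ⟨a3, by rw [a4]; omega⟩, by rw [a4]; simp⟩
    · exact Or.inr ⟨hX, hF, v, a1, a2, ⟨a3, by rw [a4]; omega⟩, by rw [a4]; simp⟩
  have hfin : ({Δ : ℕ | Δ ≤ X ∧ IsFund Δ ∧ ∃ v : Fin 4 → ℤ, Red v ∧ v 3 ≠ 0 ∧
        (TypeA v ∧ HD v % 4 = 3) ∧ HD v = ((1 : ℕ) : ℤ) * Δ} ∪
      {Δ : ℕ | Δ ≤ X ∧ IsFund Δ ∧ ∃ v : Fin 4 → ℤ, Red v ∧ v 3 ≠ 0 ∧
        (TypeB v ∧ HD v % 4 = 3) ∧ HD v = ((9 : ℕ) : ℤ) * Δ}).Finite := by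
    refine (Set.finite_Iic X).subset ?_
    rintro Δ (h | h)
    · exact h.1
    · exact h.1
  have h5 := Set.ncard_le_ncard hsub hfin
  have h6 := Set.ncard_union_le
    {Δ : ℕ | Δ ≤ X ∧ IsFund Δ ∧ ∃ v : Fin 4 → ℤ, Red v ∧ v 3 ≠ 0 ∧
        (TypeA v ∧ HD v % 4 = 3) ∧ HD v = ((1 : ℕ) : ℤ) * Δ}
    {Δ : ℕ | Δ ≤ X ∧ IsFund Δ ∧ ∃ v : Fin 4 → ℤ, Red v ∧ v 3 ≠ 0 ∧
        (TypeB v ∧ HD v % 4 = 3) ∧ HD v = ((9 : ℕ) : ℤ) * Δ}
  have hbad : 4 * (S \ {Δ : ℕ | RigidAll Δ}).ncard ≤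
      {v : Fin 4 → ℤ | Red v ∧ (TypeA v ∧ HD v % 4 = 3) ∧
        ∃ Δ : ℕ, Δ ≤ X ∧ IsFund Δ ∧ HD v = ((1 : ℕ) : ℤ) * Δ}.ncard +
      {v : Fin 4 → ℤ | Red v ∧ (TypeB v ∧ HD v % 4 = 3) ∧
        ∃ Δ : ℕ, Δ ≤ X ∧ IsFund Δ ∧ HD v = ((9 : ℕ) : ℤ) * Δ}.ncard := by
    omega
  have hbad' : (4 : ℝ) * ((S \ {Δ : ℕ | RigidAll Δ}).ncard : ℝ) ≤
      ({v : Fin 4 → ℤ | Red v ∧ (TypeA v ∧ HD v % 4 = 3) ∧
        ∃ Δ : ℕ, Δ ≤ X ∧ IsFund Δ ∧ HD v = ((1 : ℕ) : ℤ) * Δ}.ncard : ℝ) +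
      ({v : Fin 4 → ℤ | Red v ∧ (TypeB v ∧ HD v % 4 = 3) ∧
        ∃ Δ : ℕ, Δ ≤ X ∧ IsFund Δ ∧ HD v = ((9 : ℕ) : ℤ) * Δ}.ncard : ℝ) := by
    exact_mod_cast hbad
  have hsplit' : ({Δ : ℕ | Δ ≤ X ∧ IsFund Δ ∧ Δ % 3 = 2 ∧ Δ % 4 = 3 ∧ RigidAll Δ}.ncard : ℝ) +
      ((S \ {Δ : ℕ | RigidAll Δ}).ncard : ℝ) = (S.ncard : ℝ) := by
    exact_mod_cast hsplit
  have hX0 : (0 : ℝ) ≤ X := Nat.cast_nonneg X
  have eA : (81 / (16 * P) * ((648 : ℕ) : ℝ) / ((9 : ℕ) : ℝ) ^ 4 + e / 4) * (((1 : ℕ) : ℝ) * X) =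
      (1 / 2 * c + e / 4) * X := by
    rw [hc]
    push_cast
    field_simp
    ring
  have eB : (81 / (16 * P) * ((11664 : ℕ) : ℝ) / ((27 : ℕ) : ℝ) ^ 4 + e / 36) *
      (((9 : ℕ) : ℝ) * X) = (c + e / 4) * X := by
    rw [hc]
    push_cast
    field_simp
    ring
  have eF : 3 / (4 * P) = 3 / 4 * c := by rw [hc]; ring
  rw [eA] at hA
  rw [eB] at hB
  rw [eF] at hF
  have k1 : 3 / 8 * c * X ≤ S.ncard := by
    refine le_trans ?_ hF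
    apply mul_le_mul_of_nonneg_right _ hX0
    linarith
  have k2 : e * X ≤ ε * S.ncard := by
    calc e * X ≤ ε * (3 / 8 * c) * X := mul_le_mul_of_nonneg_right he2 hX0
      _ = ε * (3 / 8 * c * X) := by ring
      _ ≤ ε * S.ncard := mul_le_mul_of_nonneg_left k1 hε.le
  have k3 : 0 ≤ e * X := mul_nonneg he0.le hX0
  exact OddH.arith hA hB hbad' hF hsplit' k2 k3

end BKDH
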