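import Pool.Agent.Lib.MP_7c5fb9_nt.DH.Loc

/-!
At least one sixth of the imaginary quadratic fields in which `3` splits are rigid at `3` and have
class number prime to `3`.
-/

set_option autoImplicit false

namespace BKDH

namespace Six

open Loc in
/-- The number of `Δ` with a form of Hessian discriminant `-Δ`. -/
theorem form_count {M N : ℕ} {R S : Finset ℕ} (h2 : LocTwo M R) (h3 : LocThree N S) (ε : ℝ)
    (hε : 0 < ε) :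
    ∃ X₀ : ℕ, ∀ X : ℕ, X₀ ≤ X →
      ({Δ : ℕ | Δ ≤ X ∧ IsFund Δ ∧ Δ % M ∈ R ∧ Δ % N ∈ S ∧
        ∃ v : Fin 4 → ℤ, Red v ∧ v 3 ≠ 0 ∧ HD v = Δ}.ncard : ℝ) ≤
        (9 * R.card * S.card / (2 * M * N * Real.pi ^ 2) + ε) * X := by
  obtain ⟨hM, hN, -⟩ := pos_of h2 h3
  obtain ⟨k, hk, T, hT, hT'⟩ := h2.2.2.2
  obtain ⟨l, hl, T3, hT3, hT3'⟩ := h3.2.2.2
  have hk0 : 0 < k := Nat.pos_of_dvd_of_pos hk (by norm_num)
  have hl0 : 0 < l := Nat.pos_of_dvd_of_pos hl (by norm_num)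
  obtain ⟨U, hU, hU'⟩ := stCRT k l hk0 hl0
    (Nat.Coprime.coprime_dvd_left hk (Nat.Coprime.coprime_dvd_right hl (by norm_num))) T T3
  obtain ⟨X₀, hX₀⟩ := genCount up stCRT prod stEuler (k * l) U.card (Nat.mul_pos hk0 hl0) (by
      intro p hp h5
      refine dvd_range (a := 4) (b := 2) hp h5 ?_
      exact Nat.mul_dvd_mul (by simpa using hk) (by simpa using hl)) U le_rfl (4 * ε)
      (by positivity)
  refine ⟨X₀, fun X hX => ?_⟩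
  obtain ⟨hfin, hle⟩ := hX₀ X hX
  set P : (Fin 4 → ℤ) → Prop := fun v => (∃ r ∈ R, HD v % M = r) ∧ ∃ r ∈ S, HD v % N = r with hP
  have hsub : {v : Fin 4 → ℤ | Red v ∧ P v ∧ ∃ Δ : ℕ, Δ ≤ X ∧ IsFund Δ ∧
      HD v = (1 : ℕ) * Δ} ⊆
      {v : Fin 4 → ℤ | Red v ∧ HD v ≤ (X : ℤ) ∧ red (k * l) v ∈ U ∧
        ∀ p : ℕ, p.Prime → 5 ≤ p → ¬ (p : ℤ) ^ 2 ∣ HD v} := by
    rintro v ⟨hr, ⟨⟨r, hrR, hr1⟩, ⟨t, htS, ht1⟩⟩, Δ, hΔ, hF, hD⟩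
    rw [Nat.cast_one, one_mul] at hD
    refine ⟨hr, by rw [hD]; exact_mod_cast hΔ, hU' v (hT' v r hrR hr1) (hT3' v t htS ht1), ?_⟩
    intro p hp hp5 hd
    rw [hD] at hd
    exact hF.2 p hp (by omega) (by exact_mod_cast hd)
  have hfin' := hfin.subset hsub
  have h4 := four_count P (fun v hv => by
      simp only [hP, HD_bneg]; exact hv) (fun v hv => by
      simp only [hP, HD_balt]; exact hv) 1 one_pos X hfin'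
  have hbadsub : {Δ : ℕ | Δ ≤ X ∧ IsFund Δ ∧ Δ % M ∈ R ∧ Δ % N ∈ S ∧
        ∃ v : Fin 4 → ℤ, Red v ∧ v 3 ≠ 0 ∧ HD v = Δ} ⊆
      {Δ : ℕ | Δ ≤ X ∧ IsFund Δ ∧ ∃ v : Fin 4 → ℤ, Red v ∧ v 3 ≠ 0 ∧ P v ∧
        HD v = (1 : ℕ) * Δ} := by
    rintro Δ ⟨hX, hF, hMr, hNr, v, hv, hv3, hD⟩
    refine ⟨hX, hF, v, hv, hv3, ⟨⟨_, hMr, ?_⟩, ⟨_, hNr, ?_⟩⟩, by rw [hD]; simp⟩
    · rw [hD]; push_cast; rfl
    · rw [hD]; push_cast; rfl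
  have hbadfin : {Δ : ℕ | Δ ≤ X ∧ IsFund Δ ∧ ∃ v : Fin 4 → ℤ, Red v ∧ v 3 ≠ 0 ∧ P v ∧
        HD v = (1 : ℕ) * Δ}.Finite := (Set.finite_Iic X).subset fun Δ h => h.1
  have h5 := Set.ncard_le_ncard hbadsub hbadfin
  have h6 := Set.ncard_le_ncard hsub hfin
  have h7 : 4 * {Δ : ℕ | Δ ≤ X ∧ IsFund Δ ∧ Δ % M ∈ R ∧ Δ % N ∈ S ∧
        ∃ v : Fin 4 → ℤ, Red v ∧ v 3 ≠ 0 ∧ HD v = Δ}.ncard ≤
      {v : Fin 4 → ℤ | Red v ∧ HD v ≤ (X : ℤ) ∧ red (k * l) v ∈ U ∧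
        ∀ p : ℕ, p.Prime → 5 ≤ p → ¬ (p : ℤ) ^ 2 ∣ HD v}.ncard :=
    (Nat.mul_le_mul_left 4 h5).trans (h4.trans h6)
  have h7' : (4 : ℝ) * ({Δ : ℕ | Δ ≤ X ∧ IsFund Δ ∧ Δ % M ∈ R ∧ Δ % N ∈ S ∧
        ∃ v : Fin 4 → ℤ, Red v ∧ v 3 ≠ 0 ∧ HD v = Δ}.ncard : ℝ) ≤ _ :=
    le_trans (by exact_mod_cast h7) hle
  have hMr : (0 : ℝ) < M := by exact_mod_cast hM
  have hNr : (0 : ℝ) < N := by exact_mod_cast hN
  have hkr : (0 : ℝ) < k := by exact_mod_cast hk0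
  have hlr : (0 : ℝ) < l := by exact_mod_cast hl0
  have hpi := Real.pi_pos
  have h8 : 2 * M * (9 * N) * U.card ≤ 3 * k ^ 4 * R.card * (8 * l ^ 4 * S.card) := by
    calc 2 * M * (9 * N) * U.card ≤ 2 * M * (9 * N) * (T.card * T3.card) :=
          Nat.mul_le_mul_left _ hU
      _ = (2 * M * T.card) * (9 * N * T3.card) := by ring
      _ ≤ _ := Nat.mul_le_mul hT hT3
  have h9 : (2 : ℝ) * M * (9 * N) * U.card ≤
      3 * (k : ℝ) ^ 4 * R.card * (8 * (l : ℝ) ^ 4 * S.card) := by exact_mod_cast h8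
  have h10 : 27 / (2 * Real.pi ^ 2) * (U.card : ℝ) / ((k * l : ℕ) : ℝ) ^ 4 ≤
      18 * R.card * S.card / (M * N * Real.pi ^ 2) := by
    have e1 : (U.card : ℝ) ≤ 4 * (k : ℝ) ^ 4 * (l : ℝ) ^ 4 * R.card * S.card / (3 * M * N) := by
      rw [le_div_iff₀ (by positivity)]
      linarith
    have e2 : 27 / (2 * Real.pi ^ 2) * (U.card : ℝ) / ((k * l : ℕ) : ℝ) ^ 4 ≤
        27 / (2 * Real.pi ^ 2) * (4 * (k : ℝ) ^ 4 * (l : ℝ) ^ 4 * R.card * S.card /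
          (3 * M * N)) / ((k * l : ℕ) : ℝ) ^ 4 := by
      gcongr
    refine e2.trans (le_of_eq ?_)
    push_cast
    field_simp
    ring
  have hX0 : (0 : ℝ) ≤ X := Nat.cast_nonneg X
  have h11 : (4 : ℝ) * ({Δ : ℕ | Δ ≤ X ∧ IsFund Δ ∧ Δ % M ∈ R ∧ Δ % N ∈ S ∧
        ∃ v : Fin 4 → ℤ, Red v ∧ v 3 ≠ 0 ∧ HD v = Δ}.ncard : ℝ) ≤
      (18 * R.card * S.card / (M * N * Real.pi ^ 2) + 4 * ε) * X := by
    refine h7'.trans ?_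
    gcongr
  have h12 : (18 * R.card * S.card / (M * N * Real.pi ^ 2) + 4 * ε) * (X : ℝ) =
      4 * ((9 * R.card * S.card / (2 * M * N * Real.pi ^ 2) + ε) * X) := by
    field_simp
    ring
  rw [h12] at h11
  linarith

theorem mem_two {Δ : ℕ} (h : IsFund Δ) : Δ % 16 ∈ ({3, 4, 7, 8, 11, 15} : Finset ℕ) := by
  have h2 := h.1
  unfold F2 at h2
  simp only [Finset.mem_insert, Finset.mem_singleton]
  omega

end Six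

open Six in
/-- The count of the bad fields: class number divisible by `3`, or not rigid. -/
theorem six_bad (ε : ℝ) (hε : 0 < ε) :
    ∃ X₀ : ℕ, ∀ X : ℕ, X₀ ≤ X →
      ({Δ : ℕ | Δ ≤ X ∧ IsFund Δ ∧ Δ % 3 = 2 ∧ ¬ (RigidAll Δ ∧ NoThree Δ)}.ncard : ℝ) ≤
        (15 / 16 * (1 / Real.pi ^ 2) + ε) * X := by
  obtain ⟨X₁, h1⟩ := form_count locTwo_all (locThree_unr (r := 2) (Or.inr rfl)) (ε / 2)
    (by positivity)
  obtain ⟨X₂, h2⟩ := nB (2 * ε) (by positivity)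
  refine ⟨max X₁ X₂, fun X hX => ?_⟩
  have hC := h1 X ((le_max_left _ _).trans hX)
  obtain ⟨fB, hB⟩ := h2 X ((le_max_right _ _).trans hX)
  have h4 := four_count TypeB (fun v => typeB_bneg) (fun v => typeB_balt) 9 (by norm_num) X
    (by simpa using fB)
  simp only [Nat.cast_ofNat] at h4
  set A : Set ℕ := {Δ : ℕ | Δ ≤ X ∧ IsFund Δ ∧ Δ % 16 ∈ ({3, 4, 7, 8, 11, 15} : Finset ℕ) ∧
    Δ % 3 ∈ ({2} : Finset ℕ) ∧ ∃ v : Fin 4 → ℤ, Red v ∧ v 3 ≠ 0 ∧ HD v = Δ} with hA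
  set B : Set ℕ := {Δ : ℕ | Δ ≤ X ∧ IsFund Δ ∧ ∃ v : Fin 4 → ℤ, Red v ∧ v 3 ≠ 0 ∧ TypeB v ∧
      HD v = 9 * Δ} with hBdef
  have hsub : {Δ : ℕ | Δ ≤ X ∧ IsFund Δ ∧ Δ % 3 = 2 ∧ ¬ (RigidAll Δ ∧ NoThree Δ)} ⊆ A ∪ B := by
    rintro Δ ⟨hX, hF, hm, hb⟩
    by_cases hR : RigidAll Δ
    · have hno : ¬ NoThree Δ := fun h => hb ⟨hR, h⟩
      exact Or.inl ⟨hX, hF, mem_two hF, by simpa using hm, form_of_not_noThree hF hno⟩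
    · rcases form_of_bad vec upK stQF hF hm hR with ⟨v, hv, hv3, -, hD⟩ | h
      · exact Or.inl ⟨hX, hF, mem_two hF, by simpa using hm, v, hv, hv3, hD⟩
      · exact Or.inr ⟨hX, hF, h⟩
  have hfin : (A ∪ B).Finite := by
    refine (Set.finite_Iic X).subset ?_
    rintro Δ (h | h)
    · exact h.1
    · exact h.1
  have h5 := (Set.ncard_le_ncard hsub hfin).trans (Set.ncard_union_le A B)
  have h5' : ({Δ : ℕ | Δ ≤ X ∧ IsFund Δ ∧ Δ % 3 = 2 ∧ ¬ (RigidAll Δ ∧ NoThree Δ)}.ncard : ℝ) ≤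
      (A.ncard : ℝ) + (B.ncard : ℝ) := by exact_mod_cast h5
  have h4' : (4 : ℝ) * (B.ncard : ℝ) ≤
      ({v : Fin 4 → ℤ | Red v ∧ TypeB v ∧ ∃ Δ : ℕ, Δ ≤ X ∧ IsFund Δ ∧ HD v = 9 * Δ}.ncard : ℝ) := by
    exact_mod_cast h4
  have hc2 : ({3, 4, 7, 8, 11, 15} : Finset ℕ).card = 6 := by decide
  rw [hc2, Finset.card_singleton] at hC
  have hpi := Real.pi_pos
  have e1 : (9 * ((6 : ℕ) : ℝ) * ((1 : ℕ) : ℝ) / (2 * ((16 : ℕ) : ℝ) * ((3 : ℕ) : ℝ) * Real.pi ^ 2) +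
      ε / 2) * (X : ℝ) = 9 / 16 * (1 / Real.pi ^ 2) * X + ε / 2 * X := by
    push_cast
    field_simp
    ring
  rw [e1] at hC
  have e2 : (3 / (2 * Real.pi ^ 2) + 2 * ε) * (X : ℝ) =
      4 * (3 / 8 * (1 / Real.pi ^ 2) * X + ε / 2 * X) := by
    field_simp
    ring
  rw [e2] at hB
  have h6 : (B.ncard : ℝ) ≤ 3 / 8 * (1 / Real.pi ^ 2) * X + ε / 2 * X := by linarith
  calc _ ≤ (A.ncard : ℝ) + (B.ncard : ℝ) := h5'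
    _ ≤ (9 / 16 * (1 / Real.pi ^ 2) * X + ε / 2 * X) +
        (3 / 8 * (1 / Real.pi ^ 2) * X + ε / 2 * X) := add_le_add hC h6
    _ = _ := by ring

/-- **At least one sixth** of the imaginary quadratic fields in which `3` splits are rigid at `3`
and have class number prime to `3`. -/
theorem sixth (ε : ℝ) (hε : 0 < ε) :
    ∃ X₀ : ℕ, ∀ X : ℕ, X₀ ≤ X →
      (1 / 6 - ε) * ({Δ : ℕ | Δ ≤ X ∧ IsFund Δ ∧ Δ % 3 = 2}.ncard : ℝ) ≤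
        ({Δ : ℕ | Δ ≤ X ∧ IsFund Δ ∧ Δ % 3 = 2 ∧ RigidAll Δ ∧ NoThree Δ}.ncard : ℝ) := by
  have hpi := Real.pi_pos
  set c : ℝ := 1 / Real.pi ^ 2 with hc
  have hc0 : 0 < c := by positivity
  obtain ⟨e, he0, he1, he2⟩ : ∃ e : ℝ, 0 < e ∧ e ≤ 9 / 16 * c ∧ 2 * e ≤ ε * (9 / 16 * c) :=
    ⟨min (9 / 16 * c) (ε * (9 / 16 * c) / 2), lt_min (by positivity) (by positivity),
      min_le_left _ _, by
        have := min_le_right (9 / 16 * c) (ε * (9 / 16 * c) / 2)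
        linarith⟩
  obtain ⟨X₁, h1⟩ := six_bad e he0
  obtain ⟨X₂, h2⟩ := stNF stEuler e he0
  refine ⟨max X₁ X₂, fun X hX => ?_⟩
  have hB := h1 X ((le_max_left _ _).trans hX)
  have hF := h2 X ((le_max_right _ _).trans hX)
  have eF : 9 / (8 * Real.pi ^ 2) = 9 / 8 * c := by rw [hc]; field_simp
  rw [eF] at hF
  rw [← hc] at hB
  set S : Set ℕ := {Δ : ℕ | Δ ≤ X ∧ IsFund Δ ∧ Δ % 3 = 2} with hS
  have hSf : S.Finite := (Set.finite_Iic X).subset fun Δ h => h.1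
  have hsplit := Set.ncard_inter_add_ncard_sdiff_eq_ncard S {Δ : ℕ | RigidAll Δ ∧ NoThree Δ} hSf
  have eG : S ∩ {Δ : ℕ | RigidAll Δ ∧ NoThree Δ} =
      {Δ : ℕ | Δ ≤ X ∧ IsFund Δ ∧ Δ % 3 = 2 ∧ RigidAll Δ ∧ NoThree Δ} := by
    ext Δ
    simp only [hS, Set.mem_inter_iff, Set.mem_ofPred_eq]
    tauto
  have eD : S \ {Δ : ℕ | RigidAll Δ ∧ NoThree Δ} =
      {Δ : ℕ | Δ ≤ X ∧ IsFund Δ ∧ Δ % 3 = 2 ∧ ¬ (RigidAll Δ ∧ NoThree Δ)} := by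
    ext Δ
    simp only [hS, Set.mem_sdiff, Set.mem_ofPred_eq]
    tauto
  rw [eG, eD] at hsplit
  have hsplit' : ({Δ : ℕ | Δ ≤ X ∧ IsFund Δ ∧ Δ % 3 = 2 ∧ RigidAll Δ ∧ NoThree Δ}.ncard : ℝ) +
      ({Δ : ℕ | Δ ≤ X ∧ IsFund Δ ∧ Δ % 3 = 2 ∧ ¬ (RigidAll Δ ∧ NoThree Δ)}.ncard : ℝ) =
      (S.ncard : ℝ) := by
    exact_mod_cast hsplit
  have hX0 : (0 : ℝ) ≤ X := Nat.cast_nonneg X
  have k1 : 9 / 16 * c * X ≤ S.ncard := by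
    refine le_trans ?_ hF
    apply mul_le_mul_of_nonneg_right _ hX0
    linarith
  have k2 : 2 * (e * X) ≤ ε * S.ncard := by
    calc 2 * (e * X) = 2 * e * X := by ring
      _ ≤ ε * (9 / 16 * c) * X := mul_le_mul_of_nonneg_right he2 hX0
      _ = ε * (9 / 16 * c * X) := by ring
      _ ≤ ε * S.ncard := mul_le_mul_of_nonneg_left k1 hε.le
  nlinarith

end BKDH
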