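import Pool.Agent.Lib.MP_7c08ba_nt.DH.Final
import Pool.Agent.Lib.MP_7c5fb9_nt.DH.GenCount
import Pool.Agent.Lib.MP_7c5fb9_nt.DH.GenNF
import Pool.Agent.Lib.MP_7c5fb9_nt.DH.TwoSet

/-!
At least half of the imaginary quadratic fields in which `3` splits, with a given completion at `2`
(or with odd discriminant), are rigid at `3`.
-/

set_option autoImplicit false

namespace BKDH

/-- The classes of `Δ`: odd discriminants, and the eight completions at `2`. -/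
def TwoCls (M r : ℕ) : Prop :=
  (M = 4 ∧ r = 3) ∨ (M = 8 ∧ (r = 3 ∨ r = 7)) ∨ (M = 32 ∧ (r = 4 ∨ r = 20)) ∨
    (M = 64 ∧ (r = 8 ∨ r = 24 ∨ r = 40 ∨ r = 56))

namespace Two

theorem card_odd : ((Finset.univ : Finset (Fin 4 → ZMod 2)).filter fun w => HB w ≠ 0).card = 6 := by
  decide +kernel

theorem card_seven : ((Finset.univ : Finset (Fin 4 → ZMod 2)).filter
    fun w => HB w ≠ 0 ∧ HA w * HC w = 0).card = 3 := by
  decide +kernel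

theorem HD_split (v : Fin 4 → ℤ) : HD v = 4 * (HA v * HC v) - HB v ^ 2 := by
  unfold HD
  ring

theorem odd_sq (B : ℤ) (h : B % 2 = 1) : B ^ 2 % 8 = 1 := by
  obtain ⟨m, hm⟩ : ∃ m, B = 2 * m + 1 := ⟨B / 2, by omega⟩
  obtain ⟨n, hn⟩ := Int.even_mul_succ_self m
  have e : B ^ 2 = 8 * n + 1 := by
    rw [hm]
    linear_combination 4 * hn
  rw [e]
  omega

theorem even_sq (B : ℤ) (h : B % 2 = 0) : B ^ 2 % 4 = 0 := by
  obtain ⟨m, hm⟩ : ∃ m, B = 2 * m := ⟨B / 2, by omega⟩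
  have e : B ^ 2 = 4 * m ^ 2 := by rw [hm]; ring
  rw [e]
  omega

theorem ne_zero_two (x : ℤ) (h : x % 2 = 1) : ((x : ℤ) : ZMod 2) ≠ 0 := by
  intro h0
  rw [ZMod.intCast_zmod_eq_zero_iff_dvd] at h0
  omega

theorem mem3 (v : Fin 4 → ℤ) (hv : HD v % ((4 : ℕ) : ℤ) = ((3 : ℕ) : ℤ)) :
    red 2 v ∈ (Finset.univ : Finset (Fin 4 → ZMod 2)).filter fun w => HB w ≠ 0 := by
  rw [Finset.mem_filter]
  refine ⟨Finset.mem_univ _, ?_⟩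
  rw [HB_red]
  apply ne_zero_two
  push_cast at hv
  rw [HD_split] at hv
  rcases Int.emod_two_eq_zero_or_one (HB v) with h | h
  · have := even_sq _ h
    omega
  · exact h

theorem mem7 (v : Fin 4 → ℤ) (hv : HD v % ((8 : ℕ) : ℤ) = ((7 : ℕ) : ℤ)) :
    red 2 v ∈ (Finset.univ : Finset (Fin 4 → ZMod 2)).filter
      fun w => HB w ≠ 0 ∧ HA w * HC w = 0 := by
  rw [Finset.mem_filter]
  refine ⟨Finset.mem_univ _, ?_⟩
  rw [HB_red, HA_red, HC_red, ← Int.cast_mul]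
  push_cast at hv
  rw [HD_split] at hv
  rcases Int.emod_two_eq_zero_or_one (HB v) with h | h
  · have := even_sq _ h
    omega
  · refine ⟨ne_zero_two _ h, ?_⟩
    have := odd_sq _ h
    rw [ZMod.intCast_zmod_eq_zero_iff_dvd]
    generalize HA v * HC v = P at *
    push_cast
    omega

end Two

/-- The local condition at `2`. -/
theorem twoSet' (M r : ℕ) (h : TwoCls M r) :
    ∃ k : ℕ, (k = 2 ∨ k = 8 ∨ k = 16) ∧ ∃ T : Finset (Fin 4 → ZMod k),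
      2 * M * T.card ≤ 3 * k ^ 4 ∧ ∀ v : Fin 4 → ℤ, HD v % M = r → red k v ∈ T := by
  rcases h with ⟨rfl, rfl⟩ | ⟨rfl, rfl | rfl⟩ | h | h
  · exact ⟨2, by norm_num, _, by rw [Two.card_odd]; norm_num, Two.mem3⟩
  · exact twoSet 8 3 (by norm_num)
  · exact ⟨2, by norm_num, _, by rw [Two.card_seven]; norm_num, Two.mem7⟩
  · exact twoSet M r (by tauto)
  · exact twoSet M r (by tauto)

namespace Two

theorem prime_dvd {p k : ℕ} (hp : p.Prime) (h5 : 5 ≤ p) (hk : k ∣ 2 ^ 6 * 3 ^ 3) : ¬ p ∣ k := by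
  intro hd
  have h1 := hd.trans hk
  rcases (Nat.Prime.dvd_mul hp).1 h1 with h3 | h3
  · have := Nat.le_of_dvd (by norm_num) (hp.dvd_of_dvd_pow h3)
    omega
  · have := Nat.le_of_dvd (by norm_num) (hp.dvd_of_dvd_pow h3)
    omega

theorem cls_M {M r : ℕ} (h : TwoCls M r) : M = 4 ∨ M = 8 ∨ M = 32 ∨ M = 64 := by
  rcases h with ⟨rfl, -⟩ | ⟨rfl, -⟩ | ⟨rfl, -⟩ | ⟨rfl, -⟩ <;> simp

theorem isFund_iff {M r : ℕ} (h : TwoCls M r) (Δ : ℕ) :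
    (IsFund Δ ∧ Δ % 3 = 2 ∧ Δ % M = r) ↔
      ((Δ % 3 = 2 ∧ Δ % M = r) ∧ ∀ p : ℕ, p.Prime → 5 ≤ p → ¬ p ^ 2 ∣ Δ) := by
  constructor
  · rintro ⟨⟨-, h1⟩, h2⟩
    exact ⟨h2, fun p hp h5 => h1 p hp (by omega)⟩
  · rintro ⟨⟨h1, h2⟩, h3⟩
    refine ⟨⟨?_, ?_⟩, h1, h2⟩
    · unfold F2
      rcases h with ⟨rfl, rfl⟩ | ⟨rfl, h⟩ | ⟨rfl, h⟩ | ⟨rfl, h⟩ <;> omega
    · intro p hp hp2 hd
      by_cases h5 : 5 ≤ p
      · exact h3 p hp h5 hd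
      · have hp3 : p = 3 := by
          have := hp.two_le
          have h4 : p ≠ 4 := by rintro rfl; exact absurd hp (by norm_num)
          omega
        subst hp3
        have : 3 ∣ Δ := dvd_trans (by norm_num) hd
        omega

open Classical in
theorem count_cls {M r : ℕ} (h : TwoCls M r) :
    1 ≤ ((Finset.range (3 * M)).filter fun x => x % 3 = 2 ∧ x % M = r).card := by
  rw [Nat.one_le_iff_ne_zero, Finset.card_ne_zero]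
  rcases h with ⟨rfl, rfl⟩ | ⟨rfl, h⟩ | ⟨rfl, h⟩ | ⟨rfl, h⟩
  · exact ⟨11, by simp⟩
  · rcases h with rfl | rfl
    · exact ⟨11, by simp⟩
    · exact ⟨23, by simp⟩
  · rcases h with rfl | rfl
    · exact ⟨68, by simp⟩
    · exact ⟨20, by simp⟩
  · rcases h with rfl | rfl | rfl | rfl
    · exact ⟨8, by simp⟩
    · exact ⟨152, by simp⟩
    · exact ⟨104, by simp⟩
    · exact ⟨56, by simp⟩

theorem nine {M r : ℕ} (h : TwoCls M r) {Δ : ℕ} (hΔ : Δ % M = r) : (9 * Δ) % M = r := by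
  rcases h with ⟨rfl, rfl⟩ | ⟨rfl, h⟩ | ⟨rfl, h⟩ | ⟨rfl, h⟩ <;> omega

end Two

open Two in
/-- The number of fields. -/
theorem two_total {M r : ℕ} (h : TwoCls M r) (ε : ℝ) (hε : 0 < ε) :
    ∃ X₀ : ℕ, ∀ X : ℕ, X₀ ≤ X → (3 / (M * Real.pi ^ 2) - ε) * X ≤
      ({Δ : ℕ | Δ ≤ X ∧ IsFund Δ ∧ Δ % 3 = 2 ∧ Δ % M = r}.ncard : ℝ) := by
  classical
  have hM := cls_M h
  have hM0 : 0 < M := by omega
  obtain ⟨X₀, hX₀⟩ := genNF stEuler (A := fun x => x % 3 = 2 ∧ x % M = r) (m := 3 * M)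
    (by omega) (by
      intro p hp h5
      apply prime_dvd hp h5
      rcases hM with rfl | rfl | rfl | rfl <;> norm_num)
    (by
      intro x
      have e1 : (x + 3 * M) % 3 = x % 3 := by omega
      have e2 : (x + 3 * M) % M = x % M := by
        rw [Nat.add_mul_mod_self_right]
      simp only [e1, e2]) (by simp) 1 (by
        refine (count_cls h).trans (le_of_eq ?_)
        congr 1
        ext x
        simp only [Finset.mem_filter]) ε hε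
  refine ⟨X₀, fun X hX => ?_⟩
  have h1 := hX₀ X hX
  have e1 : {Δ : ℕ | Δ ≤ X ∧ (Δ % 3 = 2 ∧ Δ % M = r) ∧
      ∀ p : ℕ, p.Prime → 5 ≤ p → ¬ p ^ 2 ∣ Δ} =
      {Δ : ℕ | Δ ≤ X ∧ IsFund Δ ∧ Δ % 3 = 2 ∧ Δ % M = r} := by
    ext Δ
    simp only [Set.mem_ofPred_eq]
    rw [isFund_iff h Δ]
  rw [e1] at h1
  refine le_trans (le_of_eq ?_) h1
  have hMr : (M : ℝ) ≠ 0 := by exact_mod_cast hM0.ne'
  push_cast
  field_simp
  ring

open Two in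
/-- Forms of one type: `n` is the modulus at `3`, `b` the number of classes modulo `n`, and the
discriminant is `e Δ`. -/
theorem two_forms {M r : ℕ} (h : TwoCls M r) (T : (Fin 4 → ℤ) → Prop) (n b e : ℕ)
    (hn : n = 9 ∨ n = 27) (he : e = 1 ∨ e = 9) (S : Finset (Fin 4 → ZMod n)) (hS : S.card ≤ b)
    (hT : ∀ v, T v → red n v ∈ S) (ε : ℝ) (hε : 0 < ε) :
    ∃ X₀ : ℕ, ∀ X : ℕ, X₀ ≤ X →
      {v : Fin 4 → ℤ | Red v ∧ (T v ∧ HD v % M = r) ∧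
        ∃ Δ : ℕ, Δ ≤ X ∧ IsFund Δ ∧ HD v = e * Δ}.Finite ∧
      ({v : Fin 4 → ℤ | Red v ∧ (T v ∧ HD v % M = r) ∧
        ∃ Δ : ℕ, Δ ≤ X ∧ IsFund Δ ∧ HD v = e * Δ}.ncard : ℝ) ≤
        (81 / (4 * M * Real.pi ^ 2) * ((b : ℝ) / (n : ℝ) ^ 4) * e + ε) * X := by
  have hM := cls_M h
  have hM0 : 0 < M := by omega
  obtain ⟨k, hk, T2, hT2, hT2'⟩ := twoSet' M r h
  have hk0 : 0 < k := by omega
  have hn0 : 0 < n := by omega
  have he0 : 0 < e := by omega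
  obtain ⟨U, hU, hU'⟩ := stCRT k n hk0 hn0 (by
    rcases hk with rfl | rfl | rfl <;> rcases hn with rfl | rfl <;> decide) T2 S
  obtain ⟨X₀, hX₀⟩ := genCount up stCRT prod stEuler (k * n) U.card (Nat.mul_pos hk0 hn0) (by
      intro p hp h5
      apply prime_dvd hp h5
      rcases hk with rfl | rfl | rfl <;> rcases hn with rfl | rfl <;> norm_num) U le_rfl
      (ε / 9) (by positivity)
  refine ⟨X₀, fun X hX => ?_⟩
  obtain ⟨hfin, hle⟩ := hX₀ (e * X) (hX.trans (Nat.le_mul_of_pos_left X he0))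
  have hsub : {v : Fin 4 → ℤ | Red v ∧ (T v ∧ HD v % M = r) ∧
        ∃ Δ : ℕ, Δ ≤ X ∧ IsFund Δ ∧ HD v = e * Δ} ⊆
      {v : Fin 4 → ℤ | Red v ∧ HD v ≤ ((e * X : ℕ) : ℤ) ∧ red (k * n) v ∈ U ∧
        ∀ p : ℕ, p.Prime → 5 ≤ p → ¬ (p : ℤ) ^ 2 ∣ HD v} := by
    rintro v ⟨hr, ⟨hv, hMv⟩, Δ, hΔ, hF, hD⟩
    refine ⟨hr, ?_, hU' v (hT2' v hMv) (hT v hv), ?_⟩
    · rw [hD]
      push_cast
      have h1 : (Δ : ℤ) ≤ X := by exact_mod_cast hΔ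
      exact mul_le_mul_of_nonneg_left h1 (by positivity)
    · intro p hp hp5 hd
      rcases he with rfl | rfl
      · rw [hD, Nat.cast_one, one_mul] at hd
        exact hF.2 p hp (by omega) (by exact_mod_cast hd)
      · rw [hD] at hd
        exact NBx.not_sq_dvd hp hp5 hF (by exact_mod_cast hd)
  refine ⟨hfin.subset hsub, ?_⟩
  have h1 := Set.ncard_le_ncard hsub hfin
  have h2 : ({v : Fin 4 → ℤ | Red v ∧ (T v ∧ HD v % M = r) ∧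
        ∃ Δ : ℕ, Δ ≤ X ∧ IsFund Δ ∧ HD v = e * Δ}.ncard : ℝ) ≤
      (27 / (2 * Real.pi ^ 2) * (U.card : ℝ) / ((k * n : ℕ) : ℝ) ^ 4 + ε / 9) *
        ((e * X : ℕ) : ℝ) := le_trans (by exact_mod_cast h1) hle
  refine h2.trans ?_
  have hMr : (0 : ℝ) < M := by exact_mod_cast hM0
  have hkr : (0 : ℝ) < k := by exact_mod_cast hk0
  have hnr : (0 : ℝ) < n := by exact_mod_cast hn0
  have her : (0 : ℝ) < e := by exact_mod_cast he0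
  have he9 : (e : ℝ) ≤ 9 := by
    have : e ≤ 9 := by omega
    exact_mod_cast this
  have hpi := Real.pi_pos
  have e1 : (U.card : ℝ) ≤ 3 * (k : ℝ) ^ 4 / (2 * M) * b := by
    have h3 : 2 * M * U.card ≤ 3 * k ^ 4 * b := by
      calc 2 * M * U.card ≤ 2 * M * (T2.card * S.card) := Nat.mul_le_mul_left _ hU
        _ = 2 * M * T2.card * S.card := by ring
        _ ≤ 3 * k ^ 4 * b := Nat.mul_le_mul hT2 hS
    have h4 : (2 : ℝ) * M * U.card ≤ 3 * (k : ℝ) ^ 4 * b := by exact_mod_cast h3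
    rw [div_mul_eq_mul_div, le_div_iff₀ (by positivity)]
    linarith
  have e2 : 27 / (2 * Real.pi ^ 2) * (U.card : ℝ) / ((k * n : ℕ) : ℝ) ^ 4 ≤
      81 / (4 * M * Real.pi ^ 2) * ((b : ℝ) / (n : ℝ) ^ 4) := by
    have e3 : 27 / (2 * Real.pi ^ 2) * (U.card : ℝ) / ((k * n : ℕ) : ℝ) ^ 4 ≤
        27 / (2 * Real.pi ^ 2) * (3 * (k : ℝ) ^ 4 / (2 * M) * b) / ((k * n : ℕ) : ℝ) ^ 4 := by
      gcongr
    refine e3.trans (le_of_eq ?_)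
    push_cast
    field_simp
    ring
  have hX0 : (0 : ℝ) ≤ X := Nat.cast_nonneg X
  calc (27 / (2 * Real.pi ^ 2) * (U.card : ℝ) / ((k * n : ℕ) : ℝ) ^ 4 + ε / 9) *
        ((e * X : ℕ) : ℝ)
      ≤ (81 / (4 * M * Real.pi ^ 2) * ((b : ℝ) / (n : ℝ) ^ 4) + ε / 9) * ((e * X : ℕ) : ℝ) := by
        apply mul_le_mul_of_nonneg_right _ (Nat.cast_nonneg _)
        linarith
    _ = (81 / (4 * M * Real.pi ^ 2) * ((b : ℝ) / (n : ℝ) ^ 4) * e + ε / 9 * e) * X := by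
        push_cast
        ring
    _ ≤ _ := by
        apply mul_le_mul_of_nonneg_right _ hX0
        have : ε / 9 * e ≤ ε / 9 * 9 := mul_le_mul_of_nonneg_left he9 (by positivity)
        linarith

/-- The number of bad fields. -/
theorem two_bad {M r : ℕ} (h : TwoCls M r) (ε : ℝ) (hε : 0 < ε) :
    ∃ X₀ : ℕ, ∀ X : ℕ, X₀ ≤ X →
      ({Δ : ℕ | Δ ≤ X ∧ IsFund Δ ∧ Δ % 3 = 2 ∧ Δ % M = r ∧ ¬ RigidAll Δ}.ncard : ℝ) ≤
        (3 / (2 * M * Real.pi ^ 2) + ε) * X := by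
  obtain ⟨SA, hSA, hSA'⟩ := stDA
  obtain ⟨SB, hSB, hSB'⟩ := stDB
  obtain ⟨X₁, h1⟩ := two_forms h TypeA 9 648 1 (by simp) (by simp) SA hSA hSA' ε hε
  obtain ⟨X₂, h2⟩ := two_forms h TypeB 27 11664 9 (by simp) (by simp) SB hSB hSB' ε hε
  refine ⟨max X₁ X₂, fun X hX => ?_⟩
  obtain ⟨fA, hA⟩ := h1 X ((le_max_left _ _).trans hX)
  obtain ⟨fB, hB⟩ := h2 X ((le_max_right _ _).trans hX)
  have kA := four_count (fun v => TypeA v ∧ HD v % M = r)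
    (fun v hv => ⟨typeA_bneg hv.1, by rw [HD_bneg]; exact hv.2⟩)
    (fun v hv => ⟨typeA_balt hv.1, by rw [HD_balt]; exact hv.2⟩) 1 one_pos X fA
  have kB := four_count (fun v => TypeB v ∧ HD v % M = r)
    (fun v hv => ⟨typeB_bneg hv.1, by rw [HD_bneg]; exact hv.2⟩)
    (fun v hv => ⟨typeB_balt hv.1, by rw [HD_balt]; exact hv.2⟩) 9 (by norm_num) X fB
  have hsub : {Δ : ℕ | Δ ≤ X ∧ IsFund Δ ∧ Δ % 3 = 2 ∧ Δ % M = r ∧ ¬ RigidAll Δ} ⊆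
      {Δ : ℕ | Δ ≤ X ∧ IsFund Δ ∧ ∃ v : Fin 4 → ℤ, Red v ∧ v 3 ≠ 0 ∧
        (TypeA v ∧ HD v % M = r) ∧ HD v = (1 : ℕ) * Δ} ∪
      {Δ : ℕ | Δ ≤ X ∧ IsFund Δ ∧ ∃ v : Fin 4 → ℤ, Red v ∧ v 3 ≠ 0 ∧
        (TypeB v ∧ HD v % M = r) ∧ HD v = (9 : ℕ) * Δ} := by
    rintro Δ ⟨hX, hF, hm, hMr, hb⟩
    rcases form_of_bad vec upK stQF hF hm hb with ⟨v, h1, h2, h3, h4⟩ | ⟨v, h1, h2, h3, h4⟩
    · refine Or.inl ⟨hX, hF, v, h1, h2, ⟨h3, ?_⟩, ?_⟩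
      · rw [h4]; exact_mod_cast hMr
      · rw [h4]; simp
    · refine Or.inr ⟨hX, hF, v, h1, h2, ⟨h3, ?_⟩, ?_⟩
      · rw [h4]
        exact_mod_cast Two.nine h hMr
      · rw [h4]; simp
  have hfin : ({Δ : ℕ | Δ ≤ X ∧ IsFund Δ ∧ ∃ v : Fin 4 → ℤ, Red v ∧ v 3 ≠ 0 ∧
        (TypeA v ∧ HD v % M = r) ∧ HD v = (1 : ℕ) * Δ} ∪
      {Δ : ℕ | Δ ≤ X ∧ IsFund Δ ∧ ∃ v : Fin 4 → ℤ, Red v ∧ v 3 ≠ 0 ∧
        (TypeB v ∧ HD v % M = r) ∧ HD v = (9 : ℕ) * Δ}).Finite := by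
    refine (Set.finite_Iic X).subset ?_
    rintro Δ (h | h)
    · exact h.1
    · exact h.1
  have h5 := Set.ncard_le_ncard hsub hfin
  have h6 := Set.ncard_union_le
    {Δ : ℕ | Δ ≤ X ∧ IsFund Δ ∧ ∃ v : Fin 4 → ℤ, Red v ∧ v 3 ≠ 0 ∧
        (TypeA v ∧ HD v % M = r) ∧ HD v = (1 : ℕ) * Δ}
    {Δ : ℕ | Δ ≤ X ∧ IsFund Δ ∧ ∃ v : Fin 4 → ℤ, Red v ∧ v 3 ≠ 0 ∧
        (TypeB v ∧ HD v % M = r) ∧ HD v = (9 : ℕ) * Δ}
  have h7 := Nat.mul_le_mul_left 4 (h5.trans h6)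
  rw [Nat.mul_add] at h7
  have h8 := h7.trans (Nat.add_le_add kA kB)
  have h9 : (4 : ℝ) * ({Δ : ℕ | Δ ≤ X ∧ IsFund Δ ∧ Δ % 3 = 2 ∧ Δ % M = r ∧
      ¬ RigidAll Δ}.ncard : ℝ) ≤ (81 / (4 * M * Real.pi ^ 2) * (((648 : ℕ) : ℝ) /
        ((9 : ℕ) : ℝ) ^ 4) * (1 : ℕ) + ε) * X + (81 / (4 * M * Real.pi ^ 2) *
        (((11664 : ℕ) : ℝ) / ((27 : ℕ) : ℝ) ^ 4) * (9 : ℕ) + ε) * X :=
    le_trans (by exact_mod_cast h8) (add_le_add hA hB)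
  have hM0 : (0 : ℝ) < M := by
    have hM := Two.cls_M h
    have : 0 < M := by omega
    exact_mod_cast this
  have hpi := Real.pi_pos
  have hX0 : (0 : ℝ) ≤ X := Nat.cast_nonneg X
  have h10 : (81 / (4 * M * Real.pi ^ 2) * (((648 : ℕ) : ℝ) /
        ((9 : ℕ) : ℝ) ^ 4) * (1 : ℕ) + ε) * X + (81 / (4 * M * Real.pi ^ 2) *
        (((11664 : ℕ) : ℝ) / ((27 : ℕ) : ℝ) ^ 4) * (9 : ℕ) + ε) * X =
      4 * ((3 / (2 * M * Real.pi ^ 2) + ε / 2) * X) := by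
    push_cast
    field_simp
    ring
  rw [h10] at h9
  have h11 : (3 / (2 * M * Real.pi ^ 2) + ε / 2) * X ≤ (3 / (2 * M * Real.pi ^ 2) + ε) * X := by
    apply mul_le_mul_of_nonneg_right _ hX0
    linarith
  linarith

/-- At least half of the imaginary quadratic fields in which `3` splits, with a given completion at
`2` (or with odd discriminant), are rigid at `3`. -/
theorem twoHalf {M r : ℕ} (h : TwoCls M r) (ε : ℝ) (hε : 0 < ε) :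
    ∃ X₀ : ℕ, ∀ X : ℕ, X₀ ≤ X →
      (3 / (M * Real.pi ^ 2) - ε) * X ≤
        ({Δ : ℕ | Δ ≤ X ∧ IsFund Δ ∧ Δ % 3 = 2 ∧ Δ % M = r}.ncard : ℝ) ∧
      (1 / 2 - ε) * ({Δ : ℕ | Δ ≤ X ∧ IsFund Δ ∧ Δ % 3 = 2 ∧ Δ % M = r}.ncard : ℝ) ≤
        ({Δ : ℕ | Δ ≤ X ∧ IsFund Δ ∧ Δ % 3 = 2 ∧ Δ % M = r ∧ RigidAll Δ}.ncard : ℝ) := by
  have hM := Two.cls_M h
  have hM0 : 0 < M := by omega
  have hMr : (0 : ℝ) < M := by exact_mod_cast hM0
  have hpi := Real.pi_pos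
  set c : ℝ := 3 / (M * Real.pi ^ 2) with hc
  have hc0 : 0 < c := by positivity
  obtain ⟨e, he0, he1, he2, he3⟩ : ∃ e : ℝ, 0 < e ∧ e ≤ c / 2 ∧ 4 * e ≤ ε * c ∧ e ≤ ε :=
    ⟨min (c / 2) (min (ε * c / 4) ε), lt_min (by positivity) (lt_min (by positivity) hε),
      min_le_left _ _, by
        have := (min_le_right (c / 2) (min (ε * c / 4) ε)).trans (min_le_left _ _)
        linarith, (min_le_right _ _).trans (min_le_right _ _)⟩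
  obtain ⟨X₁, h1⟩ := two_total h e he0
  obtain ⟨X₂, h2⟩ := two_bad h e he0
  refine ⟨max X₁ X₂, fun X hX => ?_⟩
  have hT := h1 X ((le_max_left _ _).trans hX)
  have hB := h2 X ((le_max_right _ _).trans hX)
  have hX0 : (0 : ℝ) ≤ X := Nat.cast_nonneg X
  set S : Set ℕ := {Δ : ℕ | Δ ≤ X ∧ IsFund Δ ∧ Δ % 3 = 2 ∧ Δ % M = r} with hS
  have hSf : S.Finite := (Set.finite_Iic X).subset fun Δ h => h.1
  have hsplit := Set.ncard_inter_add_ncard_sdiff_eq_ncard S {Δ : ℕ | RigidAll Δ} hSf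
  have eG : S ∩ {Δ : ℕ | RigidAll Δ} =
      {Δ : ℕ | Δ ≤ X ∧ IsFund Δ ∧ Δ % 3 = 2 ∧ Δ % M = r ∧ RigidAll Δ} := by
    ext Δ
    simp only [hS, Set.mem_inter_iff, Set.mem_ofPred_eq]
    tauto
  have eD : S \ {Δ : ℕ | RigidAll Δ} =
      {Δ : ℕ | Δ ≤ X ∧ IsFund Δ ∧ Δ % 3 = 2 ∧ Δ % M = r ∧ ¬ RigidAll Δ} := by
    ext Δ
    simp only [hS, Set.mem_sdiff, Set.mem_ofPred_eq]
    tauto
  rw [eG, eD] at hsplit
  have hsplit' : ({Δ : ℕ | Δ ≤ X ∧ IsFund Δ ∧ Δ % 3 = 2 ∧ Δ % M = r ∧ RigidAll Δ}.ncard : ℝ) +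
      ({Δ : ℕ | Δ ≤ X ∧ IsFund Δ ∧ Δ % 3 = 2 ∧ Δ % M = r ∧ ¬ RigidAll Δ}.ncard : ℝ) =
      (S.ncard : ℝ) := by exact_mod_cast hsplit
  have eB : 3 / (2 * M * Real.pi ^ 2) = c / 2 := by
    rw [hc]
    field_simp
  rw [eB] at hB
  rw [← hc] at hT
  refine ⟨?_, ?_⟩
  · refine le_trans ?_ hT
    apply mul_le_mul_of_nonneg_right _ hX0
    linarith
  · have k1 : c / 2 * X ≤ S.ncard := by
      refine le_trans ?_ hT
      apply mul_le_mul_of_nonneg_right _ hX0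
      linarith
    have k2 : 2 * e * X ≤ ε * S.ncard := by
      calc 2 * e * X ≤ (ε * (c / 2)) * X := mul_le_mul_of_nonneg_right (by linarith) hX0
        _ = ε * (c / 2 * X) := by ring
        _ ≤ ε * S.ncard := mul_le_mul_of_nonneg_left k1 hε.le
    nlinarith

end BKDH
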